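import Pool.Agent.Helper97.RP4.H1

/-!
H3.  The logarithmic kernel on the Fourier side: `energyF f = energy f`.
-/

open Real Set Filter Topology MeasureTheory

namespace RP4

/-- heat kernel of the plane -/
noncomputable def heat (t : ℝ) (z : ℝ × ℝ) : ℝ :=
  1 / (4 * π * t) * exp (-(z.1 ^ 2 + z.2 ^ 2) / (4 * t))

lemma H3a_int1 (t : ℝ) (ht : 0 < t) (a : ℝ) :
    Integrable (fun x : ℝ => Complex.exp (Complex.I * a * x) * Complex.exp (-(t : ℂ) * x ^ 2)) := by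
  have h := integrable_cexp_quadratic (b := (t : ℂ)) (by simpa using ht) (Complex.I * a) 0
  refine h.congr (Eventually.of_forall fun x => ?_)
  simp only []
  rw [← Complex.exp_add]
  congr 1
  ring

/-
`∫ cos (ξ·z) e^{-t|ξ|²} dξ = (π/t) e^{-|z|²/(4t)}`: product of two one dimensional Gaussian integrals
(`fourierIntegral_gaussian` / `integral_cexp_neg_mul_sq_add_const`, real part); the `sin sin` part is odd.
-/
lemma gauss_cos (t : ℝ) (ht : 0 < t) (z : ℝ × ℝ) :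
    ∫ ξ : ℝ × ℝ, cos (ξ.1 * z.1 + ξ.2 * z.2) * exp (-(t * (ξ.1 ^ 2 + ξ.2 ^ 2))) =
      (2 * π) ^ 2 * heat t z := by
  set F : ℝ × ℝ → ℂ := fun ξ =>
    (Complex.exp (Complex.I * z.1 * ξ.1) * Complex.exp (-(t : ℂ) * ξ.1 ^ 2)) *
      (Complex.exp (Complex.I * z.2 * ξ.2) * Complex.exp (-(t : ℂ) * ξ.2 ^ 2)) with hF
  have hFi : Integrable F := by
    have := (H3a_int1 t ht z.1).mul_prod (H3a_int1 t ht z.2)
    rwa [← Measure.volume_eq_prod] at this
  have h1 : ∀ ξ : ℝ × ℝ, cos (ξ.1 * z.1 + ξ.2 * z.2) * exp (-(t * (ξ.1 ^ 2 + ξ.2 ^ 2))) =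
      (F ξ).re := by
    intro ξ
    have h2 : F ξ = Complex.exp (((-(t * (ξ.1 ^ 2 + ξ.2 ^ 2)) : ℝ) : ℂ) +
        ((ξ.1 * z.1 + ξ.2 * z.2 : ℝ) : ℂ) * Complex.I) := by
      simp only [hF]
      rw [← Complex.exp_add, ← Complex.exp_add, ← Complex.exp_add]
      congr 1
      push_cast
      ring
    rw [h2, Complex.exp_re]
    have h3 : ((((-(t * (ξ.1 ^ 2 + ξ.2 ^ 2)) : ℝ) : ℂ) +
        ((ξ.1 * z.1 + ξ.2 * z.2 : ℝ) : ℂ) * Complex.I)).re = -(t * (ξ.1 ^ 2 + ξ.2 ^ 2)) := by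
      rw [Complex.add_re, Complex.ofReal_re, Complex.re_ofReal_mul, Complex.I_re, mul_zero,
        add_zero]
    have h4 : ((((-(t * (ξ.1 ^ 2 + ξ.2 ^ 2)) : ℝ) : ℂ) +
        ((ξ.1 * z.1 + ξ.2 * z.2 : ℝ) : ℂ) * Complex.I)).im = ξ.1 * z.1 + ξ.2 * z.2 := by
      rw [Complex.add_im, Complex.ofReal_im, Complex.im_ofReal_mul, Complex.I_im, mul_one,
        zero_add]
    rw [h3, h4]
    ring
  have h5 : ∫ ξ, F ξ = (((2 * π) ^ 2 * heat t z : ℝ) : ℂ) := by
    have h6 := integral_prod_mul (μ := (volume : Measure ℝ)) (ν := (volume : Measure ℝ))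
      (fun x : ℝ => Complex.exp (Complex.I * z.1 * x) * Complex.exp (-(t : ℂ) * x ^ 2))
      (fun x : ℝ => Complex.exp (Complex.I * z.2 * x) * Complex.exp (-(t : ℂ) * x ^ 2))
    rw [← Measure.volume_eq_prod] at h6
    have h7 : ∫ ξ, F ξ = _ := h6
    have ht' : 0 < ((t : ℂ)).re := by simpa using ht
    rw [h7, fourierIntegral_gaussian ht', fourierIntegral_gaussian ht']
    have hne : (π / t : ℂ) ≠ 0 := by
      have := ht.ne'
      have := pi_ne_zero
      simp [*]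
    have h8 : ((π : ℂ) / t) ^ (1 / 2 : ℂ) * ((π : ℂ) / t) ^ (1 / 2 : ℂ) = π / t := by
      rw [← Complex.cpow_add _ _ hne]
      norm_num
    have h9 : ((2 * π) ^ 2 * heat t z : ℝ) = π / t * exp (-(z.1 ^ 2 + z.2 ^ 2) / (4 * t)) := by
      unfold heat
      have := ht.ne'
      have := pi_ne_zero
      field_simp
      try ring
    calc _ = (((π : ℂ) / t) ^ (1 / 2 : ℂ) * ((π : ℂ) / t) ^ (1 / 2 : ℂ)) *
          (Complex.exp (-(z.1 : ℂ) ^ 2 / (4 * t)) * Complex.exp (-(z.2 : ℂ) ^ 2 / (4 * t))) := by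
          ring
      _ = _ := by
          rw [h8, h9, ← Complex.exp_add]
          push_cast
          congr 2
          ring
  calc ∫ ξ : ℝ × ℝ, cos (ξ.1 * z.1 + ξ.2 * z.2) * exp (-(t * (ξ.1 ^ 2 + ξ.2 ^ 2)))
      = ∫ ξ, (F ξ).re := integral_congr_ae (Eventually.of_forall h1)
    _ = (∫ ξ, F ξ).re := by
        have := Complex.reCLM.integral_comp_comm hFi
        simpa using this
    _ = _ := by rw [h5, Complex.ofReal_re]

lemma H3a_exp (t : ℝ) (ht : 0 < t) :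
    Integrable (fun ξ : ℝ × ℝ => exp (-(t * (ξ.1 ^ 2 + ξ.2 ^ 2)))) := by
  have h := (integrable_exp_neg_mul_sq ht).mul_prod (integrable_exp_neg_mul_sq ht)
  rw [← Measure.volume_eq_prod] at h
  refine h.congr (Eventually.of_forall fun ξ => ?_)
  simp only []
  rw [← exp_add]
  congr 1
  ring

lemma H3a_sq {f : ℝ × ℝ → ℝ} (hf : Continuous f) (hc : HasCompactSupport f) (ξ : ℝ × ℝ) :
    ftc f ξ ^ 2 + fts f ξ ^ 2 = ∫ p : (ℝ × ℝ) × (ℝ × ℝ), f p.1 * f p.2 *
      cos (ξ.1 * (p.1 - p.2).1 + ξ.2 * (p.1 - p.2).2) := by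
  have hi : ∀ g : ℝ → ℝ, Continuous g →
      Integrable (fun y : ℝ × ℝ => f y * g (ξ.1 * y.1 + ξ.2 * y.2)) := by
    intro g hg
    refine Continuous.integrable_of_hasCompactSupport (by fun_prop) ?_
    exact hc.mul_right
  have h1 : ∀ g : ℝ → ℝ, Continuous g → (∫ y, f y * g (ξ.1 * y.1 + ξ.2 * y.2)) ^ 2 =
      ∫ p : (ℝ × ℝ) × (ℝ × ℝ), (f p.1 * g (ξ.1 * p.1.1 + ξ.2 * p.1.2)) *
        (f p.2 * g (ξ.1 * p.2.1 + ξ.2 * p.2.2)) := by
    intro g hg
    have := integral_prod_mul (μ := (volume : Measure (ℝ × ℝ))) (ν := (volume : Measure (ℝ × ℝ)))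
      (fun y : ℝ × ℝ => f y * g (ξ.1 * y.1 + ξ.2 * y.2))
      (fun y : ℝ × ℝ => f y * g (ξ.1 * y.1 + ξ.2 * y.2))
    rw [← Measure.volume_eq_prod] at this
    rw [this, sq]
  have h2 : ∀ g : ℝ → ℝ, Continuous g → Integrable
      (fun p : (ℝ × ℝ) × (ℝ × ℝ) => (f p.1 * g (ξ.1 * p.1.1 + ξ.2 * p.1.2)) *
        (f p.2 * g (ξ.1 * p.2.1 + ξ.2 * p.2.2))) := by
    intro g hg
    have := (hi g hg).mul_prod (hi g hg)
    rwa [← Measure.volume_eq_prod] at this
  unfold ftc fts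
  rw [h1 cos continuous_cos, h1 sin continuous_sin,
    ← integral_add (h2 cos continuous_cos) (h2 sin continuous_sin)]
  refine integral_congr_ae (Eventually.of_forall fun p => ?_)
  simp only [Prod.fst_sub, Prod.snd_sub]
  have h3 : ξ.1 * (p.1.1 - p.2.1) + ξ.2 * (p.1.2 - p.2.2) =
      (ξ.1 * p.1.1 + ξ.2 * p.1.2) - (ξ.1 * p.2.1 + ξ.2 * p.2.2) := by ring
  rw [h3, cos_sub]
  ring

/-
`ftc² + fts² = ∫∫ f x f y cos (ξ·(x - y))`, Fubini (everything is dominated by `|f x| |f y| e^{-t|ξ|²}`), `gauss_cos`.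
-/
theorem heat_fourier {f : ℝ × ℝ → ℝ} (hf : Continuous f) (hc : HasCompactSupport f) (t : ℝ)
    (ht : 0 < t) :
    (1 / (2 * π) ^ 2) * ∫ ξ : ℝ × ℝ, (ftc f ξ ^ 2 + fts f ξ ^ 2) *
        exp (-(t * (ξ.1 ^ 2 + ξ.2 ^ 2))) =
      ∫ x : ℝ × ℝ, ∫ y : ℝ × ℝ, f x * f y * heat t (x - y) := by
  set G : (ℝ × ℝ) × ((ℝ × ℝ) × (ℝ × ℝ)) → ℝ := fun q => f q.2.1 * f q.2.2 *
      cos (q.1.1 * (q.2.1 - q.2.2).1 + q.1.2 * (q.2.1 - q.2.2).2) *
      exp (-(t * (q.1.1 ^ 2 + q.1.2 ^ 2))) with hG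
  have hfi : Integrable f := hf.integrable_of_hasCompactSupport hc
  have hff : Integrable (fun p : (ℝ × ℝ) × (ℝ × ℝ) => f p.1 * f p.2) := by
    have := hfi.mul_prod hfi
    rwa [← Measure.volume_eq_prod] at this
  have hGi : Integrable G (volume.prod volume) := by
    have h1 := (H3a_exp t ht).mul_prod hff
    refine h1.mono ?_ (Eventually.of_forall fun q => ?_)
    · have : Continuous G := by
        simp only [hG]
        fun_prop
      exact this.aestronglyMeasurable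
    · simp only [hG]
      rw [norm_mul, norm_mul, norm_mul (exp (-(t * (q.1.1 ^ 2 + q.1.2 ^ 2))))]
      have h2 : ‖cos (q.1.1 * (q.2.1 - q.2.2).1 + q.1.2 * (q.2.1 - q.2.2).2)‖ ≤ 1 := by
        rw [norm_eq_abs]
        exact abs_cos_le_one _
      have h3 : 0 ≤ ‖f q.2.1 * f q.2.2‖ := norm_nonneg _
      have h4 : 0 ≤ ‖exp (-(t * (q.1.1 ^ 2 + q.1.2 ^ 2)))‖ := norm_nonneg _
      calc ‖f q.2.1 * f q.2.2‖ *
            ‖cos (q.1.1 * (q.2.1 - q.2.2).1 + q.1.2 * (q.2.1 - q.2.2).2)‖ *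
            ‖exp (-(t * (q.1.1 ^ 2 + q.1.2 ^ 2)))‖
          ≤ ‖f q.2.1 * f q.2.2‖ * 1 * ‖exp (-(t * (q.1.1 ^ 2 + q.1.2 ^ 2)))‖ := by gcongr
        _ = _ := by ring
  have e1 : ∫ ξ : ℝ × ℝ, (ftc f ξ ^ 2 + fts f ξ ^ 2) * exp (-(t * (ξ.1 ^ 2 + ξ.2 ^ 2))) =
      ∫ ξ : ℝ × ℝ, ∫ p : (ℝ × ℝ) × (ℝ × ℝ), G (ξ, p) := by
    refine integral_congr_ae (Eventually.of_forall fun ξ => ?_)
    simp only []
    rw [H3a_sq hf hc ξ, ← integral_mul_const]
  have e2 : ∫ ξ : ℝ × ℝ, ∫ p : (ℝ × ℝ) × (ℝ × ℝ), G (ξ, p) =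
      ∫ p : (ℝ × ℝ) × (ℝ × ℝ), ∫ ξ : ℝ × ℝ, G (ξ, p) :=
    integral_integral_swap (f := fun ξ p => G (ξ, p)) hGi
  have e3 : ∀ p : (ℝ × ℝ) × (ℝ × ℝ), ∫ ξ : ℝ × ℝ, G (ξ, p) =
      (2 * π) ^ 2 * (f p.1 * f p.2 * heat t (p.1 - p.2)) := by
    intro p
    have h1 : (fun ξ : ℝ × ℝ => G (ξ, p)) = fun ξ => (f p.1 * f p.2) *
        (cos (ξ.1 * (p.1 - p.2).1 + ξ.2 * (p.1 - p.2).2) *
          exp (-(t * (ξ.1 ^ 2 + ξ.2 ^ 2)))) := by
      funext ξ
      simp only [hG]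
      ring
    rw [h1, integral_const_mul, gauss_cos t ht (p.1 - p.2)]
    ring
  have hpi : (2 * π) ^ 2 ≠ 0 := by positivity
  have hHi : Integrable (fun p : (ℝ × ℝ) × (ℝ × ℝ) => f p.1 * f p.2 * heat t (p.1 - p.2))
      (volume.prod volume) := by
    have h1 : Integrable (fun p => ∫ ξ : ℝ × ℝ, G (ξ, p))
      (volume : Measure ((ℝ × ℝ) × (ℝ × ℝ))) := hGi.integral_prod_right
    simp only [e3] at h1
    have h2 := h1.const_mul ((2 * π) ^ 2)⁻¹
    rw [Measure.volume_eq_prod] at h2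
    refine h2.congr (Eventually.of_forall fun p => ?_)
    simp only []
    rw [← mul_assoc, inv_mul_cancel₀ hpi, one_mul]
  have e4 := integral_prod (fun p : (ℝ × ℝ) × (ℝ × ℝ) => f p.1 * f p.2 * heat t (p.1 - p.2)) hHi
  rw [e1, e2]
  simp only [e3]
  rw [integral_const_mul, ← mul_assoc, one_div, inv_mul_cancel₀ hpi, one_mul,
    Measure.volume_eq_prod]
  exact e4

/-
From a family `m` as in `Fam m f` : let `δ → 0` in `small` and in `decay` at `k = δ ξ` (for `δ` small `δ ξ ∈ box`), using `conv`.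
-/
theorem fam_bounds {m : ℝ → V → ℝ} {f : ℝ × ℝ → ℝ} (F : Fam m f) :
    ∃ C : ℝ, 0 < C ∧ ∀ ξ : ℝ × ℝ, ftc f ξ ^ 2 + fts f ξ ^ 2 ≤ C * (ξ.1 ^ 2 + ξ.2 ^ 2) ∧
      (ξ.1 ^ 2 + ξ.2 ^ 2) * (ftc f ξ ^ 2 + fts f ξ ^ 2) ≤ C := by
  obtain ⟨C1, h1, hs⟩ := F.small
  obtain ⟨C2, h2, hd⟩ := F.decay
  refine ⟨C1 + C2, by positivity, fun ξ => ?_⟩
  have hA : ξ.1 ^ 2 + ξ.2 ^ 2 ≤ (Real.sqrt (ξ.1 ^ 2 + ξ.2 ^ 2)) ^ 2 :=
    (Real.sq_sqrt (by positivity)).ge
  have hc : Tendsto (fun δ => fcos (m δ) (δ * ξ.1, δ * ξ.2)) (𝓝[>] (0 : ℝ)) (𝓝 (ftc f ξ)) := by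
    refine Metric.tendsto_nhds.2 fun ε hε => ?_
    obtain ⟨d, hd0, hd1⟩ := F.conv (Real.sqrt (ξ.1 ^ 2 + ξ.2 ^ 2)) (ε / 2) (half_pos hε)
    filter_upwards [Ioo_mem_nhdsGT hd0] with δ hδ
    rw [Real.dist_eq]
    exact (hd1 δ hδ.1 hδ.2 ξ hA).1.trans_lt (half_lt_self hε)
  have hsn : Tendsto (fun δ => fsin (m δ) (δ * ξ.1, δ * ξ.2)) (𝓝[>] (0 : ℝ)) (𝓝 (fts f ξ)) := by
    refine Metric.tendsto_nhds.2 fun ε hε => ?_
    obtain ⟨d, hd0, hd1⟩ := F.conv (Real.sqrt (ξ.1 ^ 2 + ξ.2 ^ 2)) (ε / 2) (half_pos hε)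
    filter_upwards [Ioo_mem_nhdsGT hd0] with δ hδ
    rw [Real.dist_eq]
    exact (hd1 δ hδ.1 hδ.2 ξ hA).2.trans_lt (half_lt_self hε)
  have hlim := (hc.pow 2).add (hsn.pow 2)
  constructor
  · refine le_trans (le_of_tendsto hlim (b := C1 * (ξ.1 ^ 2 + ξ.2 ^ 2)) ?_)
      (mul_le_mul_of_nonneg_right (by linarith) (by positivity))
    filter_upwards [Ioc_mem_nhdsGT (one_pos (α := ℝ))] with δ hδ
    refine (hs δ hδ.1 hδ.2 _).trans (le_of_eq ?_)
    have : δ ≠ 0 := hδ.1.ne'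
    simp only
    field_simp
  · refine le_trans (le_of_tendsto (hlim.const_mul (ξ.1 ^ 2 + ξ.2 ^ 2)) (b := C2) ?_)
      (by linarith)
    have hr : 0 < π / (|ξ.1| + |ξ.2| + 1) := by positivity
    filter_upwards [Ioc_mem_nhdsGT (one_pos (α := ℝ)), Ioo_mem_nhdsGT hr] with δ hδ hδ2
    have hpos : 0 < |ξ.1| + |ξ.2| + 1 := by positivity
    have h3 : δ * (|ξ.1| + |ξ.2| + 1) < π := (lt_div_iff₀ hpos).1 hδ2.2
    have hbox : ((δ * ξ.1, δ * ξ.2) : ℝ × ℝ) ∈ box := by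
      have e1 : |δ * ξ.1| ≤ π := by
        rw [abs_mul, abs_of_pos hδ.1]
        nlinarith [abs_nonneg ξ.1, abs_nonneg ξ.2, hδ.1]
      have e2 : |δ * ξ.2| ≤ π := by
        rw [abs_mul, abs_of_pos hδ.1]
        nlinarith [abs_nonneg ξ.1, abs_nonneg ξ.2, hδ.1]
      exact ⟨abs_le.1 e1, abs_le.1 e2⟩
    have h4 := hd δ hδ.1 hδ.2 _ hbox
    simp only at h4
    have h5 : δ ^ 2 * ((ξ.1 ^ 2 + ξ.2 ^ 2) * (fcos (m δ) (δ * ξ.1, δ * ξ.2) ^ 2 +
        fsin (m δ) (δ * ξ.1, δ * ξ.2) ^ 2)) ≤ δ ^ 2 * C2 := by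
      calc _ = ((δ * ξ.1) ^ 2 + (δ * ξ.2) ^ 2) * (fcos (m δ) (δ * ξ.1, δ * ξ.2) ^ 2 +
            fsin (m δ) (δ * ξ.1, δ * ξ.2) ^ 2) := by ring
        _ ≤ C2 * δ ^ 2 := h4
        _ = _ := by ring
    exact le_of_mul_le_mul_left h5 (pow_pos hδ.1 2)

private lemma ll_cont {f : ℝ × ℝ → ℝ} (hf : Continuous f) (hc : HasCompactSupport f)
    (g : ℝ → ℝ) (hg : Continuous g) (hg1 : ∀ x, |g x| ≤ 1) :
    Continuous fun ξ : ℝ × ℝ => ∫ y : ℝ × ℝ, f y * g (ξ.1 * y.1 + ξ.2 * y.2) := by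
  refine MeasureTheory.continuous_of_dominated (bound := fun y => |f y|) (fun ξ => ?_)
    (fun ξ => Eventually.of_forall fun y => ?_)
    (hf.integrable_of_hasCompactSupport hc).norm (Eventually.of_forall fun y => ?_)
  · exact (hf.mul (hg.comp (by fun_prop))).aestronglyMeasurable
  · rw [norm_mul, Real.norm_eq_abs, Real.norm_eq_abs]
    exact mul_le_of_le_one_right (abs_nonneg _) (hg1 _)
  · exact continuous_const.mul (hg.comp (by fun_prop))

private lemma ll_int (T r : ℝ) (hr : 0 < r) :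
    ∫ t in (0 : ℝ)..T, exp (-(t * r)) = (1 - exp (-(T * r))) / r := by
  have h1 : ∀ t ∈ uIcc (0 : ℝ) T, HasDerivAt (fun t => -(exp (-(t * r))) / r)
      (exp (-(t * r))) t := by
    intro t _
    have h2 : HasDerivAt (fun t : ℝ => -(t * r)) (-(1 * r)) t :=
      ((hasDerivAt_id t).mul_const r).neg
    have h3 := (h2.exp.neg).div_const r
    refine h3.congr_deriv ?_
    field_simp
  rw [intervalIntegral.integral_eq_sub_of_hasDerivAt h1
    (Continuous.intervalIntegrable (by fun_prop) _ _)]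
  simp
  ring

private lemma ll_bound (G r n C : ℝ) (hG : 0 ≤ G) (hr : 0 ≤ r) (hn : 0 ≤ n) (hnr : n ^ 2 ≤ r)
    (hC : 0 ≤ C) (h1 : G ≤ C * r) (h2 : r * G ≤ C) : G / r ≤ 16 * C * ((1 + n) ^ 4)⁻¹ := by
  rcases hr.eq_or_lt with h0 | h0
  · rw [← h0, div_zero]
    positivity
  have h3 : (1 + n) ^ 4 ≤ 4 * (1 + r) ^ 2 := by
    have : (1 + n) ^ 2 ≤ 2 * (1 + r) := by nlinarith [sq_nonneg (1 - n)]
    calc (1 + n) ^ 4 = ((1 + n) ^ 2) ^ 2 := by ring
      _ ≤ (2 * (1 + r)) ^ 2 := pow_le_pow_left₀ (by positivity) this 2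
      _ = _ := by ring
  have h4 : G / r * (1 + r) ^ 2 ≤ 4 * C := by
    have hGC : G ≤ C := by
      rcases le_total r 1 with h | h
      · nlinarith
      · nlinarith
    rw [div_mul_eq_mul_div, div_le_iff₀ h0]
    nlinarith [mul_le_mul_of_nonneg_left hGC h0.le, mul_le_mul_of_nonneg_left h2 h0.le]
  rw [← div_eq_mul_inv, le_div_iff₀ (by positivity)]
  have h5 : 0 ≤ G / r := by positivity
  nlinarith

/-
`∫_0^T e^{-t|ξ|²} dt = (1 - e^{-T|ξ|²})/|ξ|²` (`ξ ≠ 0`); Fubini (nonnegative; `|f^|² ≤ C |ξ|²` and `|ξ|² |f^|² ≤ C` give that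
`|f^|²/|ξ|² ≤ min (C, C/|ξ|⁴)` is integrable, and `|f^|²` too on ... only `|f^|²/|ξ|²` is needed); then dominated convergence as `T → ∞`.
-/
theorem left_lim {f : ℝ × ℝ → ℝ} (hf : Continuous f) (hc : HasCompactSupport f) {C : ℝ}
    (hC : ∀ ξ : ℝ × ℝ, ftc f ξ ^ 2 + fts f ξ ^ 2 ≤ C * (ξ.1 ^ 2 + ξ.2 ^ 2) ∧
      (ξ.1 ^ 2 + ξ.2 ^ 2) * (ftc f ξ ^ 2 + fts f ξ ^ 2) ≤ C) :
    Tendsto (fun T : ℝ => ∫ t in (0 : ℝ)..T, (1 / (2 * π) ^ 2) *
      ∫ ξ : ℝ × ℝ, (ftc f ξ ^ 2 + fts f ξ ^ 2) * exp (-(t * (ξ.1 ^ 2 + ξ.2 ^ 2)))) atTop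
      (𝓝 (energyF f)) := by
  obtain ⟨G, hG⟩ : ∃ G : ℝ × ℝ → ℝ, ∀ ξ, G ξ = ftc f ξ ^ 2 + fts f ξ ^ 2 := ⟨_, fun _ => rfl⟩
  obtain ⟨r, hr⟩ : ∃ r : ℝ × ℝ → ℝ, ∀ ξ, r ξ = ξ.1 ^ 2 + ξ.2 ^ 2 := ⟨_, fun _ => rfl⟩
  have hGc : Continuous G := by
    have e : G = fun ξ => ftc f ξ ^ 2 + fts f ξ ^ 2 := funext hG
    rw [e]
    exact ((ll_cont hf hc cos continuous_cos abs_cos_le_one).pow 2).add
      ((ll_cont hf hc sin continuous_sin abs_sin_le_one).pow 2)
  have hrc : Continuous r := by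
    have e : r = fun ξ => ξ.1 ^ 2 + ξ.2 ^ 2 := funext hr
    rw [e]
    fun_prop
  have hG0 : ∀ ξ, 0 ≤ G ξ := fun ξ => by rw [hG]; positivity
  have hr0 : ∀ ξ, 0 ≤ r ξ := fun ξ => by rw [hr]; positivity
  have hC' : ∀ ξ, G ξ ≤ C * r ξ ∧ r ξ * G ξ ≤ C := fun ξ => by
    rw [hG, hr]
    exact hC ξ
  have hC0 : 0 ≤ C := by
    have := (hC' 0).2
    exact (mul_nonneg (hr0 0) (hG0 0)).trans this
  have hn : ∀ ξ : ℝ × ℝ, ‖ξ‖ ^ 2 ≤ r ξ := by
    intro ξ
    rw [hr, Prod.norm_def]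
    rcases max_choice ‖ξ.1‖ ‖ξ.2‖ with h | h
    · rw [h, Real.norm_eq_abs, sq_abs]
      nlinarith [sq_nonneg ξ.2]
    · rw [h, Real.norm_eq_abs, sq_abs]
      nlinarith [sq_nonneg ξ.1]
  have hbd : ∀ ξ, G ξ / r ξ ≤ 16 * C * ((1 + ‖ξ‖) ^ 4)⁻¹ := fun ξ =>
    ll_bound _ _ _ _ (hG0 ξ) (hr0 ξ) (norm_nonneg ξ) (hn ξ) hC0 (hC' ξ).1 (hC' ξ).2
  have hbi : Integrable (fun ξ : ℝ × ℝ => 16 * C * ((1 + ‖ξ‖) ^ 4)⁻¹) volume := by
    have h1 : Integrable (fun ξ : ℝ × ℝ => (1 + ‖ξ‖) ^ (-(4 : ℝ))) volume :=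
      integrable_one_add_norm (by
        rw [Module.finrank_prod, Module.finrank_self]
        norm_num)
    refine (h1.const_mul (16 * C)).congr (Eventually.of_forall fun ξ => ?_)
    simp only
    rw [Real.rpow_neg (by positivity)]
    norm_cast
  -- the integrand after the integration in time
  have hH : ∀ (T : ℝ) (ξ : ℝ × ℝ), ∫ t in (0 : ℝ)..T, G ξ * exp (-(t * r ξ)) =
      G ξ / r ξ * (1 - exp (-(T * r ξ))) := by
    intro T ξ
    rw [intervalIntegral.integral_const_mul]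
    rcases (hr0 ξ).eq_or_lt with h0 | h0
    · have : G ξ = 0 := le_antisymm (by
        have := (hC' ξ).1
        rw [← h0, mul_zero] at this
        exact this) (hG0 ξ)
      rw [this]
      simp
    · rw [ll_int T (r ξ) h0]
      ring
  have hHb : ∀ (T : ℝ), 0 < T → ∀ ξ : ℝ × ℝ, |G ξ / r ξ * (1 - exp (-(T * r ξ)))| ≤
      16 * C * ((1 + ‖ξ‖) ^ 4)⁻¹ := by
    intro T hT ξ
    have h1 : exp (-(T * r ξ)) ≤ 1 := by
      rw [Real.exp_le_one_iff]
      nlinarith [hr0 ξ]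
    have h2 := Real.exp_pos (-(T * r ξ))
    have h3 : 0 ≤ G ξ / r ξ := div_nonneg (hG0 ξ) (hr0 ξ)
    rw [abs_of_nonneg (mul_nonneg h3 (by linarith))]
    refine (mul_le_of_le_one_right h3 (by linarith)).trans (hbd ξ)
  have hHm : ∀ T : ℝ, AEStronglyMeasurable (fun ξ => G ξ / r ξ * (1 - exp (-(T * r ξ))))
      (volume : Measure (ℝ × ℝ)) := fun T => by
    refine Measurable.aestronglyMeasurable ?_
    have := hGc.measurable
    have := hrc.measurable
    fun_prop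
  have hswap : ∀ T : ℝ, 0 < T → ∫ t in (0 : ℝ)..T, ∫ ξ : ℝ × ℝ, G ξ * exp (-(t * r ξ)) =
      ∫ ξ : ℝ × ℝ, G ξ / r ξ * (1 - exp (-(T * r ξ))) := by
    intro T hT
    have hint : Integrable (Function.uncurry fun (t : ℝ) (ξ : ℝ × ℝ) => G ξ * exp (-(t * r ξ)))
        ((volume.restrict (uIoc 0 T)).prod volume) := by
      refine (integrable_prod_iff' ?_).2 ⟨Eventually.of_forall fun ξ => ?_, ?_⟩
      · refine Continuous.aestronglyMeasurable ?_
        simp only [Function.uncurry_def]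
        fun_prop
      · simp only [Function.uncurry_apply_pair]
        have : IntervalIntegrable (fun t => G ξ * exp (-(t * r ξ))) volume 0 T :=
          Continuous.intervalIntegrable (by fun_prop) _ _
        exact this.def'
      · have e : ∀ ξ : ℝ × ℝ, ∫ t, ‖Function.uncurry (fun (t : ℝ) (ξ : ℝ × ℝ) =>
            G ξ * exp (-(t * r ξ))) (t, ξ)‖ ∂(volume.restrict (uIoc 0 T)) =
            G ξ / r ξ * (1 - exp (-(T * r ξ))) := by
          intro ξ
          rw [← hH T ξ, intervalIntegral.integral_of_le hT.le, uIoc_of_le hT.le]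
          refine integral_congr_ae (Eventually.of_forall fun t => ?_)
          simp only [Function.uncurry_apply_pair]
          rw [Real.norm_eq_abs, abs_of_nonneg (mul_nonneg (hG0 ξ) (Real.exp_pos _).le)]
        simp only [e]
        exact Integrable.mono' hbi (hHm T) (Eventually.of_forall fun ξ => hHb T hT ξ)
    rw [intervalIntegral_integral_swap hint]
    exact integral_congr_ae (Eventually.of_forall fun ξ => hH T ξ)
  have hlim : Tendsto (fun T : ℝ => ∫ ξ : ℝ × ℝ, G ξ / r ξ * (1 - exp (-(T * r ξ)))) atTop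
      (𝓝 (∫ ξ : ℝ × ℝ, G ξ / r ξ)) := by
    refine tendsto_integral_filter_of_dominated_convergence
      (fun ξ : ℝ × ℝ => 16 * C * ((1 + ‖ξ‖) ^ 4)⁻¹) (Eventually.of_forall fun T => hHm T) ?_ hbi
      (Eventually.of_forall fun ξ => ?_)
    · filter_upwards [eventually_gt_atTop 0] with T hT
      exact Eventually.of_forall fun ξ => hHb T hT ξ
    · rcases (hr0 ξ).eq_or_lt with h0 | h0
      · rw [← h0]
        simp
      · have h1 : Tendsto (fun T : ℝ => exp (-(T * r ξ))) atTop (𝓝 0) := by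
          refine Real.tendsto_exp_neg_atTop_nhds_zero.comp ?_
          exact tendsto_id.atTop_mul_const h0
        have h2 := (h1.const_sub 1).const_mul (G ξ / r ξ)
        simpa using h2
  have hfin := hlim.const_mul (1 / (2 * π) ^ 2)
  have he : energyF f = (1 / (2 * π) ^ 2) * ∫ ξ : ℝ × ℝ, G ξ / r ξ := by
    unfold energyF
    simp only [hG, hr]
  rw [he]
  refine hfin.congr' ?_
  filter_upwards [eventually_gt_atTop 0] with T hT
  rw [← hswap T hT, intervalIntegral.integral_const_mul]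
  simp only [hG, hr]

private lemma hl_int {a b : ℝ} (ha : 0 < a) (hb : 0 < b) :
    IntervalIntegrable (fun w : ℝ => exp (-w) / w) volume a b := by
  refine ContinuousOn.intervalIntegrable ?_
  refine ContinuousOn.div (by fun_prop) continuousOn_id (fun x hx => ?_)
  have h1 : 0 < x := lt_of_lt_of_le (lt_min ha hb) hx.1
  exact h1.ne'

private lemma hl_deriv {x : ℝ} (hx : 0 < x) :
    HasDerivAt (fun x : ℝ => ∫ w in (1 : ℝ)..x, exp (-w) / w) (exp (-x) / x) x := by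
  refine intervalIntegral.integral_hasDerivAt_right (hl_int one_pos hx) ?_ ?_
  · have h1 : Measurable (fun w : ℝ => exp (-w) / w) := by fun_prop
    exact h1.stronglyMeasurable.stronglyMeasurableAtFilter
  · exact ContinuousAt.div (by fun_prop) continuousAt_id hx.ne'

private lemma hl_eq {a x : ℝ} (ha : 0 < a) (hx : 0 < x) :
    (∫ w in (1 : ℝ)..x, exp (-w) / w) - (∫ w in (1 : ℝ)..(a * x), exp (-w) / w) =
      ∫ s in a..1, exp (-(s * x)) / s := by
  have hax : 0 < a * x := mul_pos ha hx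
  rw [intervalIntegral.integral_interval_sub_left (hl_int one_pos hx) (hl_int one_pos hax)]
  have h1 := intervalIntegral.integral_comp_mul_right (a := a) (b := 1)
    (fun w : ℝ => exp (-w) / w) hx.ne'
  rw [one_mul, smul_eq_mul] at h1
  have h2 : ∫ w in (a * x)..x, exp (-w) / w = x * ∫ s in a..1, exp (-(s * x)) / (s * x) := by
    rw [h1, ← mul_assoc, mul_inv_cancel₀ hx.ne', one_mul]
  rw [h2, ← intervalIntegral.integral_const_mul]
  refine intervalIntegral.integral_congr (fun s hs => ?_)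
  have hs0 : 0 < s := lt_of_lt_of_le (lt_min ha one_pos) hs.1
  change x * (exp (-(s * x)) / (s * x)) = exp (-(s * x)) / s
  field_simp

private lemma hl_dct {a : ℝ} (ha : 0 < a) {l : Filter ℝ} [l.IsCountablyGenerated]
    (hl : ∀ᶠ x in l, 0 < x) {c : ℝ → ℝ}
    (hlim : ∀ s : ℝ, 0 < s → Tendsto (fun x : ℝ => exp (-(s * x)) / s) l (𝓝 (c s))) :
    Tendsto (fun x : ℝ => ∫ s in a..1, exp (-(s * x)) / s) l (𝓝 (∫ s in a..1, c s)) := by
  have hpos : ∀ s ∈ Set.uIoc a 1, 0 < s := fun s hs =>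
    lt_trans (lt_min ha one_pos) hs.1
  refine intervalIntegral.tendsto_integral_filter_of_dominated_convergence (fun s => 1 / s) ?_ ?_
    ?_ ?_
  · refine Eventually.of_forall (fun x => ?_)
    have h1 : Measurable (fun s : ℝ => exp (-(s * x)) / s) := by fun_prop
    exact h1.aestronglyMeasurable
  · filter_upwards [hl] with x hx
    refine Eventually.of_forall (fun s hs => ?_)
    have hs0 := hpos s hs
    rw [norm_of_nonneg (by positivity)]
    refine div_le_div_of_nonneg_right ?_ hs0.le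
    rw [exp_le_one_iff]
    have := mul_pos hs0 hx
    linarith
  · refine ContinuousOn.intervalIntegrable ?_
    refine ContinuousOn.div continuousOn_const continuousOn_id (fun x hx => ?_)
    exact (lt_of_lt_of_le (lt_min ha one_pos) hx.1).ne'
  · exact Eventually.of_forall (fun s hs => hlim s (hpos s hs))

private lemma hl_lim0 {a : ℝ} (ha : 0 < a) :
    Tendsto (fun x : ℝ => ∫ s in a..1, exp (-(s * x)) / s) (𝓝[>] 0) (𝓝 (-log a)) := by
  have h1 : ∫ s in a..1, 1 / s = -log a := by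
    rw [integral_one_div_of_pos ha one_pos, log_div one_ne_zero ha.ne', log_one, zero_sub]
  rw [← h1]
  refine hl_dct ha self_mem_nhdsWithin (fun s hs => ?_)
  have h2 : Continuous (fun x : ℝ => exp (-(s * x)) / s) := by fun_prop
  have h3 := h2.tendsto 0
  simp only [mul_zero, neg_zero, exp_zero] at h3
  exact h3.mono_left nhdsWithin_le_nhds

private lemma hl_limtop {a : ℝ} (ha : 0 < a) :
    Tendsto (fun x : ℝ => ∫ s in a..1, exp (-(s * x)) / s) atTop (𝓝 0) := by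
  have h1 : ∫ s in a..1, (0 : ℝ) = 0 := by simp
  rw [← h1]
  refine hl_dct ha (eventually_gt_atTop 0) (fun s hs => ?_)
  have h2 : Tendsto (fun x : ℝ => exp (-(s * x))) atTop (𝓝 0) :=
    tendsto_exp_neg_atTop_nhds_zero.comp (tendsto_id.const_mul_atTop hs)
  simpa using h2.div_const s

/-- the function of the time whose derivative is the difference of the heat kernels -/
private noncomputable def hlF (a t : ℝ) : ℝ :=
  if t ≤ 0 then 0 else 1 / (4 * π) * ((∫ w in (1 : ℝ)..(1 / 4 * t⁻¹), exp (-w) / w) -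
    ∫ w in (1 : ℝ)..(a / 4 * t⁻¹), exp (-w) / w)

private lemma hlF_pos {a t : ℝ} (ha : 0 < a) (ht : 0 < t) :
    hlF a t = 1 / (4 * π) * ∫ s in a..1, exp (-(s * (1 / 4 * t⁻¹))) / s := by
  have hx : 0 < 1 / 4 * t⁻¹ := by positivity
  rw [← hl_eq ha hx, hlF, if_neg (not_le.mpr ht)]
  have h1 : a * (1 / 4 * t⁻¹) = a / 4 * t⁻¹ := by ring
  rw [h1]

private lemma hlF_cont {a : ℝ} (ha : 0 < a) : ContinuousWithinAt (hlF a) (Ici 0) 0 := by
  rw [← continuousWithinAt_Ioi_iff_Ici]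
  have h0 : hlF a 0 = 0 := by simp [hlF]
  unfold ContinuousWithinAt
  rw [h0]
  have h1 : Tendsto (fun t : ℝ => 1 / 4 * t⁻¹) (𝓝[>] 0) atTop :=
    tendsto_inv_nhdsGT_zero.const_mul_atTop (by norm_num)
  have h2 := ((hl_limtop ha).comp h1).const_mul (1 / (4 * π))
  rw [mul_zero] at h2
  refine h2.congr' ?_
  filter_upwards [self_mem_nhdsWithin] with t ht
  rw [hlF_pos ha ht]
  rfl

private lemma hlF_top {a : ℝ} (ha : 0 < a) :
    Tendsto (hlF a) atTop (𝓝 (1 / (4 * π) * (-log a))) := by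
  have h1 : Tendsto (fun t : ℝ => 1 / 4 * t⁻¹) atTop (𝓝[>] 0) := by
    refine tendsto_nhdsWithin_iff.mpr ⟨?_, ?_⟩
    · have := tendsto_inv_atTop_zero (𝕜 := ℝ) |>.const_mul (1 / 4)
      simpa using this
    · filter_upwards [eventually_gt_atTop 0] with t ht
      change 0 < 1 / 4 * t⁻¹
      positivity
  have h2 := ((hl_lim0 ha).comp h1).const_mul (1 / (4 * π))
  refine h2.congr' ?_
  filter_upwards [eventually_gt_atTop 0] with t ht
  rw [hlF_pos ha ht]
  rfl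

private lemma hlF_deriv {a t : ℝ} (ha : 0 < a) (ht : 0 < t) :
    HasDerivAt (hlF a) (1 / (4 * π * t) * exp (-a / (4 * t)) -
      1 / (4 * π * t) * exp (-1 / (4 * t))) t := by
  have h1 : ∀ c : ℝ, 0 < c → HasDerivAt (fun t : ℝ => ∫ w in (1 : ℝ)..(c / 4 * t⁻¹), exp (-w) / w)
      (exp (-(c / 4 * t⁻¹)) / (c / 4 * t⁻¹) * (c / 4 * (-(t ^ 2)⁻¹))) t := by
    intro c hc
    have h2 : HasDerivAt (fun t : ℝ => c / 4 * t⁻¹) (c / 4 * (-(t ^ 2)⁻¹)) t :=
      (hasDerivAt_inv ht.ne').const_mul (c / 4)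
    have h3 : 0 < c / 4 * t⁻¹ := by positivity
    exact (hl_deriv h3).comp t h2
  have h4 := ((h1 1 one_pos).sub (h1 a ha)).const_mul (1 / (4 * π))
  refine (h4.congr_deriv ?_).congr_of_eventuallyEq ?_
  · have h5 : -(1 / 4 * t⁻¹) = -1 / (4 * t) := by field_simp
    have h6 : -(a / 4 * t⁻¹) = -a / (4 * t) := by field_simp
    rw [h5, h6]
    field_simp
    ring
  · filter_upwards [lt_mem_nhds ht] with t' ht'
    rw [hlF, if_neg (not_le.mpr ht')]
    rfl

/-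
`a = |z|²`.  `(4π t)⁻¹ (e^{-a/(4t)} - e^{-1/(4t)})`: since `e^{-au} - e^{-u} = u ∫_a^1 e^{-su} ds`, with `u = 1/(4t)` the integrand is
`(16 π t²)⁻¹ ∫_a^1 e^{-s/(4t)} ds`, and `d/dt e^{-s/(4t)} = (s/(4t²)) e^{-s/(4t)}`, so
`∫_0^T = (1/(4π)) ∫_a^1 e^{-s/(4T)}/s ds` (Fubini, constant sign), which has absolute value `≤ (1/(4π)) |log a|` and tends to `-(1/(4π)) log a`.
(Another way: the derivative in `T` of the right side is the integrand, and it tends to `0` as `T → 0`.)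
-/
theorem heat_log (z : ℝ × ℝ) (hz : z ≠ 0) :
    (∀ T : ℝ, 0 < T → ∫ t in (0 : ℝ)..T, |heat t z - heat t (1, 0)| ≤
        1 / (2 * π) * |log (Real.sqrt (z.1 ^ 2 + z.2 ^ 2))|) ∧
      (∀ T : ℝ, 0 < T → IntervalIntegrable (fun t => heat t z - heat t (1, 0)) volume 0 T) ∧
      Tendsto (fun T : ℝ => ∫ t in (0 : ℝ)..T, (heat t z - heat t (1, 0))) atTop
        (𝓝 (-(1 / (2 * π)) * log (Real.sqrt (z.1 ^ 2 + z.2 ^ 2)))) := by
  obtain ⟨a, ha⟩ : ∃ a : ℝ, a = z.1 ^ 2 + z.2 ^ 2 := ⟨_, rfl⟩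
  have ha0 : 0 < a := by
    rw [ha]
    by_contra h
    have h1 : z.1 ^ 2 = 0 := by nlinarith [sq_nonneg z.1, sq_nonneg z.2]
    have h2 : z.2 ^ 2 = 0 := by nlinarith [sq_nonneg z.1, sq_nonneg z.2]
    exact hz (Prod.ext (by simpa using h1) (by simpa using h2))
  have hg : ∀ t, heat t z - heat t (1, 0) = 1 / (4 * π * t) * exp (-a / (4 * t)) -
      1 / (4 * π * t) * exp (-1 / (4 * t)) := by
    intro t
    unfold heat
    rw [ha]
    norm_num
  have hder : ∀ t ∈ Ioi (0 : ℝ), HasDerivAt (hlF a) (heat t z - heat t (1, 0)) t := by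
    intro t ht
    rw [hg]
    exact hlF_deriv ha0 ht
  have hlog : log (Real.sqrt a) = log a / 2 := Real.log_sqrt ha0.le
  have hlim : -(1 / (2 * π)) * log (Real.sqrt a) = 1 / (4 * π) * (-log a) := by
    rw [hlog]
    field_simp
    ring
  rw [← ha, hlim]
  have h0 : hlF a 0 = 0 := by simp [hlF]
  have hpi := pi_pos
  -- the sign of the integrand
  have hsign : (∀ t ∈ Ioi (0 : ℝ), 0 ≤ heat t z - heat t (1, 0)) ∨
      (∀ t ∈ Ioi (0 : ℝ), heat t z - heat t (1, 0) ≤ 0) := by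
    rcases le_total a 1 with h1 | h1
    · left
      intro t ht
      have ht' : (0 : ℝ) < t := ht
      rw [hg, ← mul_sub]
      refine mul_nonneg (by positivity) ?_
      rw [sub_nonneg, exp_le_exp]
      exact div_le_div_of_nonneg_right (by linarith) (by positivity)
    · right
      intro t ht
      have ht' : (0 : ℝ) < t := ht
      rw [hg, ← mul_sub]
      refine mul_nonpos_of_nonneg_of_nonpos (by positivity) ?_
      rw [sub_nonpos, exp_le_exp]
      exact div_le_div_of_nonneg_right (by linarith) (by positivity)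
  have hint : IntegrableOn (fun t => heat t z - heat t (1, 0)) (Ioi 0) := by
    rcases hsign with h1 | h1
    · exact integrableOn_Ioi_deriv_of_nonneg (hlF_cont ha0) hder h1 (hlF_top ha0)
    · exact integrableOn_Ioi_deriv_of_nonpos (hlF_cont ha0) hder h1 (hlF_top ha0)
  have hval : ∫ t in Ioi (0 : ℝ), (heat t z - heat t (1, 0)) = 1 / (4 * π) * (-log a) := by
    rw [integral_Ioi_of_hasDerivAt_of_tendsto (hlF_cont ha0) hder hint (hlF_top ha0), h0, sub_zero]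
  have habs : ∫ t in Ioi (0 : ℝ), |heat t z - heat t (1, 0)| =
      1 / (2 * π) * |log (Real.sqrt a)| := by
    have e1 : 1 / (2 * π) * |log (Real.sqrt a)| = |1 / (4 * π) * (-log a)| := by
      rw [← hlim, abs_mul, abs_neg, abs_of_nonneg (show 0 ≤ 1 / (2 * π) by positivity)]
    rw [e1, ← hval]
    rcases hsign with h1 | h1
    · rw [abs_of_nonneg (setIntegral_nonneg measurableSet_Ioi h1)]
      exact setIntegral_congr_fun measurableSet_Ioi (fun t ht => abs_of_nonneg (h1 t ht))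
    · rw [abs_of_nonpos (setIntegral_nonpos measurableSet_Ioi h1), ← integral_neg]
      exact setIntegral_congr_fun measurableSet_Ioi (fun t ht => abs_of_nonpos (h1 t ht))
  refine ⟨fun T hT => ?_, fun T hT => ?_, ?_⟩
  · rw [← habs, intervalIntegral.integral_of_le hT.le]
    exact setIntegral_mono_set hint.abs (Eventually.of_forall (fun t => abs_nonneg _))
      (Eventually.of_forall (fun t (ht : t ∈ Ioc 0 T) => ht.1))
  · rw [intervalIntegrable_iff_integrableOn_Ioc_of_le hT.le]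
    exact hint.mono_set (fun t ht => ht.1)
  · rw [← hval]
    exact intervalIntegral_tendsto_integral_Ioi 0 hint tendsto_id

/-
`|log |z|| ≤ 2 |z|_∞^{-1/2} + |z|`-type bound, or: `log |z| ≥ (log |z₁| + ...)`; simplest: for `z₁ ≠ 0`
`|log |z|| ≤ |log |z₁|| + |z₁| + |z₂|`, and `log |z₁|` is locally integrable on the line.
-/
lemma log_locInt (R : ℝ) :
    IntegrableOn (fun z : ℝ × ℝ => log (Real.sqrt (z.1 ^ 2 + z.2 ^ 2))) (Icc (-R) R ×ˢ Icc (-R) R) := by
  have h1 : IntegrableOn (fun x : ℝ => log x) (Icc (-R) R) := by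
    rw [integrableOn_Icc_iff_integrableOn_Ioc]
    exact (intervalIntegral.intervalIntegrable_log' (a := -R) (b := R)).1
  have h2 : IntegrableOn (fun x : ℝ => x) (Icc (-R) R) :=
    continuous_id.continuousOn.integrableOn_Icc
  have h3 : Integrable (fun z : ℝ × ℝ => ‖log z.1‖ + ‖z.1‖ + ‖z.2‖)
      ((volume.restrict (Icc (-R) R)).prod (volume.restrict (Icc (-R) R))) :=
    ((Integrable.comp_fst h1.norm _).add (Integrable.comp_fst h2.norm _)).add
      (Integrable.comp_snd h2.norm _)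
  rw [Measure.prod_restrict] at h3
  have h4 : ∀ᵐ z : ℝ × ℝ ∂(volume.restrict (Icc (-R) R ×ˢ Icc (-R) R)), z.1 ≠ 0 := by
    refine ae_restrict_of_ae ?_
    have h5 : ∀ᵐ x : ℝ, x ≠ 0 := by
      rw [ae_iff]
      simp
    exact (Measure.quasiMeasurePreserving_fst (μ := (volume : Measure ℝ))
      (ν := (volume : Measure ℝ))).ae h5
  refine Integrable.mono' h3 ?_ ?_
  · exact (Measurable.aestronglyMeasurable (by fun_prop))
  · filter_upwards [h4] with z hz
    have hpos : 0 < |z.1| := abs_pos.2 hz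
    have hs1 : |z.1| ≤ Real.sqrt (z.1 ^ 2 + z.2 ^ 2) := by
      rw [← Real.sqrt_sq_eq_abs]
      exact Real.sqrt_le_sqrt (by nlinarith [sq_nonneg z.2])
    have hs2 : Real.sqrt (z.1 ^ 2 + z.2 ^ 2) ≤ |z.1| + |z.2| := by
      rw [Real.sqrt_le_left (by positivity)]
      have e1 : z.1 ^ 2 = |z.1| ^ 2 := (sq_abs _).symm
      have e2 : z.2 ^ 2 = |z.2| ^ 2 := (sq_abs _).symm
      rw [e1, e2]
      nlinarith [mul_nonneg (abs_nonneg z.1) (abs_nonneg z.2)]
    have hs0 : 0 < Real.sqrt (z.1 ^ 2 + z.2 ^ 2) := hpos.trans_le hs1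
    have g1 : log |z.1| ≤ log (Real.sqrt (z.1 ^ 2 + z.2 ^ 2)) := Real.log_le_log hpos hs1
    have g2 : log (Real.sqrt (z.1 ^ 2 + z.2 ^ 2)) ≤ Real.sqrt (z.1 ^ 2 + z.2 ^ 2) - 1 :=
      Real.log_le_sub_one_of_pos hs0
    rw [Real.log_abs] at g1
    rw [Real.norm_eq_abs, Real.norm_eq_abs, Real.norm_eq_abs, Real.norm_eq_abs, abs_le]
    constructor
    · have := neg_abs_le (log z.1)
      have := abs_nonneg z.2
      linarith
    · have := abs_nonneg (log z.1)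
      linarith

private lemma rl_diag : ∀ᵐ p : (ℝ × ℝ) × (ℝ × ℝ), p.1 - p.2 ≠ 0 := by
  have hm : MeasurableSet {p : (ℝ × ℝ) × (ℝ × ℝ) | p.1 - p.2 = 0} :=
    (measurableSet_singleton (0 : ℝ × ℝ)).preimage (by fun_prop)
  have h : (volume : Measure ((ℝ × ℝ) × (ℝ × ℝ))) {p | p.1 - p.2 = 0} = 0 := by
    show ((volume : Measure (ℝ × ℝ)).prod (volume : Measure (ℝ × ℝ))) _ = 0
    rw [Measure.measure_prod_null hm]
    refine Eventually.of_forall fun x => ?_
    have e : Prod.mk x ⁻¹' {p : (ℝ × ℝ) × (ℝ × ℝ) | p.1 - p.2 = 0} = {x} := by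
      ext y
      simp only [mem_preimage, mem_setOf_eq, mem_singleton_iff, sub_eq_zero]
      exact eq_comm
    show volume (Prod.mk x ⁻¹' {p : (ℝ × ℝ) × (ℝ × ℝ) | p.1 - p.2 = 0}) = 0
    rw [e]
    exact measure_singleton x
  rw [ae_iff]
  simpa using h

private lemma rl_int {f : ℝ × ℝ → ℝ} (hf : Continuous f) (hc : HasCompactSupport f) :
    Integrable (fun p : (ℝ × ℝ) × (ℝ × ℝ) => |f p.1 * f p.2| *
      |log (Real.sqrt ((p.1 - p.2).1 ^ 2 + (p.1 - p.2).2 ^ 2))|) := by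
  obtain ⟨B, hB⟩ := hf.bounded_above_of_compact_support hc
  have hK : IsCompact (tsupport f) := hc
  obtain ⟨R, hR⟩ := hK.isBounded.exists_norm_le
  have hsup : ∀ x, f x ≠ 0 → |x.1| ≤ R ∧ |x.2| ≤ R := by
    intro x hx
    have h1 := hR x (subset_tsupport f hx)
    exact ⟨(norm_fst_le x).trans h1, (norm_snd_le x).trans h1⟩
  have hg : Integrable (indicator (Icc (-(2 * R)) (2 * R) ×ˢ Icc (-(2 * R)) (2 * R))
      (fun z : ℝ × ℝ => |log (Real.sqrt (z.1 ^ 2 + z.2 ^ 2))|)) := by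
    rw [integrable_indicator_iff (measurableSet_Icc.prod measurableSet_Icc)]
    exact (log_locInt (2 * R)).abs
  have hfi : Integrable f := hf.integrable_of_hasCompactSupport hc
  have hcv := hfi.abs.convolution_integrand (ContinuousLinearMap.mul ℝ ℝ) hg
  refine Integrable.mono' (hcv.const_mul B) ?_ ?_
  · have hfm := hf.measurable
    exact (Measurable.aestronglyMeasurable (by fun_prop))
  · refine Eventually.of_forall fun p => ?_
    rw [Real.norm_eq_abs, abs_mul, abs_abs, abs_abs, abs_mul]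
    simp only [ContinuousLinearMap.mul_apply']
    have hB0 : |f p.1| ≤ B := hB p.1
    by_cases h1 : f p.1 = 0
    · rw [h1, abs_zero, zero_mul, zero_mul]
      have hB1 : 0 ≤ B := (abs_nonneg _).trans hB0
      refine mul_nonneg hB1 (mul_nonneg (abs_nonneg _) ?_)
      exact indicator_nonneg (fun _ _ => abs_nonneg _) _
    · by_cases h2 : f p.2 = 0
      · rw [h2, abs_zero, mul_zero, zero_mul, zero_mul, mul_zero]
      · have h3 := hsup _ h1
        have h4 := hsup _ h2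
        have h5 : p.1 - p.2 ∈ Icc (-(2 * R)) (2 * R) ×ˢ Icc (-(2 * R)) (2 * R) := by
          rw [mem_prod, mem_Icc, mem_Icc, Prod.fst_sub, Prod.snd_sub]
          rw [abs_le, abs_le] at h3 h4
          refine ⟨⟨?_, ?_⟩, ⟨?_, ?_⟩⟩ <;> linarith [h3.1.1, h3.1.2, h3.2.1, h3.2.2, h4.1.1,
            h4.1.2, h4.2.1, h4.2.2]
        rw [indicator_of_mem h5, mul_assoc]
        exact mul_le_mul_of_nonneg_right hB0 (mul_nonneg (abs_nonneg _) (abs_nonneg _))

/-
As `∫ f = 0`: `∫∫ f x f y heat t (x - y) = ∫∫ f x f y (heat t (x - y) - heat t (1, 0))` for `t > 0`.  Fubini with `t ∈ (0, T)`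
(absolutely integrable by `heat_log`, `log_locInt`; `x = y` is a null set), then dominated convergence as `T → ∞` with the bound
`|f x f y| |log |x - y||/(2π)`.
-/
theorem right_lim {f : ℝ × ℝ → ℝ} (hf : Continuous f) (hc : HasCompactSupport f)
    (h0 : ∫ y, f y = 0) :
    Tendsto (fun T : ℝ => ∫ t in (0 : ℝ)..T,
      ∫ x : ℝ × ℝ, ∫ y : ℝ × ℝ, f x * f y * heat t (x - y)) atTop (𝓝 (energy f)) := by
  have hfm := hf.measurable
  have hfi : Integrable f := hf.integrable_of_hasCompactSupport hc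
  have hff : Integrable (fun p : (ℝ × ℝ) × (ℝ × ℝ) => f p.1 * f p.2) := hfi.mul_prod hfi
  have hff0 : ∫ p : (ℝ × ℝ) × (ℝ × ℝ), f p.1 * f p.2 = 0 := by
    have := integral_prod_mul (μ := (volume : Measure (ℝ × ℝ))) (ν := (volume : Measure (ℝ × ℝ))) f f
    rw [h0, zero_mul] at this
    exact this
  have hK := rl_int hf hc
  -- the kernel
  set g : ℝ → (ℝ × ℝ) × (ℝ × ℝ) → ℝ := fun t p =>
    f p.1 * f p.2 * (heat t (p.1 - p.2) - heat t (1, 0)) with hg
  have hgm : Measurable (Function.uncurry g) := by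
    simp only [hg, heat]
    fun_prop
  -- the inner integrals
  have hin : ∀ t, 0 < t → ∫ x : ℝ × ℝ, ∫ y : ℝ × ℝ, f x * f y * heat t (x - y) = ∫ p, g t p := by
    intro t ht
    have hh : ∀ z : ℝ × ℝ, |heat t z| ≤ 1 / (4 * π * t) := by
      intro z
      unfold heat
      have hp : 0 < 1 / (4 * π * t) := by positivity
      rw [abs_mul, abs_of_pos hp, abs_of_pos (exp_pos _)]
      refine mul_le_of_le_one_right hp.le ?_
      rw [exp_le_one_iff]
      have : 0 ≤ (z.1 ^ 2 + z.2 ^ 2) / (4 * t) := by positivity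
      rw [neg_div]
      linarith
    have hi1 : Integrable (fun p : (ℝ × ℝ) × (ℝ × ℝ) => f p.1 * f p.2 * heat t (p.1 - p.2)) := by
      refine Integrable.mono' (hff.abs.mul_const (1 / (4 * π * t))) ?_ ?_
      · refine Measurable.aestronglyMeasurable ?_
        simp only [heat]
        fun_prop
      · refine Eventually.of_forall fun p => ?_
        rw [Real.norm_eq_abs, abs_mul]
        exact mul_le_mul_of_nonneg_left (hh _) (abs_nonneg _)
    have e1 : ∫ x : ℝ × ℝ, ∫ y : ℝ × ℝ, f x * f y * heat t (x - y) =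
        ∫ p : (ℝ × ℝ) × (ℝ × ℝ), f p.1 * f p.2 * heat t (p.1 - p.2) :=
      (integral_prod _ hi1).symm
    rw [e1]
    have e2 : ∀ p, g t p = f p.1 * f p.2 * heat t (p.1 - p.2) - f p.1 * f p.2 * heat t (1, 0) := by
      intro p
      simp only [hg]
      ring
    simp only [e2]
    rw [integral_sub hi1 (hff.mul_const _), integral_mul_const, hff0, zero_mul, sub_zero]
  -- Fubini
  have hsec : ∀ T, 0 < T → ∀ p : (ℝ × ℝ) × (ℝ × ℝ), p.1 - p.2 ≠ 0 →
      Integrable (fun t => g t p) (volume.restrict (Ioc 0 T)) ∧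
      ∫ t in Ioc 0 T, ‖g t p‖ ≤ 1 / (2 * π) * (|f p.1 * f p.2| *
        |log (Real.sqrt ((p.1 - p.2).1 ^ 2 + (p.1 - p.2).2 ^ 2))|) := by
    intro T hT p hp
    obtain ⟨h1, h2, -⟩ := heat_log (p.1 - p.2) hp
    refine ⟨((h2 T hT).1).const_mul _, ?_⟩
    have e : ∀ t, ‖g t p‖ = |f p.1 * f p.2| * |heat t (p.1 - p.2) - heat t (1, 0)| := by
      intro t
      rw [Real.norm_eq_abs, abs_mul]
    simp only [e]
    rw [integral_const_mul]
    have h3 := h1 T hT
    rw [intervalIntegral.integral_of_le hT.le] at h3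
    calc |f p.1 * f p.2| * ∫ t in Ioc 0 T, |heat t (p.1 - p.2) - heat t (1, 0)|
        ≤ |f p.1 * f p.2| * (1 / (2 * π) *
          |log (Real.sqrt ((p.1 - p.2).1 ^ 2 + (p.1 - p.2).2 ^ 2))|) :=
          mul_le_mul_of_nonneg_left h3 (abs_nonneg _)
      _ = _ := by ring
  have hfub : ∀ T, 0 < T → Integrable (Function.uncurry g)
      ((volume.restrict (Ioc 0 T)).prod (volume : Measure ((ℝ × ℝ) × (ℝ × ℝ)))) := by
    intro T hT
    rw [integrable_prod_iff' hgm.aestronglyMeasurable]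
    refine ⟨?_, ?_⟩
    · filter_upwards [rl_diag] with p hp
      exact (hsec T hT p hp).1
    · refine Integrable.mono' (hK.const_mul (1 / (2 * π))) ?_ ?_
      · exact (hgm.norm.stronglyMeasurable.integral_prod_left'
          (μ := volume.restrict (Ioc 0 T))).aestronglyMeasurable
      · filter_upwards [rl_diag] with p hp
        rw [Real.norm_eq_abs, abs_of_nonneg (integral_nonneg fun t => norm_nonneg _)]
        exact (hsec T hT p hp).2
  have hG : ∀ T, 0 < T → ∫ t in (0 : ℝ)..T,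
      ∫ x : ℝ × ℝ, ∫ y : ℝ × ℝ, f x * f y * heat t (x - y) = ∫ p, ∫ t in Ioc 0 T, g t p := by
    intro T hT
    rw [intervalIntegral.integral_of_le hT.le]
    have e1 : ∫ t in Ioc 0 T, ∫ x : ℝ × ℝ, ∫ y : ℝ × ℝ, f x * f y * heat t (x - y) =
        ∫ t in Ioc 0 T, ∫ p, g t p := by
      refine setIntegral_congr_fun measurableSet_Ioc fun t ht => ?_
      exact hin t ht.1
    rw [e1]
    exact integral_integral_swap (hfub T hT)
  -- the limit
  have hE : energy f = ∫ p : (ℝ × ℝ) × (ℝ × ℝ), f p.1 * f p.2 * (-(1 / (2 * π)) *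
      log (Real.sqrt ((p.1 - p.2).1 ^ 2 + (p.1 - p.2).2 ^ 2))) := by
    have hi : Integrable (fun p : (ℝ × ℝ) × (ℝ × ℝ) => f p.1 * f p.2 * (-(1 / (2 * π)) *
        log (Real.sqrt ((p.1 - p.2).1 ^ 2 + (p.1 - p.2).2 ^ 2)))) := by
      refine Integrable.mono' (hK.const_mul (1 / (2 * π))) ?_ ?_
      · exact (Measurable.aestronglyMeasurable (by fun_prop))
      · refine Eventually.of_forall fun p => ?_
        have hpi : 0 < 1 / (2 * π) := by positivity
        rw [Real.norm_eq_abs, abs_mul, abs_mul (-(1 / (2 * π))), abs_neg, abs_of_pos hpi]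
        apply le_of_eq
        ring
    exact (integral_prod _ hi).symm
  rw [hE]
  have key : Tendsto (fun T : ℝ => ∫ p, ∫ t in Ioc 0 T, g t p) atTop
      (𝓝 (∫ p : (ℝ × ℝ) × (ℝ × ℝ), f p.1 * f p.2 * (-(1 / (2 * π)) *
      log (Real.sqrt ((p.1 - p.2).1 ^ 2 + (p.1 - p.2).2 ^ 2))))) := by
    refine tendsto_integral_filter_of_dominated_convergence _ ?_ ?_ (hK.const_mul (1 / (2 * π))) ?_
    · filter_upwards [eventually_gt_atTop 0] with T hT
      exact (hfub T hT).integral_prod_right.aestronglyMeasurable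
    · filter_upwards [eventually_gt_atTop 0] with T hT
      filter_upwards [rl_diag] with p hp
      exact (norm_integral_le_integral_norm _).trans (hsec T hT p hp).2
    · filter_upwards [rl_diag] with p hp
      obtain ⟨-, -, h3⟩ := heat_log (p.1 - p.2) hp
      have h4 := h3.const_mul (f p.1 * f p.2)
      refine h4.congr' ?_
      filter_upwards [eventually_gt_atTop 0] with T hT
      rw [intervalIntegral.integral_of_le hT.le, ← integral_const_mul]
  refine key.congr' ?_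
  filter_upwards [eventually_gt_atTop 0] with T hT
  exact (hG T hT).symm

theorem energy_eq' (f : ℝ × ℝ → ℝ) (hf : ContDiff ℝ 1 f) (hc : HasCompactSupport f)
    (h0 : ∫ y, f y = 0) : energyF f = energy f := by
  obtain ⟨C, hC0, hC⟩ := fam_bounds (charge_fam hf hc h0)
  refine tendsto_nhds_unique (left_lim hf.continuous hc hC) ?_
  refine Tendsto.congr' ?_ (right_lim hf.continuous hc h0)
  filter_upwards [eventually_gt_atTop 0] with T hT
  refine intervalIntegral.integral_congr_ae ?_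
  refine Eventually.of_forall fun t ht => ?_
  rw [uIoc_of_le hT.le] at ht
  exact (heat_fourier hf.continuous hc t ht.1).symm

end RP4
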