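import Pool.Agent.Helper63.RP4.C1

/-!
C2.  Rigidity: inequalities for one function of the class `RPSym`.
-/

open Real Set Filter Topology MeasureTheory

namespace RP4

/-- `2 - 2 cos a`, close to `a²` -/
noncomputable def sq (a : ℝ) : ℝ := 2 - 2 * cos a

lemma sq_nonneg' (a : ℝ) : 0 ≤ sq a := by
  unfold sq
  linarith [cos_le_one a]

lemma sq_le (a : ℝ) : sq a ≤ a ^ 2 := by
  unfold sq
  linarith [one_sub_sq_div_two_le_cos (x := a)]

private lemma C2_sin_ge {x : ℝ} (hx : 0 ≤ x) : x - x ^ 3 / 6 ≤ sin x := by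
  have hd : ∀ y : ℝ, HasDerivAt (fun y : ℝ => sin y - y + y ^ 3 / 6) (cos y - 1 + y ^ 2 / 2) y := by
    intro y
    have h1 : HasDerivAt (fun y : ℝ => sin y - y + y ^ 3 / 6)
        (cos y - 1 + (3 : ℕ) * y ^ (3 - 1) / 6) y :=
      ((hasDerivAt_sin y).sub (hasDerivAt_id' y)).add ((hasDerivAt_pow 3 y).div_const 6)
    refine h1.congr_deriv ?_
    norm_num
    ring
  have hm : Monotone (fun y : ℝ => sin y - y + y ^ 3 / 6) := by
    apply monotone_of_deriv_nonneg (fun y => (hd y).differentiableAt)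
    intro y
    rw [(hd y).deriv]
    linarith [one_sub_sq_div_two_le_cos (x := y)]
  have h0 := hm hx
  simp only [sin_zero] at h0
  linarith

private lemma C2_cos_le {x : ℝ} (hx : 0 ≤ x) : cos x ≤ 1 - x ^ 2 / 2 + x ^ 4 / 24 := by
  have hd : ∀ y : ℝ, HasDerivAt (fun y : ℝ => 1 - y ^ 2 / 2 + y ^ 4 / 24 - cos y)
      (sin y - y + y ^ 3 / 6) y := by
    intro y
    have h1 : HasDerivAt (fun y : ℝ => 1 - y ^ 2 / 2 + y ^ 4 / 24 - cos y)
        (0 - (2 : ℕ) * y ^ (2 - 1) / 2 + (4 : ℕ) * y ^ (4 - 1) / 24 - - sin y) y :=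
      (((hasDerivAt_const y (1 : ℝ)).sub ((hasDerivAt_pow 2 y).div_const 2)).add
        ((hasDerivAt_pow 4 y).div_const 24)).sub (hasDerivAt_cos y)
    refine h1.congr_deriv ?_
    norm_num
    ring
  have hm : MonotoneOn (fun y : ℝ => 1 - y ^ 2 / 2 + y ^ 4 / 24 - cos y) (Ici 0) := by
    apply monotoneOn_of_deriv_nonneg (convex_Ici 0)
    · exact fun y _ => (hd y).continuousAt.continuousWithinAt
    · exact fun y _ => (hd y).differentiableAt.differentiableWithinAt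
    · intro y hy
      rw [interior_Ici] at hy
      rw [(hd y).deriv]
      linarith [C2_sin_ge (le_of_lt hy)]
  have h0 := hm (mem_Ici.2 le_rfl) (mem_Ici.2 hx) hx
  simp only [cos_zero] at h0
  linarith

/-- `cos a ≤ 1 - a²/2 + a⁴/24` -/
lemma le_sq (a : ℝ) : a ^ 2 * (1 - a ^ 2 / 12) ≤ sq a := by
  have h1 := C2_cos_le (abs_nonneg a)
  rw [cos_abs, sq_abs] at h1
  have h2 : |a| ^ 4 = (a ^ 2) ^ 2 := by
    rw [← sq_abs a]
    ring
  rw [h2] at h1
  unfold sq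
  linarith

lemma sq_mono {a b : ℝ} (ha : 0 ≤ a) (hab : a ≤ b) (hb : b ≤ π) : sq a ≤ sq b := by
  unfold sq
  linarith [cos_le_cos_of_nonneg_of_le_pi ha hb hab]

lemma RPSym.neg2 {S : ℝ → ℝ → ℝ} (h : RPSym S) (a b : ℝ) : S a (-b) = S a b := by
  rw [h.swap (-b) a, h.even, h.swap a b]

private lemma C2_sq_neg (a : ℝ) : sq (-a) = sq a := by
  unfold sq
  rw [cos_neg]

private lemma C2_sq_abs (a : ℝ) : sq |a| = sq a := by
  unfold sq
  rw [cos_abs]

private lemma C2_sq_lt {a b : ℝ} (ha : 0 ≤ a) (hab : a < b) (hb : b ≤ π / 2) : sq a < sq b := by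
  unfold sq
  linarith [cos_lt_cos_of_nonneg_of_le_pi ha (by linarith [pi_pos] : b ≤ π) hab]

private lemma C2_sq_zero : sq 0 = 0 := by
  unfold sq
  rw [cos_zero]
  ring

private lemma C2_sq_four (a : ℝ) : sq a ≤ 4 := by
  unfold sq
  linarith [neg_one_le_cos a]

private lemma C2_upper {T : ℝ → ℝ → ℝ} (hpos : ∀ a b, 0 < T a b) (heven : ∀ a b, T (-a) b = T a b)
    (hswap : ∀ a b, T b a = T a b)
    (haxis : ∀ b a a' a'' r : ℝ, 0 ≤ r → r ≤ 1 → cos a = (1 - r) * cos a' + r * cos a'' →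
      (1 - r) / T a' b + r / T a'' b ≤ 1 / T a b)
    {K a₀ : ℝ} (hK : 0 < K) (ha₀ : 0 < a₀)
    (ha₀' : a₀ ≤ π / 2) (hax : ∀ x, 0 < x → x ≤ a₀ → sq x * T x 0 ≤ K) {a b : ℝ}
    (ha : |a| ≤ a₀) (hb : |b| ≤ a₀) :
    (sq a + sq b - sq a * sq b * (1 / sq a₀ + 1 / 4)) * T a b ≤ K := by
  -- reduction to nonnegative arguments
  have hT : T a b = T |a| |b| := by
    have h1 : ∀ x y : ℝ, T |x| y = T x y := by
      intro x y
      rcases abs_choice x with h | h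
      · rw [h]
      · rw [h, heven]
    rw [h1 a, hswap |b| a, h1 b, hswap a b]
  rw [hT, ← C2_sq_abs a, ← C2_sq_abs b]
  have ha0 := abs_nonneg a
  have hb0 := abs_nonneg b
  generalize |a| = a at *
  generalize |b| = b at *
  have hs : 0 < sq a₀ := by
    have := C2_sq_lt le_rfl ha₀ ha₀'
    rwa [C2_sq_zero] at this
  have hsa := sq_nonneg' a
  have hsb := sq_nonneg' b
  have hsaa : sq a ≤ sq a₀ := sq_mono ha0 ha (by linarith [pi_pos])
  set r := sq a / sq a₀ with hr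
  have hr0 : 0 ≤ r := div_nonneg hsa hs.le
  have hr1 : r ≤ 1 := (div_le_one hs).2 hsaa
  have hrs : r * sq a₀ = sq a := div_mul_cancel₀ _ hs.ne'
  have e1 := haxis b a 0 a₀ r hr0 hr1 (by
    rw [cos_zero]
    unfold sq at hrs
    linarith)
  have e2 := haxis a₀ b 0 π (sq b / 4) (by linarith) (by linarith [C2_sq_four b]) (by
    rw [cos_zero, cos_pi]
    unfold sq
    ring)
  rw [hswap a₀ b] at e2
  have e3 : sq a₀ / K ≤ 1 / T 0 a₀ := by
    rw [div_le_div_iff₀ hK (hpos _ _), one_mul, hswap a₀ 0]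
    exact hax a₀ ha₀ le_rfl
  have e4 : sq b / K ≤ 1 / T 0 b := by
    rcases hb0.eq_or_lt with h | h
    · rw [← h, C2_sq_zero, zero_div]
      exact (one_div_pos.2 (hpos _ _)).le
    · rw [div_le_div_iff₀ hK (hpos _ _), one_mul, hswap b 0]
      exact hax b h hb
  have e5 : (1 - sq b / 4) * (sq a₀ / K) ≤ 1 / T a₀ b := by
    have h1 : (1 - sq b / 4) * (sq a₀ / K) ≤ (1 - sq b / 4) * (1 / T 0 a₀) :=
      mul_le_mul_of_nonneg_left e3 (by linarith [C2_sq_four b])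
    have h2 : 0 ≤ sq b / 4 / T π a₀ := div_nonneg (by linarith) (hpos _ _).le
    have h3 : (1 - sq b / 4) / T 0 a₀ = (1 - sq b / 4) * (1 / T 0 a₀) := by ring
    linarith
  have e6 : (1 - r) * (sq b / K) + r * ((1 - sq b / 4) * (sq a₀ / K)) ≤ 1 / T a b := by
    have h1 := mul_le_mul_of_nonneg_left e4 (by linarith : 0 ≤ 1 - r)
    have h2 := mul_le_mul_of_nonneg_left e5 hr0
    have h3 : (1 - r) / T 0 b = (1 - r) * (1 / T 0 b) := by ring
    have h4 : r / T a₀ b = r * (1 / T a₀ b) := by ring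
    linarith
  have e7 : (1 - r) * (sq b / K) + r * ((1 - sq b / 4) * (sq a₀ / K)) =
      (sq a + sq b - sq a * sq b * (1 / sq a₀ + 1 / 4)) / K := by
    rw [hr]
    field_simp
    ring
  rw [e7, div_le_div_iff₀ hK (hpos _ _), one_mul] at e6
  exact e6

/-
`r = sq a / sq a₀ ∈ [0,1]`, `cos a = (1-r) cos 0 + r cos a₀`: `axis` gives `1/S a b ≥ (1-r)/S 0 b + r/S a₀ b`.
`S 0 b = S b 0 ≤ K / sq b` (`hax` at `|b|`; if `b = 0` this term has the factor `sq b = 0` in the claim: use `≥ 0`).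
`cos b = (1-r') cos 0 + r' cos π`, `r' = sq b / 4`: `axis` (after `swap`) gives
`1/S a₀ b ≥ (1 - sq b / 4)/S a₀ 0 ≥ (1 - sq b / 4) sq a₀ / K`.
Sum: `1/S a b ≥ (sq a + sq b - sq a sq b (1/sq a₀ + 1/4)) / K`.
-/
theorem upper_axis {S : ℝ → ℝ → ℝ} (h : RPSym S) {K a₀ : ℝ} (hK : 0 < K) (ha₀ : 0 < a₀)
    (ha₀' : a₀ ≤ π / 2) (hax : ∀ x, 0 < x → x ≤ a₀ → sq x * S x 0 ≤ K) {a b : ℝ}
    (ha : |a| ≤ a₀) (hb : |b| ≤ a₀) :
    (sq a + sq b - sq a * sq b * (1 / sq a₀ + 1 / 4)) * S a b ≤ K :=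
  C2_upper h.pos h.even h.swap h.axis hK ha₀ ha₀' hax ha hb

/-
The same with `diag`: fixed `q`, `cos p` between `cos 0` and `cos p₀`, `S (0+q) (0-q) = S q q`; and for
`S (p₀+q) (p₀-q) = S (q+p₀) (q-p₀)` (`neg2`) fixed `p₀`, `cos q` between `cos 0` and `cos π`.
-/
theorem upper_diag {S : ℝ → ℝ → ℝ} (h : RPSym S) {K p₀ : ℝ} (hK : 0 < K) (hp₀ : 0 < p₀)
    (hp₀' : p₀ ≤ π / 2) (hdg : ∀ x, 0 < x → x ≤ p₀ → 2 * sq x * S x x ≤ K) {p q : ℝ}
    (hp : |p| ≤ p₀) (hq : |q| ≤ p₀) :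
    (2 * sq p + 2 * sq q - 2 * (sq p * sq q) * (1 / sq p₀ + 1 / 4)) * S (p + q) (p - q) ≤ K := by
  have h1 := C2_upper (T := fun p q => S (p + q) (p - q)) (fun a b => h.pos _ _)
    (fun a b => by
      have e1 : -a + b = -(a - b) := by ring
      have e2 : -a - b = -(a + b) := by ring
      rw [e1, e2, h.even, h.neg2, h.swap (a + b) (a - b)])
    (fun a b => by
      have e1 : b + a = a + b := by ring
      have e2 : b - a = -(a - b) := by ring
      rw [e1, e2, h.neg2])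
    (fun b a a' a'' r => h.diag b a a' a'' r) (half_pos hK) hp₀ hp₀'
    (fun x hx0 hx => by
      rw [add_zero, sub_zero]
      linarith [hdg x hx0 hx]) hp hq
  linarith

/-
`r = (sq b - sq a)/(sq η - sq a) ≤ sq b / sq η < 1`, `cos b = (1-r) cos a + r cos η`.  `axis` with fixed second argument `b`:
`(1-r)/S a b + r/S η b ≤ 1/S b b ≤ 2 sq b / L`, `1/S η b ≥ (sq η + sq b)/K`, and `2 sq b = (1-r)(sq a + sq b) + r (sq η + sq b)`, so
`(1-r)/S a b ≤ 2 sq b (1/L - 1/K) + (1-r)(sq a + sq b)/K`.  Divide by `1 - r ≥ 1 - sq b/sq η`.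
-/
theorem lower_one {S : ℝ → ℝ → ℝ} (h : RPSym S) {K L η a b : ℝ} (hL : 0 < L) (hLK : L ≤ K)
    (hη : η ≤ π / 2) (ha : 0 ≤ a) (hab : a ≤ b) (hb : 0 < b) (hbη : b < η)
    (hup : (sq η + sq b) * S η b ≤ K) (hlow : L ≤ 2 * sq b * S b b) :
    1 / S a b ≤ (sq a + sq b) / K + 2 * sq b * (1 / L - 1 / K) / (1 - sq b / sq η) := by
  have hK : 0 < K := hL.trans_le hLK
  have hsa := sq_nonneg' a
  have hsb := sq_nonneg' b
  have hab' : sq a ≤ sq b := sq_mono ha hab (by linarith [pi_pos])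
  have hbη' : sq b < sq η := C2_sq_lt hb.le hbη hη
  have hη0 : 0 < sq η := hsb.trans_lt hbη'
  have hd : 0 < sq η - sq a := by linarith
  set r := (sq b - sq a) / (sq η - sq a) with hr
  have hr0 : 0 ≤ r := div_nonneg (by linarith) hd.le
  have hr1 : r ≤ sq b / sq η := by
    rw [hr, div_le_div_iff₀ hd hη0]
    nlinarith
  have hq1 : sq b / sq η < 1 := (div_lt_one hη0).2 hbη'
  have hrs : r * (sq η - sq a) = sq b - sq a := div_mul_cancel₀ _ hd.ne'
  have e1 := h.axis b b a η r hr0 (by linarith) (by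
    unfold sq at hrs
    linarith)
  have e2 : 1 / S b b ≤ 2 * sq b / L := by
    rw [div_le_div_iff₀ (h.pos _ _) hL, one_mul]
    exact hlow
  have e3 : (sq η + sq b) / K ≤ 1 / S η b := by
    rw [div_le_div_iff₀ hK (h.pos _ _), one_mul]
    exact hup
  have e4 : (1 - r) / S a b ≤ 2 * sq b * (1 / L - 1 / K) + (1 - r) * ((sq a + sq b) / K) := by
    have h1 := mul_le_mul_of_nonneg_left e3 hr0
    have h2 : r / S η b = r * (1 / S η b) := by ring
    have h3 : r * ((sq η + sq b) / K) = 2 * sq b / K - (1 - r) * ((sq a + sq b) / K) := by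
      field_simp
      linarith
    have h4 : 2 * sq b * (1 / L - 1 / K) = 2 * sq b / L - 2 * sq b / K := by ring
    linarith
  have hr2 : 0 < 1 - r := by linarith
  have hq2 : 0 < 1 - sq b / sq η := by linarith
  have hLK' : 0 ≤ 1 / L - 1 / K := by
    rw [sub_nonneg]
    exact one_div_le_one_div_of_le hL hLK
  have e5 : 1 / S a b ≤ (sq a + sq b) / K + 2 * sq b * (1 / L - 1 / K) / (1 - r) := by
    have h1 : 1 / S a b = ((1 - r) / S a b) / (1 - r) := by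
      field_simp
    have h2 : (sq a + sq b) / K + 2 * sq b * (1 / L - 1 / K) / (1 - r) =
        (2 * sq b * (1 / L - 1 / K) + (1 - r) * ((sq a + sq b) / K)) / (1 - r) := by
      field_simp
      ring
    rw [h1, h2]
    exact div_le_div_of_nonneg_right e4 hr2.le
  have e6 : 2 * sq b * (1 / L - 1 / K) / (1 - r) ≤
      2 * sq b * (1 / L - 1 / K) / (1 - sq b / sq η) :=
    div_le_div_of_nonneg_left (by positivity) hq2 (by linarith)
  linarith

/-- intermediate statement -/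
structure PreTwo (S : ℕ → ℝ → ℝ → ℝ) (K : ℝ) : Prop where
  nonneg : 0 ≤ K
  upper : ∀ ε > 0, ∃ η > 0, ∃ N : ℕ, ∀ n ≥ N, ∀ a b : ℝ, 0 < a ^ 2 + b ^ 2 → a ^ 2 + b ^ 2 ≤ η ^ 2 →
    (a ^ 2 + b ^ 2) * S n a b ≤ K + ε
  dlow : ∀ ε > 0, ∀ τ > 0, ∃ N : ℕ, ∀ n ≥ N, ∀ b : ℝ, τ ≤ b → b ≤ π / 4 →
    K - ε ≤ 2 * sq b * S n b b

/-- upper bound in a neighbourhood of `0`, from the bound of the quadratic form -/
private lemma C2b_alg {K ε δ r T s : ℝ} (hK : 0 ≤ K) (hε : 0 < ε)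
    (hδ : δ ≤ ε / 2 / (K + ε)) (hs : 0 ≤ s)
    (hT : r * (1 - δ) ≤ T) (h : T * s ≤ K + ε / 2) : r * s ≤ K + ε := by
  have hKε : 0 < K + ε := by linarith
  have h1 : δ * (K + ε) ≤ ε / 2 := by rwa [le_div_iff₀ hKε] at hδ
  have h2 : δ ≤ 1 / 2 := by
    by_contra hcon
    push Not at hcon
    nlinarith
  have h3 : r * (1 - δ) * s ≤ K + ε / 2 := (mul_le_mul_of_nonneg_right hT hs).trans h
  have h4 : (r * s) * (1 - δ) ≤ (K + ε) * (1 - δ) := by nlinarith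
  exact le_of_mul_le_mul_right h4 (by linarith)

private lemma C2b_eta {K ε a₀ c : ℝ} (hK : 0 ≤ K) (hε : 0 < ε) (ha₀ : 0 < a₀) (hc : 0 < c) :
    ∃ η > 0, η ≤ a₀ ∧ η ^ 2 * (1 / 12 + c) ≤ ε / 2 / (K + ε) := by
  have hKε : 0 < K + ε := by linarith
  have hd : 0 < ε / 2 / (K + ε) / (1 / 12 + c) := by positivity
  refine ⟨min a₀ (min 1 (ε / 2 / (K + ε) / (1 / 12 + c))), lt_min ha₀ (lt_min one_pos hd),
    min_le_left _ _, ?_⟩
  set η := min a₀ (min 1 (ε / 2 / (K + ε) / (1 / 12 + c))) with hη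
  have h0 : 0 < η := lt_min ha₀ (lt_min one_pos hd)
  have h1 : η ≤ 1 := (min_le_right _ _).trans (min_le_left _ _)
  have h2 : η ≤ ε / 2 / (K + ε) / (1 / 12 + c) := (min_le_right _ _).trans (min_le_right _ _)
  rw [le_div_iff₀ (by positivity)] at h2
  refine le_trans ?_ h2
  have h3 : η ^ 2 ≤ η := by nlinarith
  exact mul_le_mul_of_nonneg_right h3 (by positivity)

/-- the quadratic form is close to its leading part -/
private lemma C2b_form {a b η c : ℝ} (hc : 0 ≤ c) (ha : a ^ 2 ≤ η ^ 2) (hb : b ^ 2 ≤ η ^ 2) :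
    (a ^ 2 + b ^ 2) * (1 - η ^ 2 * (1 / 12 + c)) ≤ sq a + sq b - sq a * sq b * c := by
  have h1 := le_sq a
  have h2 := le_sq b
  have h3 : sq a * sq b ≤ a ^ 2 * η ^ 2 :=
    mul_le_mul (sq_le a) ((sq_le b).trans hb) (sq_nonneg' b) (sq_nonneg a)
  have h4 : sq a * sq b * c ≤ a ^ 2 * η ^ 2 * c := mul_le_mul_of_nonneg_right h3 hc
  have h5 : a ^ 2 * (1 - η ^ 2 / 12) ≤ a ^ 2 * (1 - a ^ 2 / 12) :=
    mul_le_mul_of_nonneg_left (by linarith) (sq_nonneg a)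
  have h6 : b ^ 2 * (1 - η ^ 2 / 12) ≤ b ^ 2 * (1 - b ^ 2 / 12) :=
    mul_le_mul_of_nonneg_left (by linarith) (sq_nonneg b)
  have h7 : 0 ≤ b ^ 2 * η ^ 2 * c := by positivity
  nlinarith

private lemma C2b_sq_pos {a : ℝ} (ha : 0 < a) (ha' : a ≤ π / 2) : 0 < sq a := by
  have h1 := le_sq a
  have h2 : a ≤ 2 := by
    have := pi_le_four
    linarith
  have h3 : 0 < a ^ 2 * (1 - a ^ 2 / 12) := by
    apply mul_pos (by positivity)
    nlinarith
  linarith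

private lemma C2b_mono_a {S : ℝ → ℝ → ℝ} (h : RPSym S) {a a' : ℝ} (ha : 0 ≤ a) (haa : a ≤ a')
    (ha' : a' ≤ π) : sq a * S a 0 ≤ sq a' * S a' 0 := by
  have h1 := harnack_up h (b := 0) (cos_le_cos_of_nonneg_of_le_pi ha ha' haa)
  unfold sq
  nlinarith

private lemma C2b_mono_d {S : ℝ → ℝ → ℝ} (h : RPSym S) {a a' : ℝ} (ha : 0 ≤ a) (haa : a ≤ a')
    (ha' : a' ≤ π) : 2 * sq a * S a a ≤ 2 * sq a' * S a' a' := by
  have h1 := harnack_up_diag h (b := 0) (cos_le_cos_of_nonneg_of_le_pi ha ha' haa)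
  rw [add_zero, sub_zero, add_zero, sub_zero] at h1
  unfold sq
  nlinarith

/-- upper bound from the axis -/
private lemma C2b_upA {S : ℕ → ℝ → ℝ → ℝ} (hS : ∀ n, RPSym (S n)) {K : ℝ} (hK : 0 ≤ K)
    (h : ∀ ε > 0, ∃ a₀ > 0, a₀ ≤ π / 2 ∧ ∃ N : ℕ, ∀ n ≥ N, sq a₀ * S n a₀ 0 ≤ K + ε) :
    ∀ ε > 0, ∃ η > 0, ∃ N : ℕ, ∀ n ≥ N, ∀ a b : ℝ, 0 < a ^ 2 + b ^ 2 → a ^ 2 + b ^ 2 ≤ η ^ 2 →
      (a ^ 2 + b ^ 2) * S n a b ≤ K + ε := by
  intro ε hε
  obtain ⟨a₀, ha₀, ha₀', N, hN⟩ := h (ε / 2) (half_pos hε)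
  have hq := C2b_sq_pos ha₀ ha₀'
  have hc : 0 < 1 / sq a₀ + 1 / 4 := by positivity
  obtain ⟨η, hη, hηa, hηc⟩ := C2b_eta hK hε ha₀ hc
  refine ⟨η, hη, N, fun n hn a b _ hab => ?_⟩
  have hax : ∀ x, 0 < x → x ≤ a₀ → sq x * S n x 0 ≤ K + ε / 2 := fun x hx hxa =>
    (C2b_mono_a (hS n) hx.le hxa (by linarith [pi_pos])).trans (hN n hn)
  have ha2 : a ^ 2 ≤ η ^ 2 := by nlinarith [sq_nonneg b]
  have hb2 : b ^ 2 ≤ η ^ 2 := by nlinarith [sq_nonneg a]
  have h1 := upper_axis (hS n) (K := K + ε / 2) (by linarith) ha₀ ha₀' hax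
    ((abs_le_of_sq_le_sq ha2 hη.le).trans hηa) ((abs_le_of_sq_le_sq hb2 hη.le).trans hηa)
  exact C2b_alg hK hε hηc ((hS n).pos a b).le (C2b_form hc.le ha2 hb2) h1

/-- upper bound from the diagonal -/
private lemma C2b_upB {S : ℕ → ℝ → ℝ → ℝ} (hS : ∀ n, RPSym (S n)) {K : ℝ} (hK : 0 ≤ K)
    (h : ∀ ε > 0, ∃ a₀ > 0, a₀ ≤ π / 2 ∧ ∃ N : ℕ, ∀ n ≥ N, 2 * sq a₀ * S n a₀ a₀ ≤ K + ε) :
    ∀ ε > 0, ∃ η > 0, ∃ N : ℕ, ∀ n ≥ N, ∀ a b : ℝ, 0 < a ^ 2 + b ^ 2 → a ^ 2 + b ^ 2 ≤ η ^ 2 →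
      (a ^ 2 + b ^ 2) * S n a b ≤ K + ε := by
  intro ε hε
  obtain ⟨a₀, ha₀, ha₀', N, hN⟩ := h (ε / 2) (half_pos hε)
  have hq := C2b_sq_pos ha₀ ha₀'
  have hc : 0 < 1 / sq a₀ + 1 / 4 := by positivity
  obtain ⟨η, hη, hηa, hηc⟩ := C2b_eta hK hε ha₀ hc
  refine ⟨η, hη, N, fun n hn a b _ hab => ?_⟩
  have hdg : ∀ x, 0 < x → x ≤ a₀ → 2 * sq x * S n x x ≤ K + ε / 2 := fun x hx hxa =>
    (C2b_mono_d (hS n) hx.le hxa (by linarith [pi_pos])).trans (hN n hn)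
  have hp2 : ((a + b) / 2) ^ 2 ≤ η ^ 2 := by nlinarith [sq_nonneg (a - b), sq_nonneg (a + b)]
  have hq2 : ((a - b) / 2) ^ 2 ≤ η ^ 2 := by nlinarith [sq_nonneg (a - b), sq_nonneg (a + b)]
  have h1 := upper_diag (hS n) (K := K + ε / 2) (by linarith) ha₀ ha₀' hdg
    ((abs_le_of_sq_le_sq hp2 hη.le).trans hηa) ((abs_le_of_sq_le_sq hq2 hη.le).trans hηa)
  have e1 : (a + b) / 2 + (a - b) / 2 = a := by ring
  have e2 : (a + b) / 2 - (a - b) / 2 = b := by ring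
  rw [e1, e2] at h1
  have h2 := C2b_form hc.le hp2 hq2
  refine C2b_alg hK hε hηc ((hS n).pos a b).le ?_ h1
  have e3 : a ^ 2 + b ^ 2 = 2 * (((a + b) / 2) ^ 2 + ((a - b) / 2) ^ 2) := by ring
  rw [e3]
  linarith

/-
`Ka n a := sq a * S n a 0`, `Kd n a := 2 * sq a * S n a a` (`0 < a ≤ π/4`): nondecreasing in `a` (`harnack_up`, `harnack_up_diag`
with `b = 0`), in `[0, C]` (`infrared`, `sq_le`).  `a_j = 2^{-j}/2`.  The sequence `n ↦ (Ka n a_j, Kd n a_j)_j` in the compact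
`Set.pi univ (Icc 0 C)` of `ℕ → ℝ × ℝ` (first countable: `IsCompact.tendsto_subseq`) has a convergent subsequence `φ`: limits
`A j`, `B j`, nonincreasing, `≥ 0`; `A`, `B` their infima.
Upper bound with `A`: given `ε` choose `j` with `A j < A + ε/4`, `a₀ = a_j`, `N` with `Ka (φ n) a₀ ≤ A + ε/2 =: K'` for `n ≥ N`; `upper_axis`;
for `|a|, |b| ≤ η`: `sq a * sq b ≤ (sq a + sq b) η²`, `sq a ≥ a² (1 - η²/12)`, so
`(a² + b²) S ≤ K' / ((1 - η²/12)(1 - η² (1/sq a₀ + 1/4))) ≤ A + ε` for `η` small.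
Upper bound with `B` in the same way: `a = p+q`, `b = p-q`, `2 sq p + 2 sq q ≥ 2 (p² + q²)(1 - η²/12) = (a² + b²)(1 - η²/12)`.
Evaluate the `A` bound at `(a_j, a_j)`: `B j ≤ A + ε` for all large `j`, so `B ≤ A`; evaluate the `B` bound at `(a_j, 0)`: `A ≤ B`.
`dlow`: `Kd n b ≥ Kd n a_j` for `a_j ≤ τ ≤ b`, and `Kd (φ n) a_j → B j ≥ K`.
-/
theorem pre_two (S : ℕ → ℝ → ℝ → ℝ) (hS : ∀ n, RPSym (S n)) (M : ℝ)
    (hM : ∀ n, ∫ k in box, (1 - cos k.1) * S n k.1 k.2 ≤ M) :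
    ∃ (φ : ℕ → ℕ) (K : ℝ), StrictMono φ ∧ PreTwo (fun n => S (φ n)) K := by
  obtain ⟨C, hC, hIR⟩ := infrared M
  set al : ℕ → ℝ := fun j => (1 / 2 : ℝ) ^ (j + 1) with hal
  have hal0 : ∀ j, 0 < al j := fun j => by positivity
  have hal1 : ∀ j, al j ≤ 1 / 2 := fun j => by
    have := pow_le_pow_of_le_one (show (0 : ℝ) ≤ 1 / 2 by norm_num) (by norm_num)
      (show 1 ≤ j + 1 by omega)
    rwa [pow_one] at this
  have hpi : (1 / 2 : ℝ) ≤ π / 4 := by
    have := pi_gt_three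
    linarith
  have hal2 : ∀ j, al j ≤ π / 4 := fun j => (hal1 j).trans hpi
  have halt : Tendsto al atTop (𝓝 0) := by
    have := tendsto_pow_atTop_nhds_zero_of_lt_one (show (0 : ℝ) ≤ 1 / 2 by norm_num)
      (by norm_num)
    exact this.comp (tendsto_add_atTop_nat 1)
  have halm : ∀ i j, i ≤ j → al j ≤ al i := fun i j hij =>
    pow_le_pow_of_le_one (show (0 : ℝ) ≤ 1 / 2 by norm_num) (by norm_num) (by omega)
  have hpos := pi_pos
  -- bounds
  have bA : ∀ n j, sq (al j) * S n (al j) 0 ∈ Icc 0 C := by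
    intro n j
    refine ⟨mul_nonneg (sq_nonneg' _) ((hS n).pos _ _).le, ?_⟩
    have h1 := hIR (S n) (hS n) (hM n) (al j) 0
      (by rw [abs_of_pos (hal0 j)]; linarith [hal2 j]) (by rw [abs_zero]; linarith)
    refine le_trans ?_ h1
    refine mul_le_mul_of_nonneg_right ?_ ((hS n).pos _ _).le
    have := sq_le (al j)
    nlinarith
  have bB : ∀ n j, 2 * sq (al j) * S n (al j) (al j) ∈ Icc 0 C := by
    intro n j
    refine ⟨mul_nonneg (mul_nonneg zero_le_two (sq_nonneg' _)) ((hS n).pos _ _).le, ?_⟩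
    have h1 := hIR (S n) (hS n) (hM n) (al j) (al j)
      (by rw [abs_of_pos (hal0 j)]; linarith [hal2 j])
      (by rw [abs_of_pos (hal0 j)]; linarith [hal2 j])
    refine le_trans ?_ h1
    refine mul_le_mul_of_nonneg_right ?_ ((hS n).pos _ _).le
    have := sq_le (al j)
    nlinarith
  -- subsequence
  set X : ℕ → (ℕ → ℝ × ℝ) := fun n j =>
    (sq (al j) * S n (al j) 0, 2 * sq (al j) * S n (al j) (al j)) with hX
  have hcpt : IsCompact (Set.pi univ (fun _ : ℕ => (Icc (0 : ℝ) C ×ˢ Icc (0 : ℝ) C))) :=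
    isCompact_univ_pi (fun _ => isCompact_Icc.prod isCompact_Icc)
  obtain ⟨L, hL, φ, hφ, hlim⟩ := hcpt.tendsto_subseq (x := X)
    (fun n j _ => Set.mk_mem_prod (bA n j) (bB n j))
  have hlA : ∀ j, Tendsto (fun n => sq (al j) * S (φ n) (al j) 0) atTop (𝓝 (L j).1) := by
    intro j
    exact (continuous_fst.tendsto _).comp ((tendsto_pi_nhds.1 hlim) j)
  have hlB : ∀ j, Tendsto (fun n => 2 * sq (al j) * S (φ n) (al j) (al j)) atTop
      (𝓝 (L j).2) := by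
    intro j
    exact (continuous_snd.tendsto _).comp ((tendsto_pi_nhds.1 hlim) j)
  have hA0 : ∀ j, 0 ≤ (L j).1 := fun j => (hL j (mem_univ _)).1.1
  have hB0 : ∀ j, 0 ≤ (L j).2 := fun j => (hL j (mem_univ _)).2.1
  have hbA : BddBelow (range fun j => (L j).1) := ⟨0, by rintro _ ⟨j, rfl⟩; exact hA0 j⟩
  have hbB : BddBelow (range fun j => (L j).2) := ⟨0, by rintro _ ⟨j, rfl⟩; exact hB0 j⟩
  set KA : ℝ := ⨅ j, (L j).1 with hKA
  set KB : ℝ := ⨅ j, (L j).2 with hKB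
  have hKA0 : 0 ≤ KA := le_ciInf hA0
  have hKB0 : 0 ≤ KB := le_ciInf hB0
  have hS' : ∀ n, RPSym ((fun n => S (φ n)) n) := fun n => hS (φ n)
  have upA := C2b_upA (S := fun n => S (φ n)) hS' hKA0 (by
    intro ε hε
    obtain ⟨j, hj⟩ := exists_lt_of_ciInf_lt (show (⨅ j, (L j).1) < KA + ε / 2 by
      rw [← hKA]; linarith)
    refine ⟨al j, hal0 j, by linarith [hal2 j], ?_⟩
    obtain ⟨N, hN⟩ := eventually_atTop.1 ((hlA j).eventually_lt_const
      (show (L j).1 < KA + ε by linarith))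
    exact ⟨N, fun n hn => (hN n hn).le⟩)
  have upB := C2b_upB (S := fun n => S (φ n)) hS' hKB0 (by
    intro ε hε
    obtain ⟨j, hj⟩ := exists_lt_of_ciInf_lt (show (⨅ j, (L j).2) < KB + ε / 2 by
      rw [← hKB]; linarith)
    refine ⟨al j, hal0 j, by linarith [hal2 j], ?_⟩
    obtain ⟨N, hN⟩ := eventually_atTop.1 ((hlB j).eventually_lt_const
      (show (L j).2 < KB + ε by linarith))
    exact ⟨N, fun n hn => (hN n hn).le⟩)
  -- `KB ≤ KA`
  have hBA : KB ≤ KA := by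
    refine le_of_forall_pos_le_add fun ε hε => ?_
    obtain ⟨η, hη, N, hN⟩ := upA ε hε
    obtain ⟨j, hj⟩ := (halt.eventually_lt_const (show (0 : ℝ) < η / 2 by linarith)).exists
    refine (ciInf_le hbB j).trans ?_
    refine le_of_tendsto (hlB j) ?_
    filter_upwards [eventually_ge_atTop N] with n hn
    have h1 := hN n hn (al j) (al j) (by have := hal0 j; positivity) (by
      have := hal0 j
      nlinarith)
    refine le_trans ?_ h1
    refine mul_le_mul_of_nonneg_right ?_ ((hS (φ n)).pos _ _).le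
    have := sq_le (al j)
    nlinarith
  have hAB : KA ≤ KB := by
    refine le_of_forall_pos_le_add fun ε hε => ?_
    obtain ⟨η, hη, N, hN⟩ := upB ε hε
    obtain ⟨j, hj⟩ := (halt.eventually_lt_const (show (0 : ℝ) < η / 2 by linarith)).exists
    refine (ciInf_le hbA j).trans ?_
    refine le_of_tendsto (hlA j) ?_
    filter_upwards [eventually_ge_atTop N] with n hn
    have h1 := hN n hn (al j) 0 (by have := hal0 j; positivity) (by
      have := hal0 j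
      nlinarith)
    refine le_trans ?_ h1
    refine mul_le_mul_of_nonneg_right ?_ ((hS (φ n)).pos _ _).le
    have := sq_le (al j)
    nlinarith
  refine ⟨φ, KA, hφ, hKA0, upA, ?_⟩
  intro ε hε τ hτ
  obtain ⟨j, hj⟩ := (halt.eventually_lt_const hτ).exists
  have hKBj : KB ≤ (L j).2 := ciInf_le hbB j
  obtain ⟨N, hN⟩ := eventually_atTop.1 ((hlB j).eventually_const_lt
    (show KA - ε < (L j).2 by linarith))
  refine ⟨N, fun n hn b hb hb' => ?_⟩
  exact (hN n hn).le.trans (C2b_mono_d (hS (φ n)) (hal0 j).le (hj.le.trans hb) (by linarith))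

/-
`nonneg`, `upper`: the same.  `lower`: if `K ≤ ε` trivial (`S > 0`).  Otherwise `ε₁ = min (1/2) (ε/(16 K))`; `upper` with `K ε₁` gives `η₀`, `N₀`:
`(sq a + sq b) S ≤ (a² + b²) S ≤ K(1+ε₁) =: K'` for `0 < |k| ≤ η₀` (`η₀ ≤ 1` wlog).  `η := η₀/2`, `η₁ := η/4` (then `sq b / sq η ≤ 1/2` for
`0 ≤ b ≤ η₁`: `sq b ≤ b²`, `sq η ≥ η² · 11/12`).  Given `τ` (wlog `τ ≤ η₁`): `dlow` with `K ε₁`, `τ/2` gives `N`; `L := K(1-ε₁)`.
For `n ≥ N`, `τ² ≤ a² + b² ≤ η₁²`: by `even`, `swap`, `neg2` wlog `0 ≤ a ≤ b`, `b ≥ τ/2`; `lower_one`: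
`1/S a b ≤ (sq a + sq b) (1/K' + 4 (1/L - 1/K'))` (`2 sq b ≤ 2 (sq a + sq b)`, `1 - sq b/sq η ≥ 1/2`), and
`1/K' + 4 (1/L - 1/K') ≤ (1 + 16 ε₁)/K ≤ 1/(K - ε)`.  Hence `(a²+b²) S ≥ (sq a + sq b) S ≥ K - ε`.
-/
theorem pre_to_two {S : ℕ → ℝ → ℝ → ℝ} (hS : ∀ n, RPSym (S n)) {K : ℝ} (h : PreTwo S K) :
    TwoPoint S K := by
  refine ⟨h.nonneg, h.upper, ?_⟩
  intro ε hε
  rcases le_or_gt K ε with hK | hK
  · refine ⟨1, one_pos, fun τ _ => ⟨0, fun n _ a b _ _ => ?_⟩⟩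
    have h1 := ((hS n).pos a b).le
    have h2 : 0 ≤ (a ^ 2 + b ^ 2) * S n a b := by positivity
    linarith
  have hK0 : 0 < K := hε.trans hK
  set x : ℝ := ε / (16 * K) with hx
  have hx0 : 0 < x := by positivity
  have hxK : 16 * x * K = ε := by
    rw [hx]
    field_simp
  have hx1 : x ≤ 1 / 16 := by
    rw [hx, div_le_div_iff₀ (by positivity) (by norm_num)]
    linarith
  obtain ⟨η₀, hη₀, N₀, hup⟩ := h.upper (K * x) (by positivity)
  set θ : ℝ := min η₀ 1 with hθ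
  have hθ0 : 0 < θ := lt_min hη₀ one_pos
  have hθ1 : θ ≤ 1 := min_le_right _ _
  have hθ2 : θ ≤ η₀ := min_le_left _ _
  have hpi := pi_gt_three
  refine ⟨θ / 8, by positivity, fun τ hτ => ?_⟩
  obtain ⟨N₁, hlow⟩ := h.dlow (K * x) (by positivity) (τ / 2) (by positivity)
  refine ⟨max N₀ N₁, fun n hn => ?_⟩
  have hn0 : N₀ ≤ n := le_trans (le_max_left _ _) hn
  have hn1 : N₁ ≤ n := le_trans (le_max_right _ _) hn
  -- the ordered case
  have key : ∀ a b : ℝ, 0 ≤ a → a ≤ b → τ ^ 2 ≤ a ^ 2 + b ^ 2 → a ^ 2 + b ^ 2 ≤ (θ / 8) ^ 2 →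
      K - ε ≤ (a ^ 2 + b ^ 2) * S n a b := by
    intro a b ha hab h1 h2
    have hb0 : 0 ≤ b := ha.trans hab
    have hbτ : τ / 2 ≤ b := by
      apply le_of_sq_le_sq _ hb0
      nlinarith
    have hb : 0 < b := by linarith
    have hbθ : b ≤ θ / 8 := by
      apply le_of_sq_le_sq _ (by positivity)
      nlinarith
    have hsη : (θ / 2) ^ 2 * (47 / 48) ≤ sq (θ / 2) := by
      refine le_trans ?_ (le_sq (θ / 2))
      apply mul_le_mul_of_nonneg_left _ (by positivity)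
      nlinarith
    have hsη0 : 0 < sq (θ / 2) := lt_of_lt_of_le (by positivity) hsη
    have hsb : sq b ≤ b ^ 2 := sq_le b
    have hsa : sq a ≤ a ^ 2 := sq_le a
    have hsa0 := sq_nonneg' a
    have hsb0 := sq_nonneg' b
    have hL : 0 < K * (1 - x) := by
      apply mul_pos hK0
      linarith
    have hK' : 0 < K * (1 + x) := by positivity
    have e0 := lower_one (hS n) (K := K * (1 + x)) (L := K * (1 - x)) (η := θ / 2) (a := a) (b := b)
      hL (by nlinarith) (by linarith) ha hab hb (by linarith)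
      (by
        have h3 := hup n hn0 (θ / 2) b (by positivity) (by nlinarith)
        have h4 : (sq (θ / 2) + sq b) * S n (θ / 2) b ≤ ((θ / 2) ^ 2 + b ^ 2) * S n (θ / 2) b :=
          mul_le_mul_of_nonneg_right (by linarith [sq_le (θ / 2)]) ((hS n).pos _ _).le
        linarith)
      (by
        have h3 := hlow n hn1 b hbτ (by linarith)
        linarith)
    have hq : sq b / sq (θ / 2) ≤ 1 / 2 := by
      rw [div_le_div_iff₀ hsη0 (by norm_num)]
      nlinarith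
    have hLK : 0 ≤ 1 / (K * (1 - x)) - 1 / (K * (1 + x)) := by
      rw [sub_nonneg]
      exact one_div_le_one_div_of_le hL (by nlinarith)
    have e1 : 2 * sq b * (1 / (K * (1 - x)) - 1 / (K * (1 + x))) / (1 - sq b / sq (θ / 2)) ≤
        4 * (sq a + sq b) * (1 / (K * (1 - x)) - 1 / (K * (1 + x))) := by
      rw [div_le_iff₀ (by linarith)]
      have h3 : 4 * (sq a + sq b) * (1 / (K * (1 - x)) - 1 / (K * (1 + x))) * (1 / 2) ≤
          4 * (sq a + sq b) * (1 / (K * (1 - x)) - 1 / (K * (1 + x))) * (1 - sq b / sq (θ / 2)) :=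
        mul_le_mul_of_nonneg_left (by linarith) (by positivity)
      have h4 : sq b * (1 / (K * (1 - x)) - 1 / (K * (1 + x))) ≤
          (sq a + sq b) * (1 / (K * (1 - x)) - 1 / (K * (1 + x))) :=
        mul_le_mul_of_nonneg_right (by linarith) hLK
      linarith
    have e2 : (sq a + sq b) / (K * (1 + x)) +
        4 * (sq a + sq b) * (1 / (K * (1 - x)) - 1 / (K * (1 + x))) ≤ (sq a + sq b) / (K - ε) := by
      have h3 : 1 / (K * (1 + x)) + 4 * (1 / (K * (1 - x)) - 1 / (K * (1 + x))) ≤ 1 / (K - ε) := by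
        have h4 : 1 / (K * (1 + x)) + 4 * (1 / (K * (1 - x)) - 1 / (K * (1 + x))) =
            (1 + 7 * x) / (K * (1 - x ^ 2)) := by
          have h5 : (1 + x) ≠ 0 := by linarith
          have h6 : (1 - x) ≠ 0 := by linarith
          have h7 : (1 - x ^ 2) ≠ 0 := by nlinarith
          have h8 : (1 - x ^ 2) = (1 - x) * (1 + x) := by ring
          rw [h8]
          field_simp
          ring
        have h9 : 0 < 1 - x ^ 2 := by nlinarith
        rw [h4, div_le_div_iff₀ (by positivity) (by linarith), ← hxK]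
        have h10 : (1 + 7 * x) * (1 - 16 * x) ≤ 1 - x ^ 2 := by nlinarith
        nlinarith
      have h11 := mul_le_mul_of_nonneg_left h3 (by linarith : 0 ≤ sq a + sq b)
      have h12 : (sq a + sq b) / (K - ε) = (sq a + sq b) * (1 / (K - ε)) := by ring
      have h13 : (sq a + sq b) / (K * (1 + x)) = (sq a + sq b) * (1 / (K * (1 + x))) := by ring
      rw [h12, h13]
      linarith
    have e3 : 1 / S n a b ≤ (sq a + sq b) / (K - ε) := by linarith
    rw [div_le_div_iff₀ ((hS n).pos a b) (by linarith), one_mul] at e3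
    have e4 : (sq a + sq b) * S n a b ≤ (a ^ 2 + b ^ 2) * S n a b :=
      mul_le_mul_of_nonneg_right (by linarith) ((hS n).pos a b).le
    linarith
  -- the general case
  intro a b h1 h2
  have hab : S n a b = S n |a| |b| := by
    have h3 : ∀ x y : ℝ, S n |x| y = S n x y := by
      intro x y
      rcases abs_choice x with h | h
      · rw [h]
      · rw [h, (hS n).even]
    rw [h3 a, (hS n).swap |b| a, h3 b, (hS n).swap a b]
  rw [hab, ← sq_abs a, ← sq_abs b]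
  rw [← sq_abs a, ← sq_abs b] at h1 h2
  rcases le_total |a| |b| with h3 | h3
  · exact key _ _ (abs_nonneg a) h3 h1 h2
  · have h4 := key _ _ (abs_nonneg b) h3 (by linarith) (by linarith)
    rw [(hS n).swap |a| |b|] at h4
    linarith

theorem two_point (S : ℕ → ℝ → ℝ → ℝ) (hS : ∀ n, RPSym (S n)) (M : ℝ)
    (hM : ∀ n, ∫ k in box, (1 - cos k.1) * S n k.1 k.2 ≤ M) :
    ∃ (φ : ℕ → ℕ) (K : ℝ), StrictMono φ ∧ TwoPoint (fun n => S (φ n)) K := by
  obtain ⟨φ, K, h1, h2⟩ := pre_two S hS M hM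
  exact ⟨φ, K, h1, pre_to_two (fun n => hS (φ n)) h2⟩

end RP4
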