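import Pool.Agent.Helper63.RP4.H0

/-!
H1.  Families of neutral charges approximating a test function.
-/

open Real Set Filter Topology MeasureTheory

namespace RP4

/-- discrete Fourier transform of a charge, real part -/
noncomputable def fcos (m : V → ℝ) (k : ℝ × ℝ) : ℝ :=
  ∑' x : V, m x * cos (k.1 * x.1 + k.2 * x.2)

/-- discrete Fourier transform of a charge, imaginary part -/
noncomputable def fsin (m : V → ℝ) (k : ℝ × ℝ) : ℝ :=
  ∑' x : V, m x * sin (k.1 * x.1 + k.2 * x.2)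

/-- neutral charges `m δ` on `ℤ²` which, seen on `δ ℤ²`, approximate the function `f` -/
structure Fam (m : ℝ → V → ℝ) (f : ℝ × ℝ → ℝ) : Prop where
  fin : ∀ δ, 0 < δ → (Function.support (m δ)).Finite
  neutral : ∀ δ, 0 < δ → ∑' x : V, m δ x = 0
  conv : ∀ A ε : ℝ, 0 < ε → ∃ δ₀ > 0, ∀ δ, 0 < δ → δ < δ₀ → ∀ ξ : ℝ × ℝ,
    ξ.1 ^ 2 + ξ.2 ^ 2 ≤ A ^ 2 → |fcos (m δ) (δ * ξ.1, δ * ξ.2) - ftc f ξ| ≤ ε ∧
      |fsin (m δ) (δ * ξ.1, δ * ξ.2) - fts f ξ| ≤ ε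
  small : ∃ C : ℝ, 0 < C ∧ ∀ δ, 0 < δ → δ ≤ 1 → ∀ k : ℝ × ℝ,
    fcos (m δ) k ^ 2 + fsin (m δ) k ^ 2 ≤ C * (k.1 ^ 2 + k.2 ^ 2) / δ ^ 2
  decay : ∃ C : ℝ, 0 < C ∧ ∀ δ, 0 < δ → δ ≤ 1 → ∀ k : ℝ × ℝ, k ∈ box →
    (k.1 ^ 2 + k.2 ^ 2) * (fcos (m δ) k ^ 2 + fsin (m δ) k ^ 2) ≤ C * δ ^ 2

/-- the charge of `δ² ∑_x f (δ x) (h x - h 0)` -/
noncomputable def charge (f : ℝ × ℝ → ℝ) (δ : ℝ) (x : V) : ℝ :=
  δ ^ 2 * f (δ * x.1, δ * x.2) - if x = 0 then ∑' y : V, δ ^ 2 * f (δ * y.1, δ * y.2) else 0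

private def H1a_cell (δ : ℝ) (x : V) : Set (ℝ × ℝ) :=
  Ico (δ * x.1 - δ / 2) (δ * x.1 + δ / 2) ×ˢ Ico (δ * x.2 - δ / 2) (δ * x.2 + δ / 2)

private noncomputable def H1a_near (δ : ℝ) (y : ℝ × ℝ) : V :=
  (⌊y.1 / δ + 1 / 2⌋, ⌊y.2 / δ + 1 / 2⌋)

private lemma H1a_one {δ : ℝ} (h0 : 0 < δ) (t : ℝ) (n : ℤ) :
    t ∈ Ico (δ * n - δ / 2) (δ * n + δ / 2) ↔ n = ⌊t / δ + 1 / 2⌋ := by
  rw [eq_comm, Int.floor_eq_iff, mem_Ico]
  have h1 : t / δ * δ = t := div_mul_cancel₀ t h0.ne'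
  constructor
  · rintro ⟨h2, h3⟩
    constructor
    · by_contra h4
      push Not at h4
      have h5 := mul_lt_mul_of_pos_right h4 h0
      nlinarith
    · by_contra h4
      push Not at h4
      have h5 := mul_le_mul_of_nonneg_right h4 h0.le
      nlinarith
  · rintro ⟨h2, h3⟩
    have h5 := mul_le_mul_of_nonneg_right h2 h0.le
    have h6 := mul_lt_mul_of_pos_right h3 h0
    constructor
    · nlinarith
    · nlinarith

private lemma H1a_mem {δ : ℝ} (h0 : 0 < δ) (y : ℝ × ℝ) (x : V) :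
    y ∈ H1a_cell δ x ↔ x = H1a_near δ y := by
  unfold H1a_cell H1a_near
  rw [mem_prod, H1a_one h0, H1a_one h0, Prod.ext_iff]

private lemma H1a_dist {δ : ℝ} (h0 : 0 < δ) (y : ℝ × ℝ) :
    |δ * (H1a_near δ y).1 - y.1| ≤ δ / 2 ∧ |δ * (H1a_near δ y).2 - y.2| ≤ δ / 2 := by
  have h1 := (H1a_mem h0 y _).mpr rfl
  unfold H1a_cell at h1
  obtain ⟨⟨h2, h3⟩, ⟨h4, h5⟩⟩ := h1
  exact ⟨abs_le.mpr ⟨by linarith, by linarith⟩, abs_le.mpr ⟨by linarith, by linarith⟩⟩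

private lemma H1a_box (R δ : ℝ) (hδ : 0 < δ) (x : V) (h : |δ * x.1| ≤ R ∧ |δ * x.2| ≤ R) :
    x ∈ Finset.Icc (-⌊R / δ⌋) ⌊R / δ⌋ ×ˢ Finset.Icc (-⌊R / δ⌋) ⌊R / δ⌋ := by
  have key : ∀ a : ℤ, |δ * a| ≤ R → a ∈ Finset.Icc (-⌊R / δ⌋) ⌊R / δ⌋ := by
    intro a ha
    rw [abs_mul, abs_of_pos hδ] at ha
    have h1 : ((|a| : ℤ) : ℝ) ≤ R / δ := by
      rw [le_div_iff₀ hδ]
      push_cast
      linarith
    have h2 := Int.le_floor.mpr h1
    rw [Finset.mem_Icc]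
    exact abs_le.mp h2
  exact Finset.mem_product.mpr ⟨key _ h.1, key _ h.2⟩

/-
Riemann sums.  The cells `δ (x + [-1/2, 1/2)²)` partition the plane (area `δ²`); on the cell of `x` `|F y - F (δ x)| ≤ L δ`
(`|y₁ - δx₁| + |y₂ - δx₂| ≤ δ`); only the cells contained in `[-R-2, R+2]²` contribute (`δ ≤ 1`).
-/
lemma riemann_lip (L R : ℝ) (hR : 0 ≤ R) (F : ℝ × ℝ → ℝ)
    (hL : ∀ y z, |F y - F z| ≤ L * (|y.1 - z.1| + |y.2 - z.2|))
    (hs : ∀ y : ℝ × ℝ, F y ≠ 0 → |y.1| ≤ R ∧ |y.2| ≤ R) (δ : ℝ) (h0 : 0 < δ) (h1 : δ ≤ 1) :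
    |(∑' x : V, δ ^ 2 * F (δ * x.1, δ * x.2)) - ∫ y, F y| ≤ (2 * R + 4) ^ 2 * L * δ := by
  have hL0 : 0 ≤ L := by
    have h2 := hL ((1 : ℝ), (0 : ℝ)) ((0 : ℝ), (0 : ℝ))
    simp only [sub_zero, abs_one, abs_zero, add_zero, mul_one] at h2
    exact (abs_nonneg _).trans h2
  set S : Finset V := Finset.Icc (-⌊R / δ⌋) ⌊R / δ⌋ ×ˢ Finset.Icc (-⌊R / δ⌋) ⌊R / δ⌋ with hSdef
  have hS : ∀ x ∉ S, F (δ * (x : V).1, δ * x.2) = 0 := by
    intro x hx
    by_contra h2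
    exact hx (H1a_box R δ h0 x (hs _ h2))
  rw [tsum_eq_sum (s := S) (fun x hx => by rw [hS x hx, mul_zero])]
  set G : ℝ × ℝ → ℝ := fun y => ∑ x ∈ S, (H1a_cell δ x).indicator
    (fun _ => F (δ * (x : V).1, δ * x.2)) y with hG
  have hGF : ∀ y, G y = F (δ * (H1a_near δ y).1, δ * (H1a_near δ y).2) := by
    intro y
    by_cases hy : H1a_near δ y ∈ S
    · rw [hG]
      simp only
      rw [Finset.sum_eq_single_of_mem _ hy]
      · rw [indicator_of_mem ((H1a_mem h0 y _).mpr rfl)]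
      · intro x _ hx
        rw [indicator_of_notMem]
        intro h2
        exact hx ((H1a_mem h0 y x).mp h2)
    · rw [hS _ hy, hG]
      simp only
      refine Finset.sum_eq_zero (fun x hx => ?_)
      rw [indicator_of_notMem]
      intro h2
      rw [(H1a_mem h0 y x).mp h2] at hx
      exact hy hx
  have hcell : ∀ x : V, volume (H1a_cell δ x) = ENNReal.ofReal (δ ^ 2) := by
    intro x
    unfold H1a_cell
    rw [Measure.volume_eq_prod, Measure.prod_prod, Real.volume_Ico, Real.volume_Ico,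
      ← ENNReal.ofReal_mul (by linarith)]
    congr 1
    ring
  have hmeas : ∀ x : V, MeasurableSet (H1a_cell δ x) := fun x =>
    measurableSet_Ico.prod measurableSet_Ico
  have hIG1 : ∀ x ∈ S, Integrable ((H1a_cell δ x).indicator
      (fun _ => F (δ * (x : V).1, δ * x.2))) := by
    intro x _
    refine (integrable_indicator_iff (hmeas x)).mpr ?_
    refine integrableOn_const ?_
    rw [hcell x]
    exact ENNReal.ofReal_ne_top
  have hIG : Integrable G := integrable_finsetSum S hIG1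
  have hintG : ∫ y, G y = ∑ x ∈ S, δ ^ 2 * F (δ * (x : V).1, δ * x.2) := by
    rw [hG, integral_finsetSum S hIG1]
    refine Finset.sum_congr rfl (fun x _ => ?_)
    rw [integral_indicator_const _ (hmeas x), measureReal_def, hcell x,
      ENNReal.toReal_ofReal (by positivity), smul_eq_mul]
  have hFc : Continuous F := by
    refine (LipschitzWith.of_dist_le_mul (K := (L * 2).toNNReal) (fun y z => ?_)).continuous
    rw [Real.dist_eq, Real.coe_toNNReal _ (by linarith)]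
    refine (hL y z).trans ?_
    rw [mul_assoc]
    refine mul_le_mul_of_nonneg_left ?_ hL0
    rw [Prod.dist_eq, Real.dist_eq, Real.dist_eq]
    have h2 := le_max_left |y.1 - z.1| |y.2 - z.2|
    have h3 := le_max_right |y.1 - z.1| |y.2 - z.2|
    linarith
  have hIF : Integrable F := by
    refine hFc.integrable_of_hasCompactSupport ?_
    refine HasCompactSupport.intro (isCompact_Icc.prod isCompact_Icc :
      IsCompact (Icc (-R) R ×ˢ Icc (-R) R)) (fun y hy => ?_)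
    by_contra h2
    obtain ⟨h3, h4⟩ := hs y h2
    exact hy ⟨abs_le.mp h3, abs_le.mp h4⟩
  rw [← hintG, ← integral_sub hIG hIF]
  have hQ : ∀ y, ‖G y - F y‖ ≤ (Icc (-(R + 1)) (R + 1) ×ˢ Icc (-(R + 1)) (R + 1)).indicator
      (fun _ => L * δ) y := by
    intro y
    rw [hGF y, Real.norm_eq_abs]
    have hd := H1a_dist h0 y
    by_cases hy : y ∈ (Icc (-(R + 1)) (R + 1) ×ˢ Icc (-(R + 1)) (R + 1) : Set (ℝ × ℝ))
    · rw [indicator_of_mem hy]
      refine (hL _ _).trans ?_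
      refine mul_le_mul_of_nonneg_left ?_ hL0
      simp only
      linarith [hd.1, hd.2]
    · rw [indicator_of_notMem hy]
      have h2 : F y = 0 := by
        by_contra h3
        obtain ⟨h4, h5⟩ := hs y h3
        rw [abs_le] at h4 h5
        exact hy ⟨⟨by linarith [h4.1], by linarith [h4.2]⟩, ⟨by linarith [h5.1], by linarith [h5.2]⟩⟩
      have h3 : F (δ * (H1a_near δ y).1, δ * (H1a_near δ y).2) = 0 := by
        by_contra h3
        obtain ⟨h4, h5⟩ := hs _ h3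
        simp only at h4 h5
        have h6 := hd.1
        have h7 := hd.2
        rw [abs_le] at h4 h5 h6 h7
        exact hy ⟨⟨by linarith [h4.1, h6.2], by linarith [h4.2, h6.1]⟩,
          ⟨by linarith [h5.1, h7.2], by linarith [h5.2, h7.1]⟩⟩
      rw [h2, h3, sub_zero, abs_zero]
  have hQm : MeasurableSet (Icc (-(R + 1)) (R + 1) ×ˢ Icc (-(R + 1)) (R + 1) : Set (ℝ × ℝ)) :=
    measurableSet_Icc.prod measurableSet_Icc
  have hQv : volume (Icc (-(R + 1)) (R + 1) ×ˢ Icc (-(R + 1)) (R + 1) : Set (ℝ × ℝ)) =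
      ENNReal.ofReal ((2 * R + 2) ^ 2) := by
    rw [Measure.volume_eq_prod, Measure.prod_prod, Real.volume_Icc,
      ← ENNReal.ofReal_mul (by linarith)]
    congr 1
    ring
  have hQi : Integrable ((Icc (-(R + 1)) (R + 1) ×ˢ Icc (-(R + 1)) (R + 1)
      : Set (ℝ × ℝ)).indicator (fun _ => L * δ)) := by
    refine (integrable_indicator_iff hQm).mpr (integrableOn_const ?_)
    rw [hQv]
    exact ENNReal.ofReal_ne_top
  have hfin := norm_integral_le_of_norm_le hQi (Eventually.of_forall hQ)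
  rw [Real.norm_eq_abs, integral_indicator_const _ hQm, measureReal_def, hQv,
    ENNReal.toReal_ofReal (by positivity), smul_eq_mul] at hfin
  refine hfin.trans ?_
  have h2 : 0 ≤ L * δ := by positivity
  have h3 : (2 * R + 2) ^ 2 ≤ (2 * R + 4) ^ 2 := by nlinarith
  nlinarith [mul_le_mul_of_nonneg_right h3 h2]

/-- a `C¹` function with compact support is Lipschitz, bounded and has bounded support -/
lemma lip_of_cd {f : ℝ × ℝ → ℝ} (hf : ContDiff ℝ 1 f) (hc : HasCompactSupport f) :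
    ∃ L R : ℝ, 0 ≤ L ∧ 0 ≤ R ∧ (∀ y z, |f y - f z| ≤ L * (|y.1 - z.1| + |y.2 - z.2|)) ∧
      (∀ y : ℝ × ℝ, f y ≠ 0 → |y.1| ≤ R ∧ |y.2| ≤ R) ∧ ∀ y, |f y| ≤ L := by
  obtain ⟨C, hC⟩ := hf.lipschitzWith_of_hasCompactSupport hc one_ne_zero
  obtain ⟨C', hC'⟩ := hc.exists_bound_of_continuous hf.continuous
  obtain ⟨r, hr⟩ := hc.isCompact.isBounded.subset_closedBall (0 : ℝ × ℝ)
  refine ⟨max (C : ℝ) C', max r 0, le_max_of_le_left C.2, le_max_right _ _, fun y z => ?_,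
    fun y hy => ?_, fun y => (hC' y).trans (le_max_right _ _)⟩
  · have h1 := hC.dist_le_mul y z
    rw [Real.dist_eq] at h1
    have h2 : dist y z ≤ |y.1 - z.1| + |y.2 - z.2| := by
      rw [Prod.dist_eq, Real.dist_eq, Real.dist_eq]
      exact max_le (le_add_of_nonneg_right (abs_nonneg _)) (le_add_of_nonneg_left (abs_nonneg _))
    refine h1.trans ((mul_le_mul_of_nonneg_left h2 C.2).trans ?_)
    exact mul_le_mul_of_nonneg_right (le_max_left _ _) (by positivity)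
  · have h1 := hr (subset_tsupport f hy)
    rw [mem_closedBall_zero_iff, Prod.norm_def, max_le_iff, Real.norm_eq_abs, Real.norm_eq_abs] at h1
    exact ⟨h1.1.trans (le_max_left _ _), h1.2.trans (le_max_left _ _)⟩

private lemma H1b_box (R δ : ℝ) (hδ : 0 < δ) (x : V) (h : |δ * x.1| ≤ R ∧ |δ * x.2| ≤ R) :
    x ∈ Finset.Icc (-⌊R / δ⌋) ⌊R / δ⌋ ×ˢ Finset.Icc (-⌊R / δ⌋) ⌊R / δ⌋ := by
  have key : ∀ a : ℤ, |δ * a| ≤ R → a ∈ Finset.Icc (-⌊R / δ⌋) ⌊R / δ⌋ := by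
    intro a ha
    rw [abs_mul, abs_of_pos hδ] at ha
    have h1 : ((|a| : ℤ) : ℝ) ≤ R / δ := by
      rw [le_div_iff₀ hδ]
      push_cast
      linarith
    have h2 := Int.le_floor.mpr h1
    rw [Finset.mem_Icc]
    exact abs_le.mp h2
  exact Finset.mem_product.mpr ⟨key _ h.1, key _ h.2⟩

private lemma H1b_supp {f : ℝ × ℝ → ℝ} (hc : HasCompactSupport f) :
    ∃ R : ℝ, ∀ y : ℝ × ℝ, f y ≠ 0 → |y.1| ≤ R ∧ |y.2| ≤ R := by
  obtain ⟨r, hr⟩ := hc.isCompact.isBounded.subset_closedBall (0 : ℝ × ℝ)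
  refine ⟨r, fun y hy => ?_⟩
  have h1 := hr (subset_tsupport f hy)
  rw [mem_closedBall_zero_iff, Prod.norm_def, max_le_iff, Real.norm_eq_abs, Real.norm_eq_abs] at h1
  exact h1

private lemma H1b_fin {f : ℝ × ℝ → ℝ} (hc : HasCompactSupport f) (δ : ℝ) (hδ : 0 < δ) :
    (Function.support (fun x : V => δ ^ 2 * f (δ * x.1, δ * x.2))).Finite := by
  obtain ⟨R, hR⟩ := H1b_supp hc
  refine (Finset.finite_toSet (Finset.Icc (-⌊R / δ⌋) ⌊R / δ⌋ ×ˢ
    Finset.Icc (-⌊R / δ⌋) ⌊R / δ⌋)).subset ?_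
  intro x hx
  have h1 : f (δ * x.1, δ * x.2) ≠ 0 := right_ne_zero_of_mul hx
  exact Finset.mem_coe.mpr (H1b_box R δ hδ x (hR _ h1))

lemma charge_fin {f : ℝ × ℝ → ℝ} (hc : HasCompactSupport f) (δ : ℝ) (hδ : 0 < δ) :
    (Function.support (charge f δ)).Finite := by
  refine ((H1b_fin hc δ hδ).union (Set.finite_singleton (0 : V))).subset ?_
  intro x hx
  by_cases h0 : x = 0
  · exact Or.inr h0
  · left
    rw [Function.mem_support] at hx ⊢
    unfold charge at hx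
    rw [if_neg h0, sub_zero] at hx
    exact hx

lemma charge_neutral {f : ℝ × ℝ → ℝ} (hc : HasCompactSupport f) (δ : ℝ) (hδ : 0 < δ) :
    ∑' x : V, charge f δ x = 0 := by
  unfold charge
  have h1 : Summable (fun x : V => δ ^ 2 * f (δ * x.1, δ * x.2)) :=
    summable_of_hasFiniteSupport (H1b_fin hc δ hδ)
  have h2 : Summable (fun x : V => if x = 0 then ∑' y : V, δ ^ 2 * f (δ * y.1, δ * y.2) else 0) :=
    summable_of_hasFiniteSupport ((Set.finite_singleton (0 : V)).subset (by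
      intro x hx
      by_contra h0
      exact hx (if_neg h0)))
  rw [h1.tsum_sub h2, tsum_ite_eq, sub_self]

/-- number of lattice points: `∑ δ² |f (δ x)| ≤ (2R+4)² L` -/
lemma sum_abs_le {f : ℝ × ℝ → ℝ} {L R : ℝ} (hL : ∀ y, |f y| ≤ L) (hR : 0 ≤ R)
    (hs : ∀ y : ℝ × ℝ, f y ≠ 0 → |y.1| ≤ R ∧ |y.2| ≤ R) (δ : ℝ) (h0 : 0 < δ) (h1 : δ ≤ 1) :
    ∑' x : V, δ ^ 2 * |f (δ * x.1, δ * x.2)| ≤ (2 * R + 4) ^ 2 * L := by
  have hL0 : 0 ≤ L := (abs_nonneg _).trans (hL 0)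
  have hz : ∀ x ∉ Finset.Icc (-⌊R / δ⌋) ⌊R / δ⌋ ×ˢ Finset.Icc (-⌊R / δ⌋) ⌊R / δ⌋,
      δ ^ 2 * |f (δ * (x : V).1, δ * x.2)| = 0 := by
    intro x hx
    by_contra h2
    have h3 : |f (δ * x.1, δ * x.2)| ≠ 0 := right_ne_zero_of_mul h2
    rw [ne_eq, abs_eq_zero] at h3
    exact hx (H1b_box R δ h0 x (hs _ h3))
  rw [tsum_eq_sum hz]
  have h4 : ∑ x ∈ Finset.Icc (-⌊R / δ⌋) ⌊R / δ⌋ ×ˢ Finset.Icc (-⌊R / δ⌋) ⌊R / δ⌋,
      δ ^ 2 * |f (δ * (x : V).1, δ * x.2)| ≤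
      (Finset.Icc (-⌊R / δ⌋) ⌊R / δ⌋ ×ˢ Finset.Icc (-⌊R / δ⌋) ⌊R / δ⌋).card • (δ ^ 2 * L) :=
    Finset.sum_le_card_nsmul _ _ _ fun x _ => mul_le_mul_of_nonneg_left (hL _) (by positivity)
  refine h4.trans ?_
  have h5 : 0 ≤ ⌊R / δ⌋ := Int.floor_nonneg.mpr (by positivity)
  have h6 : (⌊R / δ⌋ : ℝ) ≤ R / δ := Int.floor_le _
  have h7 : ((Finset.Icc (-⌊R / δ⌋) ⌊R / δ⌋).card : ℝ) = 2 * ⌊R / δ⌋ + 1 := by
    rw [Int.card_Icc]
    have h8 : (((⌊R / δ⌋ + 1 - -⌊R / δ⌋).toNat : ℤ) : ℝ) = ((⌊R / δ⌋ + 1 - -⌊R / δ⌋ : ℤ) : ℝ) := by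
      rw [Int.toNat_of_nonneg (by omega)]
    push_cast at h8
    rw [h8]
    ring
  rw [Finset.card_product, nsmul_eq_mul, Nat.cast_mul, h7]
  have h9 : (⌊R / δ⌋ : ℝ) * δ ≤ R := by
    rwa [le_div_iff₀ h0] at h6
  have h10 : (0 : ℝ) ≤ ⌊R / δ⌋ := by exact_mod_cast h5
  have h11 : (2 * (⌊R / δ⌋ : ℝ) + 1) * δ ≤ 2 * R + 4 := by nlinarith
  have h12 : 0 ≤ (2 * (⌊R / δ⌋ : ℝ) + 1) * δ := by positivity
  calc (2 * (⌊R / δ⌋ : ℝ) + 1) * (2 * (⌊R / δ⌋ : ℝ) + 1) * (δ ^ 2 * L)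
      = ((2 * (⌊R / δ⌋ : ℝ) + 1) * δ) ^ 2 * L := by ring
    _ ≤ (2 * R + 4) ^ 2 * L :=
        mul_le_mul_of_nonneg_right (pow_le_pow_left₀ h12 h11 2) hL0

private lemma H1c_supp {f : ℝ × ℝ → ℝ} {R : ℝ}
    (hs : ∀ y : ℝ × ℝ, f y ≠ 0 → |y.1| ≤ R ∧ |y.2| ≤ R) {δ : ℝ} (h0 : 0 < δ) :
    ∃ s : Finset V, (0 : V) ∈ s ∧ ∀ x : V, x ∉ s → f (δ * x.1, δ * x.2) = 0 := by
  refine ⟨(Finset.Icc (-⌈|R| / δ⌉) ⌈|R| / δ⌉) ×ˢ (Finset.Icc (-⌈|R| / δ⌉) ⌈|R| / δ⌉), ?_, ?_⟩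
  · have h1 : 0 ≤ ⌈|R| / δ⌉ := Int.ceil_nonneg (by positivity)
    rw [Finset.mem_product, Finset.mem_Icc, Finset.mem_Icc]
    simp only [Prod.fst_zero, Prod.snd_zero]
    omega
  · intro x hx
    by_contra h
    obtain ⟨h1, h2⟩ := hs _ h
    apply hx
    have key : ∀ n : ℤ, |δ * (n : ℝ)| ≤ R → n ∈ Finset.Icc (-⌈|R| / δ⌉) ⌈|R| / δ⌉ := by
      intro n hn
      rw [abs_mul, abs_of_pos h0] at hn
      have h3 : |(n : ℝ)| ≤ |R| / δ := by
        rw [le_div_iff₀ h0]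
        have := le_abs_self R
        linarith
      have h4 : |(n : ℝ)| ≤ (⌈|R| / δ⌉ : ℝ) := h3.trans (Int.le_ceil _)
      have h5 : |n| ≤ ⌈|R| / δ⌉ := by exact_mod_cast h4
      rw [Finset.mem_Icc]
      exact abs_le.mp h5
    exact Finset.mem_product.mpr ⟨key _ h1, key _ h2⟩

private lemma H1c_sum {f : ℝ × ℝ → ℝ} {δ : ℝ} {s : Finset V} (hs0 : (0 : V) ∈ s)
    (hs : ∀ x : V, x ∉ s → f (δ * x.1, δ * x.2) = 0) (g : V → ℝ) :
    ∑' x : V, charge f δ x * g x =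
      ∑ x ∈ s, δ ^ 2 * f (δ * x.1, δ * x.2) * (g x - g 0) := by
  have hS : ∑' y : V, δ ^ 2 * f (δ * y.1, δ * y.2) = ∑ y ∈ s, δ ^ 2 * f (δ * y.1, δ * y.2) :=
    tsum_eq_sum (fun x hx => by rw [hs x hx, mul_zero])
  have h1 : ∀ x ∉ s, charge f δ x * g x = 0 := by
    intro x hx
    have hx0 : x ≠ 0 := by
      intro h
      rw [h] at hx
      exact hx hs0
    unfold charge
    rw [hs x hx, mul_zero, if_neg hx0, sub_zero, zero_mul]
  rw [tsum_eq_sum h1]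
  unfold charge
  rw [hS]
  have h2 : ∀ x ∈ s, (δ ^ 2 * f (δ * x.1, δ * x.2) -
      if x = 0 then ∑ y ∈ s, δ ^ 2 * f (δ * y.1, δ * y.2) else 0) * g x =
      δ ^ 2 * f (δ * x.1, δ * x.2) * g x -
        if x = 0 then (∑ y ∈ s, δ ^ 2 * f (δ * y.1, δ * y.2)) * g 0 else 0 := by
    intro x _
    by_cases hx : x = 0
    · rw [if_pos hx, if_pos hx, hx]
      ring
    · rw [if_neg hx, if_neg hx]
      ring
  rw [Finset.sum_congr rfl h2, Finset.sum_sub_distrib, Finset.sum_ite_eq' s (0 : V), if_pos hs0,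
    Finset.sum_mul, ← Finset.sum_sub_distrib]
  refine Finset.sum_congr rfl (fun x _ => ?_)
  ring

private lemma H1c_tsum {f : ℝ × ℝ → ℝ} {δ : ℝ} {s : Finset V} (hs0 : (0 : V) ∈ s)
    (hs : ∀ x : V, x ∉ s → f (δ * x.1, δ * x.2) = 0) (g : V → ℝ) :
    ∑' x : V, charge f δ x * g x =
      (∑' x : V, δ ^ 2 * (f (δ * x.1, δ * x.2) * g x)) -
        g 0 * ∑' x : V, δ ^ 2 * f (δ * x.1, δ * x.2) := by
  rw [H1c_sum hs0 hs g, tsum_eq_sum (s := s) (fun x hx => by rw [hs x hx, zero_mul, mul_zero]),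
    tsum_eq_sum (s := s) (fun x hx => by rw [hs x hx, mul_zero]), Finset.mul_sum,
    ← Finset.sum_sub_distrib]
  refine Finset.sum_congr rfl (fun x _ => ?_)
  ring

private lemma H1c_lip {f g : ℝ × ℝ → ℝ} {L A : ℝ} (hL0 : 0 ≤ L)
    (hL : ∀ y z, |f y - f z| ≤ L * (|y.1 - z.1| + |y.2 - z.2|)) (hb : ∀ y, |f y| ≤ L)
    (hg1 : ∀ y, |g y| ≤ 1) (hg : ∀ y z, |g y - g z| ≤ |A| * (|y.1 - z.1| + |y.2 - z.2|))
    (y z : ℝ × ℝ) :
    |f y * g y - f z * g z| ≤ L * (1 + |A|) * (|y.1 - z.1| + |y.2 - z.2|) := by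
  have h1 : f y * g y - f z * g z = (f y - f z) * g y + f z * (g y - g z) := by ring
  rw [h1]
  have h2 : |(f y - f z) * g y| ≤ L * (|y.1 - z.1| + |y.2 - z.2|) * 1 := by
    rw [abs_mul]
    exact mul_le_mul (hL y z) (hg1 y) (abs_nonneg _) (by positivity)
  have h3 : |f z * (g y - g z)| ≤ L * (|A| * (|y.1 - z.1| + |y.2 - z.2|)) := by
    rw [abs_mul]
    exact mul_le_mul (hb z) (hg y z) (abs_nonneg _) hL0
  have h4 := abs_add_le ((f y - f z) * g y) (f z * (g y - g z))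
  linarith

private lemma H1c_arg {A : ℝ} {ξ : ℝ × ℝ} (hξ : ξ.1 ^ 2 + ξ.2 ^ 2 ≤ A ^ 2) (y z : ℝ × ℝ) :
    |(ξ.1 * y.1 + ξ.2 * y.2) - (ξ.1 * z.1 + ξ.2 * z.2)| ≤
      |A| * (|y.1 - z.1| + |y.2 - z.2|) := by
  have h1 : |ξ.1| ≤ |A| := by
    rw [← sq_le_sq]
    nlinarith [sq_nonneg ξ.2]
  have h2 : |ξ.2| ≤ |A| := by
    rw [← sq_le_sq]
    nlinarith [sq_nonneg ξ.1]
  have h3 : (ξ.1 * y.1 + ξ.2 * y.2) - (ξ.1 * z.1 + ξ.2 * z.2) =
      ξ.1 * (y.1 - z.1) + ξ.2 * (y.2 - z.2) := by ring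
  rw [h3]
  have h4 := abs_add_le (ξ.1 * (y.1 - z.1)) (ξ.2 * (y.2 - z.2))
  rw [abs_mul, abs_mul] at h4
  have h5 := mul_le_mul_of_nonneg_right h1 (abs_nonneg (y.1 - z.1))
  have h6 := mul_le_mul_of_nonneg_right h2 (abs_nonneg (y.2 - z.2))
  linarith

private lemma H1c_supp_mul {f : ℝ × ℝ → ℝ} {R : ℝ}
    (hs : ∀ y : ℝ × ℝ, f y ≠ 0 → |y.1| ≤ R ∧ |y.2| ≤ R) (g : ℝ × ℝ → ℝ) (y : ℝ × ℝ)
    (h : f y * g y ≠ 0) : |y.1| ≤ R ∧ |y.2| ≤ R :=
  hs y (left_ne_zero_of_mul h)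

/-
`riemann_lip` for `F y = f y cos (ξ·y)` (Lipschitz with `L (1 + |A|)`, as `|f| ≤ L`), the same with `sin`, and `riemann_lip` for `f`
(the subtracted charge at `0` is `O(δ)`, as `∫ f = 0`).
-/
lemma charge_conv {f : ℝ × ℝ → ℝ} (hf : ContDiff ℝ 1 f) (hc : HasCompactSupport f)
    (h0 : ∫ y, f y = 0) (A ε : ℝ) (hε : 0 < ε) :
    ∃ δ₀ > 0, ∀ δ, 0 < δ → δ < δ₀ → ∀ ξ : ℝ × ℝ,
      ξ.1 ^ 2 + ξ.2 ^ 2 ≤ A ^ 2 → |fcos (charge f δ) (δ * ξ.1, δ * ξ.2) - ftc f ξ| ≤ ε ∧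
        |fsin (charge f δ) (δ * ξ.1, δ * ξ.2) - fts f ξ| ≤ ε := by
  obtain ⟨L, R, hL0, hR, hL, hs, hb⟩ := lip_of_cd hf hc
  set M : ℝ := (2 * R + 4) ^ 2 * L * (2 + |A|) with hM
  have hM0 : 0 ≤ M := by positivity
  refine ⟨min 1 (ε / (M + 1)), lt_min one_pos (by positivity), fun δ hδ hδ1 ξ hξ => ?_⟩
  have hδ2 : δ ≤ 1 := (hδ1.trans_le (min_le_left _ _)).le
  have hδ3 : M * δ ≤ ε := by
    have h1 : δ < ε / (M + 1) := hδ1.trans_le (min_le_right _ _)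
    rw [lt_div_iff₀ (by positivity)] at h1
    nlinarith
  obtain ⟨s, hs0, hs1⟩ := H1c_supp hs hδ
  have hr0 := riemann_lip L R hR f hL hs δ hδ hδ2
  rw [h0, sub_zero] at hr0
  have harg : ∀ x : V, δ * ξ.1 * (x.1 : ℝ) + δ * ξ.2 * (x.2 : ℝ) =
      ξ.1 * (δ * x.1) + ξ.2 * (δ * x.2) := fun x => by ring
  constructor
  · have h1 := riemann_lip (L * (1 + |A|)) R hR
      (fun y => f y * cos (ξ.1 * y.1 + ξ.2 * y.2))
      (H1c_lip hL0 hL hb (fun y => abs_cos_le_one _)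
        (fun y z => (abs_cos_sub_cos_le _ _).trans (H1c_arg hξ y z)))
      (H1c_supp_mul hs _) δ hδ hδ2
    have h2 := H1c_tsum hs0 hs1 (fun x => cos (δ * ξ.1 * (x.1 : ℝ) + δ * ξ.2 * (x.2 : ℝ)))
    simp only [Prod.fst_zero, Prod.snd_zero, Int.cast_zero, mul_zero, add_zero, cos_zero,
      one_mul] at h2
    simp only [harg] at h2
    unfold fcos ftc
    simp only [harg]
    rw [h2]
    have h3 := abs_sub_le_iff.mp h1
    have h4 := abs_le.mp hr0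
    rw [abs_le]
    constructor <;> nlinarith [h3.1, h3.2, h4.1, h4.2]
  · have h1 := riemann_lip (L * (1 + |A|)) R hR
      (fun y => f y * sin (ξ.1 * y.1 + ξ.2 * y.2))
      (H1c_lip hL0 hL hb (fun y => abs_sin_le_one _)
        (fun y z => (abs_sin_sub_sin_le _ _).trans (H1c_arg hξ y z)))
      (H1c_supp_mul hs _) δ hδ hδ2
    have h2 := H1c_tsum hs0 hs1 (fun x => sin (δ * ξ.1 * (x.1 : ℝ) + δ * ξ.2 * (x.2 : ℝ)))
    simp only [Prod.fst_zero, Prod.snd_zero, Int.cast_zero, mul_zero, add_zero, sin_zero,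
      zero_mul, sub_zero] at h2
    simp only [harg] at h2
    unfold fsin fts
    simp only [harg]
    rw [h2]
    refine h1.trans ?_
    have h5 : (2 * R + 4) ^ 2 * (L * (1 + |A|)) * δ ≤ M * δ := by
      rw [hM]
      apply mul_le_mul_of_nonneg_right _ hδ.le
      nlinarith [mul_nonneg (sq_nonneg (2 * R + 4)) hL0]
    exact h5.trans hδ3

/-
`fcos (charge) k = ∑ δ² f(δx) (cos (k·x) - 1)`, `fsin = ∑ δ² f(δx) sin (k·x)`; `|k·x| ≤ (|k₁| + |k₂|) R/δ` on the support.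
-/
lemma charge_small {f : ℝ × ℝ → ℝ} (hf : ContDiff ℝ 1 f) (hc : HasCompactSupport f) :
    ∃ C : ℝ, 0 < C ∧ ∀ δ, 0 < δ → δ ≤ 1 → ∀ k : ℝ × ℝ,
      fcos (charge f δ) k ^ 2 + fsin (charge f δ) k ^ 2 ≤ C * (k.1 ^ 2 + k.2 ^ 2) / δ ^ 2 := by
  obtain ⟨L, R, hL0, hR, hL, hs, hb⟩ := lip_of_cd hf hc
  set M : ℝ := R * ((2 * R + 4) ^ 2 * L) with hM
  have hM0 : 0 ≤ M := by positivity
  refine ⟨4 * M ^ 2 + 1, by positivity, fun δ hδ hδ1 k => ?_⟩
  obtain ⟨s, hs0, hs1⟩ := H1c_supp hs hδ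
  have hsum := sum_abs_le hb hR hs δ hδ hδ1
  rw [tsum_eq_sum (s := s) (fun x hx => by rw [hs1 x hx, abs_zero, mul_zero])] at hsum
  have key : ∀ g : V → ℝ, (∀ x : V, |g x - g 0| ≤ |k.1 * x.1 + k.2 * x.2|) →
      |∑' x : V, charge f δ x * g x| ≤ (|k.1| + |k.2|) * M / δ := by
    intro g hg
    rw [H1c_sum hs0 hs1 g]
    refine (Finset.abs_sum_le_sum_abs _ _).trans ?_
    have h1 : ∀ x ∈ s, |δ ^ 2 * f (δ * x.1, δ * x.2) * (g x - g 0)| ≤
        δ ^ 2 * |f (δ * x.1, δ * x.2)| * ((|k.1| + |k.2|) * R / δ) := by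
      intro x _
      rw [abs_mul, abs_mul, abs_of_pos (by positivity : 0 < δ ^ 2)]
      by_cases hx : f (δ * x.1, δ * x.2) = 0
      · rw [hx]
        simp
      · apply mul_le_mul_of_nonneg_left _ (by positivity)
        refine (hg x).trans ?_
        obtain ⟨h2, h3⟩ := hs _ hx
        simp only [abs_mul, abs_of_pos hδ] at h2 h3
        rw [le_div_iff₀ hδ]
        have h4 := abs_add_le (k.1 * x.1) (k.2 * x.2)
        rw [abs_mul, abs_mul] at h4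
        have h5 := mul_le_mul_of_nonneg_left h2 (abs_nonneg k.1)
        have h6 := mul_le_mul_of_nonneg_left h3 (abs_nonneg k.2)
        have h7 := mul_le_mul_of_nonneg_right h4 hδ.le
        nlinarith
    refine (Finset.sum_le_sum h1).trans ?_
    rw [← Finset.sum_mul]
    have h8 : 0 ≤ (|k.1| + |k.2|) * R / δ := by positivity
    refine (mul_le_mul_of_nonneg_right hsum h8).trans_eq ?_
    rw [hM]
    ring
  have hc1 := key (fun x => cos (k.1 * x.1 + k.2 * x.2)) (fun x => by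
    have := abs_cos_sub_cos_le (k.1 * x.1 + k.2 * x.2) (k.1 * ((0 : V).1 : ℝ) + k.2 * ((0 : V).2 : ℝ))
    simpa using this)
  have hc2 := key (fun x => sin (k.1 * x.1 + k.2 * x.2)) (fun x => by
    have := abs_sin_sub_sin_le (k.1 * x.1 + k.2 * x.2) (k.1 * ((0 : V).1 : ℝ) + k.2 * ((0 : V).2 : ℝ))
    simpa using this)
  have h9 : ∀ t : ℝ, |t| ≤ (|k.1| + |k.2|) * M / δ →
      t ^ 2 ≤ 2 * M ^ 2 * (k.1 ^ 2 + k.2 ^ 2) / δ ^ 2 := by
    intro t ht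
    have h10 : t ^ 2 ≤ ((|k.1| + |k.2|) * M / δ) ^ 2 := by
      rw [← sq_abs t]
      exact pow_le_pow_left₀ (abs_nonneg t) ht 2
    refine h10.trans ?_
    rw [div_pow, mul_pow]
    apply div_le_div_of_nonneg_right _ (by positivity)
    have h11 : (|k.1| + |k.2|) ^ 2 ≤ 2 * (k.1 ^ 2 + k.2 ^ 2) := by
      have h12 := sq_nonneg (|k.1| - |k.2|)
      have h13 := sq_abs k.1
      have h14 := sq_abs k.2
      nlinarith
    have h15 := mul_le_mul_of_nonneg_right h11 (sq_nonneg M)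
    linarith
  have h16 := h9 _ hc1
  have h17 := h9 _ hc2
  unfold fcos fsin
  have h18 : 0 ≤ (k.1 ^ 2 + k.2 ^ 2) / δ ^ 2 := by positivity
  have h19 : (4 * M ^ 2 + 1) * (k.1 ^ 2 + k.2 ^ 2) / δ ^ 2 =
      2 * M ^ 2 * (k.1 ^ 2 + k.2 ^ 2) / δ ^ 2 + 2 * M ^ 2 * (k.1 ^ 2 + k.2 ^ 2) / δ ^ 2 +
        (k.1 ^ 2 + k.2 ^ 2) / δ ^ 2 := by ring
  rw [h19]
  linarith

private lemma hd_sc {g : V → ℝ} (hg : (Function.support g).Finite) (h : V → ℝ) :
    Summable (fun x => g x * h x) := by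
  apply summable_of_hasFiniteSupport
  apply hg.subset
  intro x hx
  simp only [Function.mem_support] at hx ⊢
  intro h0
  apply hx
  rw [h0, zero_mul]

private lemma hd_parts {g : V → ℝ} (hg : (Function.support g).Finite) (e : V) (k : ℝ × ℝ) :
    fcos (fun x => g x - g (x - e)) k =
      fcos g k * (1 - cos (k.1 * e.1 + k.2 * e.2)) + fsin g k * sin (k.1 * e.1 + k.2 * e.2) ∧
    fsin (fun x => g x - g (x - e)) k =
      fsin g k * (1 - cos (k.1 * e.1 + k.2 * e.2)) - fcos g k * sin (k.1 * e.1 + k.2 * e.2) := by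
  have hg' : (Function.support (fun x : V => g (x - e))).Finite := by
    have : Function.support (fun x : V => g (x - e)) = (fun x : V => x - e) ⁻¹' Function.support g := rfl
    rw [this]
    exact hg.preimage (fun a _ b _ h => sub_left_injective h)
  have h1 := hd_sc hg (fun x => cos (k.1 * x.1 + k.2 * x.2))
  have h2 := hd_sc hg (fun x => sin (k.1 * x.1 + k.2 * x.2))
  have h1' := hd_sc hg' (fun x => cos (k.1 * x.1 + k.2 * x.2))
  have h2' := hd_sc hg' (fun x => sin (k.1 * x.1 + k.2 * x.2))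
  set θ := k.1 * (e.1 : ℝ) + k.2 * (e.2 : ℝ) with hθ
  have s1 : ∑' x : V, g (x - e) * cos (k.1 * x.1 + k.2 * x.2) =
      fcos g k * cos θ - fsin g k * sin θ := by
    have := Equiv.tsum_eq (Equiv.addRight e) (fun x : V => g (x - e) * cos (k.1 * x.1 + k.2 * x.2))
    rw [← this]
    simp only [Equiv.coe_addRight, add_sub_cancel_right, Prod.fst_add, Prod.snd_add, Int.cast_add]
    unfold fcos fsin
    rw [← tsum_mul_right, ← tsum_mul_right,
      ← (h1.mul_right (cos θ)).tsum_sub (h2.mul_right (sin θ))]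
    apply tsum_congr
    intro x
    have : k.1 * ((x.1 : ℝ) + e.1) + k.2 * ((x.2 : ℝ) + e.2) = (k.1 * x.1 + k.2 * x.2) + θ := by
      rw [hθ]; ring
    rw [this, cos_add]
    ring
  have s2 : ∑' x : V, g (x - e) * sin (k.1 * x.1 + k.2 * x.2) =
      fsin g k * cos θ + fcos g k * sin θ := by
    have := Equiv.tsum_eq (Equiv.addRight e) (fun x : V => g (x - e) * sin (k.1 * x.1 + k.2 * x.2))
    rw [← this]
    simp only [Equiv.coe_addRight, add_sub_cancel_right, Prod.fst_add, Prod.snd_add, Int.cast_add]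
    unfold fcos fsin
    rw [← tsum_mul_right, ← tsum_mul_right,
      ← (h2.mul_right (cos θ)).tsum_add (h1.mul_right (sin θ))]
    apply tsum_congr
    intro x
    have : k.1 * ((x.1 : ℝ) + e.1) + k.2 * ((x.2 : ℝ) + e.2) = (k.1 * x.1 + k.2 * x.2) + θ := by
      rw [hθ]; ring
    rw [this, sin_add]
    ring
  constructor
  · have : fcos (fun x => g x - g (x - e)) k =
        ∑' x : V, (g x * cos (k.1 * x.1 + k.2 * x.2) - g (x - e) * cos (k.1 * x.1 + k.2 * x.2)) := by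
      unfold fcos
      apply tsum_congr
      intro x
      ring
    rw [this, h1.tsum_sub h1', s1]
    have : ∑' x : V, g x * cos (k.1 * x.1 + k.2 * x.2) = fcos g k := rfl
    rw [this]
    ring
  · have : fsin (fun x => g x - g (x - e)) k =
        ∑' x : V, (g x * sin (k.1 * x.1 + k.2 * x.2) - g (x - e) * sin (k.1 * x.1 + k.2 * x.2)) := by
      unfold fsin
      apply tsum_congr
      intro x
      ring
    rw [this, h2.tsum_sub h2', s2]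
    have : ∑' x : V, g x * sin (k.1 * x.1 + k.2 * x.2) = fsin g k := rfl
    rw [this]
    ring

private lemma hd_bd {b : V → ℝ} (hb : (Function.support b).Finite) (k : ℝ × ℝ) :
    |fcos b k| ≤ ∑' x, |b x| ∧ |fsin b k| ≤ ∑' x, |b x| := by
  have hs : Summable (fun x => |b x|) := by
    apply summable_of_hasFiniteSupport
    apply hb.subset
    intro x hx
    simpa using hx
  constructor
  · unfold fcos
    apply tsum_of_norm_bounded (f := fun x : V => b x * cos (k.1 * x.1 + k.2 * x.2)) hs.hasSum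
    intro x
    rw [norm_mul, Real.norm_eq_abs, Real.norm_eq_abs]
    exact mul_le_of_le_one_right (abs_nonneg _) (abs_cos_le_one _)
  · unfold fsin
    apply tsum_of_norm_bounded (f := fun x : V => b x * sin (k.1 * x.1 + k.2 * x.2)) hs.hasSum
    intro x
    rw [norm_mul, Real.norm_eq_abs, Real.norm_eq_abs]
    exact mul_le_of_le_one_right (abs_nonneg _) (abs_sin_le_one _)

private lemma hd_one {g : V → ℝ} (hg : (Function.support g).Finite) (e : V) (k : ℝ × ℝ) (T : ℝ)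
    (hT : ∑' x, |g x - g (x - e)| ≤ T) (hk : |k.1 * e.1 + k.2 * e.2| ≤ π) :
    (k.1 * e.1 + k.2 * e.2) ^ 2 * (fcos g k ^ 2 + fsin g k ^ 2) ≤ π ^ 2 / 2 * T ^ 2 := by
  have hg' : (Function.support (fun x : V => g (x - e))).Finite := by
    have : Function.support (fun x : V => g (x - e)) = (fun x : V => x - e) ⁻¹' Function.support g := rfl
    rw [this]
    exact hg.preimage (fun a _ b _ h => sub_left_injective h)
  have hb : (Function.support (fun x : V => g x - g (x - e))).Finite := by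
    apply (hg.union hg').subset
    intro x hx
    simp only [Function.mem_support, Set.mem_union] at hx ⊢
    by_contra hcon
    push Not at hcon
    apply hx
    rw [hcon.1, hcon.2, sub_zero]
  obtain ⟨p1, p2⟩ := hd_parts hg e k
  obtain ⟨b1, b2⟩ := hd_bd hb k
  rw [p1] at b1
  rw [p2] at b2
  set θ := k.1 * (e.1 : ℝ) + k.2 * (e.2 : ℝ)
  set a := fcos g k
  set c := fsin g k
  have q1 : (a * (1 - cos θ) + c * sin θ) ^ 2 ≤ T ^ 2 := sq_le_sq' (by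
    have := (abs_le.1 b1).1; linarith) (by have := (abs_le.1 b1).2; linarith)
  have q2 : (c * (1 - cos θ) - a * sin θ) ^ 2 ≤ T ^ 2 := sq_le_sq' (by
    have := (abs_le.1 b2).1; linarith) (by have := (abs_le.1 b2).2; linarith)
  have q3 : 2 * (1 - cos θ) * (a ^ 2 + c ^ 2) ≤ 2 * T ^ 2 := by
    have h := sin_sq_add_cos_sq θ
    have e1 : (a * (1 - cos θ) + c * sin θ) ^ 2 + (c * (1 - cos θ) - a * sin θ) ^ 2 =
        (a ^ 2 + c ^ 2) * (1 - 2 * cos θ + (sin θ ^ 2 + cos θ ^ 2)) := by ring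
    rw [h] at e1
    nlinarith [e1]
  have q4 : 2 / π ^ 2 * θ ^ 2 ≤ 1 - cos θ := by
    have := cos_le_one_sub_mul_cos_sq hk
    linarith
  have hπ := pi_pos
  have q5 : θ ^ 2 ≤ π ^ 2 / 2 * (1 - cos θ) := by
    have : π ^ 2 / 2 * (2 / π ^ 2 * θ ^ 2) = θ ^ 2 := by
      field_simp
    rw [← this]
    exact mul_le_mul_of_nonneg_left q4 (by positivity)
  calc θ ^ 2 * (a ^ 2 + c ^ 2) ≤ π ^ 2 / 2 * (1 - cos θ) * (a ^ 2 + c ^ 2) :=
        mul_le_mul_of_nonneg_right q5 (by positivity)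
    _ = π ^ 2 / 4 * (2 * (1 - cos θ) * (a ^ 2 + c ^ 2)) := by ring
    _ ≤ π ^ 2 / 4 * (2 * T ^ 2) := mul_le_mul_of_nonneg_left q3 (by positivity)
    _ = π ^ 2 / 2 * T ^ 2 := by ring

private lemma hd_shift {f : ℝ × ℝ → ℝ} {L R : ℝ} (hR : 0 ≤ R)
    (hL : ∀ y z, |f y - f z| ≤ L * (|y.1 - z.1| + |y.2 - z.2|))
    (hs : ∀ y : ℝ × ℝ, f y ≠ 0 → |y.1| ≤ R ∧ |y.2| ≤ R) (δ : ℝ) (h0 : 0 < δ) (h1 : δ ≤ 1)
    (e : V) (he1 : |e.1| + |e.2| = 1) :
    ∑' x : V, |δ ^ 2 * f (δ * x.1, δ * x.2) - δ ^ 2 * f (δ * (x - e).1, δ * (x - e).2)| ≤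
      (2 * (R + 1) + 4) ^ 2 * L * δ := by
  have hee : |(e.1 : ℝ)| + |(e.2 : ℝ)| = 1 := by exact_mod_cast he1
  have ha : |(e.1 : ℝ)| ≤ 1 := by linarith [abs_nonneg (e.2 : ℝ)]
  have hb : |(e.2 : ℝ)| ≤ 1 := by linarith [abs_nonneg (e.1 : ℝ)]
  let F : ℝ × ℝ → ℝ := fun y => (f y - f (y.1 - δ * e.1, y.2 - δ * e.2)) / δ
  have hF : ∀ y, |F y| ≤ L := by
    intro y
    simp only [F]
    rw [abs_div, abs_of_pos h0, div_le_iff₀ h0]
    refine (hL _ _).trans ?_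
    simp only [sub_sub_cancel]
    rw [abs_mul, abs_mul, abs_of_pos h0, ← mul_add, hee, mul_one]
  have hFs : ∀ y : ℝ × ℝ, F y ≠ 0 → |y.1| ≤ R + 1 ∧ |y.2| ≤ R + 1 := by
    intro y hy
    by_cases h : f y = 0
    · have h2 : f (y.1 - δ * e.1, y.2 - δ * e.2) ≠ 0 := by
        intro h2
        apply hy
        simp only [F, h, h2, sub_zero, zero_div]
      obtain ⟨u1, u2⟩ := hs _ h2
      simp only at u1 u2
      have v1 : |δ * (e.1 : ℝ)| ≤ 1 := by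
        rw [abs_mul, abs_of_pos h0]
        exact mul_le_one₀ h1 (abs_nonneg _) ha
      have v2 : |δ * (e.2 : ℝ)| ≤ 1 := by
        rw [abs_mul, abs_of_pos h0]
        exact mul_le_one₀ h1 (abs_nonneg _) hb
      constructor
      · have := abs_add_le (y.1 - δ * e.1) (δ * e.1)
        rw [sub_add_cancel] at this
        linarith
      · have := abs_add_le (y.2 - δ * e.2) (δ * e.2)
        rw [sub_add_cancel] at this
        linarith
    · obtain ⟨u1, u2⟩ := hs _ h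
      exact ⟨by linarith, by linarith⟩
  have key := sum_abs_le hF (by linarith : (0 : ℝ) ≤ R + 1) hFs δ h0 h1
  have : ∑' x : V, |δ ^ 2 * f (δ * x.1, δ * x.2) - δ ^ 2 * f (δ * (x - e).1, δ * (x - e).2)| =
      (∑' x : V, δ ^ 2 * |F (δ * x.1, δ * x.2)|) * δ := by
    rw [← tsum_mul_right]
    apply tsum_congr
    intro x
    simp only [F, Prod.fst_sub, Prod.snd_sub, Int.cast_sub, mul_sub]
    rw [← mul_sub, abs_mul, abs_div, abs_of_pos h0, abs_of_nonneg (sq_nonneg δ)]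
    field_simp
  rw [this]
  exact mul_le_mul_of_nonneg_right key h0.le

private lemma hd_fin {f : ℝ × ℝ → ℝ} {R : ℝ}
    (hs : ∀ y : ℝ × ℝ, f y ≠ 0 → |y.1| ≤ R ∧ |y.2| ≤ R) (δ : ℝ) (h0 : 0 < δ) :
    (Function.support (fun x : V => δ ^ 2 * f (δ * x.1, δ * x.2))).Finite := by
  apply (((Set.finite_Icc (-⌈R / δ⌉) ⌈R / δ⌉)).prod ((Set.finite_Icc (-⌈R / δ⌉) ⌈R / δ⌉))).subset
  intro x hx
  have hx' : f (δ * x.1, δ * x.2) ≠ 0 := by
    intro h
    apply hx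
    simp only [h, mul_zero]
  obtain ⟨u1, u2⟩ := hs _ hx'
  simp only at u1 u2
  have gen : ∀ n : ℤ, |δ * (n : ℝ)| ≤ R → -⌈R / δ⌉ ≤ n ∧ n ≤ ⌈R / δ⌉ := by
    intro n hn
    rw [abs_mul, abs_of_pos h0] at hn
    have h2 : |(n : ℝ)| ≤ R / δ := by
      rw [le_div_iff₀ h0]; linarith
    have h3 : |(n : ℝ)| ≤ (⌈R / δ⌉ : ℤ) := h2.trans (Int.le_ceil _)
    have h4 : |n| ≤ ⌈R / δ⌉ := by exact_mod_cast h3
    exact abs_le.1 h4
  exact ⟨gen _ u1, gen _ u2⟩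

/-
For `a k = ∑ δ² f(δx) e^{ik·x}` (work with the pair of real sums): `(1 - e^{ik₁}) a k = ∑ δ² (f(δx) - f(δ(x - e₁))) e^{ik·x}` has modulus
`≤ C δ` (Lipschitz, number of points), `|1 - e^{ik₁}| ≥ (2/π)|k₁|` for `|k₁| ≤ π`; the same for `k₂`.  The charge at `0` is `O(δ)` (`riemann_lip`, `∫ f = 0`)
and `|k| ≤ 2π` on `box`.
-/
lemma charge_decay {f : ℝ × ℝ → ℝ} (hf : ContDiff ℝ 1 f) (hc : HasCompactSupport f)
    (h0 : ∫ y, f y = 0) :
    ∃ C : ℝ, 0 < C ∧ ∀ δ, 0 < δ → δ ≤ 1 → ∀ k : ℝ × ℝ, k ∈ box →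
      (k.1 ^ 2 + k.2 ^ 2) * (fcos (charge f δ) k ^ 2 + fsin (charge f δ) k ^ 2) ≤ C * δ ^ 2 := by
  obtain ⟨L, R, hL0, hR, hL, hs, -⟩ := lip_of_cd hf hc
  set M : ℝ := (2 * (R + 1) + 4) ^ 2 * L with hM
  set N : ℝ := (2 * R + 4) ^ 2 * L with hN
  refine ⟨2 * π ^ 2 * M ^ 2 + 4 * π ^ 2 * N ^ 2 + 1, by positivity, ?_⟩
  intro δ hδ hδ1 k hk
  set g : V → ℝ := fun x : V => δ ^ 2 * f (δ * x.1, δ * x.2) with hg
  have hgf : (Function.support g).Finite := hd_fin hs δ hδ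
  obtain ⟨⟨k1, k1'⟩, ⟨k2, k2'⟩⟩ := hk
  have A1 := hd_one hgf (1, 0) k (M * δ) (hd_shift hR hL hs δ hδ hδ1 (1, 0) (by simp))
    (by simp only [Int.cast_one, mul_one, Int.cast_zero, mul_zero, add_zero]; exact abs_le.2 ⟨k1, k1'⟩)
  have A2 := hd_one hgf (0, 1) k (M * δ) (hd_shift hR hL hs δ hδ hδ1 (0, 1) (by simp))
    (by simp only [Int.cast_one, mul_one, Int.cast_zero, mul_zero, zero_add]; exact abs_le.2 ⟨k2, k2'⟩)
  simp only [Int.cast_one, mul_one, Int.cast_zero, mul_zero, zero_add, add_zero] at A1 A2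
  have A3 : |∑' x : V, g x| ≤ N * δ := by
    have := riemann_lip L R hR f hL hs δ hδ hδ1
    rw [h0, sub_zero] at this
    exact this
  set s := ∑' x : V, g x with hsdef
  have hsing : (Function.support (fun x : V => if x = 0 then s else 0)).Finite := by
    apply (Set.finite_singleton (0 : V)).subset
    intro x hx
    simp only [Function.mem_support, ne_eq, ite_eq_right_iff, Classical.not_imp] at hx
    exact hx.1
  have c1 : fcos (charge f δ) k = fcos g k - s := by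
    have e1 : fcos (charge f δ) k = ∑' x : V, (g x * cos (k.1 * x.1 + k.2 * x.2) -
        (if x = 0 then s else 0) * cos (k.1 * x.1 + k.2 * x.2)) := by
      unfold fcos charge
      apply tsum_congr
      intro x
      rw [← sub_mul]
    rw [e1, (hd_sc hgf _).tsum_sub (hd_sc hsing _)]
    congr 1
    rw [tsum_eq_single 0]
    · simp
    · intro x hx
      rw [if_neg hx, zero_mul]
  have c2 : fsin (charge f δ) k = fsin g k := by
    have e1 : fsin (charge f δ) k = ∑' x : V, (g x * sin (k.1 * x.1 + k.2 * x.2) -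
        (if x = 0 then s else 0) * sin (k.1 * x.1 + k.2 * x.2)) := by
      unfold fsin charge
      apply tsum_congr
      intro x
      rw [← sub_mul]
    rw [e1, (hd_sc hgf _).tsum_sub (hd_sc hsing _)]
    have : ∑' x : V, (if x = 0 then s else 0) * sin (k.1 * x.1 + k.2 * x.2) = 0 := by
      rw [tsum_eq_single 0]
      · simp
      · intro x hx
        rw [if_neg hx, zero_mul]
    rw [this, sub_zero]
    rfl
  rw [c1, c2]
  set a := fcos g k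
  set c := fsin g k
  have b1 : (a - s) ^ 2 + c ^ 2 ≤ 2 * (a ^ 2 + c ^ 2) + 2 * s ^ 2 := by
    nlinarith [sq_nonneg (a + s), sq_nonneg c]
  have b2 : s ^ 2 ≤ (N * δ) ^ 2 := sq_le_sq' (by have := (abs_le.1 A3).1; linarith) (abs_le.1 A3).2
  have b3 : k.1 ^ 2 + k.2 ^ 2 ≤ 2 * π ^ 2 := by
    have u1 : k.1 ^ 2 ≤ π ^ 2 := sq_le_sq' k1 k1'
    have u2 : k.2 ^ 2 ≤ π ^ 2 := sq_le_sq' k2 k2'
    linarith
  calc (k.1 ^ 2 + k.2 ^ 2) * ((a - s) ^ 2 + c ^ 2)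
      ≤ (k.1 ^ 2 + k.2 ^ 2) * (2 * (a ^ 2 + c ^ 2) + 2 * s ^ 2) :=
        mul_le_mul_of_nonneg_left b1 (by positivity)
    _ = 2 * (k.1 ^ 2 * (a ^ 2 + c ^ 2)) + 2 * (k.2 ^ 2 * (a ^ 2 + c ^ 2)) +
        2 * ((k.1 ^ 2 + k.2 ^ 2) * s ^ 2) := by ring
    _ ≤ 2 * (π ^ 2 / 2 * (M * δ) ^ 2) + 2 * (π ^ 2 / 2 * (M * δ) ^ 2) +
        2 * (2 * π ^ 2 * (N * δ) ^ 2) := by
        have := mul_le_mul b3 b2 (sq_nonneg s) (by positivity)
        linarith
    _ ≤ (2 * π ^ 2 * M ^ 2 + 4 * π ^ 2 * N ^ 2 + 1) * δ ^ 2 := by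
        nlinarith [sq_nonneg δ]

theorem charge_fam {f : ℝ × ℝ → ℝ} (hf : ContDiff ℝ 1 f) (hc : HasCompactSupport f)
    (h0 : ∫ y, f y = 0) : Fam (charge f) f :=
  ⟨fun δ hδ => charge_fin hc δ hδ, fun δ hδ => charge_neutral hc δ hδ,
    fun A ε hε => charge_conv hf hc h0 A ε hε, charge_small hf hc, charge_decay hf hc h0⟩

end RP4
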