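import Pool.Agent.Helper97.RP4.GC
import Pool.Agent.Helper97.RP4.H1

/-!
H2.  Convergence of the quadratic form on families of neutral charges.
-/

open Real Set Filter Topology MeasureTheory

namespace RP4

private lemma h2_odd {F : ℝ × ℝ → ℝ} (hF : Continuous F) (ho : ∀ a b, F (-a, b) = -F (a, b)) :
    ∫ k in box, F k = 0 := by
  have hbox : IsCompact (box : Set (ℝ × ℝ)) := isCompact_Icc.prod isCompact_Icc
  have hi : IntegrableOn F box := hF.continuousOn.integrableOn_compact hbox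
  have h1 : ∫ k in box, F k = ∫ a in Icc (-π) π, ∫ b in Icc (-π) π, F (a, b) := by
    unfold box at hi ⊢
    rw [Measure.volume_eq_prod] at hi ⊢
    exact setIntegral_prod F hi
  rw [h1, integral_Icc_eq_integral_Ioc,
    ← intervalIntegral.integral_of_le (by linarith [Real.pi_pos])]
  have h2 : ∫ a in (-π)..π, (fun a => ∫ b in Icc (-π) π, F (a, b)) (-a) =
      ∫ a in (-π)..(-(-π)), (fun a => ∫ b in Icc (-π) π, F (a, b)) a :=
    intervalIntegral.integral_comp_neg (fun a => ∫ b in Icc (-π) π, F (a, b))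
  simp only [ho, integral_neg, intervalIntegral.integral_neg, neg_neg] at h2
  linarith

private lemma h2_int {S : ℝ → ℝ → ℝ} (h : RPSym S) (z : V) :
    ∫ k in box, 2 * (1 - cos (k.1 * z.1 + k.2 * z.2)) * S k.1 k.2 =
      ∫ k in box, 2 * (1 - cos (z.1 * k.1) * cos (z.2 * k.2)) * S k.1 k.2 := by
  have hbox : IsCompact (box : Set (ℝ × ℝ)) := isCompact_Icc.prod isCompact_Icc
  have hS : Continuous fun k : ℝ × ℝ => S k.1 k.2 := h.cont
  have c1 : Continuous fun k : ℝ × ℝ => 2 * (1 - cos (z.1 * k.1) * cos (z.2 * k.2)) * S k.1 k.2 := by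
    fun_prop
  have c2 : Continuous fun k : ℝ × ℝ => 2 * (sin (z.1 * k.1) * sin (z.2 * k.2)) * S k.1 k.2 := by
    fun_prop
  have h0 := h2_odd c2 (fun a b => by
    show 2 * (sin (z.1 * -a) * sin (z.2 * b)) * S (-a) b = _
    rw [h.even, mul_neg, Real.sin_neg]
    ring)
  have h1 : ∫ k in box, 2 * (1 - cos (k.1 * z.1 + k.2 * z.2)) * S k.1 k.2 =
      ∫ k in box, (2 * (1 - cos (z.1 * k.1) * cos (z.2 * k.2)) * S k.1 k.2 +
        2 * (sin (z.1 * k.1) * sin (z.2 * k.2)) * S k.1 k.2) := by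
    refine integral_congr_ae (Eventually.of_forall fun k => ?_)
    simp only
    rw [Real.cos_add, mul_comm k.1, mul_comm k.2]
    ring
  rw [h1, integral_add (c1.continuousOn.integrableOn_compact hbox)
    (c2.continuousOn.integrableOn_compact hbox), h0, add_zero]

private lemma h2_key (T : Finset V) (m : V → ℝ) (e0 : ∑ x ∈ T, m x = 0) (k : ℝ × ℝ) :
    (∑ x ∈ T, m x * cos (k.1 * x.1 + k.2 * x.2)) ^ 2 +
      (∑ x ∈ T, m x * sin (k.1 * x.1 + k.2 * x.2)) ^ 2 =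
    ∑ x ∈ T, ∑ y ∈ T, -(1 / 2) * (m x * m y) *
      (2 * (1 - cos (k.1 * (x - y).1 + k.2 * (x - y).2))) := by
  have h1 : (∑ x ∈ T, m x) * (∑ y ∈ T, m y) = 0 := by rw [e0, zero_mul]
  rw [sq, sq, Finset.sum_mul_sum, Finset.sum_mul_sum, ← Finset.sum_add_distrib]
  rw [Finset.sum_mul_sum] at h1
  have h2 : ∑ x ∈ T, ∑ y ∈ T, -(1 / 2) * (m x * m y) *
      (2 * (1 - cos (k.1 * (x - y).1 + k.2 * (x - y).2))) =
      (∑ x ∈ T, ∑ y ∈ T, m x * m y * cos (k.1 * (x - y).1 + k.2 * (x - y).2)) -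
        ∑ x ∈ T, ∑ y ∈ T, m x * m y := by
    rw [← Finset.sum_sub_distrib]
    refine Finset.sum_congr rfl fun x _ => ?_
    rw [← Finset.sum_sub_distrib]
    refine Finset.sum_congr rfl fun y _ => ?_
    ring
  rw [h2, h1, sub_zero]
  refine Finset.sum_congr rfl fun x _ => ?_
  rw [← Finset.sum_add_distrib]
  refine Finset.sum_congr rfl fun y _ => ?_
  have h3 : k.1 * ((x - y).1 : ℤ) + k.2 * ((x - y).2 : ℤ) =
      (k.1 * x.1 + k.2 * x.2) - (k.1 * y.1 + k.2 * y.2) := by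
    rw [Prod.fst_sub, Prod.snd_sub]
    push_cast
    ring
  rw [h3, Real.cos_sub]
  ring

/-
`-(1/2) ∑∑ m x m y 2 (1 - cos (k·(x-y))) = |m^(k)|²` for a finitely supported neutral `m`; replace `cos (k·(x-y))` by `cos cos` under the
integral against `S n` (`even`); `hγ` at the finitely many differences.
-/
theorem fam_lim {S : ℕ → ℝ → ℝ → ℝ} (hS : ∀ n, RPSym (S n)) {γ : V → ℝ}
    (hγ : ∀ x : V, Tendsto (fun n => (1 / (2 * π) ^ 2) *
      ∫ k in box, 2 * (1 - cos (x.1 * k.1) * cos (x.2 * k.2)) * S n k.1 k.2) atTop (𝓝 (γ x)))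
    {m : V → ℝ} (hm : (Function.support m).Finite) (h0 : ∑' x : V, m x = 0) :
    Tendsto (fun n => (1 / (2 * π) ^ 2) *
      ∫ k in box, (fcos m k ^ 2 + fsin m k ^ 2) * S n k.1 k.2) atTop (𝓝 (qform γ m)) := by
  classical
  have hT : ∀ x, x ∉ hm.toFinset → m x = 0 := by
    intro x hx
    by_contra h
    exact hx (hm.mem_toFinset.2 h)
  generalize hm.toFinset = T at hT
  have ec : ∀ k, fcos m k = ∑ x ∈ T, m x * cos (k.1 * x.1 + k.2 * x.2) := fun k =>
    tsum_eq_sum fun x hx => by rw [hT x hx, zero_mul]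
  have es : ∀ k, fsin m k = ∑ x ∈ T, m x * sin (k.1 * x.1 + k.2 * x.2) := fun k =>
    tsum_eq_sum fun x hx => by rw [hT x hx, zero_mul]
  have e0 : ∑ x ∈ T, m x = 0 := by
    rw [← h0]
    exact (tsum_eq_sum fun x hx => hT x hx).symm
  have eq : qform γ m = ∑ x ∈ T, ∑ y ∈ T, -(1 / 2) * (m x * m y) * γ (x - y) := by
    unfold qform
    rw [tsum_eq_sum (s := T ×ˢ T), Finset.sum_product, Finset.mul_sum]
    · refine Finset.sum_congr rfl fun x _ => ?_
      rw [Finset.mul_sum]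
      refine Finset.sum_congr rfl fun y _ => ?_
      ring
    · rintro ⟨x, y⟩ hxy
      rw [Finset.mem_product, not_and_or] at hxy
      rcases hxy with h | h
      · rw [hT x h]
        ring
      · rw [hT y h]
        ring
  have hbox : IsCompact (box : Set (ℝ × ℝ)) := isCompact_Icc.prod isCompact_Icc
  have key : ∀ n, (1 / (2 * π) ^ 2) *
      ∫ k in box, (fcos m k ^ 2 + fsin m k ^ 2) * S n k.1 k.2 =
      ∑ x ∈ T, ∑ y ∈ T, -(1 / 2) * (m x * m y) * ((1 / (2 * π) ^ 2) *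
        ∫ k in box, 2 * (1 - cos ((x - y).1 * k.1) * cos ((x - y).2 * k.2)) * S n k.1 k.2) := by
    intro n
    have hSc : Continuous fun k : ℝ × ℝ => S n k.1 k.2 := (hS n).cont
    have hc : ∀ x y : V, Continuous fun k : ℝ × ℝ => -(1 / 2) * (m x * m y) *
        (2 * (1 - cos (k.1 * (x - y).1 + k.2 * (x - y).2)) * S n k.1 k.2) := by
      intro x y
      fun_prop
    have h1 : ∫ k in box, (fcos m k ^ 2 + fsin m k ^ 2) * S n k.1 k.2 =
        ∫ k in box, ∑ x ∈ T, ∑ y ∈ T, -(1 / 2) * (m x * m y) *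
          (2 * (1 - cos (k.1 * (x - y).1 + k.2 * (x - y).2)) * S n k.1 k.2) := by
      refine integral_congr_ae (Eventually.of_forall fun k => ?_)
      simp only
      rw [ec, es, h2_key T m e0, Finset.sum_mul]
      refine Finset.sum_congr rfl fun x _ => ?_
      rw [Finset.sum_mul]
      refine Finset.sum_congr rfl fun y _ => ?_
      ring
    rw [h1, integral_finsetSum _ fun x _ => integrable_finsetSum _ fun y _ =>
      ((hc x y).continuousOn.integrableOn_compact hbox), Finset.mul_sum]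
    refine Finset.sum_congr rfl fun x _ => ?_
    rw [integral_finsetSum _ fun y _ => ((hc x y).continuousOn.integrableOn_compact hbox),
      Finset.mul_sum]
    refine Finset.sum_congr rfl fun y _ => ?_
    rw [integral_const_mul, h2_int (hS n)]
    ring
  rw [funext key, eq]
  exact tendsto_finsetSum _ fun x _ => tendsto_finsetSum _ fun y _ => (hγ (x - y)).const_mul _

private lemma sc_cos {m : V → ℝ} (hm : (Function.support m).Finite) : Continuous (fcos m) := by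
  have : fcos m = fun k : ℝ × ℝ => ∑ x ∈ hm.toFinset, m x * cos (k.1 * x.1 + k.2 * x.2) := by
    funext k
    unfold fcos
    apply tsum_eq_sum
    intro x hx
    have : m x = 0 := by
      by_contra h
      exact hx (hm.mem_toFinset.2 h)
    rw [this, zero_mul]
  rw [this]
  fun_prop

private lemma sc_sin {m : V → ℝ} (hm : (Function.support m).Finite) : Continuous (fsin m) := by
  have : fsin m = fun k : ℝ × ℝ => ∑ x ∈ hm.toFinset, m x * sin (k.1 * x.1 + k.2 * x.2) := by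
    funext k
    unfold fsin
    apply tsum_eq_sum
    intro x hx
    have : m x = 0 := by
      by_contra h
      exact hx (hm.mem_toFinset.2 h)
    rw [this, zero_mul]
  rw [this]
  fun_prop

private lemma sc_cov (P : ℝ × ℝ → ℝ) (δ : ℝ) (hδ : 0 < δ) :
    ∫ k in box, P k / (k.1 ^ 2 + k.2 ^ 2) =
      ∫ ξ : ℝ × ℝ, box.indicator P (δ * ξ.1, δ * ξ.2) / (ξ.1 ^ 2 + ξ.2 ^ 2) := by
  have hb : MeasurableSet box := measurableSet_Icc.prod measurableSet_Icc
  rw [← integral_indicator hb]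
  have h := Measure.integral_comp_smul (volume : Measure (ℝ × ℝ))
    (box.indicator (fun k : ℝ × ℝ => P k / (k.1 ^ 2 + k.2 ^ 2))) δ
  have hf : Module.finrank ℝ (ℝ × ℝ) = 2 := by simp
  rw [hf, abs_of_pos (by positivity), smul_eq_mul] at h
  have h2 : ∫ k, box.indicator (fun k : ℝ × ℝ => P k / (k.1 ^ 2 + k.2 ^ 2)) k =
      δ ^ 2 * ∫ x : ℝ × ℝ, box.indicator (fun k : ℝ × ℝ => P k / (k.1 ^ 2 + k.2 ^ 2)) (δ • x) := by
    rw [h]
    field_simp
  rw [h2, ← integral_const_mul]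
  congr 1
  funext ξ
  have e : δ • ξ = (δ * ξ.1, δ * ξ.2) := rfl
  rw [e]
  by_cases hξ : (δ * ξ.1, δ * ξ.2) ∈ box
  · rw [indicator_of_mem hξ, indicator_of_mem hξ]
    have : (δ * ξ.1) ^ 2 + (δ * ξ.2) ^ 2 = δ ^ 2 * (ξ.1 ^ 2 + ξ.2 ^ 2) := by ring
    simp only [this]
    rw [← mul_div_assoc, mul_div_mul_left _ _ (by positivity)]
  · rw [indicator_of_notMem hξ, indicator_of_notMem hξ, mul_zero, zero_div]

/-
Substitute `k = δ ξ` (`(1/|k|²) dk` is invariant): `∫_{ξ ∈ δ⁻¹ box} P_δ(δξ)/|ξ|² dξ`, `P_δ(δξ) → ftc² + fts²` pointwise (`conv`), dominated by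
`min (C, C/|ξ|⁴)` (`small`, `decay`), which is integrable on the plane; the indicator of `δ⁻¹ box` tends to `1`.
`tendsto_integral_filter_of_dominated_convergence`.
-/
theorem scale_int {m : ℝ → V → ℝ} {f : ℝ × ℝ → ℝ} (hf : Continuous f) (hc : HasCompactSupport f)
    (F : Fam m f) :
    Tendsto (fun δ => ∫ k in box, (fcos (m δ) k ^ 2 + fsin (m δ) k ^ 2) / (k.1 ^ 2 + k.2 ^ 2))
      (𝓝[>] 0) (𝓝 ((2 * π) ^ 2 * energyF f)) := by
  have hπ := pi_pos
  have hb : MeasurableSet box := measurableSet_Icc.prod measurableSet_Icc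
  have e1 : (2 * π) ^ 2 * energyF f =
      ∫ ξ : ℝ × ℝ, (ftc f ξ ^ 2 + fts f ξ ^ 2) / (ξ.1 ^ 2 + ξ.2 ^ 2) := by
    unfold energyF
    rw [← mul_assoc, mul_one_div, div_self (by positivity), one_mul]
  rw [e1]
  set G : ℝ → ℝ × ℝ → ℝ := fun δ ξ =>
    box.indicator (fun k => fcos (m δ) k ^ 2 + fsin (m δ) k ^ 2) (δ * ξ.1, δ * ξ.2) /
      (ξ.1 ^ 2 + ξ.2 ^ 2) with hG
  have e2 : Tendsto (fun δ => ∫ ξ : ℝ × ℝ, G δ ξ) (𝓝[>] 0)
      (𝓝 (∫ ξ : ℝ × ℝ, (ftc f ξ ^ 2 + fts f ξ ^ 2) / (ξ.1 ^ 2 + ξ.2 ^ 2))) := by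
    obtain ⟨C, hC, hsm⟩ := F.small
    obtain ⟨D, hD, hde⟩ := F.decay
    have hpos : ∀ᶠ δ : ℝ in 𝓝[>] 0, 0 < δ ∧ δ ≤ 1 := by
      have : Ioc (0 : ℝ) 1 ∈ 𝓝[>] (0 : ℝ) := Ioc_mem_nhdsGT one_pos
      exact this
    apply tendsto_integral_filter_of_dominated_convergence
      (fun ξ : ℝ × ℝ => 16 * (C + D) * (1 + ‖ξ‖) ^ (-(4 : ℝ)))
    · filter_upwards [hpos] with δ hδ
      have hfin := F.fin δ hδ.1
      have hP : Measurable (fun k : ℝ × ℝ => fcos (m δ) k ^ 2 + fsin (m δ) k ^ 2) :=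
        (((sc_cos hfin).pow 2).add ((sc_sin hfin).pow 2)).measurable
      have hsc : Measurable (fun ξ : ℝ × ℝ => (δ * ξ.1, δ * ξ.2)) := by fun_prop
      have h1 : Measurable (fun ξ : ℝ × ℝ => box.indicator
          (fun k => fcos (m δ) k ^ 2 + fsin (m δ) k ^ 2) (δ * ξ.1, δ * ξ.2)) :=
        (hP.indicator hb).comp hsc
      have h2 : Measurable (fun ξ : ℝ × ℝ => ξ.1 ^ 2 + ξ.2 ^ 2) := by fun_prop
      exact (h1.div h2).aestronglyMeasurable
    · filter_upwards [hpos] with δ hδ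
      apply Eventually.of_forall
      intro ξ
      obtain ⟨h0, h1⟩ := hδ
      have hn1 : |ξ.1| ≤ ‖ξ‖ := norm_fst_le ξ
      have hn2 : |ξ.2| ≤ ‖ξ‖ := norm_snd_le ξ
      have hnn : ‖ξ‖ ^ 2 ≤ ξ.1 ^ 2 + ξ.2 ^ 2 := by
        rw [Prod.norm_def]
        rcases max_choice ‖ξ.1‖ ‖ξ.2‖ with h | h
        · rw [h, Real.norm_eq_abs, sq_abs]
          linarith [sq_nonneg ξ.2]
        · rw [h, Real.norm_eq_abs, sq_abs]
          linarith [sq_nonneg ξ.1]
      have hN : 0 ≤ ‖ξ‖ := norm_nonneg ξ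
      have hr : (1 + ‖ξ‖) ^ (-(4 : ℝ)) = ((1 + ‖ξ‖) ^ 4)⁻¹ := by
        rw [rpow_neg (by positivity)]
        norm_cast
      rw [hr]
      have hrhs : 0 ≤ 16 * (C + D) * ((1 + ‖ξ‖) ^ 4)⁻¹ := by positivity
      simp only [hG]
      by_cases hξ : (δ * ξ.1, δ * ξ.2) ∈ box
      · rw [indicator_of_mem hξ]
        have a1 := hsm δ h0 h1 (δ * ξ.1, δ * ξ.2)
        have a2 := hde δ h0 h1 (δ * ξ.1, δ * ξ.2) hξ
        simp only at a1 a2
        set P := fcos (m δ) (δ * ξ.1, δ * ξ.2) ^ 2 + fsin (m δ) (δ * ξ.1, δ * ξ.2) ^ 2 with hP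
        have hP0 : 0 ≤ P := by positivity
        have hsq : (δ * ξ.1) ^ 2 + (δ * ξ.2) ^ 2 = δ ^ 2 * (ξ.1 ^ 2 + ξ.2 ^ 2) := by ring
        rw [hsq] at a1 a2
        have a1' : P ≤ C * (ξ.1 ^ 2 + ξ.2 ^ 2) := by
          have : C * (δ ^ 2 * (ξ.1 ^ 2 + ξ.2 ^ 2)) / δ ^ 2 = C * (ξ.1 ^ 2 + ξ.2 ^ 2) := by
            field_simp
          rwa [this] at a1
        have a2' : (ξ.1 ^ 2 + ξ.2 ^ 2) * P ≤ D := by
          have : δ ^ 2 * ((ξ.1 ^ 2 + ξ.2 ^ 2) * P) ≤ δ ^ 2 * D := by nlinarith [a2]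
          exact le_of_mul_le_mul_left this (by positivity)
        rw [Real.norm_eq_abs, abs_of_nonneg (by positivity)]
        set q := ξ.1 ^ 2 + ξ.2 ^ 2 with hq
        have hq0 : 0 ≤ q := by positivity
        rcases hq0.eq_or_lt with hq0 | hq0
        · rw [← hq0, div_zero]
          exact hrhs
        · rw [div_le_iff₀ hq0]
          have hpw : 0 < (1 + ‖ξ‖) ^ 4 := by positivity
          rw [mul_assoc, ← div_eq_inv_mul, ← mul_div_assoc, le_div_iff₀ hpw]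
          rcases le_total ‖ξ‖ 1 with hle | hle
          · have : (1 + ‖ξ‖) ^ 4 ≤ 2 ^ 4 := pow_le_pow_left₀ (by positivity) (by linarith) 4
            calc P * (1 + ‖ξ‖) ^ 4 ≤ (C * q) * 2 ^ 4 :=
                  mul_le_mul a1' this (by positivity) (by positivity)
              _ ≤ 16 * (C + D) * q := by nlinarith [mul_pos hD hq0]
          · have : (1 + ‖ξ‖) ^ 4 ≤ (2 * ‖ξ‖) ^ 4 :=
              pow_le_pow_left₀ (by positivity) (by linarith) 4
            have h4 : ‖ξ‖ ^ 4 ≤ q ^ 2 := by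
              have := pow_le_pow_left₀ (by positivity) hnn 2
              calc ‖ξ‖ ^ 4 = (‖ξ‖ ^ 2) ^ 2 := by ring
                _ ≤ _ := this
            calc P * (1 + ‖ξ‖) ^ 4 ≤ P * (16 * q ^ 2) := by
                  apply mul_le_mul_of_nonneg_left _ hP0
                  calc _ ≤ (2 * ‖ξ‖) ^ 4 := this
                    _ = 16 * ‖ξ‖ ^ 4 := by ring
                    _ ≤ _ := by linarith
              _ = 16 * (q * P) * q := by ring
              _ ≤ 16 * D * q := by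
                  apply mul_le_mul_of_nonneg_right _ hq0.le
                  linarith
              _ ≤ 16 * (C + D) * q := by nlinarith [mul_pos hC hq0]
      · rw [indicator_of_notMem hξ, zero_div, norm_zero]
        exact hrhs
    · apply Integrable.const_mul
      apply integrable_one_add_norm
      simp
      norm_num
    · apply Eventually.of_forall
      intro ξ
      have hev : ∀ᶠ δ : ℝ in 𝓝[>] 0, (δ * ξ.1, δ * ξ.2) ∈ box := by
        have ht : Tendsto (fun δ : ℝ => (δ * ξ.1, δ * ξ.2)) (𝓝[>] 0) (𝓝 (0 * ξ.1, 0 * ξ.2)) := by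
          apply Tendsto.mono_left _ nhdsWithin_le_nhds
          exact Continuous.tendsto (by fun_prop) 0
        apply ht.eventually
        rw [zero_mul, zero_mul]
        exact prod_mem_nhds (Icc_mem_nhds (by linarith) hπ) (Icc_mem_nhds (by linarith) hπ)
      have ht : Tendsto (fun δ : ℝ => (fcos (m δ) (δ * ξ.1, δ * ξ.2) ^ 2 +
          fsin (m δ) (δ * ξ.1, δ * ξ.2) ^ 2) / (ξ.1 ^ 2 + ξ.2 ^ 2)) (𝓝[>] 0)
          (𝓝 ((ftc f ξ ^ 2 + fts f ξ ^ 2) / (ξ.1 ^ 2 + ξ.2 ^ 2))) := by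
        apply Tendsto.div_const
        have key : ∀ ε : ℝ, 0 < ε → ∀ᶠ δ : ℝ in 𝓝[>] 0,
            |fcos (m δ) (δ * ξ.1, δ * ξ.2) - ftc f ξ| ≤ ε ∧
              |fsin (m δ) (δ * ξ.1, δ * ξ.2) - fts f ξ| ≤ ε := by
          intro ε hε
          obtain ⟨d, hd, hcv⟩ := F.conv (Real.sqrt (ξ.1 ^ 2 + ξ.2 ^ 2)) ε hε
          have : Ioo (0 : ℝ) d ∈ 𝓝[>] (0 : ℝ) := Ioo_mem_nhdsGT hd
          filter_upwards [this] with δ hδ
          exact hcv δ hδ.1 hδ.2 ξ (by rw [Real.sq_sqrt (by positivity)])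
        apply Tendsto.add
        · apply Tendsto.pow
          rw [Metric.tendsto_nhds]
          intro ε hε
          filter_upwards [key (ε / 2) (by positivity)] with δ hδ
          rw [Real.dist_eq]
          linarith [hδ.1]
        · apply Tendsto.pow
          rw [Metric.tendsto_nhds]
          intro ε hε
          filter_upwards [key (ε / 2) (by positivity)] with δ hδ
          rw [Real.dist_eq]
          linarith [hδ.2]
      apply ht.congr'
      filter_upwards [hev] with δ hδ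
      simp only [hG]
      rw [indicator_of_mem hδ]
  apply e2.congr'
  have : Ioi (0 : ℝ) ∈ 𝓝[>] (0 : ℝ) := self_mem_nhdsWithin
  filter_upwards [this] with δ hδ
  rw [sc_cov (fun k => fcos (m δ) k ^ 2 + fsin (m δ) k ^ 2) δ hδ]

/-
`gen_comp` with `P = fcos² + fsin²`, `B = C/δ²`, `Q = C δ²/η²`; let `n → ∞` (`fam_lim`), `ε' → 0`:
`|(2π)² qform - K ∫ P/|k|²| ≤ ε ∫ P/|k|² + C' δ²`; then `δ → 0` with `scale_int`, then `ε → 0`.
-/
theorem fam_asymp (S : ℕ → ℝ → ℝ → ℝ) (hS : ∀ n, RPSym (S n)) (M : ℝ)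
    (hM : ∀ n, ∫ k in box, (1 - cos k.1) * S n k.1 k.2 ≤ M) (K : ℝ) (hK : TwoPoint S K)
    (γ : V → ℝ)
    (hγ : ∀ x : V, Tendsto (fun n => (1 / (2 * π) ^ 2) *
      ∫ k in box, 2 * (1 - cos (x.1 * k.1) * cos (x.2 * k.2)) * S n k.1 k.2) atTop (𝓝 (γ x)))
    {m : ℝ → V → ℝ} {f : ℝ × ℝ → ℝ} (hf : Continuous f) (hc : HasCompactSupport f)
    (F : Fam m f) :
    Tendsto (fun δ => qform γ (m δ)) (𝓝[>] 0) (𝓝 (K * energyF f)) := by
  have hπ := pi_pos
  set I : ℝ → ℝ := fun δ =>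
    ∫ k in box, (fcos (m δ) k ^ 2 + fsin (m δ) k ^ 2) / (k.1 ^ 2 + k.2 ^ 2) with hI
  set L := (2 * π) ^ 2 * energyF f with hL
  have hIL : Tendsto I (𝓝[>] 0) (𝓝 L) := scale_int hf hc F
  obtain ⟨Cs, hCs, hsm⟩ := F.small
  obtain ⟨Cd, hCd, hde⟩ := F.decay
  have hD : Tendsto (fun δ => (2 * π) ^ 2 * qform γ (m δ) - K * I δ) (𝓝[>] 0) (𝓝 0) := by
    rw [Metric.tendsto_nhds]
    intro E hE
    have hεpos : 0 < E / (2 * (|L| + 1)) := by positivity
    obtain ⟨η, hη, C, hC, hcmp⟩ := gen_comp hS hM hK hεpos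
    have ev1 : ∀ᶠ δ in 𝓝[>] (0 : ℝ), I δ < |L| + 1 :=
      hIL.eventually (gt_mem_nhds (by linarith [le_abs_self L]))
    have ev2 : ∀ᶠ δ in 𝓝[>] (0 : ℝ), C * (Cd * δ ^ 2 / η ^ 2) < E / 2 := by
      have h0 : Tendsto (fun δ : ℝ => C * (Cd * δ ^ 2 / η ^ 2)) (𝓝[>] 0)
          (𝓝 (C * (Cd * 0 ^ 2 / η ^ 2))) :=
        (Continuous.tendsto (by fun_prop) 0).mono_left nhdsWithin_le_nhds
      have h1 : C * (Cd * 0 ^ 2 / η ^ 2) = 0 := by ring
      rw [h1] at h0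
      exact h0.eventually (gt_mem_nhds (by positivity))
    have ev3 : ∀ᶠ δ : ℝ in 𝓝[>] 0, 0 < δ ∧ δ ≤ 1 := by
      have : Ioc (0 : ℝ) 1 ∈ 𝓝[>] (0 : ℝ) := Ioc_mem_nhdsGT one_pos
      exact this
    filter_upwards [ev1, ev2, ev3] with δ h1 h2 h3
    rw [Real.dist_eq, sub_zero]
    have hP : Continuous (fun k : ℝ × ℝ => fcos (m δ) k ^ 2 + fsin (m δ) k ^ 2) :=
      ((sc_cos (F.fin δ h3.1)).pow 2).add ((sc_sin (F.fin δ h3.1)).pow 2)
    have hlim : Tendsto (fun n => ∫ k in box, (fcos (m δ) k ^ 2 + fsin (m δ) k ^ 2) *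
        S n k.1 k.2) atTop (𝓝 ((2 * π) ^ 2 * qform γ (m δ))) := by
      have h4 := (fam_lim hS hγ (F.fin δ h3.1) (F.neutral δ h3.1)).const_mul ((2 * π) ^ 2)
      refine h4.congr fun n => ?_
      field_simp
    have hδ2 : 0 < δ ^ 2 := pow_pos h3.1 2
    have hb : |(2 * π) ^ 2 * qform γ (m δ) - K * I δ| ≤
        E / (2 * (|L| + 1)) * I δ + C * (Cd * δ ^ 2 / η ^ 2) := by
      apply le_of_forall_pos_le_add
      intro ε' hε'
      have hB : ∀ k : ℝ × ℝ, fcos (m δ) k ^ 2 + fsin (m δ) k ^ 2 ≤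
          Cs / δ ^ 2 * (k.1 ^ 2 + k.2 ^ 2) := fun k => by
        refine (hsm δ h3.1 h3.2 k).trans (le_of_eq ?_)
        ring
      have hQ : ∀ k ∈ box, η ^ 2 ≤ k.1 ^ 2 + k.2 ^ 2 → fcos (m δ) k ^ 2 + fsin (m δ) k ^ 2 ≤
          Cd * δ ^ 2 / η ^ 2 := fun k hk hk2 => by
        have h5 := hde δ h3.1 h3.2 k hk
        have h6 : 0 ≤ fcos (m δ) k ^ 2 + fsin (m δ) k ^ 2 := by positivity
        rw [le_div_iff₀ (by positivity)]
        calc (fcos (m δ) k ^ 2 + fsin (m δ) k ^ 2) * η ^ 2 ≤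
            (fcos (m δ) k ^ 2 + fsin (m δ) k ^ 2) * (k.1 ^ 2 + k.2 ^ 2) :=
              mul_le_mul_of_nonneg_left hk2 h6
          _ ≤ Cd * δ ^ 2 := by linarith
      obtain ⟨N, hN⟩ := hcmp _ (Cs / δ ^ 2) (Cd * δ ^ 2 / η ^ 2) ε' hP (fun k => by positivity)
        hB hQ hε'
      apply le_of_tendsto (hlim.sub_const (K * I δ)).abs
      filter_upwards [eventually_ge_atTop N] with n hn
      exact hN n hn
    have h4 : E / (2 * (|L| + 1)) * I δ < E / (2 * (|L| + 1)) * (|L| + 1) :=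
      mul_lt_mul_of_pos_left h1 hεpos
    have h5 : E / (2 * (|L| + 1)) * (|L| + 1) = E / 2 := by
      have : |L| + 1 ≠ 0 := by positivity
      field_simp
    linarith
  have h6 := (hD.add (hIL.const_mul K)).const_mul (1 / (2 * π) ^ 2)
  have h7 : 1 / (2 * π) ^ 2 * (0 + K * L) = K * energyF f := by
    rw [hL]
    field_simp
    ring
  rw [h7] at h6
  refine h6.congr fun δ => ?_
  field_simp
  ring

end RP4
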