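import Pool.Agent.Helper63.RP4.Conc
import Pool.Agent.Helper63.RP4.Data

/-!
# Project RP4 (MP_973bc8_pr), analysis half: definitions

General theorem: a two point function which is reflection positive in four directions and has
finite gradient variance is isotropic to leading order.
-/

open Finset Filter MeasureTheory
open scoped Topology

namespace RP4

/-- `ℓ¹` norm of a lattice point -/
def nrm (x : V) : ℝ := |(x.1 : ℝ)| + |(x.2 : ℝ)|

/-- symbol of the lattice Laplacian -/
noncomputable def en (a b : ℝ) : ℝ := 2 - Real.cos a - Real.cos b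

/-- symmetric and reflection positive in the four directions -/
structure RP (R : V → ℝ) : Prop where
  sym : Sym4 R
  rp1 : RP1 R
  rpd : RPd R

/-- the fast decaying functions -/
def Fast (R : V → ℝ) : Prop := ∀ m : ℕ, Summable (fun x : V => |R x| * (1 + nrm x) ^ m)

/-- Fourier transform of a symmetric function -/
noncomputable def ft (R : V → ℝ) (a b : ℝ) : ℝ :=
  ∑' x : V, R x * (Real.cos (a * x.1) * Real.cos (b * x.2))

/-- `|∑ c_x exp(i k x)|²` -/
noncomputable def ch2 (s : Finset V) (c : V → ℝ) (a b : ℝ) : ℝ :=
  (∑ x ∈ s, c x * Real.cos (a * x.1 + b * x.2)) ^ 2 +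
    (∑ x ∈ s, c x * Real.sin (a * x.1 + b * x.2)) ^ 2

end RP4
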