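import Pool.Agent.Helper63.RP4.C1
import Pool.Agent.Helper97.RP4.Defs

/-!
GC.  General comparison of integrals against `S n` with integrals against `K / |k|²`.
-/

open Real Set Filter Topology MeasureTheory

namespace RP4

/-
`(1 - cos k₁) + (1 - cos k₂) ≥ c > 0` on `box ∩ {η² ≤ |k|²}` (explicitly `1 - cos t ≥ 2 t²/π²` for `|t| ≤ π`), and
`∫_box (1 - cos k₂) S n = ∫_box (1 - cos k₁) S n ≤ M` by `swap` (exchange of the coordinates preserves `box` and the measure).
-/
theorem tail_box {S : ℕ → ℝ → ℝ → ℝ} (hS : ∀ n, RPSym (S n)) {M : ℝ}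
    (hM : ∀ n, ∫ k in box, (1 - cos k.1) * S n k.1 k.2 ≤ M) {η : ℝ} (hη : 0 < η) :
    ∃ C : ℝ, 0 < C ∧ ∀ n, ∫ k in box ∩ {k : ℝ × ℝ | η ^ 2 ≤ k.1 ^ 2 + k.2 ^ 2}, S n k.1 k.2 ≤ C := by
  have hbox : IsCompact box := isCompact_Icc.prod isCompact_Icc
  have hbm : MeasurableSet box := measurableSet_Icc.prod measurableSet_Icc
  set A : Set (ℝ × ℝ) := box ∩ {k : ℝ × ℝ | η ^ 2 ≤ k.1 ^ 2 + k.2 ^ 2} with hA
  have hAm : MeasurableSet A := by
    refine hbm.inter (IsClosed.measurableSet ?_)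
    exact isClosed_le continuous_const (by fun_prop)
  set c : ℝ := 2 / π ^ 2 * η ^ 2 with hc
  have hc0 : 0 < c := by positivity
  have hM0 : 0 ≤ M := by
    refine le_trans ?_ (hM 0)
    refine integral_nonneg fun k => ?_
    exact mul_nonneg (by linarith [cos_le_one k.1]) ((hS 0).pos _ _).le
  refine ⟨(M + M) / c + 1, by positivity, fun n => ?_⟩
  have hSc := (hS n).cont
  have i1 : IntegrableOn (fun k : ℝ × ℝ => (1 - cos k.1) * S n k.1 k.2) box :=
    ContinuousOn.integrableOn_compact hbox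
      ((by fun_prop : Continuous fun k : ℝ × ℝ => 1 - cos k.1).mul hSc).continuousOn
  have i2 : IntegrableOn (fun k : ℝ × ℝ => (1 - cos k.2) * S n k.1 k.2) box :=
    ContinuousOn.integrableOn_compact hbox
      ((by fun_prop : Continuous fun k : ℝ × ℝ => 1 - cos k.2).mul hSc).continuousOn
  have i0 : IntegrableOn (fun k : ℝ × ℝ => S n k.1 k.2) A :=
    (ContinuousOn.integrableOn_compact hbox hSc.continuousOn).mono_set Set.inter_subset_left
  have i3 : IntegrableOn (fun k : ℝ × ℝ => (1 - cos k.1) * S n k.1 k.2 +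
      (1 - cos k.2) * S n k.1 k.2) box := i1.add i2
  have hsw : ∫ k in box, (1 - cos k.2) * S n k.1 k.2 = ∫ k in box, (1 - cos k.1) * S n k.1 k.2 := by
    have h1 := setIntegral_prod_swap (μ := (volume : Measure ℝ)) (ν := (volume : Measure ℝ))
      (Set.Icc (-π) π) (Set.Icc (-π) π) (fun k : ℝ × ℝ => (1 - cos k.1) * S n k.1 k.2)
    simp only [Prod.fst_swap, Prod.snd_swap] at h1
    rw [← Measure.volume_eq_prod] at h1
    rw [box, ← h1]
    refine setIntegral_congr_fun hbm fun k _ => ?_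
    rw [(hS n).swap]
  have hle : ∫ k in A, c * S n k.1 k.2 ≤ M + M := by
    calc ∫ k in A, c * S n k.1 k.2
        ≤ ∫ k in A, ((1 - cos k.1) * S n k.1 k.2 + (1 - cos k.2) * S n k.1 k.2) := by
          refine setIntegral_mono_on (i0.const_mul c) (i3.mono_set Set.inter_subset_left) hAm
            fun k hk => ?_
          have h1 : |k.1| ≤ π := abs_le.2 hk.1.1
          have h2 : |k.2| ≤ π := abs_le.2 hk.1.2
          have h3 := cos_le_one_sub_mul_cos_sq h1
          have h4 := cos_le_one_sub_mul_cos_sq h2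
          have h5 : η ^ 2 ≤ k.1 ^ 2 + k.2 ^ 2 := hk.2
          have h6 : 0 ≤ 2 / π ^ 2 := by positivity
          have h7 := mul_le_mul_of_nonneg_left h5 h6
          rw [← add_mul]
          refine mul_le_mul_of_nonneg_right ?_ ((hS n).pos _ _).le
          rw [hc]
          linarith
      _ ≤ ∫ k in box, ((1 - cos k.1) * S n k.1 k.2 + (1 - cos k.2) * S n k.1 k.2) := by
          refine setIntegral_mono_set i3 ?_ (Set.inter_subset_left.eventuallyLE)
          refine Filter.Eventually.of_forall fun k => ?_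
          have h1 := ((hS n).pos k.1 k.2).le
          exact add_nonneg (mul_nonneg (by linarith [cos_le_one k.1]) h1)
            (mul_nonneg (by linarith [cos_le_one k.2]) h1)
      _ = (∫ k in box, (1 - cos k.1) * S n k.1 k.2) + ∫ k in box, (1 - cos k.2) * S n k.1 k.2 :=
          integral_add i1 i2
      _ ≤ M + M := by
          rw [hsw]
          exact add_le_add (hM n) (hM n)
  rw [integral_const_mul] at hle
  have h8 : ∫ k in A, S n k.1 k.2 ≤ (M + M) / c := by
    rw [le_div_iff₀ hc0, mul_comm]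
    exact hle
  linarith

private lemma GCb_vol_box : volume.real (box : Set (ℝ × ℝ)) = (2 * π) ^ 2 := by
  have hpi := Real.pi_pos
  rw [Measure.real, box, Measure.volume_eq_prod, Measure.prod_prod, Real.volume_Icc,
    ENNReal.toReal_mul, ENNReal.toReal_ofReal (by linarith)]
  ring

private lemma GCb_vol_sq {τ : ℝ} (hτ : 0 < τ) :
    volume.real (Icc (-τ) τ ×ˢ Icc (-τ) τ : Set (ℝ × ℝ)) = 4 * τ ^ 2 := by
  rw [Measure.real, Measure.volume_eq_prod, Measure.prod_prod, Real.volume_Icc,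
    ENNReal.toReal_mul, ENNReal.toReal_ofReal (by linarith)]
  ring

/-
`η ≤ 1` as in `TwoPoint` for both bounds, with `ε`.  Everything is integrable: `P k / |k|² ≤ B`, bounded measurable on the set `box` of
finite measure (`k = 0`: `0/0 = 0`); `P * S n` continuous.
Upper: on `|k| ≤ η` (`k ≠ 0`) `P S n ≤ (K+ε) P/|k|²`; on `|k| ≥ η` `∫ P S n ≤ Q * C_η` (`tail_box`).
Lower, if `K ≥ ε`: on `τ ≤ |k| ≤ η` `P S n ≥ (K-ε) P/|k|²`, elsewhere `P S n ≥ 0`; `∫_{|k| < τ} P/|k|² ≤ B 4 τ²` (contained in a square),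
`∫_{box, |k| ≥ η} P/|k|² ≤ Q (2π)²/η²`; choose `τ` with `K B 4 τ² ≤ ε'`.  If `K < ε` the lower bound is trivial: `∫ P S n ≥ 0`.
(`Q ≥ 0` may be assumed: the point `(π, π)` is in the set.)
-/
theorem gen_comp {S : ℕ → ℝ → ℝ → ℝ} (hS : ∀ n, RPSym (S n)) {M : ℝ}
    (hM : ∀ n, ∫ k in box, (1 - cos k.1) * S n k.1 k.2 ≤ M) {K : ℝ} (hK : TwoPoint S K)
    {ε : ℝ} (hε : 0 < ε) :
    ∃ η > 0, ∃ C > 0, ∀ (P : ℝ × ℝ → ℝ) (B Q ε' : ℝ), Continuous P → (∀ k, 0 ≤ P k) →
      (∀ k, P k ≤ B * (k.1 ^ 2 + k.2 ^ 2)) →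
      (∀ k ∈ box, η ^ 2 ≤ k.1 ^ 2 + k.2 ^ 2 → P k ≤ Q) → 0 < ε' →
      ∃ N : ℕ, ∀ n ≥ N,
        |(∫ k in box, P k * S n k.1 k.2) - K * ∫ k in box, P k / (k.1 ^ 2 + k.2 ^ 2)| ≤
          ε * (∫ k in box, P k / (k.1 ^ 2 + k.2 ^ 2)) + C * Q + ε' := by
  have hpi := Real.pi_pos
  have hK0 := hK.nonneg
  obtain ⟨η₁, hη₁, N₁, hup⟩ := hK.upper ε hε
  obtain ⟨η₂, hη₂, hlow⟩ := hK.lower ε hε
  obtain ⟨η, hη, hη1, hη2, hη3⟩ : ∃ η : ℝ, 0 < η ∧ η ≤ η₁ ∧ η ≤ η₂ ∧ η ≤ 1 :=
    ⟨min (min η₁ η₂) 1, lt_min (lt_min hη₁ hη₂) one_pos,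
      (min_le_left _ _).trans (min_le_left _ _), (min_le_left _ _).trans (min_le_right _ _),
      min_le_right _ _⟩
  obtain ⟨C₀, hC₀, htail⟩ := tail_box hS hM hη
  refine ⟨η, hη, C₀ + K * (2 * π) ^ 2 / η ^ 2, by positivity, ?_⟩
  intro P B Q ε' hPc hP0 hPB hPQ hε'
  have hB : 0 ≤ B := by
    have h1 := hPB (1, 0)
    have h2 := hP0 (1, 0)
    norm_num at h1
    linarith
  have hQ : 0 ≤ Q := by
    refine (hP0 (π, π)).trans (hPQ (π, π) ⟨⟨by linarith, le_rfl⟩, ⟨by linarith, le_rfl⟩⟩ ?_)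
    show η ^ 2 ≤ π ^ 2 + π ^ 2
    nlinarith [Real.pi_gt_three]
  have hbox : IsCompact (box : Set (ℝ × ℝ)) := isCompact_Icc.prod isCompact_Icc
  have hboxm : MeasurableSet (box : Set (ℝ × ℝ)) := measurableSet_Icc.prod measurableSet_Icc
  have hvol : volume (box : Set (ℝ × ℝ)) ≠ ⊤ := hbox.measure_lt_top.ne
  obtain ⟨F, hF⟩ : ∃ F : ℝ × ℝ → ℝ, F = fun k => P k / (k.1 ^ 2 + k.2 ^ 2) := ⟨_, rfl⟩
  have hFe : ∀ k, F k = P k / (k.1 ^ 2 + k.2 ^ 2) := fun k => by rw [hF]
  have hsq : ∀ k : ℝ × ℝ, 0 ≤ k.1 ^ 2 + k.2 ^ 2 := fun k => by positivity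
  have hF0 : ∀ k, 0 ≤ F k := fun k => by
    rw [hFe]
    exact div_nonneg (hP0 k) (hsq k)
  have hFB : ∀ k, F k ≤ B := fun k => by
    rw [hFe]
    rcases (hsq k).eq_or_lt with h | h
    · rw [← h, div_zero]
      exact hB
    · exact (div_le_iff₀ h).2 (hPB k)
  have hFm : Measurable F := by
    rw [hF]
    exact hPc.measurable.div (by fun_prop)
  have hFi : IntegrableOn F box := by
    refine Measure.integrableOn_of_bounded hvol hFm.aestronglyMeasurable (M := B)
      (ae_of_all _ fun k => ?_)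
    rw [Real.norm_of_nonneg (hF0 k)]
    exact hFB k
  have hSc : ∀ n, Continuous (fun k : ℝ × ℝ => S n k.1 k.2) := fun n => (hS n).cont
  have hGi : ∀ n, IntegrableOn (fun k : ℝ × ℝ => P k * S n k.1 k.2) box := fun n =>
    (hPc.mul (hSc n)).continuousOn.integrableOn_compact hbox
  have hG0 : ∀ n, ∀ k : ℝ × ℝ, 0 ≤ P k * S n k.1 k.2 := fun n k =>
    mul_nonneg (hP0 k) ((hS n).pos _ _).le
  have hGF : ∀ n, ∀ k : ℝ × ℝ, 0 < k.1 ^ 2 + k.2 ^ 2 →
      P k * S n k.1 k.2 = F k * ((k.1 ^ 2 + k.2 ^ 2) * S n k.1 k.2) := by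
    intro n k hk
    rw [hFe]
    field_simp
  have hI0 : 0 ≤ ∫ k in box, F k := setIntegral_nonneg hboxm fun k _ => hF0 k
  have hupper : ∀ n ≥ N₁, ∫ k in box, P k * S n k.1 k.2 ≤
      (K + ε) * (∫ k in box, F k) + Q * C₀ := by
    intro n hn
    obtain ⟨A, hA⟩ : ∃ A : Set (ℝ × ℝ), A = {k : ℝ × ℝ | η ^ 2 ≤ k.1 ^ 2 + k.2 ^ 2} := ⟨_, rfl⟩
    have hAm : MeasurableSet A := by
      rw [hA]
      exact measurableSet_le measurable_const (by fun_prop)
    have hSi : IntegrableOn (fun k : ℝ × ℝ => S n k.1 k.2) box :=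
      (hSc n).continuousOn.integrableOn_compact hbox
    have hi1 : IntegrableOn (fun k => (K + ε) * F k) box := hFi.const_mul _
    have hi2 : IntegrableOn (fun k => Q * A.indicator (fun k : ℝ × ℝ => S n k.1 k.2) k) box :=
      (hSi.indicator hAm).const_mul _
    have h1 : ∫ k in box, P k * S n k.1 k.2 ≤
        ∫ k in box, ((K + ε) * F k + Q * A.indicator (fun k : ℝ × ℝ => S n k.1 k.2) k) := by
      refine setIntegral_mono_on (hGi n) (hi1.add hi2) hboxm ?_
      intro k hk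
      by_cases hkA : k ∈ A
      · have hkA' : η ^ 2 ≤ k.1 ^ 2 + k.2 ^ 2 := by
          rw [hA] at hkA
          exact hkA
        rw [Set.indicator_of_mem hkA]
        have h3 : P k * S n k.1 k.2 ≤ Q * S n k.1 k.2 :=
          mul_le_mul_of_nonneg_right (hPQ k hk hkA') ((hS n).pos _ _).le
        have h4 : 0 ≤ (K + ε) * F k := mul_nonneg (by linarith) (hF0 k)
        linarith
      · have hlt : k.1 ^ 2 + k.2 ^ 2 < η ^ 2 := by
          rw [hA] at hkA
          exact not_le.1 hkA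
        rw [Set.indicator_of_notMem hkA, mul_zero, add_zero]
        rcases (hsq k).eq_or_lt with h0 | h0
        · have h5 : P k = 0 := by
            refine le_antisymm ?_ (hP0 k)
            have h6 := hPB k
            rw [← h0, mul_zero] at h6
            exact h6
          rw [h5, zero_mul]
          exact mul_nonneg (by linarith) (hF0 k)
        · have h3 := hup n hn k.1 k.2 h0 (hlt.le.trans (pow_le_pow_left₀ hη.le hη1 2))
          rw [hGF n k h0, mul_comm (K + ε)]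
          exact mul_le_mul_of_nonneg_left h3 (hF0 k)
    rw [integral_add hi1 hi2, integral_const_mul, integral_const_mul,
      setIntegral_indicator hAm, hA] at h1
    have h2 := mul_le_mul_of_nonneg_left (htail n) hQ
    linarith
  have hlower : ∃ N : ℕ, ∀ n ≥ N, (K - ε) * (∫ k in box, F k) ≤
      (∫ k in box, P k * S n k.1 k.2) + K * (2 * π) ^ 2 / η ^ 2 * Q + ε' := by
    by_cases hKε : K < ε
    · refine ⟨0, fun n _ => ?_⟩
      have h1 : 0 ≤ ∫ k in box, P k * S n k.1 k.2 := setIntegral_nonneg hboxm fun k _ => hG0 n k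
      have h3 : 0 ≤ K * (2 * π) ^ 2 / η ^ 2 * Q := by positivity
      have h4 : (K - ε) * (∫ k in box, F k) ≤ 0 :=
        mul_nonpos_of_nonpos_of_nonneg (by linarith) hI0
      linarith
    · have hKε' : ε ≤ K := not_lt.1 hKε
      have hden : 0 < 4 * K * B + 1 := by positivity
      obtain ⟨τ, hτ, hτ2⟩ : ∃ τ : ℝ, 0 < τ ∧ τ ^ 2 = ε' / (4 * K * B + 1) :=
        ⟨Real.sqrt (ε' / (4 * K * B + 1)), Real.sqrt_pos.2 (by positivity),
          Real.sq_sqrt (by positivity)⟩
      have hτ3 : K * B * (4 * τ ^ 2) ≤ ε' := by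
        rw [hτ2, ← mul_div_assoc, ← mul_div_assoc, div_le_iff₀ hden]
        nlinarith
      obtain ⟨N, hN⟩ := hlow τ hτ
      refine ⟨N, fun n hn => ?_⟩
      obtain ⟨T, hT⟩ : ∃ T : Set (ℝ × ℝ), T = Icc (-τ) τ ×ˢ Icc (-τ) τ := ⟨_, rfl⟩
      have hTm : MeasurableSet T := by
        rw [hT]
        exact measurableSet_Icc.prod measurableSet_Icc
      have hi1 : IntegrableOn (fun _ : ℝ × ℝ => K * Q / η ^ 2) box := integrableOn_const hvol
      have hi2 : IntegrableOn (T.indicator (fun _ : ℝ × ℝ => K * B)) box :=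
        (integrableOn_const hvol).indicator hTm
      have hi3 : IntegrableOn (fun k : ℝ × ℝ => K * Q / η ^ 2 +
          T.indicator (fun _ : ℝ × ℝ => K * B) k) box := hi1.add hi2
      have h1 : ∫ k in box, (K - ε) * F k ≤ ∫ k in box, (P k * S n k.1 k.2 +
          (K * Q / η ^ 2 + T.indicator (fun _ : ℝ × ℝ => K * B) k)) := by
        refine setIntegral_mono_on (hFi.const_mul _) ((hGi n).add hi3) hboxm ?_
        intro k hk
        have hg := hG0 n k
        have hc1 : 0 ≤ K * Q / η ^ 2 := by positivity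
        have hc2 : 0 ≤ T.indicator (fun _ : ℝ × ℝ => K * B) k :=
          Set.indicator_nonneg (fun _ _ => by positivity) k
        rcases lt_or_ge (k.1 ^ 2 + k.2 ^ 2) (τ ^ 2) with hlt | hge
        · have hkT : k ∈ T := by
            rw [hT]
            refine ⟨abs_le.1 (abs_le_of_sq_le_sq (by nlinarith [sq_nonneg k.2]) hτ.le),
              abs_le.1 (abs_le_of_sq_le_sq (by nlinarith [sq_nonneg k.1]) hτ.le)⟩
          rw [Set.indicator_of_mem hkT]
          have h5 : (K - ε) * F k ≤ K * B := mul_le_mul (by linarith) (hFB k) (hF0 k) hK0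
          linarith
        · rcases le_or_gt (k.1 ^ 2 + k.2 ^ 2) (η ^ 2) with hle | hgt
          · have h3 := hN n hn k.1 k.2 hge (hle.trans (pow_le_pow_left₀ hη.le hη2 2))
            have hpos : 0 < k.1 ^ 2 + k.2 ^ 2 := lt_of_lt_of_le (by positivity) hge
            have h5 := mul_le_mul_of_nonneg_left h3 (hF0 k)
            rw [← hGF n k hpos] at h5
            linarith
          · have h3 : F k ≤ Q / η ^ 2 := by
              rw [hFe]
              exact div_le_div₀ hQ (hPQ k hk hgt.le) (by positivity) hgt.le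
            have h5 : (K - ε) * F k ≤ K * (Q / η ^ 2) :=
              mul_le_mul (by linarith) h3 (hF0 k) hK0
            rw [← mul_div_assoc] at h5
            linarith
      rw [integral_const_mul, integral_add (hGi n) hi3, integral_add hi1 hi2,
        setIntegral_indicator hTm, setIntegral_const, setIntegral_const, GCb_vol_box,
        smul_eq_mul, smul_eq_mul] at h1
      have hvT : volume.real (box ∩ T) ≤ 4 * τ ^ 2 := by
        rw [← GCb_vol_sq hτ, ← hT]
        refine measureReal_mono Set.inter_subset_right ?_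
        rw [hT]
        exact (isCompact_Icc.prod isCompact_Icc).measure_lt_top.ne
      have h6 : volume.real (box ∩ T) * (K * B) ≤ ε' := by
        refine le_trans ?_ hτ3
        rw [mul_comm]
        exact mul_le_mul_of_nonneg_left hvT (by positivity)
      have h7 : (2 * π) ^ 2 * (K * Q / η ^ 2) = K * (2 * π) ^ 2 / η ^ 2 * Q := by ring
      linarith
  obtain ⟨N₂, hN₂⟩ := hlower
  refine ⟨max N₁ N₂, fun n hn => ?_⟩
  have h1 := hupper n ((le_max_left _ _).trans hn)
  have h2 := hN₂ n ((le_max_right _ _).trans hn)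
  have h3 : (∫ k in box, P k / (k.1 ^ 2 + k.2 ^ 2)) = ∫ k in box, F k := by rw [hF]
  rw [h3]
  have h4 : 0 ≤ K * (2 * π) ^ 2 / η ^ 2 * Q := by positivity
  have h5 : 0 ≤ Q * C₀ := by positivity
  rw [abs_le]
  constructor
  · nlinarith
  · nlinarith

end RP4
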