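import Pool.Agent.Helper63.RP4.L1
import Pool.Agent.Helper97.RP4.GC

/-!
L3.  Logarithmic asymptotics of the variogram.
-/

open Real Set Filter Topology MeasureTheory

namespace RP4

private lemma L3a_vol_sq {τ : ℝ} (hτ : 0 < τ) :
    volume.real (Icc (-τ) τ ×ˢ Icc (-τ) τ : Set (ℝ × ℝ)) = 4 * τ ^ 2 := by
  rw [Measure.real, Measure.volume_eq_prod, Measure.prod_prod, Real.volume_Icc,
    ENNReal.toReal_mul, ENNReal.toReal_ofReal (by linarith)]
  ring

/-- the integral over the box and over the annulus differ by a bounded quantity -/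
private lemma L3a_main (y : ℝ × ℝ) (hy : 1 ≤ y.1 ^ 2 + y.2 ^ 2) :
    (∫ k in {k : ℝ × ℝ | 1 / (y.1 ^ 2 + y.2 ^ 2) < k.1 ^ 2 + k.2 ^ 2 ∧ k.1 ^ 2 + k.2 ^ 2 ≤ 1 ^ 2},
        (1 - cos (y.1 * k.1 + y.2 * k.2)) / (k.1 ^ 2 + k.2 ^ 2)) ≤
      ∫ k in box, (1 - cos (y.1 * k.1 + y.2 * k.2)) / (k.1 ^ 2 + k.2 ^ 2) ∧
    (∫ k in box, (1 - cos (y.1 * k.1 + y.2 * k.2)) / (k.1 ^ 2 + k.2 ^ 2)) ≤
      (∫ k in {k : ℝ × ℝ | 1 / (y.1 ^ 2 + y.2 ^ 2) < k.1 ^ 2 + k.2 ^ 2 ∧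
          k.1 ^ 2 + k.2 ^ 2 ≤ 1 ^ 2},
        (1 - cos (y.1 * k.1 + y.2 * k.2)) / (k.1 ^ 2 + k.2 ^ 2)) + (2 + 2 * (2 * π) ^ 2) := by
  have hpi := Real.pi_pos
  have hpi3 := Real.pi_gt_three
  obtain ⟨F, hF⟩ : ∃ F : ℝ × ℝ → ℝ, F = fun k => (1 - cos (y.1 * k.1 + y.2 * k.2)) /
      (k.1 ^ 2 + k.2 ^ 2) := ⟨_, rfl⟩
  have hFe : ∀ k, F k = (1 - cos (y.1 * k.1 + y.2 * k.2)) / (k.1 ^ 2 + k.2 ^ 2) :=
    fun k => by rw [hF]
  obtain ⟨A, hA⟩ : ∃ A : Set (ℝ × ℝ), A = {k : ℝ × ℝ | 1 / (y.1 ^ 2 + y.2 ^ 2) <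
      k.1 ^ 2 + k.2 ^ 2 ∧ k.1 ^ 2 + k.2 ^ 2 ≤ 1 ^ 2} := ⟨_, rfl⟩
  rw [← hA, ← hF]
  obtain ⟨q, hq⟩ : ∃ q : ℝ, q = y.1 ^ 2 + y.2 ^ 2 := ⟨_, rfl⟩
  rw [← hq] at hy hA
  have hq0 : 0 < q := by linarith
  obtain ⟨τ, hτ, hτ2⟩ : ∃ τ : ℝ, 0 < τ ∧ τ ^ 2 = 1 / q :=
    ⟨Real.sqrt (1 / q), Real.sqrt_pos.2 (by positivity), Real.sq_sqrt (by positivity)⟩
  obtain ⟨T, hT⟩ : ∃ T : Set (ℝ × ℝ), T = Icc (-τ) τ ×ˢ Icc (-τ) τ := ⟨_, rfl⟩
  have hTm : MeasurableSet T := by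
    rw [hT]
    exact measurableSet_Icc.prod measurableSet_Icc
  have hAm : MeasurableSet A := by
    have hsm : Measurable fun k : ℝ × ℝ => k.1 ^ 2 + k.2 ^ 2 := by fun_prop
    rw [hA]
    exact (measurableSet_lt measurable_const hsm).inter (measurableSet_le hsm measurable_const)
  have hbox : IsCompact (box : Set (ℝ × ℝ)) := isCompact_Icc.prod isCompact_Icc
  have hboxm : MeasurableSet (box : Set (ℝ × ℝ)) := measurableSet_Icc.prod measurableSet_Icc
  have hvol : volume (box : Set (ℝ × ℝ)) ≠ ⊤ := hbox.measure_lt_top.ne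
  have hsq : ∀ k : ℝ × ℝ, 0 ≤ k.1 ^ 2 + k.2 ^ 2 := fun k => by positivity
  have hF0 : ∀ k, 0 ≤ F k := fun k => by
    rw [hFe]
    exact div_nonneg (by linarith [cos_le_one (y.1 * k.1 + y.2 * k.2)]) (hsq k)
  have hFB : ∀ k, F k ≤ q / 2 := fun k => by
    rw [hFe]
    rcases (hsq k).eq_or_lt with h | h
    · rw [← h, div_zero]
      linarith
    · rw [div_le_iff₀ h]
      have h1 := Real.one_sub_sq_div_two_le_cos (x := y.1 * k.1 + y.2 * k.2)
      have h2 : (y.1 * k.1 + y.2 * k.2) ^ 2 ≤ q * (k.1 ^ 2 + k.2 ^ 2) := by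
        rw [hq]
        nlinarith [sq_nonneg (y.1 * k.2 - y.2 * k.1)]
      linarith
  have hFm : Measurable F := by
    rw [hF]
    exact (by fun_prop : Continuous fun k : ℝ × ℝ =>
      1 - cos (y.1 * k.1 + y.2 * k.2)).measurable.div (by fun_prop)
  have hFi : IntegrableOn F box := by
    refine Measure.integrableOn_of_bounded hvol hFm.aestronglyMeasurable (M := q / 2)
      (ae_of_all _ fun k => ?_)
    rw [Real.norm_of_nonneg (hF0 k)]
    exact hFB k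
  have hAb : A ⊆ box := by
    intro k hk
    rw [hA] at hk
    have h1 : k.1 ^ 2 + k.2 ^ 2 ≤ 1 ^ 2 := hk.2
    have h2 : |k.1| ≤ 1 := abs_le_of_sq_le_sq (by nlinarith [sq_nonneg k.2]) zero_le_one
    have h3 : |k.2| ≤ 1 := abs_le_of_sq_le_sq (by nlinarith [sq_nonneg k.1]) zero_le_one
    rw [abs_le] at h2 h3
    exact ⟨⟨by linarith [h2.1], by linarith [h2.2]⟩, ⟨by linarith [h3.1], by linarith [h3.2]⟩⟩
  refine ⟨setIntegral_mono_set hFi (Eventually.of_forall fun k => hF0 k) hAb.eventuallyLE, ?_⟩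
  have hi1 : IntegrableOn (A.indicator F) box := hFi.indicator hAm
  have hi2 : IntegrableOn (T.indicator (fun _ : ℝ × ℝ => q / 2)) box :=
    (integrableOn_const hvol).indicator hTm
  have hi3 : IntegrableOn (fun _ : ℝ × ℝ => (2 : ℝ)) box := integrableOn_const hvol
  have hi4 : IntegrableOn (fun k : ℝ × ℝ => T.indicator (fun _ : ℝ × ℝ => q / 2) k + 2) box :=
    hi2.add hi3
  have h1 : ∫ k in box, F k ≤
      ∫ k in box, (A.indicator F k + (T.indicator (fun _ : ℝ × ℝ => q / 2) k + 2)) := by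
    refine setIntegral_mono_on hFi (hi1.add hi4) hboxm ?_
    intro k _
    have hc2 : 0 ≤ T.indicator (fun _ : ℝ × ℝ => q / 2) k :=
      Set.indicator_nonneg (fun _ _ => by positivity) k
    by_cases hkA : k ∈ A
    · rw [Set.indicator_of_mem hkA]
      linarith
    · rw [Set.indicator_of_notMem hkA]
      rcases le_or_gt (k.1 ^ 2 + k.2 ^ 2) (1 / q) with h2 | h2
      · have hkT : k ∈ T := by
          rw [hT]
          rw [← hτ2] at h2
          refine ⟨abs_le.1 (abs_le_of_sq_le_sq (by nlinarith [sq_nonneg k.2]) hτ.le),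
            abs_le.1 (abs_le_of_sq_le_sq (by nlinarith [sq_nonneg k.1]) hτ.le)⟩
        rw [Set.indicator_of_mem hkT]
        linarith [hFB k]
      · have h3 : 1 ^ 2 < k.1 ^ 2 + k.2 ^ 2 := by
          by_contra h4
          apply hkA
          rw [hA]
          exact ⟨h2, not_lt.1 h4⟩
        have h4 : F k ≤ 2 := by
          rw [hFe, div_le_iff₀ (by linarith)]
          linarith [neg_one_le_cos (y.1 * k.1 + y.2 * k.2)]
        linarith
  rw [integral_add hi1 hi4, integral_add hi2 hi3, setIntegral_indicator hAm,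
    setIntegral_indicator hTm, setIntegral_const, setIntegral_const, smul_eq_mul, smul_eq_mul,
    Set.inter_eq_right.2 hAb] at h1
  have h5 : volume.real (box : Set (ℝ × ℝ)) = (2 * π) ^ 2 := by
    have h6 := L3a_vol_sq hpi
    rw [box, h6]
    ring
  have h6 : volume.real (box ∩ T) * (q / 2) ≤ 2 := by
    have hvT : volume.real (box ∩ T) ≤ 4 * τ ^ 2 := by
      rw [← L3a_vol_sq hτ, ← hT]
      refine measureReal_mono Set.inter_subset_right ?_
      rw [hT]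
      exact (isCompact_Icc.prod isCompact_Icc).measure_lt_top.ne
    have h7 := mul_le_mul_of_nonneg_right hvT (by positivity : (0 : ℝ) ≤ q / 2)
    have h8 : 4 * τ ^ 2 * (q / 2) = 2 := by
      rw [hτ2]
      field_simp
      norm_num
    linarith
  rw [h5] at h1
  linarith

/-
`box = {|k| ≤ 1/|y|} ∪ {1/|y| < |k| ≤ 1} ∪ rest` (for `|y| ≥ 1`): first part `≤ ∫ |y|²/2 ≤ 4/2` (contained in the square of side `2/|y|`, and
`1 - cos t ≤ t²/2`), last part `≤ 2 (2π)²`; the middle part is `model_integral 1`.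
-/
theorem model_box :
    Tendsto (fun y : ℝ × ℝ =>
      (∫ k in box, (1 - cos (y.1 * k.1 + y.2 * k.2)) / (k.1 ^ 2 + k.2 ^ 2)) /
        log (Real.sqrt (y.1 ^ 2 + y.2 ^ 2)))
      (cocompact (ℝ × ℝ)) (𝓝 (2 * π)) := by
  have hr : Tendsto (fun y : ℝ × ℝ => Real.sqrt (y.1 ^ 2 + y.2 ^ 2)) (cocompact (ℝ × ℝ))
      atTop := by
    refine tendsto_atTop_mono (fun y => ?_) (tendsto_norm_cocompact_atTop (E := ℝ × ℝ))
    rw [Prod.norm_def, max_le_iff, Real.norm_eq_abs, Real.norm_eq_abs]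
    constructor
    · exact Real.abs_le_sqrt (by nlinarith [sq_nonneg y.2])
    · exact Real.abs_le_sqrt (by nlinarith [sq_nonneg y.1])
  have hL : Tendsto (fun y : ℝ × ℝ => log (Real.sqrt (y.1 ^ 2 + y.2 ^ 2))) (cocompact (ℝ × ℝ))
      atTop := tendsto_log_atTop.comp hr
  have hm := model_integral 1 one_pos
  have hm2 := hm.add (hL.const_div_atTop (2 + 2 * (2 * π) ^ 2))
  rw [add_zero] at hm2
  refine tendsto_of_tendsto_of_tendsto_of_le_of_le' hm hm2 ?_ ?_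
  · filter_upwards [hr.eventually_ge_atTop 1, hL.eventually_gt_atTop 0] with y h1 h2
    have h3 : 1 ≤ y.1 ^ 2 + y.2 ^ 2 := by
      rwa [Real.one_le_sqrt] at h1
    exact div_le_div_of_nonneg_right (L3a_main y h3).1 h2.le
  · filter_upwards [hr.eventually_ge_atTop 1, hL.eventually_gt_atTop 0] with y h1 h2
    have h3 : 1 ≤ y.1 ^ 2 + y.2 ^ 2 := by
      rwa [Real.one_le_sqrt] at h1
    rw [← add_div]
    exact div_le_div_of_nonneg_right (L3a_main y h3).2 h2.le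

/-- the cofinite filter of the lattice maps to infinity in the plane -/
lemma cofinite_cocompact :
    Tendsto (fun x : V => ((x.1 : ℝ), (x.2 : ℝ))) cofinite (cocompact (ℝ × ℝ)) := by
  have h := Int.tendsto_coe_cofinite.prodMap_coprod Int.tendsto_coe_cofinite
  rw [Filter.coprod_cofinite, Filter.coprod_cocompact] at h
  exact h

/-- the `sin sin` part is odd in `k₁` -/
private lemma L3b_sin {S : ℝ → ℝ → ℝ} (hS : RPSym S) (x y : ℝ) :
    ∫ k in box, 2 * (1 - cos (x * k.1 + y * k.2)) * S k.1 k.2 =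
      ∫ k in box, 2 * (1 - cos (x * k.1) * cos (y * k.2)) * S k.1 k.2 := by
  have hbox : IsCompact box := isCompact_Icc.prod isCompact_Icc
  have hSc := hS.cont
  set f : ℝ × ℝ → ℝ := fun k => 2 * (sin (x * k.1) * sin (y * k.2)) * S k.1 k.2 with hf
  have i1 : IntegrableOn (fun k : ℝ × ℝ => 2 * (1 - cos (x * k.1) * cos (y * k.2)) * S k.1 k.2)
      box :=
    ContinuousOn.integrableOn_compact hbox
      ((by fun_prop : Continuous fun k : ℝ × ℝ => 2 * (1 - cos (x * k.1) * cos (y * k.2))).mul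
        hSc).continuousOn
  have i2 : IntegrableOn f box :=
    ContinuousOn.integrableOn_compact hbox
      ((by fun_prop : Continuous fun k : ℝ × ℝ => 2 * (sin (x * k.1) * sin (y * k.2))).mul
        hSc).continuousOn
  have h0 : ∫ k in box, f k = 0 := by
    have hmp : MeasurePreserving (fun k : ℝ × ℝ => (-k.1, k.2)) volume volume :=
      (Measure.measurePreserving_neg (volume : Measure ℝ)).prod
        (MeasurePreserving.id (volume : Measure ℝ))
    have hemb : MeasurableEmbedding (fun k : ℝ × ℝ => (-k.1, k.2)) :=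
      ((MeasurableEquiv.neg ℝ).prodCongr (MeasurableEquiv.refl ℝ)).measurableEmbedding
    have h1 := hmp.setIntegral_preimage_emb hemb f box
    have h2 : (fun k : ℝ × ℝ => (-k.1, k.2)) ⁻¹' box = box := by
      ext k
      simp only [box, mem_preimage, mem_prod, mem_Icc]
      constructor
      · rintro ⟨⟨h3, h4⟩, h5⟩
        exact ⟨⟨by linarith, by linarith⟩, h5⟩
      · rintro ⟨⟨h3, h4⟩, h5⟩
        exact ⟨⟨by linarith, by linarith⟩, h5⟩
    have h3 : ∀ k : ℝ × ℝ, f (-k.1, k.2) = -f k := by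
      intro k
      simp only [hf, mul_neg, sin_neg, neg_mul, hS.even]
    rw [h2] at h1
    simp only [h3] at h1
    rw [integral_neg] at h1
    linarith
  have h4 : ∀ k : ℝ × ℝ, 2 * (1 - cos (x * k.1 + y * k.2)) * S k.1 k.2 =
      2 * (1 - cos (x * k.1) * cos (y * k.2)) * S k.1 k.2 + f k := by
    intro k
    simp only [hf]
    rw [cos_add]
    ring
  simp only [h4]
  rw [integral_add i1 i2, h0, add_zero]

/-- the last step: the comparison divided by the logarithm -/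
private lemma L3b_fin (γ I L : V → ℝ) (K : ℝ) (hK0 : 0 ≤ K)
    (hIL : Tendsto (fun x : V => I x / L x) cofinite (𝓝 (2 * π)))
    (hLtop : Tendsto L cofinite atTop)
    (hcomp : ∀ ε > 0, ∃ C > 0, ∀ x : V,
      |(2 * π) ^ 2 * γ x - 2 * K * I x| ≤ 2 * ε * I x + C) :
    Tendsto (fun x : V => γ x / L x) cofinite (𝓝 (K / π)) := by
  rw [Metric.tendsto_nhds]
  intro δ hδ
  obtain ⟨C, hC, hc⟩ := hcomp (δ / 56) (by positivity)
  have e1 : ∀ᶠ x in cofinite, |I x / L x - 2 * π| < min (1 / 2) (δ / (8 * (K + 1))) := by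
    have h1 := Metric.tendsto_nhds.1 hIL (min (1 / 2) (δ / (8 * (K + 1)))) (by positivity)
    simpa only [Real.dist_eq] using h1
  have e2 : ∀ᶠ x in cofinite, max 1 (8 * C / δ) ≤ L x := hLtop.eventually_ge_atTop _
  filter_upwards [e1, e2] with x h1 h2
  have hL1 : 1 ≤ L x := (le_max_left _ _).trans h2
  have hL2 : 8 * C / δ ≤ L x := (le_max_right _ _).trans h2
  have hL0 : 0 < L x := lt_of_lt_of_le one_pos hL1
  have h3 : |I x / L x - 2 * π| < 1 / 2 := h1.trans_le (min_le_left _ _)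
  have h4 : |I x / L x - 2 * π| < δ / (8 * (K + 1)) := h1.trans_le (min_le_right _ _)
  have h5 : I x / L x ≤ 7 := by
    have h6 := (abs_lt.1 h3).2
    have h7 := Real.pi_lt_d2
    linarith
  have h8 : |(2 * π) ^ 2 * (γ x / L x) - 2 * K * (I x / L x)| ≤
      δ / 28 * (I x / L x) + C / L x := by
    have h9 : (2 * π) ^ 2 * (γ x / L x) - 2 * K * (I x / L x) =
        ((2 * π) ^ 2 * γ x - 2 * K * I x) / L x := by ring
    rw [h9, abs_div, abs_of_pos hL0, div_le_iff₀ hL0]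
    have h10 := hc x
    have h11 : (δ / 28 * (I x / L x) + C / L x) * L x = 2 * (δ / 56) * I x + C := by
      field_simp
      ring
    rw [h11]
    exact h10
  have h12 : C / L x ≤ δ / 8 := by
    rw [div_le_iff₀ hL0]
    rw [div_le_iff₀ hδ] at hL2
    linarith
  have h13 : δ / 28 * (I x / L x) ≤ δ / 4 := by
    have h14 := mul_le_mul_of_nonneg_left h5 (by positivity : (0 : ℝ) ≤ δ / 28)
    linarith
  have h15 : |2 * K * (I x / L x) - 2 * K * (2 * π)| ≤ δ / 4 := by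
    rw [← mul_sub, abs_mul, abs_of_nonneg (by linarith : 0 ≤ 2 * K)]
    have h16 : 0 < 8 * (K + 1) := by linarith
    rw [lt_div_iff₀ h16] at h4
    have h17 := abs_nonneg (I x / L x - 2 * π)
    nlinarith
  have h18 : (2 * π) ^ 2 * (γ x / L x - K / π) =
      ((2 * π) ^ 2 * (γ x / L x) - 2 * K * (I x / L x)) +
        (2 * K * (I x / L x) - 2 * K * (2 * π)) := by
    have hp : π ≠ 0 := Real.pi_ne_zero
    have h19 : (2 * π) ^ 2 * (K / π) = 2 * K * (2 * π) := by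
      field_simp
    rw [mul_sub, h19]
    ring
  have h19 : |(2 * π) ^ 2 * (γ x / L x - K / π)| ≤ 5 / 8 * δ := by
    rw [h18]
    refine (abs_add_le _ _).trans ?_
    linarith
  have h20 : 1 ≤ (2 * π) ^ 2 := by
    have := Real.pi_gt_three
    nlinarith
  rw [abs_mul, abs_of_nonneg (by positivity : 0 ≤ (2 * π) ^ 2)] at h19
  rw [Real.dist_eq]
  have h21 := abs_nonneg (γ x / L x - K / π)
  nlinarith

/-- `2 ∫ (1 - cos) / |k|²` -/
private lemma L3b_two (x y : ℝ) :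
    ∫ k in box, 2 * (1 - cos (x * k.1 + y * k.2)) / (k.1 ^ 2 + k.2 ^ 2) =
      2 * ∫ k in box, (1 - cos (x * k.1 + y * k.2)) / (k.1 ^ 2 + k.2 ^ 2) := by
  rw [← integral_const_mul]
  refine integral_congr_ae (Eventually.of_forall fun k => ?_)
  exact mul_div_assoc _ _ _

private lemma L3b_cont (x y : ℝ) :
    Continuous (fun k : ℝ × ℝ => 2 * (1 - cos (x * k.1 + y * k.2))) := by
  fun_prop

private lemma L3b_le (x y : ℝ) (k : ℝ × ℝ) :
    2 * (1 - cos (x * k.1 + y * k.2)) ≤ (x ^ 2 + y ^ 2) * (k.1 ^ 2 + k.2 ^ 2) := by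
  have h1 := one_sub_sq_div_two_le_cos (x := x * k.1 + y * k.2)
  nlinarith [sq_nonneg (x * k.2 - y * k.1)]

/-- the comparison for one lattice vector -/
private lemma L3b_cmp (S : ℕ → ℝ → ℝ → ℝ) (hS : ∀ n, RPSym (S n)) (M : ℝ)
    (hM : ∀ n, ∫ k in box, (1 - cos k.1) * S n k.1 k.2 ≤ M) (K : ℝ) (hK : TwoPoint S K)
    (ε : ℝ) (hε : 0 < ε) : ∃ C > 0, ∀ (x y g : ℝ),
      Tendsto (fun n => (1 / (2 * π) ^ 2) *
        ∫ k in box, 2 * (1 - cos (x * k.1) * cos (y * k.2)) * S n k.1 k.2) atTop (𝓝 g) →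
      |(2 * π) ^ 2 * g -
          2 * K * ∫ k in box, (1 - cos (x * k.1 + y * k.2)) / (k.1 ^ 2 + k.2 ^ 2)| ≤
        2 * ε * (∫ k in box, (1 - cos (x * k.1 + y * k.2)) / (k.1 ^ 2 + k.2 ^ 2)) + C := by
  obtain ⟨η, hη, C, hC, hcmp⟩ := gen_comp hS hM hK hε
  refine ⟨C * 4 + 1, by linarith, fun x y g hg => ?_⟩
  obtain ⟨N, hN⟩ := hcmp (fun k => 2 * (1 - cos (x * k.1 + y * k.2)))
    (x ^ 2 + y ^ 2) 4 1 (L3b_cont x y)
    (fun k => by linarith [cos_le_one (x * k.1 + y * k.2)])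
    (L3b_le x y)
    (fun k _ _ => by linarith [neg_one_le_cos (x * k.1 + y * k.2)])
    one_pos
  rw [L3b_two] at hN
  generalize (∫ k in box, (1 - cos (x * k.1 + y * k.2)) / (k.1 ^ 2 + k.2 ^ 2)) = J at hN ⊢
  have h0 : (2 * π) ^ 2 ≠ 0 := by positivity
  have h1 : Tendsto (fun n => ∫ k in box, 2 * (1 - cos (x * k.1 + y * k.2)) * S n k.1 k.2) atTop
      (𝓝 ((2 * π) ^ 2 * g)) := by
    refine (hg.const_mul ((2 * π) ^ 2)).congr fun n => ?_
    rw [L3b_sin (hS n) x y, ← mul_assoc, mul_one_div_cancel h0, one_mul]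
  have h3 := (h1.sub_const (K * (2 * J))).abs
  have h4 : |(2 * π) ^ 2 * g - K * (2 * J)| ≤ ε * (2 * J) + C * 4 + 1 :=
    le_of_tendsto h3 (eventually_atTop.2 ⟨N, fun n hn => hN n hn⟩)
  have h6 : K * (2 * J) = 2 * K * J := by ring
  rw [h6] at h4
  linarith

private lemma L3b_box : Tendsto (fun x : V => (∫ k in box,
      (1 - cos ((x.1 : ℝ) * k.1 + (x.2 : ℝ) * k.2)) / (k.1 ^ 2 + k.2 ^ 2)) /
        log (Real.sqrt ((x.1 : ℝ) ^ 2 + (x.2 : ℝ) ^ 2))) cofinite (𝓝 (2 * π)) := by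
  have h := model_box.comp cofinite_cocompact
  simp only [Function.comp_def] at h
  exact h

private lemma L3b_log : Tendsto (fun x : V => log (Real.sqrt ((x.1 : ℝ) ^ 2 + (x.2 : ℝ) ^ 2)))
    cofinite atTop := by
  have hr : Tendsto (fun y : ℝ × ℝ => Real.sqrt (y.1 ^ 2 + y.2 ^ 2)) (cocompact (ℝ × ℝ))
      atTop := by
    refine tendsto_atTop_mono (fun y => ?_) (tendsto_norm_cocompact_atTop (E := ℝ × ℝ))
    rw [Prod.norm_def, max_le_iff, Real.norm_eq_abs, Real.norm_eq_abs]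
    constructor
    · exact Real.abs_le_sqrt (by nlinarith [sq_nonneg y.2])
    · exact Real.abs_le_sqrt (by nlinarith [sq_nonneg y.1])
  have h := (tendsto_log_atTop.comp hr).comp cofinite_cocompact
  simp only [Function.comp_def] at h
  exact h

/-
`∫_box (1 - cos (x₁k₁) cos (x₂k₂)) S = ∫_box (1 - cos (x₁k₁ + x₂k₂)) S` (`even`: the `sin sin` part is odd in `k₁`).
`gen_comp` with `P k = 2 (1 - cos (x₁k₁ + x₂k₂))`, `B = x₁² + x₂²` (`1 - cos t ≤ t²/2`, Cauchy-Schwarz), `Q = 4`; let `n → ∞`, `ε' → 0`: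
`|(2π)² γ x - K ∫ P/|k|²| ≤ ε ∫ P/|k|² + 4 C_ε`; divide by `log |x|` and use `model_box`:
`(2π)⁻² * 2 * 2π * K = K/π`.
-/
theorem log_asymp' (S : ℕ → ℝ → ℝ → ℝ) (hS : ∀ n, RPSym (S n)) (M : ℝ)
    (hM : ∀ n, ∫ k in box, (1 - cos k.1) * S n k.1 k.2 ≤ M) (K : ℝ) (hK : TwoPoint S K)
    (γ : V → ℝ)
    (hγ : ∀ x : V, Tendsto (fun n => (1 / (2 * π) ^ 2) *
      ∫ k in box, 2 * (1 - cos (x.1 * k.1) * cos (x.2 * k.2)) * S n k.1 k.2) atTop (𝓝 (γ x))) :
    Tendsto (fun x : V => γ x / log (Real.sqrt ((x.1 : ℝ) ^ 2 + (x.2 : ℝ) ^ 2))) cofinite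
      (𝓝 (K / π)) := by
  refine L3b_fin γ (fun x => ∫ k in box,
      (1 - cos ((x.1 : ℝ) * k.1 + (x.2 : ℝ) * k.2)) / (k.1 ^ 2 + k.2 ^ 2))
    (fun x => log (Real.sqrt ((x.1 : ℝ) ^ 2 + (x.2 : ℝ) ^ 2))) K hK.nonneg
    L3b_box L3b_log ?_
  intro ε hε
  obtain ⟨C, hC, h⟩ := L3b_cmp S hS M hM K hK ε hε
  exact ⟨C, hC, fun x => h x.1 x.2 (γ x) (hγ x)⟩

end RP4
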