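import Pool.Agent.Helper97.RP4.B10
import Pool.Agent.Helper97.RP4.C2
import Pool.Agent.Helper97.RP4.L3
import Pool.Agent.Helper97.RP4.H2
import Pool.Agent.Helper97.RP4.H3

/-!
An.  The analytic main theorem.
-/

open Real Set Filter Topology MeasureTheory

namespace RP4

/-- general theorem: reflection positivity in four directions gives the logarithmic asymptotics of the variogram and the
Gaussian free field covariance at large scales -/
theorem analysis {r : ℝ → V → ℝ} {γ : V → ℝ} (h : Data r γ) :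
    ∃ K : ℝ, 0 ≤ K ∧
      Tendsto (fun x : V => γ x / log (Real.sqrt ((x.1 : ℝ) ^ 2 + (x.2 : ℝ) ^ 2))) cofinite
        (𝓝 (K / π)) ∧
      ∀ f : ℝ × ℝ → ℝ, ContDiff ℝ 1 f → HasCompactSupport f → ∫ y, f y = 0 →
        Tendsto (fun δ => qform γ (charge f δ)) (𝓝[>] 0) (𝓝 (K * energy f)) := by
  obtain ⟨S, hS, ⟨M, hM⟩, hγ⟩ := seq_exists h
  obtain ⟨φ, K, hφ, hK⟩ := two_point S hS M hM
  have hγ' := fun x => (hγ x).comp hφ.tendsto_atTop
  refine ⟨K, hK.nonneg, ?_, ?_⟩
  · exact log_asymp' (fun n => S (φ n)) (fun n => hS _) M (fun n => hM _) K hK γ hγ'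
  · intro f hf hc h0
    rw [← energy_eq' f hf hc h0]
    exact fam_asymp (fun n => S (φ n)) (fun n => hS _) M (fun n => hM _) K hK γ hγ'
      hf.continuous hc (charge_fam hf hc h0)

end RP4
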