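import Pool.Agent.Helper97.RP4.An
import Pool.Agent.Helper63.RP4.E6a

/-!
AnP.  The analytic main theorem, for the pairing `δ² ∑ f(δ x) (h x - h 0)` of the problem.
-/

open Real Set Filter Topology MeasureTheory

namespace RP4

/-- the bilinear form `E (h x - h 0) (h y - h 0) = (γ x + γ y - γ (x - y)) / 2` on the weights `wt δ f` -/
noncomputable def pform (γ : V → ℝ) (δ : ℝ) (f : ℝ × ℝ → ℝ) (s : Finset V) : ℝ :=
  ∑ x ∈ s, ∑ y ∈ s, wt δ f x * wt δ f y * ((γ x + γ y - γ (x - y)) / 2)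

lemma Data.zero {r : ℝ → V → ℝ} {γ : V → ℝ} (h : Data r γ) : γ 0 = 0 := by
  refine tendsto_nhds_unique (h.lim 0) ?_
  refine Tendsto.congr' ?_ tendsto_const_nhds
  filter_upwards [self_mem_nhdsWithin] with α hα
  rw [h.one α hα]
  simp

lemma Data.neg {r : ℝ → V → ℝ} {γ : V → ℝ} (h : Data r γ) (x : V) : γ (-x) = γ x := by
  refine tendsto_nhds_unique (h.lim (-x)) ?_
  refine Tendsto.congr' ?_ (h.lim x)
  filter_upwards [self_mem_nhdsWithin] with α hα
  have h1 : r α (-x) = r α x := by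
    obtain ⟨a, b⟩ := x
    have e1 := (h.sym α hα).neg1 a (-b)
    have e2 := (h.sym α hα).swap (-b) a
    have e3 := (h.sym α hα).neg1 b a
    have e4 := (h.sym α hα).swap b a
    show r α (-a, -b) = r α (a, b)
    rw [e1, e2, e3, ← e4]
  rw [h1]

/-- the two forms agree -/
lemma pform_eq {γ : V → ℝ} (g0 : γ 0 = 0) (gn : ∀ x, γ (-x) = γ x) (δ : ℝ) (f : ℝ × ℝ → ℝ)
    (s : Finset V) (hs : ∀ x : V, f (δ * x.1, δ * x.2) ≠ 0 → x ∈ s) :
    pform γ δ f s = qform γ (charge f δ) := by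
  classical
  have hw0 : ∀ x : V, x ∉ s → wt δ f x = 0 := by
    intro x hx
    by_contra hne
    apply hx
    apply hs
    intro h0
    apply hne
    unfold wt
    rw [h0]
    ring
  set t : Finset V := insert 0 s with ht
  have h0t : (0 : V) ∈ t := Finset.mem_insert_self _ _
  have hst : s ⊆ t := Finset.subset_insert _ _
  set T : ℝ := ∑ y ∈ t, wt δ f y with hT
  have hT' : ∑' y : V, δ ^ 2 * f (δ * y.1, δ * y.2) = T := by
    rw [hT]
    refine tsum_eq_sum (s := t) ?_
    intro x hx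
    exact hw0 x (fun h => hx (hst h))
  have hch : ∀ x : V, charge f δ x = wt δ f x - if x = 0 then T else 0 := by
    intro x
    unfold charge wt
    rw [hT']
  have hc0 : ∀ x : V, x ∉ t → charge f δ x = 0 := by
    intro x hx
    have hx0 : x ≠ 0 := fun h => hx (h ▸ h0t)
    rw [hch, if_neg hx0, hw0 x (fun h => hx (hst h))]
    ring
  -- the form on `t`
  have hp : pform γ δ f s = ∑ x ∈ t, ∑ y ∈ t, wt δ f x * wt δ f y * ((γ x + γ y - γ (x - y)) / 2) := by
    unfold pform
    rw [Finset.sum_subset hst (f := fun x => ∑ y ∈ s, wt δ f x * wt δ f y *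
      ((γ x + γ y - γ (x - y)) / 2))]
    · refine Finset.sum_congr rfl fun x _ => ?_
      refine Finset.sum_subset hst ?_
      intro y _ hy
      rw [hw0 y hy]
      ring
    · intro x _ hx
      refine Finset.sum_eq_zero fun y _ => ?_
      rw [hw0 x hx]
      ring
  have hq : qform γ (charge f δ) =
      -(1 / 2) * ∑ x ∈ t, ∑ y ∈ t, charge f δ x * charge f δ y * γ (x - y) := by
    unfold qform
    congr 1
    rw [tsum_eq_sum (s := t ×ˢ t)]
    · rw [Finset.sum_product]
    · intro p hpn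
      rw [Finset.mem_product, not_and_or] at hpn
      rcases hpn with h | h
      · rw [hc0 _ h]; ring
      · rw [hc0 _ h]; ring
  rw [hp, hq]
  -- expansion
  have hite : ∀ F : V → ℝ, ∑ x ∈ t, (if x = 0 then T else 0) * F x = T * F 0 := by
    intro F
    rw [Finset.sum_eq_single_of_mem (0 : V) h0t]
    · simp
    · intro b _ hb
      rw [if_neg hb]; ring
  have hW : ∀ c : ℝ, ∑ y ∈ t, wt δ f y * c = T * c := by
    intro c
    rw [hT, Finset.sum_mul]
  set A : ℝ := ∑ x ∈ t, ∑ y ∈ t, wt δ f x * wt δ f y * γ (x - y) with hA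
  set B : ℝ := ∑ x ∈ t, wt δ f x * γ x with hB
  have e1 : ∑ x ∈ t, ∑ y ∈ t, wt δ f x * wt δ f y * ((γ x + γ y - γ (x - y)) / 2) =
      T * B - A / 2 := by
    have h1 : ∀ x ∈ t, ∑ y ∈ t, wt δ f x * wt δ f y * ((γ x + γ y - γ (x - y)) / 2) =
        (wt δ f x * γ x) * T / 2 + wt δ f x * B / 2 -
          (∑ y ∈ t, wt δ f x * wt δ f y * γ (x - y)) / 2 := by
      intro x _
      rw [hT, hB, Finset.mul_sum, Finset.mul_sum, Finset.sum_div, Finset.sum_div, Finset.sum_div,
        ← Finset.sum_add_distrib, ← Finset.sum_sub_distrib]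
      refine Finset.sum_congr rfl fun y _ => ?_
      ring
    rw [Finset.sum_congr rfl h1, Finset.sum_sub_distrib, Finset.sum_add_distrib,
      ← Finset.sum_div, ← Finset.sum_div, ← Finset.sum_div, ← Finset.sum_mul, ← Finset.sum_mul,
      ← hA, ← hB, ← hT]
    ring
  have e2 : ∑ x ∈ t, ∑ y ∈ t, charge f δ x * charge f δ y * γ (x - y) = A - 2 * (T * B) := by
    have h1 : ∀ x ∈ t, ∑ y ∈ t, charge f δ x * charge f δ y * γ (x - y) =
        (∑ y ∈ t, wt δ f x * wt δ f y * γ (x - y)) - T * (wt δ f x * γ x) -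
          (if x = 0 then T else 0) * (∑ y ∈ t, wt δ f y * γ (x - y) - T * γ x) := by
      intro x _
      have h2 : ∑ y ∈ t, charge f δ x * charge f δ y * γ (x - y) =
          ∑ y ∈ t, (wt δ f x * wt δ f y * γ (x - y) -
            (if y = 0 then T else 0) * (wt δ f x * γ (x - y)) -
            ((if x = 0 then T else 0) * (wt δ f y * γ (x - y)) -
              (if y = 0 then T else 0) * ((if x = 0 then T else 0) * γ (x - y)))) := by
        refine Finset.sum_congr rfl fun y _ => ?_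
        rw [hch, hch]
        ring
      rw [h2, Finset.sum_sub_distrib, Finset.sum_sub_distrib, Finset.sum_sub_distrib,
        hite (fun y => wt δ f x * γ (x - y)), ← Finset.mul_sum,
        hite (fun y => (if x = 0 then T else 0) * γ (x - y)), sub_zero]
      ring
    rw [Finset.sum_congr rfl h1, Finset.sum_sub_distrib, Finset.sum_sub_distrib,
      hite (fun x => ∑ y ∈ t, wt δ f y * γ (x - y) - T * γ x), ← Finset.mul_sum, ← hA, ← hB, g0]
    have h3 : ∑ y ∈ t, wt δ f y * γ (0 - y) = B := by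
      rw [hB]
      refine Finset.sum_congr rfl fun y _ => ?_
      rw [zero_sub, gn]
    rw [h3]
    ring
  rw [e1, e2]
  ring

/-- general theorem: reflection positivity in four directions gives the Gaussian free field covariance at large scales -/
theorem analysis_pair {r : ℝ → V → ℝ} {γ : V → ℝ} (h : Data r γ) :
    ∃ K : ℝ, 0 ≤ K ∧
      Tendsto (fun x : V => γ x / log (Real.sqrt ((x.1 : ℝ) ^ 2 + (x.2 : ℝ) ^ 2))) cofinite
        (𝓝 (K / π)) ∧
      ∀ f : ℝ × ℝ → ℝ, ContDiff ℝ 1 f → HasCompactSupport f → ∫ y, f y = 0 → ∀ ε > 0,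
        ∃ δ₀ > 0, ∀ δ : ℝ, 0 < δ → δ < δ₀ → ∀ s : Finset V,
          (∀ x : V, f (δ * x.1, δ * x.2) ≠ 0 → x ∈ s) →
          |pform γ δ f s - K * energy f| ≤ ε := by
  obtain ⟨K, hK, hlog, hsm⟩ := analysis h
  refine ⟨K, hK, hlog, ?_⟩
  intro f hf hc h0 ε hε
  have h1 := (Metric.tendsto_nhdsWithin_nhds.mp (hsm f hf hc h0)) ε hε
  obtain ⟨δ₀, hδ₀, hd⟩ := h1
  refine ⟨δ₀, hδ₀, ?_⟩
  intro δ hδ hδ' s hs
  have h2 := hd (x := δ) hδ (by rw [Real.dist_eq, sub_zero, abs_of_pos hδ]; exact hδ')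
  rw [Real.dist_eq] at h2
  rw [pform_eq h.zero h.neg δ f s hs]
  exact h2.le

end RP4
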