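import Pool.Agent.Helper97.RP4.Defs

/-!
B01.  One dimensional Hankel positivity: tempered power series and the moment functional.
-/

open Finset Filter
open scoped Topology PowerSeries

namespace RP4

/-- Hankel positivity -/
def HP (c : ℕ → ℝ) : Prop :=
  ∀ (N : ℕ) (f : ℕ → ℝ), 0 ≤ ∑ i ∈ range N, ∑ j ∈ range N, f i * f j * c (i + j)

/-- all moments are summable -/
def Rap (c : ℕ → ℝ) : Prop := ∀ m : ℕ, Summable (fun n : ℕ => |c n| * ((n : ℝ) + 1) ^ m)

/-- coefficients of polynomial growth -/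
def Tm (φ : ℝ⟦X⟧) : Prop := ∃ (K : ℝ) (m : ℕ), ∀ n : ℕ, |PowerSeries.coeff n φ| ≤ K * ((n : ℝ) + 1) ^ m

/-- the moment functional -/
noncomputable def Lc (c : ℕ → ℝ) (φ : ℝ⟦X⟧) : ℝ := ∑' n : ℕ, PowerSeries.coeff n φ * c n

lemma B01_nonneg {φ : ℝ⟦X⟧} {K : ℝ} {m : ℕ}
    (h : ∀ n : ℕ, |PowerSeries.coeff n φ| ≤ K * ((n : ℝ) + 1) ^ m) : 0 ≤ K := by
  have h1 := h 0
  simp only [Nat.cast_zero, zero_add, one_pow, mul_one] at h1
  exact (abs_nonneg _).trans h1

lemma Tm.add {φ ψ : ℝ⟦X⟧} (h : Tm φ) (h' : Tm ψ) : Tm (φ + ψ) := by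
  obtain ⟨K, m, hK⟩ := h
  obtain ⟨K', m', hK'⟩ := h'
  have k0 := B01_nonneg hK
  have k0' := B01_nonneg hK'
  refine ⟨K + K', m + m', fun n => ?_⟩
  have hn : (1 : ℝ) ≤ (n : ℝ) + 1 := by linarith [(Nat.cast_nonneg n : (0 : ℝ) ≤ n)]
  have h1 : ((n : ℝ) + 1) ^ m ≤ ((n : ℝ) + 1) ^ (m + m') := pow_le_pow_right₀ hn (by omega)
  have h2 : ((n : ℝ) + 1) ^ m' ≤ ((n : ℝ) + 1) ^ (m + m') := pow_le_pow_right₀ hn (by omega)
  rw [map_add, add_mul]
  exact (abs_add_le _ _).trans (add_le_add ((hK n).trans (mul_le_mul_of_nonneg_left h1 k0))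
    ((hK' n).trans (mul_le_mul_of_nonneg_left h2 k0')))

lemma B01_neg {φ : ℝ⟦X⟧} (h : Tm φ) : Tm (-φ) := by
  obtain ⟨K, m, hK⟩ := h
  refine ⟨K, m, fun n => ?_⟩
  rw [map_neg, abs_neg]
  exact hK n

lemma Tm.sub {φ ψ : ℝ⟦X⟧} (h : Tm φ) (h' : Tm ψ) : Tm (φ - ψ) := by
  rw [sub_eq_add_neg]
  exact h.add (B01_neg h')

lemma B01_mul {φ ψ : ℝ⟦X⟧} {K K' : ℝ} {m m' : ℕ} (k0 : 0 ≤ K) (k0' : 0 ≤ K')
    (hK : ∀ n : ℕ, |PowerSeries.coeff n φ| ≤ K * ((n : ℝ) + 1) ^ m)
    (hK' : ∀ n : ℕ, |PowerSeries.coeff n ψ| ≤ K' * ((n : ℝ) + 1) ^ m') (n : ℕ) :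
    |PowerSeries.coeff n (φ * ψ)| ≤ K * K' * ((n : ℝ) + 1) ^ (m + m' + 1) := by
  rw [PowerSeries.coeff_mul]
  have h1 : ∀ x ∈ antidiagonal n, |PowerSeries.coeff x.1 φ * PowerSeries.coeff x.2 ψ| ≤
      K * K' * ((n : ℝ) + 1) ^ (m + m') := by
    intro x hx
    rw [HasAntidiagonal.mem_antidiagonal] at hx
    have h2 : (x.1 : ℝ) ≤ n := by exact_mod_cast (by omega : x.1 ≤ n)
    have h3 : (x.2 : ℝ) ≤ n := by exact_mod_cast (by omega : x.2 ≤ n)
    have h4 : (0 : ℝ) ≤ x.1 := Nat.cast_nonneg _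
    have h5 : (0 : ℝ) ≤ x.2 := Nat.cast_nonneg _
    have h6 : ((x.1 : ℝ) + 1) ^ m ≤ ((n : ℝ) + 1) ^ m :=
      pow_le_pow_left₀ (by linarith) (by linarith) m
    have h7 : ((x.2 : ℝ) + 1) ^ m' ≤ ((n : ℝ) + 1) ^ m' :=
      pow_le_pow_left₀ (by linarith) (by linarith) m'
    rw [abs_mul]
    calc |PowerSeries.coeff x.1 φ| * |PowerSeries.coeff x.2 ψ|
        ≤ (K * ((n : ℝ) + 1) ^ m) * (K' * ((n : ℝ) + 1) ^ m') :=
          mul_le_mul ((hK _).trans (mul_le_mul_of_nonneg_left h6 k0))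
            ((hK' _).trans (mul_le_mul_of_nonneg_left h7 k0')) (abs_nonneg _) (by positivity)
      _ = K * K' * ((n : ℝ) + 1) ^ (m + m') := by rw [pow_add]; ring
  calc |∑ x ∈ antidiagonal n, PowerSeries.coeff x.1 φ * PowerSeries.coeff x.2 ψ|
      ≤ ∑ x ∈ antidiagonal n, |PowerSeries.coeff x.1 φ * PowerSeries.coeff x.2 ψ| :=
        abs_sum_le_sum_abs _ _
    _ ≤ ∑ x ∈ antidiagonal n, K * K' * ((n : ℝ) + 1) ^ (m + m') := sum_le_sum h1
    _ = K * K' * ((n : ℝ) + 1) ^ (m + m' + 1) := by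
        rw [sum_const, Nat.card_antidiagonal, nsmul_eq_mul, pow_succ]
        push_cast
        ring

/-
`|coeff n (φ ψ)| ≤ ∑ over the antidiagonal ≤ (n+1) * K (n+1)^m * K' (n+1)^m'`.
-/
lemma Tm.mul {φ ψ : ℝ⟦X⟧} (h : Tm φ) (h' : Tm ψ) : Tm (φ * ψ) := by
  obtain ⟨K, m, hK⟩ := h
  obtain ⟨K', m', hK'⟩ := h'
  have k0 := B01_nonneg hK
  have k0' := B01_nonneg hK'
  refine ⟨K * K', m + m' + 1, fun n => B01_mul k0 k0' (fun i => hK i) (fun i => hK' i) n⟩

lemma Tm.C (a : ℝ) : Tm (PowerSeries.C a) := by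
  refine ⟨|a|, 0, fun n => ?_⟩
  rw [pow_zero, mul_one, PowerSeries.coeff_C]
  split_ifs
  · exact le_rfl
  · rw [abs_zero]
    exact abs_nonneg _

lemma Tm.X : Tm (PowerSeries.X) := by
  refine ⟨1, 0, fun n => ?_⟩
  rw [pow_zero, mul_one, PowerSeries.coeff_X]
  split_ifs
  · rw [abs_one]
  · rw [abs_zero]
    exact zero_le_one

lemma B01_bound {c : ℕ → ℝ} (hr : Rap c) (K : ℝ) (m : ℕ) :
    Summable (fun n : ℕ => K * ((n : ℝ) + 1) ^ m * |c n|) := by
  refine ((hr m).mul_left K).congr fun n => ?_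
  ring

lemma Lc_summable {c : ℕ → ℝ} (hr : Rap c) {φ : ℝ⟦X⟧} (h : Tm φ) :
    Summable (fun n : ℕ => PowerSeries.coeff n φ * c n) := by
  obtain ⟨K, m, hK⟩ := h
  refine Summable.of_norm_bounded (B01_bound hr K m) fun n => ?_
  rw [Real.norm_eq_abs, abs_mul]
  exact mul_le_mul_of_nonneg_right (hK n) (abs_nonneg _)

lemma Lc_add {c : ℕ → ℝ} (hr : Rap c) {φ ψ : ℝ⟦X⟧} (h : Tm φ) (h' : Tm ψ) :
    Lc c (φ + ψ) = Lc c φ + Lc c ψ := by
  unfold Lc
  rw [← (Lc_summable hr h).tsum_add (Lc_summable hr h')]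
  refine tsum_congr fun n => ?_
  rw [map_add, add_mul]

lemma Lc_sub {c : ℕ → ℝ} (hr : Rap c) {φ ψ : ℝ⟦X⟧} (h : Tm φ) (h' : Tm ψ) :
    Lc c (φ - ψ) = Lc c φ - Lc c ψ := by
  unfold Lc
  rw [← (Lc_summable hr h).tsum_sub (Lc_summable hr h')]
  refine tsum_congr fun n => ?_
  rw [map_sub, sub_mul]

lemma Lc_C_mul {c : ℕ → ℝ} (a : ℝ) (φ : ℝ⟦X⟧) :
    Lc c (PowerSeries.C a * φ) = a * Lc c φ := by
  unfold Lc
  rw [← tsum_mul_left]
  refine tsum_congr fun n => ?_
  rw [PowerSeries.coeff_C_mul, mul_assoc]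

/-- the first `N` terms -/
noncomputable def B01_tr (N : ℕ) (f : ℝ⟦X⟧) : ℝ⟦X⟧ :=
  PowerSeries.mk fun i => if i < N then PowerSeries.coeff i f else 0

lemma B01_coeff_tr (N : ℕ) (f : ℝ⟦X⟧) (i : ℕ) :
    PowerSeries.coeff i (B01_tr N f) = if i < N then PowerSeries.coeff i f else 0 :=
  PowerSeries.coeff_mk _ _

lemma B01_coeff (N : ℕ) (f : ℝ⟦X⟧) (n : ℕ) :
    PowerSeries.coeff n (B01_tr N f * B01_tr N f) =
      ∑ x ∈ range N ×ˢ range N with x.1 + x.2 = n,
        PowerSeries.coeff x.1 f * PowerSeries.coeff x.2 f := by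
  rw [PowerSeries.coeff_mul]
  have hsub : ((range N ×ˢ range N).filter fun x => x.1 + x.2 = n) ⊆ antidiagonal n := by
    intro x hx
    rw [HasAntidiagonal.mem_antidiagonal]
    exact (mem_filter.1 hx).2
  rw [← sum_subset hsub]
  · refine sum_congr rfl fun x hx => ?_
    rw [mem_filter, mem_product, mem_range, mem_range] at hx
    rw [B01_coeff_tr, B01_coeff_tr, if_pos hx.1.1, if_pos hx.1.2]
  · intro x hx hx'
    rw [HasAntidiagonal.mem_antidiagonal] at hx
    rw [mem_filter, mem_product, mem_range, mem_range] at hx'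
    rw [B01_coeff_tr, B01_coeff_tr]
    by_cases h1 : x.1 < N
    · by_cases h2 : x.2 < N
      · exact absurd ⟨⟨h1, h2⟩, hx⟩ hx'
      · rw [if_neg h2, mul_zero]
    · rw [if_neg h1, zero_mul]

lemma B01_Lc_tr (c : ℕ → ℝ) (N : ℕ) (f : ℝ⟦X⟧) :
    Lc c (B01_tr N f * B01_tr N f) = ∑ i ∈ range N, ∑ j ∈ range N,
      PowerSeries.coeff i f * PowerSeries.coeff j f * c (i + j) := by
  unfold Lc
  rw [tsum_eq_sum (s := range (2 * N))]
  · have h1 : ∀ n ∈ range (2 * N), PowerSeries.coeff n (B01_tr N f * B01_tr N f) * c n =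
        ∑ x ∈ range N ×ˢ range N with x.1 + x.2 = n,
          PowerSeries.coeff x.1 f * PowerSeries.coeff x.2 f * c (x.1 + x.2) := by
      intro n _
      rw [B01_coeff, sum_mul]
      refine sum_congr rfl fun x hx => ?_
      rw [(mem_filter.1 hx).2]
    rw [sum_congr rfl h1, sum_fiberwise_of_maps_to (fun x hx => ?_), sum_product]
    rw [mem_product, mem_range, mem_range] at hx
    rw [mem_range]
    omega
  · intro n hn
    rw [mem_range, not_lt] at hn
    rw [B01_coeff, filter_false_of_mem, sum_empty, zero_mul]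
    intro x hx
    rw [mem_product, mem_range, mem_range] at hx
    omega

/-
Let `f_N = ∑_{i<N} f_i X^i`.  Then `Lc c (f_N f_N) = ∑_{i,j<N} f_i f_j c (i+j) ≥ 0` by `HP` and
`coeff n (f_N f_N) → coeff n (f f)` with the bound `K (n+1)^(2m+1)`: `tendsto_tsum_of_dominated_convergence`.
-/
lemma Lc_sq_nonneg {c : ℕ → ℝ} (hc : HP c) (hr : Rap c) {f : ℝ⟦X⟧} (hf : Tm f) :
    0 ≤ Lc c (f * f) := by
  obtain ⟨K, m, hK⟩ := hf
  have k0 := B01_nonneg hK
  have hb : ∀ N n : ℕ, |PowerSeries.coeff n (B01_tr N f)| ≤ K * ((n : ℝ) + 1) ^ m := by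
    intro N n
    rw [B01_coeff_tr]
    split_ifs
    · exact hK n
    · rw [abs_zero]
      positivity
  have hlim : Tendsto (fun N : ℕ => Lc c (B01_tr N f * B01_tr N f)) atTop (𝓝 (Lc c (f * f))) := by
    unfold Lc
    refine tendsto_tsum_of_dominated_convergence (B01_bound hr (K * K) (m + m + 1)) (fun n => ?_)
      (Eventually.of_forall fun N n => ?_)
    · refine tendsto_const_nhds.congr' ?_
      filter_upwards [eventually_gt_atTop n] with N hN
      congr 1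
      rw [PowerSeries.coeff_mul, PowerSeries.coeff_mul]
      refine sum_congr rfl fun x hx => ?_
      rw [HasAntidiagonal.mem_antidiagonal] at hx
      rw [B01_coeff_tr, B01_coeff_tr, if_pos (by omega), if_pos (by omega)]
    · rw [Real.norm_eq_abs, abs_mul]
      exact mul_le_mul_of_nonneg_right (B01_mul k0 k0 (hb N) (hb N) n) (abs_nonneg _)
  refine ge_of_tendsto' hlim fun N => ?_
  rw [B01_Lc_tr]
  exact hc N _

/-
`q n = Lc c (X^(2n) f f)`.  `q n ≥ 0` by `Lc_sq_nonneg` for `X^n f`;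
`q (n+1)^2 ≤ q n * q (n+2)`: discriminant of the nonnegative quadratic
`s ↦ Lc c ((X^n f + C s X^(n+2) f)^2) = q n + 2 s q (n+1) + s^2 q (n+2)`.
`q n → 0` since `q n = ∑' k, coeff k (f f) * c (k + 2n)` is bounded by a tail of a summable series
(`|coeff k (f f)| ≤ K (k+1)^m ≤ K (k+2n+1)^m`).
A nonnegative log-convex sequence tending to `0` is nonincreasing: otherwise `q 1 > q 0`, the ratios
`q (n+1) / q n` are nondecreasing and `> 1` (if `q 0 = 0` then `q 1 = 0`, by `q 1 ^2 ≤ q 0 q 2`).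
Hence `q 1 ≤ q 0`, i.e. the claim.
-/
lemma Lc_weight_nonneg {c : ℕ → ℝ} (hc : HP c) (hr : Rap c) {f : ℝ⟦X⟧} (hf : Tm f) :
    0 ≤ Lc c ((1 - PowerSeries.X ^ 2) * (f * f)) := by
  have hX : ∀ n : ℕ, Tm ((PowerSeries.X : ℝ⟦X⟧) ^ n) := by
    intro n
    induction n with
    | zero =>
      rw [pow_zero, ← map_one (PowerSeries.C (R := ℝ))]
      exact Tm.C 1
    | succ n ih =>
      rw [pow_succ]
      exact ih.mul Tm.X
  have hff : Tm (f * f) := hf.mul hf
  set q : ℕ → ℝ := fun n => Lc c (PowerSeries.X ^ (2 * n) * (f * f)) with hq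
  have hu : ∀ n : ℕ, Tm (PowerSeries.X ^ n * f) := fun n => (hX n).mul hf
  have hq0 : ∀ n, 0 ≤ q n := by
    intro n
    have h1 : PowerSeries.X ^ (2 * n) * (f * f) =
        (PowerSeries.X ^ n * f) * (PowerSeries.X ^ n * f) := by ring
    simp only [hq]
    rw [h1]
    exact Lc_sq_nonneg hc hr (hu n)
  have hlog : ∀ n, q (n + 1) ^ 2 ≤ q n * q (n + 2) := by
    intro n
    have h1 : ∀ s : ℝ, 0 ≤ q (n + 2) * (s * s) + (2 * q (n + 1)) * s + q n := by
      intro s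
      have h2 : Tm (PowerSeries.C s * (PowerSeries.X ^ (n + 2) * f)) := (Tm.C s).mul (hu _)
      have h3 := Lc_sq_nonneg hc hr ((hu n).add h2)
      have h4 : (PowerSeries.X ^ n * f + PowerSeries.C s * (PowerSeries.X ^ (n + 2) * f)) *
          (PowerSeries.X ^ n * f + PowerSeries.C s * (PowerSeries.X ^ (n + 2) * f)) =
          PowerSeries.X ^ (2 * n) * (f * f) +
            (PowerSeries.C (2 * s) * (PowerSeries.X ^ (2 * (n + 1)) * (f * f)) +
              PowerSeries.C (s * s) * (PowerSeries.X ^ (2 * (n + 2)) * (f * f))) := by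
        rw [map_mul, map_mul]
        have h5 : (PowerSeries.C (2 : ℝ) : ℝ⟦X⟧) = 2 := map_ofNat _ 2
        rw [h5]
        ring
      rw [h4, Lc_add hr ((hX _).mul hff) (((Tm.C _).mul ((hX _).mul hff)).add
        ((Tm.C _).mul ((hX _).mul hff))), Lc_add hr ((Tm.C _).mul ((hX _).mul hff))
        ((Tm.C _).mul ((hX _).mul hff)), Lc_C_mul, Lc_C_mul] at h3
      simp only [hq]
      linarith
    have h2 := discrim_le_zero h1
    rw [discrim] at h2
    nlinarith
  have hlim : Tendsto q atTop (𝓝 0) := by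
    obtain ⟨K, m, hK⟩ := hff
    have k0 := B01_nonneg hK
    set b : ℕ → ℝ := fun k => K * ((k : ℝ) + 1) ^ m * |c k| with hb
    have hbs : Summable b := B01_bound hr K m
    have h1 : ∀ n, |q n| ≤ ∑' k, b (k + 2 * n) := by
      intro n
      have hs : Summable fun k : ℕ =>
          PowerSeries.coeff k (PowerSeries.X ^ (2 * n) * (f * f)) * c k :=
        Lc_summable hr ((hX _).mul ⟨K, m, hK⟩)
      have h2 : q n = ∑' k : ℕ, PowerSeries.coeff k (f * f) * c (k + 2 * n) := by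
        have h3 := hs.sum_add_tsum_nat_add (2 * n)
        have h4 : ∑ i ∈ range (2 * n),
            PowerSeries.coeff i (PowerSeries.X ^ (2 * n) * (f * f)) * c i = 0 := by
          refine sum_eq_zero fun i hi => ?_
          rw [mem_range] at hi
          rw [PowerSeries.coeff_X_pow_mul', if_neg (by omega), zero_mul]
        rw [h4, zero_add] at h3
        simp only [hq]
        unfold Lc
        rw [← h3]
        refine tsum_congr fun k => ?_
        rw [PowerSeries.coeff_X_pow_mul', if_pos (by omega), Nat.add_sub_cancel]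
      rw [h2]
      have hbs' : Summable fun k => b (k + 2 * n) := (summable_nat_add_iff (2 * n)).2 hbs
      have h5 : ∀ k : ℕ, ‖PowerSeries.coeff k (f * f) * c (k + 2 * n)‖ ≤ b (k + 2 * n) := by
        intro k
        rw [Real.norm_eq_abs, abs_mul]
        refine mul_le_mul_of_nonneg_right ((hK k).trans ?_) (abs_nonneg _)
        refine mul_le_mul_of_nonneg_left ?_ k0
        refine pow_le_pow_left₀ (by positivity) ?_ m
        push_cast
        have : (0 : ℝ) ≤ n := Nat.cast_nonneg n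
        linarith
      have h6 := norm_tsum_le_tsum_norm (hbs'.of_nonneg_of_le (fun k => norm_nonneg _) h5)
      rw [Real.norm_eq_abs] at h6
      exact h6.trans ((hbs'.of_nonneg_of_le (fun k => norm_nonneg _) h5).tsum_le_tsum h5 hbs')
    have h2 : Tendsto (fun n : ℕ => ∑' k, b (k + 2 * n)) atTop (𝓝 0) :=
      (tendsto_sum_nat_add b).comp (tendsto_id.const_mul_atTop' (by norm_num))
    exact squeeze_zero_norm h1 h2
  have hmain : q 1 ≤ q 0 := by
    by_contra hcon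
    rw [not_le] at hcon
    have h1 : ∀ n, 0 < q (n + 1) ∧ q n ≤ q (n + 1) := by
      intro n
      induction n with
      | zero => exact ⟨lt_of_le_of_lt (hq0 0) hcon, hcon.le⟩
      | succ n ih =>
        obtain ⟨h2, h3⟩ := ih
        have h4 := hlog n
        have h5 : q n * q (n + 2) ≤ q (n + 1) * q (n + 2) :=
          mul_le_mul_of_nonneg_right h3 (hq0 _)
        have h6 : q (n + 1) * q (n + 1) ≤ q (n + 1) * q (n + 2) := by
          rw [← pow_two]
          exact h4.trans h5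
        have h7 : q (n + 1) ≤ q (n + 2) := le_of_mul_le_mul_left h6 h2
        exact ⟨lt_of_lt_of_le h2 h7, h7⟩
    have h2 : ∀ n, q 1 ≤ q (n + 1) := by
      intro n
      induction n with
      | zero => exact le_rfl
      | succ n ih => exact ih.trans (h1 (n + 1)).2
    have h3 : q 1 ≤ 0 := ge_of_tendsto' ((tendsto_add_atTop_iff_nat 1).2 hlim) h2
    exact absurd (h1 0).1 (not_lt.2 h3)
  have h1 : (1 - PowerSeries.X ^ 2) * (f * f) = PowerSeries.X ^ (2 * 0) * (f * f) -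
      PowerSeries.X ^ (2 * 1) * (f * f) := by
    rw [mul_zero, pow_zero, mul_one]
    ring
  rw [h1, Lc_sub hr ((hX _).mul hff) ((hX _).mul hff)]
  exact sub_nonneg.2 hmain

end RP4
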