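import Pool.Agent.Helper97.RP4.B01

/-!
B02.  `1 / S` is concave in `cos t`, in multiplicative form.
-/

open Finset Filter
open scoped Topology PowerSeries

namespace RP4

/-- `S(t) = c_0 + 2 ∑_{n ≥ 1} c_n cos (n t)` -/
noncomputable def csum (c : ℕ → ℝ) (t : ℝ) : ℝ :=
  c 0 + 2 * ∑' n : ℕ, c (n + 1) * Real.cos (((n : ℝ) + 1) * t)

/-- `∑ U_n(u) X^n` -/
noncomputable def eU (u : ℝ) : ℝ⟦X⟧ := PowerSeries.mk fun n => (Polynomial.Chebyshev.U ℝ n).eval u

/-- `1 - 2 u X + X^2` -/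
noncomputable def dU (u : ℝ) : ℝ⟦X⟧ :=
  1 - PowerSeries.C (2 * u) * PowerSeries.X + PowerSeries.X ^ 2

private lemma abs_evU_le (t : ℝ) (n : ℕ) :
    |(Polynomial.Chebyshev.U ℝ n).eval (Real.cos t)| ≤ (n : ℝ) + 1 := by
  induction n with
  | zero => simp
  | succ n ih =>
    have h := Polynomial.Chebyshev.U_eq_X_mul_U_add_T ℝ (n : ℤ)
    have h2 : Polynomial.Chebyshev.U ℝ ((n + 1 : ℕ) : ℤ) =
        Polynomial.X * Polynomial.Chebyshev.U ℝ (n : ℤ) +
          Polynomial.Chebyshev.T ℝ ((n : ℤ) + 1) := by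
      rw [← h]
      push_cast
      rfl
    rw [h2, Polynomial.eval_add, Polynomial.eval_mul, Polynomial.eval_X,
      Polynomial.Chebyshev.T_real_cos]
    have h3 := Real.abs_cos_le_one t
    have h4 := Real.abs_cos_le_one ((((n : ℤ) + 1 : ℤ) : ℝ) * t)
    calc |Real.cos t * (Polynomial.Chebyshev.U ℝ (n : ℤ)).eval (Real.cos t) +
          Real.cos ((((n : ℤ) + 1 : ℤ) : ℝ) * t)|
        ≤ |Real.cos t * (Polynomial.Chebyshev.U ℝ (n : ℤ)).eval (Real.cos t)| +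
          |Real.cos ((((n : ℤ) + 1 : ℤ) : ℝ) * t)| := abs_add_le _ _
      _ ≤ 1 * ((n : ℝ) + 1) + 1 := by
          rw [abs_mul]
          exact add_le_add (mul_le_mul h3 ih (abs_nonneg _) zero_le_one) h4
      _ = ((n + 1 : ℕ) : ℝ) + 1 := by
          push_cast
          ring

/-
`|sin ((n+1) t)| ≤ (n+1) |sin t|` (induction), so `|U_n (cos t)| ≤ n + 1` if `sin t ≠ 0`
(`Polynomial.Chebyshev.U_real_cos` or similar); for `cos t = ±1` use `U_n(±1) = (±1)^n (n+1)` or prove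
`|U_{n+1}(u)| ≤ |U_n(u)| + 1` from `U_{n+1}(u) - u U_n(u) = T_{n+1}(u)` and `|T_n (cos t)| = |cos (n t)| ≤ 1`
(this works for all `u = cos t` at once).
-/
lemma eU_tm (t : ℝ) : Tm (eU (Real.cos t)) := by
  refine ⟨1, 1, fun n => ?_⟩
  rw [one_mul, pow_one]
  unfold eU
  rw [PowerSeries.coeff_mk]
  exact abs_evU_le t n

private lemma coeff_eU (u : ℝ) (n : ℕ) :
    PowerSeries.coeff n (eU u) = (Polynomial.Chebyshev.U ℝ n).eval u := by
  unfold eU
  rw [PowerSeries.coeff_mk]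

/-
The Chebyshev recursion.
-/
lemma dU_mul_eU (u : ℝ) : dU u * eU u = 1 := by
  have h0 : dU u * eU u = eU u - PowerSeries.C (2 * u) * (PowerSeries.X * eU u) +
      PowerSeries.X * (PowerSeries.X * eU u) := by
    unfold dU
    ring
  rw [h0]
  ext n
  rw [map_add, map_sub, PowerSeries.coeff_C_mul]
  rcases n with _ | _ | n
  · rw [PowerSeries.coeff_zero_X_mul, PowerSeries.coeff_zero_X_mul]
    simp [eU]
  · rw [PowerSeries.coeff_succ_X_mul, PowerSeries.coeff_succ_X_mul,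
      PowerSeries.coeff_zero_X_mul]
    simp [eU, PowerSeries.coeff_one]
  · rw [PowerSeries.coeff_succ_X_mul, PowerSeries.coeff_succ_X_mul,
      PowerSeries.coeff_succ_X_mul, coeff_eU, coeff_eU, coeff_eU, PowerSeries.coeff_one,
      if_neg (by omega)]
    have h1 := Polynomial.Chebyshev.U_add_two ℝ (n : ℤ)
    have h2 := congrArg (Polynomial.eval u) h1
    rw [Polynomial.eval_sub, Polynomial.eval_mul, Polynomial.eval_mul, Polynomial.eval_X,
      Polynomial.eval_ofNat] at h2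
    push_cast
    have e : (n : ℤ) + 1 + 1 = (n : ℤ) + 2 := by ring
    rw [e, h2]
    ring

private lemma coeff_Y (t : ℝ) (n : ℕ) :
    PowerSeries.coeff n ((1 - PowerSeries.X ^ 2) * eU (Real.cos t)) =
      if n = 0 then 1 else 2 * Real.cos ((n : ℝ) * t) := by
  have h0 : (1 - PowerSeries.X ^ 2) * eU (Real.cos t) = eU (Real.cos t) -
      PowerSeries.X * (PowerSeries.X * eU (Real.cos t)) := by
    ring
  rw [h0, map_sub]
  rcases n with _ | _ | n
  · rw [PowerSeries.coeff_zero_X_mul]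
    simp [eU]
  · rw [PowerSeries.coeff_succ_X_mul, PowerSeries.coeff_zero_X_mul]
    simp [eU]
  · rw [PowerSeries.coeff_succ_X_mul, PowerSeries.coeff_succ_X_mul, coeff_eU, coeff_eU,
      if_neg (by omega)]
    have h1 := Polynomial.Chebyshev.two_mul_T_eq_U_sub_U ℝ (n : ℤ)
    have h2 := congrArg (Polynomial.eval (Real.cos t)) h1
    rw [Polynomial.eval_sub, Polynomial.eval_mul, Polynomial.eval_ofNat,
      Polynomial.Chebyshev.T_real_cos] at h2
    push_cast at h2 ⊢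
    have e : (n : ℤ) + 1 + 1 = (n : ℤ) + 2 := by ring
    have e2 : (n : ℝ) + 1 + 1 = (n : ℝ) + 2 := by ring
    rw [e, e2, ← h2]

/-
`(1 - X²) eU`: coefficient `n` is `U_n - U_{n-2} = 2 T_n` for `n ≥ 2` (`n = 1`: `2u = 2 T_1`, `n = 0`: `1`),
`T_n (cos t) = cos (n t)`.
-/
lemma Lc_eU {c : ℕ → ℝ} (hr : Rap c) (t : ℝ) :
    Lc c ((1 - PowerSeries.X ^ 2) * eU (Real.cos t)) = csum c t := by
  have htm : Tm ((1 - PowerSeries.X ^ 2) * eU (Real.cos t)) := by
    refine Tm.mul (Tm.sub ?_ ?_) (eU_tm t)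
    · have := Tm.C 1
      rwa [map_one] at this
    · rw [pow_two]
      exact Tm.X.mul Tm.X
  unfold Lc csum
  rw [(Lc_summable hr htm).tsum_eq_zero_add, coeff_Y t 0, if_pos rfl, one_mul, ← tsum_mul_left]
  congr 1
  refine tsum_congr fun n => ?_
  rw [coeff_Y t (n + 1), if_neg (by omega)]
  push_cast
  ring

private lemma B02_tm_w : Tm (1 - PowerSeries.X ^ 2 : ℝ⟦X⟧) := by
  refine Tm.sub ?_ ?_
  · have := Tm.C 1
    rwa [map_one] at this
  · rw [pow_two]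
    exact Tm.X.mul Tm.X

private lemma B02_dU_eU_eU (u : ℝ) : dU u * (eU u * eU u) = eU u := by
  rw [← mul_assoc, dU_mul_eU, one_mul]

private lemma B02_tm_dU (u : ℝ) : Tm (dU u) := by
  unfold dU
  refine Tm.add (Tm.sub ?_ ((Tm.C _).mul Tm.X)) ?_
  · have := Tm.C 1
    rwa [map_one] at this
  · rw [pow_two]
    exact Tm.X.mul Tm.X

/-
`dU (cos t) h² = (h - cos t X h)² + sin² t (X h)²`, then `Lc_weight_nonneg` twice.
-/
lemma Lc_dU_nonneg {c : ℕ → ℝ} (hc : HP c) (hr : Rap c) {h : ℝ⟦X⟧} (hh : Tm h) (t : ℝ) :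
    0 ≤ Lc c ((1 - PowerSeries.X ^ 2) * (dU (Real.cos t) * (h * h))) := by
  have hw : Tm (1 - PowerSeries.X ^ 2 : ℝ⟦X⟧) := B02_tm_w
  have hg : Tm (PowerSeries.X * h) := Tm.X.mul hh
  have hf : Tm (h - PowerSeries.C (Real.cos t) * (PowerSeries.X * h)) :=
    hh.sub ((Tm.C _).mul hg)
  have e1 : (PowerSeries.C (Real.sin t ^ 2) : ℝ⟦X⟧) = 1 - PowerSeries.C (Real.cos t) ^ 2 := by
    rw [Real.sin_sq, map_sub, map_one, map_pow]
  have e2 : (PowerSeries.C (2 * Real.cos t) : ℝ⟦X⟧) = 2 * PowerSeries.C (Real.cos t) := by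
    rw [map_mul, map_ofNat]
  have e : (1 - PowerSeries.X ^ 2) * (dU (Real.cos t) * (h * h)) =
      (1 - PowerSeries.X ^ 2) * ((h - PowerSeries.C (Real.cos t) * (PowerSeries.X * h)) *
        (h - PowerSeries.C (Real.cos t) * (PowerSeries.X * h))) +
      PowerSeries.C (Real.sin t ^ 2) * ((1 - PowerSeries.X ^ 2) *
        ((PowerSeries.X * h) * (PowerSeries.X * h))) := by
    unfold dU
    rw [e1, e2]
    ring
  rw [e, Lc_add hr (hw.mul (hf.mul hf)) ((Tm.C _).mul (hw.mul (hg.mul hg))), Lc_C_mul]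
  exact add_nonneg (Lc_weight_nonneg hc hr hf)
    (mul_nonneg (sq_nonneg _) (Lc_weight_nonneg hc hr hg))

/-
`dU u * (eU u * eU u) = eU u`: `Lc_dU_nonneg` with `h = eU`.
-/
lemma csum_nonneg {c : ℕ → ℝ} (hc : HP c) (hr : Rap c) (t : ℝ) : 0 ≤ csum c t := by
  rw [← Lc_eU hr t]
  have h := Lc_dU_nonneg hc hr (eU_tm t) t
  rwa [B02_dU_eU_eU] at h

/-- the form `A_t(e_s, e_s)` -/
noncomputable def Aform (c : ℕ → ℝ) (t s : ℝ) : ℝ :=
  Lc c ((1 - PowerSeries.X ^ 2) * (dU (Real.cos t) * (eU (Real.cos s) * eU (Real.cos s))))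

/-
Cauchy-Schwarz: for all real `x`, `0 ≤ A_t(e_s - x e_t, e_s - x e_t) = A_t(e_s,e_s) - 2 x S(s) + x² S(t)`
because `dU t * (e_s e_t) = e_s` and `Lc c ((1-X²) e_s) = S(s)`, `dU t * (e_t e_t) = e_t`.
-/
lemma csum_sq_le {c : ℕ → ℝ} (hc : HP c) (hr : Rap c) (t s : ℝ) :
    csum c s ^ 2 ≤ csum c t * Aform c t s := by
  have hw : Tm (1 - PowerSeries.X ^ 2 : ℝ⟦X⟧) := B02_tm_w
  have hq : ∀ x : ℝ, 0 ≤ csum c t * (x * x) + (-(2 * csum c s)) * x + Aform c t s := by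
    intro x
    have hh : Tm (eU (Real.cos s) - PowerSeries.C x * eU (Real.cos t)) :=
      (eU_tm s).sub ((Tm.C x).mul (eU_tm t))
    have h := Lc_dU_nonneg hc hr hh t
    have e2 : (PowerSeries.C (2 * x) : ℝ⟦X⟧) = 2 * PowerSeries.C x := by
      rw [map_mul, map_ofNat]
    have e3 : (PowerSeries.C (x * x) : ℝ⟦X⟧) = PowerSeries.C x * PowerSeries.C x := map_mul _ _ _
    have e : (1 - PowerSeries.X ^ 2) * (dU (Real.cos t) *
        ((eU (Real.cos s) - PowerSeries.C x * eU (Real.cos t)) *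
          (eU (Real.cos s) - PowerSeries.C x * eU (Real.cos t)))) =
        ((1 - PowerSeries.X ^ 2) * (dU (Real.cos t) * (eU (Real.cos s) * eU (Real.cos s))) -
          PowerSeries.C (2 * x) * ((1 - PowerSeries.X ^ 2) * eU (Real.cos s))) +
          PowerSeries.C (x * x) * ((1 - PowerSeries.X ^ 2) * eU (Real.cos t)) := by
      rw [e2, e3]
      have k := dU_mul_eU (Real.cos t)
      linear_combination ((1 - PowerSeries.X ^ 2) * (PowerSeries.C x * PowerSeries.C x *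
        eU (Real.cos t)) - (1 - PowerSeries.X ^ 2) * (2 * PowerSeries.C x * eU (Real.cos s))) * k
    have t1 : Tm ((1 - PowerSeries.X ^ 2) *
        (dU (Real.cos t) * (eU (Real.cos s) * eU (Real.cos s)))) :=
      hw.mul ((B02_tm_dU _).mul ((eU_tm s).mul (eU_tm s)))
    have t2 : Tm (PowerSeries.C (2 * x) * ((1 - PowerSeries.X ^ 2) * eU (Real.cos s))) :=
      (Tm.C _).mul (hw.mul (eU_tm s))
    have t3 : Tm (PowerSeries.C (x * x) * ((1 - PowerSeries.X ^ 2) * eU (Real.cos t))) :=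
      (Tm.C _).mul (hw.mul (eU_tm t))
    rw [e, Lc_add hr (t1.sub t2) t3, Lc_sub hr t1 t2, Lc_C_mul, Lc_C_mul, Lc_eU hr, Lc_eU hr] at h
    unfold Aform
    linarith
  have h2 := discrim_le_zero hq
  rw [discrim] at h2
  nlinarith

/-
`dU` is affine in `u`.
-/
lemma Aform_affine {c : ℕ → ℝ} (hr : Rap c) (t t₁ t₂ l s : ℝ)
    (h : Real.cos t = l * Real.cos t₁ + (1 - l) * Real.cos t₂) :
    Aform c t s = l * Aform c t₁ s + (1 - l) * Aform c t₂ s := by
  have hw : Tm (1 - PowerSeries.X ^ 2 : ℝ⟦X⟧) := B02_tm_w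
  have hd : dU (Real.cos t) = PowerSeries.C l * dU (Real.cos t₁) +
      PowerSeries.C (1 - l) * dU (Real.cos t₂) := by
    unfold dU
    have e1 : (PowerSeries.C (2 * Real.cos t) : ℝ⟦X⟧) =
        PowerSeries.C l * PowerSeries.C (2 * Real.cos t₁) +
          PowerSeries.C (1 - l) * PowerSeries.C (2 * Real.cos t₂) := by
      rw [← map_mul, ← map_mul, ← map_add]
      congr 1
      rw [h]
      ring
    have e2 : (PowerSeries.C (1 - l) : ℝ⟦X⟧) = 1 - PowerSeries.C l := by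
      rw [map_sub, map_one]
    rw [e1, e2]
    ring
  have t0 : ∀ u : ℝ, Tm ((1 - PowerSeries.X ^ 2) *
      (dU u * (eU (Real.cos s) * eU (Real.cos s)))) := fun u =>
    hw.mul ((B02_tm_dU _).mul ((eU_tm s).mul (eU_tm s)))
  have e : (1 - PowerSeries.X ^ 2) * (dU (Real.cos t) * (eU (Real.cos s) * eU (Real.cos s))) =
      PowerSeries.C l * ((1 - PowerSeries.X ^ 2) *
        (dU (Real.cos t₁) * (eU (Real.cos s) * eU (Real.cos s)))) +
      PowerSeries.C (1 - l) * ((1 - PowerSeries.X ^ 2) *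
        (dU (Real.cos t₂) * (eU (Real.cos s) * eU (Real.cos s)))) := by
    rw [hd]
    ring
  unfold Aform
  rw [e, Lc_add hr ((Tm.C _).mul (t0 _)) ((Tm.C _).mul (t0 _)), Lc_C_mul, Lc_C_mul]

/-
`A_t(e_t, e_t) = S(t)`.  From `csum_sq_le` (`s = t`): `S(t)² S₂ ≤ S₁ S₂ A_{t₁}`, `S(t)² S₁ ≤ S₁ S₂ A_{t₂}`, so
`S(t)² (l S₂ + (1-l) S₁) ≤ S₁ S₂ (l A_{t₁} + (1-l) A_{t₂}) = S₁ S₂ S(t)`; divide by `S(t)` (trivial if `S(t) = 0`).
-/
theorem csum_conc {c : ℕ → ℝ} (hc : HP c) (hr : Rap c) (t t₁ t₂ l : ℝ) (h0 : 0 ≤ l) (h1 : l ≤ 1)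
    (h : Real.cos t = l * Real.cos t₁ + (1 - l) * Real.cos t₂) :
    csum c t * (l * csum c t₂ + (1 - l) * csum c t₁) ≤ csum c t₁ * csum c t₂ := by
  have n0 := csum_nonneg hc hr t
  have n1 := csum_nonneg hc hr t₁
  have n2 := csum_nonneg hc hr t₂
  have a1 := csum_sq_le hc hr t₁ t
  have a2 := csum_sq_le hc hr t₂ t
  have hA : Aform c t t = csum c t := by
    unfold Aform
    rw [B02_dU_eU_eU, Lc_eU hr]
  have haff := Aform_affine hr t t₁ t₂ l t h
  rw [hA] at haff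
  rcases n0.eq_or_lt with hz | hpos
  · rw [← hz, zero_mul]
    exact mul_nonneg n1 n2
  have b1 : csum c t ^ 2 * (l * csum c t₂) ≤ csum c t₁ * Aform c t₁ t * (l * csum c t₂) :=
    mul_le_mul_of_nonneg_right a1 (mul_nonneg h0 n2)
  have b2 : csum c t ^ 2 * ((1 - l) * csum c t₁) ≤
      csum c t₂ * Aform c t₂ t * ((1 - l) * csum c t₁) :=
    mul_le_mul_of_nonneg_right a2 (mul_nonneg (by linarith) n1)
  have b3 : csum c t * (csum c t * (l * csum c t₂ + (1 - l) * csum c t₁)) ≤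
      csum c t * (csum c t₁ * csum c t₂) := by
    have e1 : csum c t * (csum c t₁ * csum c t₂) =
        csum c t₁ * Aform c t₁ t * (l * csum c t₂) +
          csum c t₂ * Aform c t₂ t * ((1 - l) * csum c t₁) := by
      conv_lhs => rw [haff]
      ring
    rw [e1]
    linarith
  exact le_of_mul_le_mul_left b3 hpos

end RP4
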