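import Pool.Agent.Helper97.RP4.Defs
import Pool.Agent.Helper97.RP4.B02

/-!
B03.  Partial Fourier transforms of a reflection positive function are Hankel positive.
-/

open Finset Filter
open scoped Topology

namespace RP4

/-- part transform in the second coordinate -/
noncomputable def cax (R : V → ℝ) (b : ℝ) (n : ℕ) : ℝ := ∑' y : ℤ, R ((n : ℤ), y) * Real.cos (b * y)

/-- part transform along the antidiagonals -/
noncomputable def cdg (R : V → ℝ) (p : ℝ) (n : ℕ) : ℝ :=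
  ∑' m : ℤ, R (m, (n : ℤ) - m) * Real.cos (p * (2 * m - n))

lemma Fast.summable {R : V → ℝ} (h : Fast R) : Summable R := by
  have h0 := h 0
  simp only [pow_zero, mul_one] at h0
  exact Summable.of_norm h0

private lemma rap_aux {R : V → ℝ} (h : Fast R) (e : ℕ × ℤ → V) (he : Function.Injective e)
    (hn : ∀ (n : ℕ) (y : ℤ), (n : ℝ) ≤ nrm (e (n, y))) (g : ℕ → ℤ → ℝ) (hg : ∀ n y, |g n y| ≤ 1) :
    Rap (fun n => ∑' y : ℤ, R (e (n, y)) * g n y) := by
  intro m
  have h1 : Summable (fun z : ℕ × ℤ => |R (e z)| * (1 + nrm (e z)) ^ m) :=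
    (h m).comp_injective he
  have h2 : ∀ n : ℕ, Summable (fun y : ℤ => |R (e (n, y))| * (1 + nrm (e (n, y))) ^ m) :=
    fun n => h1.prod_factor n
  have h3 : Summable (fun n : ℕ => ∑' y : ℤ, |R (e (n, y))| * (1 + nrm (e (n, y))) ^ m) :=
    h1.prod
  have h4 : ∀ n : ℕ, Summable (fun y : ℤ => |R (e (n, y))|) := by
    intro n
    have h0 := h 0
    simp only [pow_zero, mul_one] at h0
    exact (h0.comp_injective he).prod_factor n
  refine Summable.of_nonneg_of_le (fun n => ?_) (fun n => ?_) h3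
  · exact mul_nonneg (abs_nonneg _) (pow_nonneg (by positivity) _)
  · have hs : Summable (fun y : ℤ => |R (e (n, y)) * g n y|) := by
      refine Summable.of_nonneg_of_le (fun y => abs_nonneg _) (fun y => ?_) (h4 n)
      rw [abs_mul]
      exact mul_le_of_le_one_right (abs_nonneg _) (hg n y)
    have h5 : |∑' y : ℤ, R (e (n, y)) * g n y| ≤ ∑' y : ℤ, |R (e (n, y))| := by
      refine le_trans (?_ : _ ≤ ∑' y : ℤ, |R (e (n, y)) * g n y|) ?_
      · have := norm_tsum_le_tsum_norm (f := fun y : ℤ => R (e (n, y)) * g n y) hs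
        simpa only [Real.norm_eq_abs] using this
      · refine hs.tsum_le_tsum (fun y => ?_) (h4 n)
        rw [abs_mul]
        exact mul_le_of_le_one_right (abs_nonneg _) (hg n y)
    refine le_trans (mul_le_mul_of_nonneg_right h5 (pow_nonneg (by positivity) m)) ?_
    rw [← tsum_mul_right]
    refine ((h4 n).mul_right _).tsum_le_tsum (fun y => ?_) (h2 n)
    refine mul_le_mul_of_nonneg_left ?_ (abs_nonneg _)
    refine pow_le_pow_left₀ (by positivity) ?_ m
    linarith [hn n y]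

/-
`∑_n |c_n| (n+1)^m ≤ ∑_x |R x| (1 + nrm x)^m` (Fubini for summable families, `n = x.1 ≥ 0`).
-/
lemma cax_rap {R : V → ℝ} (h : Fast R) (b : ℝ) : Rap (cax R b) := by
  refine rap_aux h (fun z => ((z.1 : ℤ), z.2)) ?_ ?_ (fun _ y => Real.cos (b * y)) ?_
  · rintro ⟨n, y⟩ ⟨n', y'⟩ hz
    simp only [Prod.mk.injEq, Nat.cast_inj] at hz
    ext
    · exact hz.1
    · exact hz.2
  · intro n y
    unfold nrm
    simp only [Int.cast_natCast]
    have := le_abs_self (n : ℝ)
    have := abs_nonneg (y : ℝ)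
    linarith
  · intro n y
    exact Real.abs_cos_le_one _

/-
Same with `n = x.1 + x.2 ≤ nrm x`.
-/
lemma cdg_rap {R : V → ℝ} (h : Fast R) (p : ℝ) : Rap (cdg R p) := by
  refine rap_aux h (fun z => (z.2, (z.1 : ℤ) - z.2)) ?_ ?_
    (fun n y => Real.cos (p * (2 * y - n))) ?_
  · rintro ⟨n, y⟩ ⟨n', y'⟩ hz
    simp only [Prod.mk.injEq] at hz
    ext
    · simp only
      omega
    · exact hz.1
  · intro n y
    unfold nrm
    simp only [Int.cast_sub, Int.cast_natCast]
    have h1 := le_abs_self (n : ℝ)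
    have h2 := abs_add_le (y : ℝ) ((n : ℝ) - y)
    have h3 : (y : ℝ) + ((n : ℝ) - y) = n := by ring
    rw [h3] at h2
    linarith
  · intro n y
    exact Real.abs_cos_le_one _

private lemma cdg_wt (d : ℤ) :
    Tendsto (fun M : ℕ => (#((Icc (-(M : ℤ)) M).filter (fun m => m - d ∈ Icc (-(M : ℤ)) M)) : ℝ) /
      (2 * M + 1)) atTop (𝓝 1) := by
  have hlow : ∀ M : ℕ, 1 - 2 * |(d : ℝ)| * (1 / ((M : ℝ) + 1)) ≤
      (#((Icc (-(M : ℤ)) M).filter (fun m => m - d ∈ Icc (-(M : ℤ)) M)) : ℝ) / (2 * M + 1) := by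
    intro M
    have hM : (0 : ℝ) ≤ M := Nat.cast_nonneg M
    have hsub : Icc (-(M : ℤ) + |d|) (M - |d|) ⊆
        (Icc (-(M : ℤ)) M).filter (fun m => m - d ∈ Icc (-(M : ℤ)) M) := by
      intro m hm
      rw [mem_Icc] at hm
      have h1 := le_abs_self d
      have h2 := neg_abs_le d
      have h3 := abs_nonneg d
      rw [mem_filter, mem_Icc, mem_Icc]
      omega
    have hc := card_le_card hsub
    rw [Int.card_Icc] at hc
    have hc2 : ((2 * M + 1 - 2 * |d| : ℤ)) ≤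
        (#((Icc (-(M : ℤ)) M).filter (fun m => m - d ∈ Icc (-(M : ℤ)) M)) : ℤ) := by
      omega
    have hc3 : (2 * (M : ℝ) + 1 - 2 * |(d : ℝ)|) ≤
        (#((Icc (-(M : ℤ)) M).filter (fun m => m - d ∈ Icc (-(M : ℤ)) M)) : ℝ) := by
      exact_mod_cast hc2
    have hp : (0 : ℝ) < 2 * M + 1 := by positivity
    rw [le_div_iff₀ hp]
    refine le_trans ?_ hc3
    have hd : (0 : ℝ) ≤ |(d : ℝ)| := abs_nonneg _
    have h4 : 1 ≤ 1 / ((M : ℝ) + 1) * (2 * M + 1) := by
      rw [one_div, inv_mul_eq_div, le_div_iff₀ (by positivity)]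
      linarith
    nlinarith [mul_le_mul_of_nonneg_left h4 (by positivity : (0 : ℝ) ≤ 2 * |(d : ℝ)|)]
  have hup : ∀ M : ℕ, (#((Icc (-(M : ℤ)) M).filter (fun m => m - d ∈ Icc (-(M : ℤ)) M)) : ℝ) /
      (2 * M + 1) ≤ 1 := by
    intro M
    have hM : (0 : ℝ) ≤ M := Nat.cast_nonneg M
    have hp : (0 : ℝ) < 2 * M + 1 := by positivity
    rw [div_le_iff₀ hp]
    have hc := card_filter_le (Icc (-(M : ℤ)) M) (fun m => m - d ∈ Icc (-(M : ℤ)) M)
    rw [Int.card_Icc] at hc
    have hc2 : (#((Icc (-(M : ℤ)) M).filter (fun m => m - d ∈ Icc (-(M : ℤ)) M)) : ℤ) ≤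
        2 * M + 1 := by omega
    have hc3 : (#((Icc (-(M : ℤ)) M).filter (fun m => m - d ∈ Icc (-(M : ℤ)) M)) : ℝ) ≤
        2 * M + 1 := by exact_mod_cast hc2
    linarith
  have hl : Tendsto (fun M : ℕ => 1 - 2 * |(d : ℝ)| * (1 / ((M : ℝ) + 1))) atTop (𝓝 1) := by
    have h := (tendsto_one_div_add_atTop_nhds_zero_nat (𝕜 := ℝ)).const_mul (2 * |(d : ℝ)|)
    have h2 := h.const_sub 1
    simpa using h2
  exact tendsto_of_tendsto_of_tendsto_of_le_of_le hl tendsto_const_nhds hlow hup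

private lemma cdg_box (F : ℤ → ℝ) (j : ℤ) (M : ℕ) :
    ∑ m ∈ Icc (-(M : ℤ)) M, ∑ m' ∈ Icc (-(M : ℤ)) M, F (m - m' + j) =
      ∑' k : ℤ, (#((Icc (-(M : ℤ)) M).filter (fun m => m - (k - j) ∈ Icc (-(M : ℤ)) M)) : ℝ) *
        F k := by
  set I := Icc (-(M : ℤ)) M with hI
  have h1 : ∀ m : ℤ, HasSum (fun k : ℤ => if m - (k - j) ∈ I then F k else 0)
      (∑ m' ∈ I, F (m - m' + j)) := by
    intro m
    have hs : HasSum (fun m' : ℤ => if m' ∈ I then F (m - m' + j) else 0)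
        (∑ m' ∈ I, (if m' ∈ I then F (m - m' + j) else 0)) :=
      hasSum_sum_of_ne_finset_zero (fun b hb => by simp [hb])
    have hs2 : ∑ m' ∈ I, (if m' ∈ I then F (m - m' + j) else 0) = ∑ m' ∈ I, F (m - m' + j) :=
      sum_congr rfl (fun m' hm' => by simp [hm'])
    rw [hs2] at hs
    let e : ℤ ≃ ℤ := ⟨fun k => m - (k - j), fun k => m - (k - j), fun k => by ring, fun k => by ring⟩
    have h := (Equiv.hasSum_iff e).2 hs
    convert h using 2 with k
    simp only [e, Function.comp, Equiv.coe_fn_mk]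
    congr 2
    ring
  have h2 := hasSum_sum (f := fun m k => if m - (k - j) ∈ I then F k else 0)
    (a := fun m => ∑ m' ∈ I, F (m - m' + j)) (s := I) (fun m _ => h1 m)
  rw [← h2.tsum_eq]
  refine tsum_congr fun k => ?_
  rw [← sum_filter, sum_const, nsmul_eq_mul]

private lemma cdg_avg {F : ℤ → ℝ} (hF : Summable F) (j : ℤ) :
    Tendsto (fun M : ℕ => (∑ m ∈ Icc (-(M : ℤ)) M, ∑ m' ∈ Icc (-(M : ℤ)) M, F (m - m' + j)) /
      (2 * M + 1)) atTop (𝓝 (∑' k : ℤ, F k)) := by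
  have h0 : ∀ M : ℕ, (∑ m ∈ Icc (-(M : ℤ)) M, ∑ m' ∈ Icc (-(M : ℤ)) M, F (m - m' + j)) /
      (2 * M + 1) = ∑' k : ℤ,
        (#((Icc (-(M : ℤ)) M).filter (fun m => m - (k - j) ∈ Icc (-(M : ℤ)) M)) : ℝ) /
          (2 * M + 1) * F k := by
    intro M
    rw [cdg_box, ← tsum_div_const]
    refine tsum_congr fun k => ?_
    ring
  simp_rw [h0]
  refine tendsto_tsum_of_dominated_convergence (bound := fun k => ‖F k‖) hF.norm ?_ ?_
  · intro k
    have h := (cdg_wt (k - j)).mul_const (F k)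
    rwa [one_mul] at h
  · refine Eventually.of_forall fun M k => ?_
    have hM : (0 : ℝ) ≤ M := Nat.cast_nonneg M
    have hp : (0 : ℝ) < 2 * M + 1 := by positivity
    have hc := card_filter_le (Icc (-(M : ℤ)) M) (fun m => m - (k - j) ∈ Icc (-(M : ℤ)) M)
    rw [Int.card_Icc] at hc
    have hc2 : (#((Icc (-(M : ℤ)) M).filter (fun m => m - (k - j) ∈ Icc (-(M : ℤ)) M)) : ℤ) ≤
        2 * M + 1 := by omega
    have hc3 : (#((Icc (-(M : ℤ)) M).filter (fun m => m - (k - j) ∈ Icc (-(M : ℤ)) M)) : ℝ) ≤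
        2 * M + 1 := by exact_mod_cast hc2
    rw [norm_mul]
    refine mul_le_of_le_one_left (norm_nonneg _) ?_
    rw [Real.norm_of_nonneg (by positivity), div_le_iff₀ hp]
    linarith

private lemma cdg_summ {R : V → ℝ} (h : Fast R) (p : ℝ) (n : ℕ) :
    Summable (fun m : ℤ => R (m, (n : ℤ) - m) * Real.cos (p * (2 * m - n))) := by
  have h0 := h 0
  simp only [pow_zero, mul_one] at h0
  have hi : Function.Injective (fun m : ℤ => ((m, (n : ℤ) - m) : V)) := by
    intro a b hab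
    exact congrArg Prod.fst hab
  have h1 := h0.comp_injective hi
  refine Summable.of_norm_bounded h1 ?_
  intro m
  rw [norm_mul, Real.norm_eq_abs, Real.norm_eq_abs]
  exact mul_le_of_le_one_right (abs_nonneg _) (Real.abs_cos_le_one _)

private lemma cdg_nn {R : V → ℝ} (hR : RPd R) (N : ℕ) (f : ℕ → ℝ) (g : ℤ → ℝ) (M : ℕ) :
    0 ≤ ∑ i ∈ range N, ∑ j ∈ range N, ∑ m ∈ Icc (-(M : ℤ)) M, ∑ m' ∈ Icc (-(M : ℤ)) M,
      (f i * g (2 * m - i)) * (f j * g (2 * m' - j)) *
        R (m + ((j : ℤ) - m'), ((i : ℤ) - m) + m') := by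
  set I := Icc (-(M : ℤ)) M with hI
  let φ : ℕ × ℤ → V := fun x => (x.2, (x.1 : ℤ) - x.2)
  have hφ : Function.Injective φ := by
    rintro ⟨a, b⟩ ⟨a', b'⟩ h
    simp only [φ, Prod.mk.injEq] at h
    ext
    · simp only
      omega
    · exact h.1
  have h := hR ((range N ×ˢ I).image φ) (fun x => f (x.1 + x.2).toNat * g (x.1 - x.2)) (by
    intro x hx
    rw [mem_image] at hx
    obtain ⟨⟨a, b⟩, _, rfl⟩ := hx
    simp only [φ]
    omega)
  rw [sum_image (fun a _ b _ hab => hφ hab)] at h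
  simp_rw [sum_image (fun a _ b _ hab => hφ hab)] at h
  rw [sum_product] at h
  simp_rw [sum_product] at h
  refine h.trans_eq ?_
  refine sum_congr rfl fun i _ => ?_
  rw [sum_comm]
  refine sum_congr rfl fun j _ => ?_
  refine sum_congr rfl fun m _ => ?_
  refine sum_congr rfl fun m' _ => ?_
  simp only [φ]
  have e1 : (m + ((i : ℤ) - m)).toNat = i := by omega
  have e2 : (m' + ((j : ℤ) - m')).toNat = j := by omega
  have e3 : m - ((i : ℤ) - m) = 2 * m - i := by ring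
  have e4 : m' - ((j : ℤ) - m') = 2 * m' - j := by ring
  rw [e1, e2, e3, e4]

/-
Same with `RPd`, the set `{x : 0 ≤ x.1 + x.2 < N, |x.1 - x.2| ≤ M}` and the functions
`f_{x.1+x.2} cos (p (x.1 - x.2))`, `f_{x.1+x.2} sin (p (x.1 - x.2))`:
`x.1 + y.2 + (x.2 + y.1) = s + s'`, `(x.1 + y.2) - (x.2 + y.1) = t - t'` for `s = x.1 + x.2`, `t = x.1 - x.2`.
For given `s, s'` the number of pairs `(t, t')`, `t ≡ s`, `t' ≡ s'`, `|t|, |t'| ≤ M`, `t - t' = d`
(`d ≡ s + s'` mod 2) is `M + O(|d| + 1)`; divide by `M` and let `M → ∞`.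
-/
lemma cdg_hp {R : V → ℝ} (h : Fast R) (hR : RP R) (p : ℝ) : HP (cdg R p) := by
  intro N f
  have hlim : Tendsto (fun M : ℕ => ∑ i ∈ range N, ∑ j ∈ range N, f i * f j *
      ((∑ m ∈ Icc (-(M : ℤ)) M, ∑ m' ∈ Icc (-(M : ℤ)) M,
        (fun k : ℤ => R (k, ((i + j : ℕ) : ℤ) - k) * Real.cos (p * (2 * k - (i + j : ℕ))))
          (m - m' + j)) / (2 * M + 1))) atTop
      (𝓝 (∑ i ∈ range N, ∑ j ∈ range N, f i * f j * cdg R p (i + j))) := by
    refine tendsto_finsetSum _ fun i _ => tendsto_finsetSum _ fun j _ => ?_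
    exact (cdg_avg (cdg_summ h p (i + j)) j).const_mul _
  refine ge_of_tendsto' hlim fun M => ?_
  have hM : (0 : ℝ) ≤ M := Nat.cast_nonneg M
  have hp : (0 : ℝ) < 2 * M + 1 := by positivity
  have h1 := cdg_nn hR.rpd N f (fun t => Real.cos (p * t)) M
  have h2 := cdg_nn hR.rpd N f (fun t => Real.sin (p * t)) M
  have h3 := div_nonneg (add_nonneg h1 h2) hp.le
  refine h3.trans_eq ?_
  simp only [← sum_add_distrib]
  rw [sum_div]
  refine sum_congr rfl fun i _ => ?_
  rw [sum_div]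
  refine sum_congr rfl fun j _ => ?_
  rw [sum_div, sum_div, mul_sum]
  refine sum_congr rfl fun m _ => ?_
  rw [sum_div, sum_div, mul_sum]
  refine sum_congr rfl fun m' _ => ?_
  have e1 : ((m + ((j : ℤ) - m'), ((i : ℤ) - m) + m') : V) =
      (m - m' + j, ((i + j : ℕ) : ℤ) - (m - m' + j)) := by
    push_cast
    ext <;> simp only <;> ring
  have e2 : p * (2 * ((m - m' + j : ℤ) : ℝ) - ((i + j : ℕ) : ℝ)) =
      p * ((2 * m - i : ℤ) : ℝ) - p * ((2 * m' - j : ℤ) : ℝ) := by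
    push_cast
    ring
  rw [e1, e2, Real.cos_sub]
  ring

/-
For `M : ℕ` apply `RP1` to the box `s = {(i, y) : 0 ≤ i < N, |y| ≤ M}` and to the two functions
`f_i cos (b y)`, `f_i sin (b y)`; add: `0 ≤ ∑_{i,j} f_i f_j ∑_{|y|,|y'| ≤ M} cos (b (y - y')) R (i + j, y - y')`.
Divide by `2M+1` and let `M → ∞`: `(2M+1)⁻¹ ∑_{|y|,|y'| ≤ M} F (y - y') → ∑' F` for a summable `F : ℤ → ℝ`
(the number of pairs with difference `d` is `2M+1-|d|` for `|d| ≤ 2M`; dominated convergence).
-/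
private lemma cax_summ {R : V → ℝ} (h : Fast R) (b : ℝ) (n : ℕ) :
    Summable (fun y : ℤ => R ((n : ℤ), y) * Real.cos (b * y)) := by
  have h0 := h 0
  simp only [pow_zero, mul_one] at h0
  have hi : Function.Injective (fun y : ℤ => (((n : ℤ), y) : V)) := by
    intro a b hab
    exact congrArg Prod.snd hab
  have h1 := h0.comp_injective hi
  refine Summable.of_norm_bounded h1 ?_
  intro m
  rw [norm_mul, Real.norm_eq_abs, Real.norm_eq_abs]
  exact mul_le_of_le_one_right (abs_nonneg _) (Real.abs_cos_le_one _)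

private lemma cax_nn {R : V → ℝ} (hR : RP1 R) (N : ℕ) (f : ℕ → ℝ) (g : ℤ → ℝ) (M : ℕ) :
    0 ≤ ∑ i ∈ range N, ∑ j ∈ range N, ∑ m ∈ Icc (-(M : ℤ)) M, ∑ m' ∈ Icc (-(M : ℤ)) M,
      (f i * g m) * (f j * g m') * R ((i : ℤ) + j, m - m') := by
  set I := Icc (-(M : ℤ)) M with hI
  let φ : ℕ × ℤ → V := fun x => ((x.1 : ℤ), x.2)
  have hφ : Function.Injective φ := by
    rintro ⟨a, b⟩ ⟨a', b'⟩ h
    simp only [φ, Prod.mk.injEq, Nat.cast_inj] at h
    ext
    · exact h.1
    · exact h.2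
  have h := hR ((range N ×ˢ I).image φ) (fun x => f x.1.toNat * g x.2) (by
    intro x hx
    rw [mem_image] at hx
    obtain ⟨⟨a, b⟩, _, rfl⟩ := hx
    simp only [φ]
    omega)
  rw [sum_image (fun a _ b _ hab => hφ hab)] at h
  simp_rw [sum_image (fun a _ b _ hab => hφ hab)] at h
  rw [sum_product] at h
  simp_rw [sum_product] at h
  refine h.trans_eq ?_
  refine sum_congr rfl fun i _ => ?_
  rw [sum_comm]
  refine sum_congr rfl fun j _ => ?_
  refine sum_congr rfl fun m _ => ?_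
  refine sum_congr rfl fun m' _ => ?_
  simp only [φ, Int.toNat_natCast]

lemma cax_hp {R : V → ℝ} (h : Fast R) (hR : RP R) (b : ℝ) : HP (cax R b) := by
  intro N f
  have hlim : Tendsto (fun M : ℕ => ∑ i ∈ range N, ∑ j ∈ range N, f i * f j *
      ((∑ m ∈ Icc (-(M : ℤ)) M, ∑ m' ∈ Icc (-(M : ℤ)) M,
        (fun k : ℤ => R (((i + j : ℕ) : ℤ), k) * Real.cos (b * k))
          (m - m' + 0)) / (2 * M + 1))) atTop
      (𝓝 (∑ i ∈ range N, ∑ j ∈ range N, f i * f j * cax R b (i + j))) := by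
    refine tendsto_finsetSum _ fun i _ => tendsto_finsetSum _ fun j _ => ?_
    exact (cdg_avg (cax_summ h b (i + j)) 0).const_mul _
  refine ge_of_tendsto' hlim fun M => ?_
  have hM : (0 : ℝ) ≤ M := Nat.cast_nonneg M
  have hp : (0 : ℝ) < 2 * M + 1 := by positivity
  have h1 := cax_nn hR.rp1 N f (fun t => Real.cos (b * t)) M
  have h2 := cax_nn hR.rp1 N f (fun t => Real.sin (b * t)) M
  have h3 := div_nonneg (add_nonneg h1 h2) hp.le
  refine h3.trans_eq ?_
  simp only [← sum_add_distrib]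
  rw [sum_div]
  refine sum_congr rfl fun i _ => ?_
  rw [sum_div]
  refine sum_congr rfl fun j _ => ?_
  rw [sum_div, sum_div, mul_sum]
  refine sum_congr rfl fun m _ => ?_
  rw [sum_div, sum_div, mul_sum]
  refine sum_congr rfl fun m' _ => ?_
  have e1 : (((i : ℤ) + j, m - m') : V) = (((i + j : ℕ) : ℤ), m - m' + 0) := by
    push_cast
    ext <;> simp only <;> ring
  have e2 : b * ((m - m' + 0 : ℤ) : ℝ) = b * (m : ℝ) - b * (m' : ℝ) := by
    push_cast
    ring
  rw [e1, e2, Real.cos_sub]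
  ring

/-
Sum over `x.1 = n ∈ ℤ`, `R (-n, y) = R (n, y)`, and `n ↔ -n`.
-/
private lemma B03d_summ {R : V → ℝ} (h : Fast R) (g : V → ℝ) (hg : ∀ x, |g x| ≤ 1) :
    Summable (fun x : V => R x * g x) := by
  refine Summable.of_norm_bounded h.summable.abs fun x => ?_
  rw [norm_mul, Real.norm_eq_abs, Real.norm_eq_abs]
  exact mul_le_of_le_one_right (abs_nonneg _) (hg x)

private lemma B03d_cos (a b : ℝ) : |Real.cos a * Real.cos b| ≤ 1 := by
  rw [abs_mul]
  exact mul_le_one₀ (Real.abs_cos_le_one _) (abs_nonneg _) (Real.abs_cos_le_one _)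

private lemma B03d_sin (a b : ℝ) : |Real.sin a * Real.sin b| ≤ 1 := by
  rw [abs_mul]
  exact mul_le_one₀ (Real.abs_sin_le_one _) (abs_nonneg _) (Real.abs_sin_le_one _)

private lemma B03d_even {F : ℤ → ℝ} (hF : Summable F) (hev : ∀ n, F (-n) = F n) :
    ∑' n : ℤ, F n = F 0 + 2 * ∑' n : ℕ, F ((n : ℤ) + 1) := by
  have h1 := tsum_of_nat_of_neg_add_one (f := F) ?_ ?_
  · rw [h1]
    have h2 : ∑' n : ℕ, F (-((n : ℤ) + 1)) = ∑' n : ℕ, F ((n : ℤ) + 1) :=
      tsum_congr fun n => hev _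
    have h3 : Summable (fun n : ℕ => F (n : ℤ)) :=
      hF.comp_injective Nat.cast_injective
    have h4 := h3.tsum_eq_zero_add
    rw [h2, h4]
    push_cast
    ring
  · exact hF.comp_injective Nat.cast_injective
  · refine hF.comp_injective (i := fun n : ℕ => -((n : ℤ) + 1)) fun a b hab => ?_
    simp only at hab
    omega

lemma ft_eq_cax {R : V → ℝ} (h : Fast R) (hs : Sym4 R) (a b : ℝ) :
    ft R a b = csum (cax R b) a := by
  have hS := B03d_summ h (fun x => Real.cos (a * x.1) * Real.cos (b * x.2))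
    (fun x => B03d_cos _ _)
  unfold ft csum
  rw [hS.tsum_prod]
  have h1 : ∀ n : ℤ, ∑' y : ℤ, R (n, y) * (Real.cos (a * n) * Real.cos (b * y)) =
      Real.cos (a * n) * ∑' y : ℤ, R (n, y) * Real.cos (b * y) := by
    intro n
    rw [← tsum_mul_left]
    exact tsum_congr fun y => by ring
  have hS1 := hS.prod
  have h2 := B03d_even hS1 (by
    intro n
    refine tsum_congr fun y => ?_
    simp only
    rw [hs.neg1]
    push_cast
    rw [mul_neg, Real.cos_neg])
  refine h2.trans ?_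
  congr 1
  · refine (h1 0).trans ?_
    simp [cax]
  · congr 1
    refine tsum_congr fun n => ?_
    refine (h1 _).trans ?_
    rw [mul_comm, cax]
    push_cast
    rw [mul_comm a]

/-
`cos (a x₁) cos (b x₂)` summed against `R` (invariant under both sign changes) is the sum of
`cos (a x₁ + b x₂)`; with `a = p + q`, `b = p - q`: `a x₁ + b x₂ = p (x₁ + x₂) + q (x₁ - x₂)`; replace `x₂` by `-x₂`:
`p (x₁ - x₂) + q (x₁ + x₂)`; by the symmetry `x ↦ (x₂, x₁)` this is the sum of `R x cos (p (x₁-x₂)) cos (q (x₁+x₂))`;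
group by `n = x₁ + x₂ ∈ ℤ` (`n ↔ -n` by `x ↦ -x`).
-/
private lemma B03d_sinsum {R : V → ℝ} (hs : Sym4 R) (a b : ℝ) :
    ∑' x : V, R x * (Real.sin (a * x.1) * Real.sin (b * x.2)) = 0 := by
  let e : V ≃ V := ⟨fun x => (-x.1, x.2), fun x => (-x.1, x.2), fun x => by simp, fun x => by simp⟩
  have h1 := e.tsum_eq (fun x : V => R x * (Real.sin (a * x.1) * Real.sin (b * x.2)))
  have h2 : ∀ x : V, R (e x) * (Real.sin (a * (e x).1) * Real.sin (b * (e x).2)) =
      -(R x * (Real.sin (a * x.1) * Real.sin (b * x.2))) := by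
    rintro ⟨x, y⟩
    show R (-x, y) * (Real.sin (a * ((-x : ℤ) : ℝ)) * Real.sin (b * y)) = _
    rw [hs.neg1]
    push_cast
    rw [mul_neg, Real.sin_neg]
    ring
  rw [tsum_congr h2, tsum_neg] at h1
  linarith

private lemma B03d_swap {R : V → ℝ} (hs : Sym4 R) (a b : ℝ) : ft R a b = ft R b a := by
  unfold ft
  rw [← (Equiv.prodComm ℤ ℤ).tsum_eq]
  refine tsum_congr fun x => ?_
  rcases x with ⟨x, y⟩
  show R (y, x) * (Real.cos (a * y) * Real.cos (b * x)) = _
  rw [hs.swap, mul_comm (Real.cos (a * y))]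

lemma ft_eq_cdg {R : V → ℝ} (h : Fast R) (hs : Sym4 R) (p q : ℝ) :
    ft R (p + q) (p - q) = csum (cdg R p) q := by
  -- the sum in the rotated coordinates
  have hkey : ft R (p + q) (p - q) = ∑' x : V, R x *
      (Real.cos (p * (x.1 - x.2)) * Real.cos (q * (x.1 + x.2))) := by
    have c1 := B03d_summ h (fun x => Real.cos ((p + q) * x.1) * Real.cos ((p - q) * x.2))
      (fun x => B03d_cos _ _)
    have c2 := B03d_summ h (fun x => Real.sin ((p + q) * x.1) * Real.sin ((p - q) * x.2))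
      (fun x => B03d_sin _ _)
    have c3 := B03d_summ h (fun x => Real.cos ((p - q) * x.1) * Real.cos ((p + q) * x.2))
      (fun x => B03d_cos _ _)
    have c4 := B03d_summ h (fun x => Real.sin ((p - q) * x.1) * Real.sin ((p + q) * x.2))
      (fun x => B03d_sin _ _)
    have e : ∀ x : V, R x * (Real.cos (p * (x.1 - x.2)) * Real.cos (q * (x.1 + x.2))) =
        1 / 2 * ((R x * (Real.cos ((p + q) * x.1) * Real.cos ((p - q) * x.2)) +
          R x * (Real.sin ((p + q) * x.1) * Real.sin ((p - q) * x.2))) +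
          (R x * (Real.cos ((p - q) * x.1) * Real.cos ((p + q) * x.2)) +
          R x * (Real.sin ((p - q) * x.1) * Real.sin ((p + q) * x.2)))) := by
      intro x
      have e1 : Real.cos (p * (x.1 - x.2)) * Real.cos (q * (x.1 + x.2)) =
          1 / 2 * (Real.cos (p * (x.1 - x.2) + q * (x.1 + x.2)) +
            Real.cos (p * (x.1 - x.2) - q * (x.1 + x.2))) := by
        rw [Real.cos_add, Real.cos_sub]
        ring
      have e2 : p * ((x.1 : ℝ) - x.2) + q * (x.1 + x.2) = (p + q) * x.1 - (p - q) * x.2 := by ring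
      have e3 : p * ((x.1 : ℝ) - x.2) - q * (x.1 + x.2) = (p - q) * x.1 - (p + q) * x.2 := by ring
      rw [e1, e2, e3, Real.cos_sub, Real.cos_sub]
      ring
    rw [tsum_congr e, tsum_mul_left, (c1.add c2).tsum_add (c3.add c4), c1.tsum_add c2,
      c3.tsum_add c4, B03d_sinsum hs, B03d_sinsum hs]
    have e5 : ∑' x : V, R x * (Real.cos ((p - q) * x.1) * Real.cos ((p + q) * x.2)) =
        ft R (p + q) (p - q) := (B03d_swap hs (p + q) (p - q)).symm
    rw [e5]
    unfold ft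
    ring
  rw [hkey]
  let e : V ≃ V := ⟨fun x => (x.2, x.1 - x.2), fun x => (x.1 + x.2, x.1), fun x => by
    ext <;> simp, fun x => by ext <;> simp⟩
  have hS := B03d_summ h (fun x => Real.cos (p * (x.1 - x.2)) * Real.cos (q * (x.1 + x.2)))
    (fun x => B03d_cos _ _)
  rw [← e.tsum_eq]
  have hS' : Summable (fun x : V => R (e x) *
      (Real.cos (p * ((e x).1 - (e x).2)) * Real.cos (q * ((e x).1 + (e x).2)))) :=
    (e.summable_iff (f := fun x : V => R x *
      (Real.cos (p * (x.1 - x.2)) * Real.cos (q * (x.1 + x.2))))).mpr hS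
  rw [hS'.tsum_prod]
  have h1 : ∀ n m : ℤ, R (e (n, m)) *
      (Real.cos (p * ((e (n, m)).1 - (e (n, m)).2)) * Real.cos (q * ((e (n, m)).1 + (e (n, m)).2)))
        = Real.cos (q * n) * (R (m, n - m) * Real.cos (p * (2 * m - n))) := by
    intro n m
    show R (m, n - m) * (Real.cos (p * ((m : ℝ) - ((n - m : ℤ) : ℝ))) *
      Real.cos (q * ((m : ℝ) + ((n - m : ℤ) : ℝ)))) = _
    push_cast
    have e1 : (m : ℝ) - (n - m) = 2 * m - n := by ring
    have e2 : (m : ℝ) + (n - m) = n := by ring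
    rw [e1, e2]
    ring
  have h3 : ∀ n : ℤ, ∑' m : ℤ, R (e (n, m)) *
      (Real.cos (p * ((e (n, m)).1 - (e (n, m)).2)) * Real.cos (q * ((e (n, m)).1 + (e (n, m)).2)))
        = Real.cos (q * n) * ∑' m : ℤ, R (m, n - m) * Real.cos (p * (2 * m - n)) := by
    intro n
    rw [← tsum_mul_left]
    exact tsum_congr fun m => h1 n m
  have hneg2 : ∀ a b : ℤ, R (a, -b) = R (a, b) := by
    intro a b
    rw [hs.swap, hs.neg1, hs.swap]
  have h2 := B03d_even hS'.prod (by
    intro n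
    simp only [h3]
    push_cast
    rw [mul_neg, Real.cos_neg]
    congr 1
    rw [← (Equiv.neg ℤ).tsum_eq]
    refine tsum_congr fun m => ?_
    show R (-m, -n - -m) * Real.cos (p * (2 * ((-m : ℤ) : ℝ) - -n)) = _
    have e1 : -n - -m = -(n - m) := by ring
    have e2 : p * (2 * ((-m : ℤ) : ℝ) - -n) = -(p * (2 * m - n)) := by
      push_cast
      ring
    rw [hs.neg1, e1, hneg2, e2, Real.cos_neg])
  refine h2.trans ?_
  unfold csum
  congr 1
  · rw [h3, cdg]
    simp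
  · congr 1
    refine tsum_congr fun n => ?_
    rw [h3, mul_comm, cdg]
    push_cast
    rw [mul_comm q]

end RP4
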