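import Pool.Agent.Helper97.RP4.Defs

/-!
B04.  Products of reflection positive functions.
-/

open Finset Filter
open scoped Topology

namespace RP4

private lemma b04_psd {s : Finset V} {k : V → V → ℝ} (hk : ∀ x ∈ s, ∀ y ∈ s, k x y = k y x)
    (pk : ∀ f : V → ℝ, 0 ≤ ∑ x ∈ s, ∑ y ∈ s, f x * f y * k x y) :
    (Matrix.of (fun x y : s => k x y)).PosSemidef := by
  classical
  rw [Matrix.posSemidef_iff_dotProduct_mulVec]
  refine ⟨?_, fun g => ?_⟩
  · ext x y
    simp only [Matrix.conjTranspose_apply, Matrix.of_apply, star_trivial]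
    exact hk _ y.2 _ x.2
  · have h1 := pk (fun v => if h : v ∈ s then g ⟨v, h⟩ else 0)
    refine h1.trans_eq ?_
    simp only [dotProduct, Matrix.mulVec, Pi.star_apply, star_trivial, Matrix.of_apply]
    rw [← Finset.sum_coe_sort s]
    refine Finset.sum_congr rfl fun x _ => ?_
    rw [← Finset.sum_coe_sort s, Finset.mul_sum]
    refine Finset.sum_congr rfl fun y _ => ?_
    simp only [Finset.coe_mem, dite_true, Subtype.coe_eta]
    ring

/-
Schur product theorem in quadratic form version.  For a finite set `s` the matrix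
`K x y = k x y` (`x y : s`) is symmetric (`hk`) and positive semidefinite; `Matrix.PosSemidef.hadamard`
(Mathlib.Analysis.Matrix.Order, `𝕜 = ℝ`).
-/
lemma schur {s : Finset V} {k l : V → V → ℝ} (hk : ∀ x ∈ s, ∀ y ∈ s, k x y = k y x)
    (hl : ∀ x ∈ s, ∀ y ∈ s, l x y = l y x)
    (pk : ∀ f : V → ℝ, 0 ≤ ∑ x ∈ s, ∑ y ∈ s, f x * f y * k x y)
    (pl : ∀ f : V → ℝ, 0 ≤ ∑ x ∈ s, ∑ y ∈ s, f x * f y * l x y) (f : V → ℝ) :
    0 ≤ ∑ x ∈ s, ∑ y ∈ s, f x * f y * (k x y * l x y) := by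
  classical
  have h := (b04_psd hk pk).hadamard (b04_psd hl pl)
  rw [Matrix.posSemidef_iff_dotProduct_mulVec] at h
  have h1 := h.2 (fun x : s => f x)
  refine h1.trans_eq ?_
  simp only [dotProduct, Matrix.mulVec, Pi.star_apply, star_trivial, Matrix.hadamard_apply,
    Matrix.of_apply]
  rw [← Finset.sum_coe_sort s (fun x => ∑ y ∈ s, f x * f y * (k x y * l x y))]
  refine Finset.sum_congr rfl fun x _ => ?_
  rw [← Finset.sum_coe_sort s (fun y => f x * f y * (k x y * l x y)), Finset.mul_sum]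
  refine Finset.sum_congr rfl fun y _ => ?_
  ring

/-
The kernels `R (x.1 + y.1, x.2 - y.2)` and `R (x.1 + y.2, x.2 + y.1)` are symmetric by `Sym4`
(for the second one: `(x.1+y.2, x.2+y.1)` and `(y.1+x.2, y.2+x.1)` are exchanged by the swap).
-/
theorem RP.mul {R Q : V → ℝ} (hR : RP R) (hQ : RP Q) : RP (fun x => R x * Q x) := by
  refine ⟨⟨fun a b => ?_, fun a b => ?_⟩, fun s f hs => ?_, fun s f hs => ?_⟩
  · show R (-a, b) * Q (-a, b) = R (a, b) * Q (a, b)
    rw [hR.sym.neg1, hQ.sym.neg1]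
  · show R (b, a) * Q (b, a) = R (a, b) * Q (a, b)
    rw [hR.sym.swap, hQ.sym.swap]
  · have key : ∀ {P : V → ℝ}, RP P → ∀ x ∈ s, ∀ y ∈ s,
        P (x.1 + y.1, x.2 - y.2) = P (y.1 + x.1, y.2 - x.2) := by
      intro P hP x _ y _
      rw [add_comm x.1 y.1, ← hP.sym.neg2 (y.1 + x.1) (y.2 - x.2), neg_sub]
    exact schur (k := fun x y => R (x.1 + y.1, x.2 - y.2))
      (l := fun x y => Q (x.1 + y.1, x.2 - y.2)) (key hR) (key hQ)
      (fun g => hR.rp1 s g hs) (fun g => hQ.rp1 s g hs) f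
  · have key : ∀ {P : V → ℝ}, RP P → ∀ x ∈ s, ∀ y ∈ s,
        P (x.1 + y.2, x.2 + y.1) = P (y.1 + x.2, y.2 + x.1) := by
      intro P hP x _ y _
      rw [← hP.sym.swap (x.1 + y.2) (x.2 + y.1), add_comm x.2 y.1, add_comm x.1 y.2]
    exact schur (k := fun x y => R (x.1 + y.2, x.2 + y.1))
      (l := fun x y => Q (x.1 + y.2, x.2 + y.1)) (key hR) (key hQ)
      (fun g => hR.rpd s g hs) (fun g => hQ.rpd s g hs) f

lemma Fast.mul_bdd {R Q : V → ℝ} (hR : ∀ x, |R x| ≤ 1) (hQ : Fast Q) :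
    Fast (fun x => R x * Q x) := by
  intro m
  refine Summable.of_nonneg_of_le (fun x => ?_) (fun x => ?_) (hQ m)
  · have h1 : 0 ≤ nrm x := add_nonneg (abs_nonneg _) (abs_nonneg _)
    positivity
  · have h1 : 0 ≤ nrm x := add_nonneg (abs_nonneg _) (abs_nonneg _)
    show |R x * Q x| * (1 + nrm x) ^ m ≤ |Q x| * (1 + nrm x) ^ m
    rw [abs_mul]
    have h2 : 0 ≤ (1 + nrm x) ^ m := by positivity
    have h3 : |R x| * |Q x| ≤ 1 * |Q x| := mul_le_mul_of_nonneg_right (hR x) (abs_nonneg _)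
    rw [one_mul] at h3
    exact mul_le_mul_of_nonneg_right h3 h2

end RP4
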