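import Pool.Agent.Helper97.RP4.Defs

/-!
B05.  Parseval.
-/

open Finset Filter MeasureTheory
open scoped Topology

namespace RP4

lemma ft_continuous {R : V → ℝ} (h : Summable R) :
    Continuous (fun k : ℝ × ℝ => ft R k.1 k.2) := by
  unfold ft
  refine continuous_tsum (u := fun x => |R x|) (fun x => by fun_prop) h.abs (fun x k => ?_)
  rw [Real.norm_eq_abs, abs_mul, abs_mul]
  have h1 := Real.abs_cos_le_one (k.1 * x.1)
  have h2 := Real.abs_cos_le_one (k.2 * x.2)
  have h3 : |Real.cos (k.1 * x.1)| * |Real.cos (k.2 * x.2)| ≤ 1 :=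
    mul_le_one₀ h1 (abs_nonneg _) h2
  calc |R x| * (|Real.cos (k.1 * x.1)| * |Real.cos (k.2 * x.2)|) ≤ |R x| * 1 :=
        mul_le_mul_of_nonneg_left h3 (abs_nonneg _)
    _ = |R x| := mul_one _

/-
`ch2 s c a b = ∑_{x,y ∈ s} c_x c_y cos (a (x₁-y₁) + b (x₂-y₂))`
-/
lemma ch2_eq (s : Finset V) (c : V → ℝ) (a b : ℝ) :
    ch2 s c a b = ∑ x ∈ s, ∑ y ∈ s, c x * c y *
      Real.cos (a * ((x.1 : ℝ) - y.1) + b * ((x.2 : ℝ) - y.2)) := by
  unfold ch2
  rw [sq, sq, Finset.sum_mul_sum, Finset.sum_mul_sum, ← Finset.sum_add_distrib]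
  refine Finset.sum_congr rfl (fun x _ => ?_)
  rw [← Finset.sum_add_distrib]
  refine Finset.sum_congr rfl (fun y _ => ?_)
  have h1 : a * ((x.1 : ℝ) - y.1) + b * ((x.2 : ℝ) - y.2) =
      (a * x.1 + b * x.2) - (a * y.1 + b * y.2) := by ring
  rw [h1, Real.cos_sub]
  ring

private lemma int_cos_one (k : ℤ) : ∫ t in (-Real.pi)..Real.pi, Real.cos (k * t) =
    if k = 0 then 2 * Real.pi else 0 := by
  split_ifs with h
  · subst h
    simp
    ring
  · have hk : (k : ℝ) ≠ 0 := by exact_mod_cast h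
    rw [intervalIntegral.integral_comp_mul_left (fun x => Real.cos x) hk, integral_cos,
      mul_neg, Real.sin_neg, Real.sin_int_mul_pi]
    simp

/-
`∫ cos (n t) cos (m t)` over `[-π, π]`.
-/
lemma int_cos (n m : ℤ) : ∫ t in (-Real.pi)..Real.pi, Real.cos (n * t) * Real.cos (m * t) =
    if n = m ∨ n = -m then (if n = 0 then 2 * Real.pi else Real.pi) else 0 := by
  have h1 : ∀ t : ℝ, Real.cos (n * t) * Real.cos (m * t) =
      (1 / 2) * (Real.cos (((n - m : ℤ) : ℝ) * t) + Real.cos (((n + m : ℤ) : ℝ) * t)) := by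
    intro t
    have h2 : ((n - m : ℤ) : ℝ) * t = n * t - m * t := by push_cast; ring
    have h3 : ((n + m : ℤ) : ℝ) * t = n * t + m * t := by push_cast; ring
    rw [h2, h3, Real.cos_sub, Real.cos_add]
    ring
  simp only [h1]
  rw [intervalIntegral.integral_const_mul, intervalIntegral.integral_add
    (by apply Continuous.intervalIntegrable; fun_prop)
    (by apply Continuous.intervalIntegrable; fun_prop), int_cos_one, int_cos_one]
  by_cases h2 : n = m
  · subst h2
    by_cases h3 : n = 0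
    · subst h3
      simp
      ring
    · have h4 : n + n ≠ 0 := by omega
      simp [h3]
  · by_cases h3 : n = -m
    · subst h3
      have h4 : -m - m ≠ 0 := by omega
      have h5 : m ≠ 0 := by omega
      simp [h4, h5]
    · have h4 : n - m ≠ 0 := by omega
      have h5 : n + m ≠ 0 := by omega
      simp [h2, h3, h4, h5]

private lemma B05b_isin (n m : ℤ) :
    ∫ t in (-Real.pi)..Real.pi, Real.sin (n * t) * Real.cos (m * t) = 0 := by
  have h1 := intervalIntegral.integral_comp_neg (a := -Real.pi) (b := Real.pi)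
    (fun t : ℝ => Real.sin (n * t) * Real.cos (m * t))
  rw [neg_neg] at h1
  have h2 : ∀ t : ℝ, Real.sin (n * (-t)) * Real.cos (m * (-t)) =
      -(Real.sin (n * t) * Real.cos (m * t)) := by
    intro t
    rw [mul_neg, mul_neg, Real.sin_neg, Real.cos_neg]
    ring
  simp only [h2] at h1
  rw [intervalIntegral.integral_neg] at h1
  linarith

private lemma B05b_isum (n : ℤ) :
    ∑ m ∈ ({n, -n} : Finset ℤ), ∫ t in (-Real.pi)..Real.pi, Real.cos (n * t) * Real.cos (m * t) =
      2 * Real.pi := by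
  by_cases hn : n = 0
  · subst hn
    rw [neg_zero, Finset.pair_eq_singleton, Finset.sum_singleton, int_cos]
    simp
  · have h1 : n ≠ -n := by omega
    rw [Finset.sum_pair h1, int_cos, int_cos]
    rw [if_pos (Or.inl rfl), if_pos (Or.inr (by ring)), if_neg hn]
    ring

private lemma B05b_box (f g : ℝ → ℝ) :
    ∫ k in box, f k.1 * g k.2 = (∫ t in (-Real.pi)..Real.pi, f t) *
      ∫ t in (-Real.pi)..Real.pi, g t := by
  have hpi : -Real.pi ≤ Real.pi := by linarith [Real.pi_pos]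
  rw [box, intervalIntegral.integral_of_le hpi, intervalIntegral.integral_of_le hpi,
    ← integral_Icc_eq_integral_Ioc, ← integral_Icc_eq_integral_Ioc]
  exact setIntegral_prod_mul f g _ _

private lemma B05b_compact : IsCompact box := isCompact_Icc.prod isCompact_Icc

private lemma B05b_term (z x : V) :
    ∫ k in box, Real.cos (k.1 * z.1 + k.2 * z.2) *
      (Real.cos (k.1 * x.1) * Real.cos (k.2 * x.2)) =
      (∫ t in (-Real.pi)..Real.pi, Real.cos (z.1 * t) * Real.cos (x.1 * t)) *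
      ∫ t in (-Real.pi)..Real.pi, Real.cos (z.2 * t) * Real.cos (x.2 * t) := by
  have h1 : ∀ k : ℝ × ℝ, Real.cos (k.1 * z.1 + k.2 * z.2) *
      (Real.cos (k.1 * x.1) * Real.cos (k.2 * x.2)) =
      (Real.cos (z.1 * k.1) * Real.cos (x.1 * k.1)) * (Real.cos (z.2 * k.2) * Real.cos (x.2 * k.2)) -
      (Real.sin (z.1 * k.1) * Real.cos (x.1 * k.1)) *
        (Real.sin (z.2 * k.2) * Real.cos (x.2 * k.2)) := by
    intro k
    rw [Real.cos_add, mul_comm k.1 (z.1 : ℝ), mul_comm k.2 (z.2 : ℝ), mul_comm k.1 (x.1 : ℝ),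
      mul_comm k.2 (x.2 : ℝ)]
    ring
  simp only [h1]
  rw [integral_sub]
  · rw [B05b_box (fun t => Real.cos (z.1 * t) * Real.cos (x.1 * t))
      (fun t => Real.cos (z.2 * t) * Real.cos (x.2 * t)),
      B05b_box (fun t => Real.sin (z.1 * t) * Real.cos (x.1 * t))
      (fun t => Real.sin (z.2 * t) * Real.cos (x.2 * t)), B05b_isin, zero_mul, sub_zero]
  · exact ContinuousOn.integrableOn_compact B05b_compact (by fun_prop)
  · exact ContinuousOn.integrableOn_compact B05b_compact (by fun_prop)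

/-
`∫_box cos (a z₁ + b z₂) ft R a b = (2π)² R z`: expand `cos (a z₁ + b z₂) = cos cos - sin sin` (the `sin sin` term
integrates to zero against `cos (a x₁) cos (b x₂)`), exchange the sum and the integral
(`integral_tsum` or `hasSum_integral_of_summable_norm`, `∑ |R x| < ∞`, finite measure), `int_cos` for each coordinate,
and add the four (two, one) lattice points `(±z₁, ±z₂)`, on which `R` is the same.
-/
lemma int_ft {R : V → ℝ} (h : Summable R) (hs : Sym4 R) (z : V) :
    ∫ k in box, Real.cos (k.1 * z.1 + k.2 * z.2) * ft R k.1 k.2 = (2 * Real.pi) ^ 2 * R z := by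
  have hcos : ∀ t : ℝ, |Real.cos t| ≤ 1 := Real.abs_cos_le_one
  have hint : ∀ x : V, IntegrableOn (fun k : ℝ × ℝ => Real.cos (k.1 * z.1 + k.2 * z.2) *
      (R x * (Real.cos (k.1 * x.1) * Real.cos (k.2 * x.2)))) box := fun x =>
    ContinuousOn.integrableOn_compact B05b_compact (by fun_prop)
  have hbound : ∀ x : V, ∀ k : ℝ × ℝ, ‖Real.cos (k.1 * z.1 + k.2 * z.2) *
      (R x * (Real.cos (k.1 * x.1) * Real.cos (k.2 * x.2)))‖ ≤ |R x| := by
    intro x k
    rw [Real.norm_eq_abs, abs_mul, abs_mul, abs_mul]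
    have h1 := hcos (k.1 * z.1 + k.2 * z.2)
    have h2 := hcos (k.1 * x.1)
    have h3 := hcos (k.2 * x.2)
    have h4 : |Real.cos (k.1 * x.1)| * |Real.cos (k.2 * x.2)| ≤ 1 :=
      mul_le_one₀ h2 (abs_nonneg _) h3
    have h5 : |R x| * (|Real.cos (k.1 * x.1)| * |Real.cos (k.2 * x.2)|) ≤ |R x| :=
      mul_le_of_le_one_right (abs_nonneg _) h4
    have h6 : 0 ≤ |R x| * (|Real.cos (k.1 * x.1)| * |Real.cos (k.2 * x.2)|) := by positivity
    calc |Real.cos (k.1 * z.1 + k.2 * z.2)| *
        (|R x| * (|Real.cos (k.1 * x.1)| * |Real.cos (k.2 * x.2)|))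
        ≤ 1 * (|R x| * (|Real.cos (k.1 * x.1)| * |Real.cos (k.2 * x.2)|)) :=
          mul_le_mul_of_nonneg_right h1 h6
      _ ≤ |R x| := by rw [one_mul]; exact h5
  have hsum : Summable (fun x : V => ∫ k in box, ‖Real.cos (k.1 * z.1 + k.2 * z.2) *
      (R x * (Real.cos (k.1 * x.1) * Real.cos (k.2 * x.2)))‖) := by
    apply Summable.of_nonneg_of_le (fun x => integral_nonneg (fun k => norm_nonneg _)) _
      (h.abs.mul_left ((volume box).toReal))
    intro x
    calc ∫ k in box, ‖Real.cos (k.1 * z.1 + k.2 * z.2) *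
        (R x * (Real.cos (k.1 * x.1) * Real.cos (k.2 * x.2)))‖
        ≤ ∫ k in box, |R x| := by
          apply setIntegral_mono_on (hint x).norm _ B05b_compact.measurableSet
            (fun k _ => hbound x k)
          exact integrableOn_const (B05b_compact.measure_lt_top.ne)
      _ = (volume box).toReal * |R x| := by
          rw [setIntegral_const, smul_eq_mul]
          rfl
  have hex := hasSum_integral_of_summable_integral_norm (μ := volume.restrict box)
    (F := fun (x : V) (k : ℝ × ℝ) => Real.cos (k.1 * z.1 + k.2 * z.2) *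
      (R x * (Real.cos (k.1 * x.1) * Real.cos (k.2 * x.2)))) hint hsum
  have hft : ∀ k : ℝ × ℝ, ∑' x : V, Real.cos (k.1 * z.1 + k.2 * z.2) *
      (R x * (Real.cos (k.1 * x.1) * Real.cos (k.2 * x.2))) =
      Real.cos (k.1 * z.1 + k.2 * z.2) * ft R k.1 k.2 := by
    intro k
    rw [tsum_mul_left]
    rfl
  simp only [hft] at hex
  rw [← hex.tsum_eq]
  -- the terms
  have hterm : ∀ x : V, ∫ k in box, Real.cos (k.1 * z.1 + k.2 * z.2) *
      (R x * (Real.cos (k.1 * x.1) * Real.cos (k.2 * x.2))) =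
      R x * ((∫ t in (-Real.pi)..Real.pi, Real.cos (z.1 * t) * Real.cos (x.1 * t)) *
      ∫ t in (-Real.pi)..Real.pi, Real.cos (z.2 * t) * Real.cos (x.2 * t)) := by
    intro x
    rw [← B05b_term, ← integral_const_mul]
    congr 1
    ext k
    ring
  rw [tsum_congr hterm]
  have hsupp : ∀ x : V, x ∉ (({z.1, -z.1} : Finset ℤ) ×ˢ ({z.2, -z.2} : Finset ℤ)) →
      R x * ((∫ t in (-Real.pi)..Real.pi, Real.cos (z.1 * t) * Real.cos (x.1 * t)) *
      ∫ t in (-Real.pi)..Real.pi, Real.cos (z.2 * t) * Real.cos (x.2 * t)) = 0 := by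
    intro x hx
    rw [Finset.mem_product, not_and_or] at hx
    rcases hx with hx | hx
    · rw [int_cos z.1 x.1, if_neg, zero_mul, mul_zero]
      simp only [Finset.mem_insert, Finset.mem_singleton, not_or] at hx
      rintro (h1 | h1)
      · exact hx.1 h1.symm
      · exact hx.2 (by omega)
    · rw [int_cos z.2 x.2, if_neg, mul_zero, mul_zero]
      simp only [Finset.mem_insert, Finset.mem_singleton, not_or] at hx
      rintro (h1 | h1)
      · exact hx.1 h1.symm
      · exact hx.2 (by omega)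
  rw [tsum_eq_sum (fun x hx => hsupp x hx)]
  have hR : ∀ x ∈ (({z.1, -z.1} : Finset ℤ) ×ˢ ({z.2, -z.2} : Finset ℤ)), R x = R z := by
    intro x hx
    rw [Finset.mem_product] at hx
    simp only [Finset.mem_insert, Finset.mem_singleton] at hx
    obtain ⟨x1, x2⟩ := x
    obtain ⟨z1, z2⟩ := z
    simp only at hx
    rcases hx with ⟨h1 | h1, h2 | h2⟩
    · rw [h1, h2]
    · rw [h1, h2, hs.neg2]
    · rw [h1, h2, hs.neg1]
    · rw [h1, h2, hs.neg1, hs.neg2]
  rw [Finset.sum_congr rfl (fun x hx => by rw [hR x hx]), ← Finset.mul_sum, Finset.sum_product]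
  simp only [← Finset.mul_sum]
  rw [← Finset.sum_mul, B05b_isum, B05b_isum]
  ring

theorem parseval {R : V → ℝ} (h : Summable R) (hs : Sym4 R) (s : Finset V) (c : V → ℝ) :
    ∫ k in box, ch2 s c k.1 k.2 * ft R k.1 k.2 =
      (2 * Real.pi) ^ 2 * ∑ x ∈ s, ∑ y ∈ s, c x * c y * R (x.1 - y.1, x.2 - y.2) := by
  have hft := ft_continuous h
  have h1 : ∀ k : ℝ × ℝ, ch2 s c k.1 k.2 * ft R k.1 k.2 = ∑ x ∈ s, ∑ y ∈ s, c x * c y *
      (Real.cos (k.1 * ((x.1 - y.1 : ℤ) : ℝ) + k.2 * ((x.2 - y.2 : ℤ) : ℝ)) * ft R k.1 k.2) := by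
    intro k
    rw [ch2_eq, Finset.sum_mul]
    refine Finset.sum_congr rfl (fun x _ => ?_)
    rw [Finset.sum_mul]
    refine Finset.sum_congr rfl (fun y _ => ?_)
    push_cast
    ring
  simp only [h1]
  have hint : ∀ x y : V, IntegrableOn (fun k : ℝ × ℝ => c x * c y *
      (Real.cos (k.1 * ((x.1 - y.1 : ℤ) : ℝ) + k.2 * ((x.2 - y.2 : ℤ) : ℝ)) * ft R k.1 k.2)) box := by
    intro x y
    refine ContinuousOn.integrableOn_compact B05b_compact (Continuous.continuousOn ?_)
    exact continuous_const.mul ((by fun_prop : Continuous (fun k : ℝ × ℝ =>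
      Real.cos (k.1 * ((x.1 - y.1 : ℤ) : ℝ) + k.2 * ((x.2 - y.2 : ℤ) : ℝ)))).mul hft)
  rw [integral_finsetSum s (fun x _ => integrable_finsetSum s (fun y _ => hint x y)),
    Finset.mul_sum]
  refine Finset.sum_congr rfl (fun x _ => ?_)
  rw [integral_finsetSum s (fun y _ => hint x y), Finset.mul_sum]
  refine Finset.sum_congr rfl (fun y _ => ?_)
  rw [integral_const_mul]
  have h2 := int_ft h hs (x.1 - y.1, x.2 - y.2)
  simp only at h2
  rw [h2]
  ring

end RP4
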