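import Pool.Agent.Helper97.RP4.Defs

/-!
B06.  The Green function of the killed simple random walk: basics.
-/

open Finset Filter
open scoped Topology

namespace RP4

/-- average over the four neighbours -/
noncomputable def Pav (f : V → ℝ) (x : V) : ℝ :=
  (f (x.1 + 1, x.2) + f (x.1 - 1, x.2) + f (x.1, x.2 + 1) + f (x.1, x.2 - 1)) / 4

/-- transition probabilities of the simple random walk from `0` -/
noncomputable def pn : ℕ → V → ℝ
  | 0 => fun x => if x = 0 then 1 else 0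
  | n + 1 => Pav (pn n)

/-- Green function with killing, `0 < l < 1` -/
noncomputable def gr (l : ℝ) (x : V) : ℝ := ∑' n : ℕ, l ^ n * pn n x

lemma pn_nonneg (n : ℕ) (x : V) : 0 ≤ pn n x := by
  induction n generalizing x with
  | zero =>
    simp only [pn]
    split_ifs <;> norm_num
  | succ n ih =>
    simp only [pn, Pav]
    have h1 := ih (x.1 + 1, x.2)
    have h2 := ih (x.1 - 1, x.2)
    have h3 := ih (x.1, x.2 + 1)
    have h4 := ih (x.1, x.2 - 1)
    positivity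

/-- shifts of a summable family -/
lemma B06_shift {f : V → ℝ} {a : ℝ} (hf : HasSum f a) (u : V) :
    HasSum (fun x : V => f (x.1 + u.1, x.2 + u.2)) a :=
  (Equiv.hasSum_iff (Equiv.addRight u)).2 hf

lemma pn_hasSum (n : ℕ) : HasSum (pn n) 1 := by
  induction n with
  | zero => exact hasSum_ite_eq 0 1
  | succ n ih =>
    have h1 := B06_shift ih (1, 0)
    have h2 := B06_shift ih (-1, 0)
    have h3 := B06_shift ih (0, 1)
    have h4 := B06_shift ih (0, -1)
    simp only [add_zero, ← sub_eq_add_neg] at h1 h2 h3 h4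
    have h5 := (((h1.add h2).add h3).add h4).div_const 4
    norm_num at h5
    exact h5

lemma B06_nrm (x : V) : nrm x ≤ nrm (x.1 + 1, x.2) + 1 ∧ nrm x ≤ nrm (x.1 - 1, x.2) + 1 ∧
    nrm x ≤ nrm (x.1, x.2 + 1) + 1 ∧ nrm x ≤ nrm (x.1, x.2 - 1) + 1 := by
  unfold nrm
  push_cast
  refine ⟨?_, ?_, ?_, ?_⟩
  · have h1 := abs_sub_abs_le_abs_sub ((x.1 : ℝ)) (x.1 + 1)
    have h2 : |(x.1 : ℝ) - (x.1 + 1)| = 1 := by
      rw [sub_add_cancel_left, abs_neg, abs_one]
    rw [h2] at h1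
    linarith
  · have h1 := abs_sub_abs_le_abs_sub ((x.1 : ℝ)) (x.1 - 1)
    have h2 : |(x.1 : ℝ) - (x.1 - 1)| = 1 := by
      rw [sub_sub_cancel, abs_one]
    rw [h2] at h1
    linarith
  · have h1 := abs_sub_abs_le_abs_sub ((x.2 : ℝ)) (x.2 + 1)
    have h2 : |(x.2 : ℝ) - (x.2 + 1)| = 1 := by
      rw [sub_add_cancel_left, abs_neg, abs_one]
    rw [h2] at h1
    linarith
  · have h1 := abs_sub_abs_le_abs_sub ((x.2 : ℝ)) (x.2 - 1)
    have h2 : |(x.2 : ℝ) - (x.2 - 1)| = 1 := by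
      rw [sub_sub_cancel, abs_one]
    rw [h2] at h1
    linarith

lemma pn_supp (n : ℕ) (x : V) (h : (n : ℝ) < nrm x) : pn n x = 0 := by
  induction n generalizing x with
  | zero =>
    simp only [pn]
    rw [if_neg]
    rintro rfl
    simp [nrm] at h
  | succ n ih =>
    obtain ⟨h1, h2, h3, h4⟩ := B06_nrm x
    push_cast at h
    simp only [pn, Pav]
    rw [ih _ (by linarith), ih _ (by linarith), ih _ (by linarith), ih _ (by linarith)]
    norm_num

lemma pn_sym (n : ℕ) : Sym4 (pn n) := by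
  induction n with
  | zero =>
    refine ⟨fun a b => ?_, fun a b => ?_⟩
    · simp only [pn, Prod.mk_eq_zero, neg_eq_zero]
    · simp only [pn, Prod.mk_eq_zero, and_comm]
  | succ n ih =>
    refine ⟨fun a b => ?_, fun a b => ?_⟩
    · simp only [pn, Pav]
      have h1 : -a + 1 = -(a - 1) := by ring
      have h2 : -a - 1 = -(a + 1) := by ring
      rw [h1, h2, ih.neg1, ih.neg1, ih.neg1, ih.neg1]
      ring
    · simp only [pn, Pav]
      rw [ih.swap a (b + 1), ih.swap a (b - 1), ih.swap (a + 1) b, ih.swap (a - 1) b]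
      ring

lemma gr_nonneg {l : ℝ} (h0 : 0 ≤ l) (x : V) : 0 ≤ gr l x :=
  tsum_nonneg fun n => mul_nonneg (pow_nonneg h0 n) (pn_nonneg n x)

lemma B06_le_one (n : ℕ) (x : V) : pn n x ≤ 1 :=
  le_hasSum (pn_hasSum n) x fun y _ => pn_nonneg n y

lemma gr_summable {l : ℝ} (h0 : 0 ≤ l) (h1 : l < 1) (x : V) : Summable (fun n : ℕ => l ^ n * pn n x) := by
  refine Summable.of_nonneg_of_le (fun n => mul_nonneg (pow_nonneg h0 n) (pn_nonneg n x))
    (fun n => ?_) (summable_geometric_of_lt_one h0 h1)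
  exact mul_le_of_le_one_right (pow_nonneg h0 n) (B06_le_one n x)

lemma gr_sym (l : ℝ) : Sym4 (gr l) := by
  refine ⟨fun a b => ?_, fun a b => ?_⟩
  · unfold gr
    simp only [(pn_sym _).neg1]
  · unfold gr
    refine tsum_congr fun n => ?_
    rw [(pn_sym n).swap]

lemma B06_geom {l : ℝ} (h0 : 0 ≤ l) (h1 : l < 1) (m : ℕ) :
    Summable (fun n : ℕ => l ^ n * (1 + (n : ℝ)) ^ m) := by
  have h2 : Summable (fun n : ℕ => (n : ℝ) ^ m * l ^ n) :=
    summable_pow_mul_geometric_of_norm_lt_one m (by rwa [Real.norm_of_nonneg h0])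
  have h3 := ((summable_geometric_of_lt_one h0 h1).add h2).mul_left ((2 : ℝ) ^ (m - 1))
  refine Summable.of_nonneg_of_le (fun n => by positivity) (fun n => ?_) h3
  have h4 := add_pow_le (zero_le_one) (Nat.cast_nonneg n : (0 : ℝ) ≤ n) m
  rw [one_pow] at h4
  calc l ^ n * (1 + (n : ℝ)) ^ m ≤ l ^ n * (2 ^ (m - 1) * (1 + (n : ℝ) ^ m)) :=
        mul_le_mul_of_nonneg_left h4 (pow_nonneg h0 n)
    _ = 2 ^ (m - 1) * (l ^ n + (n : ℝ) ^ m * l ^ n) := by ring

/-
`∑_x g x (1 + nrm x)^m ≤ ∑_n l^n (1 + n)^m < ∞` (by `pn_supp`, `pn_hasSum`); exchange of two nonnegative sums.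
-/
lemma gr_fast {l : ℝ} (h0 : 0 ≤ l) (h1 : l < 1) : Fast (gr l) := by
  intro m
  have hn : ∀ x : V, 0 ≤ nrm x := fun x => by unfold nrm; positivity
  set F : ℕ × V → ℝ := fun q => l ^ q.1 * pn q.1 q.2 * (1 + nrm q.2) ^ m with hF
  have hF0 : 0 ≤ F := fun q => mul_nonneg (mul_nonneg (pow_nonneg h0 _) (pn_nonneg _ _))
    (pow_nonneg (by linarith [hn q.2]) _)
  have hb : ∀ n x, F (n, x) ≤ l ^ n * (1 + (n : ℝ)) ^ m * pn n x := by
    intro n x
    simp only [hF]
    rcases lt_or_ge (n : ℝ) (nrm x) with h | h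
    · rw [pn_supp n x h]
      simp
    · have h2 : (1 + nrm x) ^ m ≤ (1 + (n : ℝ)) ^ m :=
        pow_le_pow_left₀ (by linarith [hn x]) (by linarith) m
      calc l ^ n * pn n x * (1 + nrm x) ^ m ≤ l ^ n * pn n x * (1 + (n : ℝ)) ^ m :=
            mul_le_mul_of_nonneg_left h2 (mul_nonneg (pow_nonneg h0 _) (pn_nonneg _ _))
        _ = l ^ n * (1 + (n : ℝ)) ^ m * pn n x := by ring
  have hs : ∀ n : ℕ, HasSum (fun x => l ^ n * (1 + (n : ℝ)) ^ m * pn n x)
      (l ^ n * (1 + (n : ℝ)) ^ m) := by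
    intro n
    have h2 := (pn_hasSum n).mul_left (l ^ n * (1 + (n : ℝ)) ^ m)
    rwa [mul_one] at h2
  have hs1 : ∀ n : ℕ, Summable (fun x => F (n, x)) := fun n =>
    Summable.of_nonneg_of_le (fun x => hF0 (n, x)) (hb n) (hs n).summable
  have hsF : Summable F := by
    rw [summable_prod_of_nonneg hF0]
    refine ⟨hs1, Summable.of_nonneg_of_le (fun n => tsum_nonneg fun x => hF0 (n, x))
      (fun n => ?_) (B06_geom h0 h1 m)⟩
    exact (Summable.tsum_le_tsum (hb n) (hs1 n) (hs n).summable).trans (hs n).tsum_eq.le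
  have h3 := hsF.prod_symm.prod
  refine h3.congr fun x => ?_
  rw [abs_of_nonneg (gr_nonneg h0 x)]
  unfold gr
  rw [← tsum_mul_right]
  rfl

/-- `(1 - l P) g = δ_0` -/
lemma gr_eq {l : ℝ} (h0 : 0 ≤ l) (h1 : l < 1) (x : V) :
    gr l x = (if x = 0 then 1 else 0) + l * Pav (gr l) x := by
  have hs := gr_summable h0 h1
  have h2 : gr l x = l ^ 0 * pn 0 x + ∑' n : ℕ, l ^ (n + 1) * pn (n + 1) x :=
    (hs x).tsum_eq_zero_add
  rw [h2]
  congr 1
  · simp [pn]
  · unfold Pav gr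
    rw [← (hs (x.1 + 1, x.2)).tsum_add (hs (x.1 - 1, x.2)),
      ← ((hs (x.1 + 1, x.2)).add (hs (x.1 - 1, x.2))).tsum_add (hs (x.1, x.2 + 1)),
      ← (((hs (x.1 + 1, x.2)).add (hs (x.1 - 1, x.2))).add (hs (x.1, x.2 + 1))).tsum_add
        (hs (x.1, x.2 - 1)), ← tsum_div_const, ← tsum_mul_left]
    refine tsum_congr fun n => ?_
    simp only [pn, Pav]
    ring

end RP4
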