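import Pool.Agent.Helper97.RP4.B06

/-!
B07.  The Green function is reflection positive in the four directions.
-/

open Finset Filter
open scoped Topology

namespace RP4

/-- a lattice reflection: an involution commuting with `Pav`, with half plane `H` -/
structure ReflG (th : V → V) (H : V → Prop) : Prop where
  inv : ∀ x, th (th x) = x
  sub : ∀ x y, th (x - y) = th x - th y
  pav : ∀ (f : V → ℝ) (x : V), Pav (fun y => f (th y)) x = Pav f (th x)
  cover : ∀ x, H x ∨ H (th x)
  line : ∀ x, H x → H (th x) → th x = x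
  nb : ∀ x : V, ¬ H x → H (th (x.1 + 1, x.2)) ∧ H (th (x.1 - 1, x.2)) ∧ H (th (x.1, x.2 + 1)) ∧
    H (th (x.1, x.2 - 1))

lemma reflG_axis : ReflG (fun x => (-x.1, x.2)) (fun x => 0 ≤ x.1) := by
  refine ⟨?_, ?_, ?_, ?_, ?_, ?_⟩
  · intro x
    simp
  · intro x y
    refine Prod.ext ?_ ?_
    · simp only [Prod.fst_sub]
      ring
    · simp only [Prod.snd_sub]
  · intro f x
    have e1 : -(x.1 + 1) = -x.1 - 1 := by ring
    have e2 : -(x.1 - 1) = -x.1 + 1 := by ring
    simp only [Pav, e1, e2]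
    ring
  · intro x
    simp only
    omega
  · intro x h1 h2
    simp only at h1 h2
    refine Prod.ext ?_ rfl
    simp only
    omega
  · intro x hx
    simp only at hx ⊢
    refine ⟨?_, ?_, ?_, ?_⟩ <;> omega

lemma reflG_diag : ReflG (fun x => (-x.2, -x.1)) (fun x => 0 ≤ x.1 + x.2) := by
  refine ⟨?_, ?_, ?_, ?_, ?_, ?_⟩
  · intro x
    simp
  · intro x y
    refine Prod.ext ?_ ?_
    · simp only [Prod.fst_sub, Prod.snd_sub]
      ring
    · simp only [Prod.fst_sub, Prod.snd_sub]
      ring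
  · intro f x
    have e1 : -(x.1 + 1) = -x.1 - 1 := by ring
    have e2 : -(x.1 - 1) = -x.1 + 1 := by ring
    have e3 : -(x.2 + 1) = -x.2 - 1 := by ring
    have e4 : -(x.2 - 1) = -x.2 + 1 := by ring
    simp only [Pav, e1, e2, e3, e4]
    ring
  · intro x
    simp only
    omega
  · intro x h1 h2
    simp only at h1 h2
    refine Prod.ext ?_ ?_
    · simp only
      omega
    · simp only
      omega
  · intro x hx
    simp only at hx ⊢
    refine ⟨?_, ?_, ?_, ?_⟩ <;> omega

/-- shift of a summable family -/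
private lemma B07_sh {f : V → ℝ} (hf : Summable f) (a b : ℤ) :
    Summable (fun x : V => f (x.1 + a, x.2 + b)) :=
  (B06_shift hf.hasSum (a, b)).summable

private lemma B07_ts {f : V → ℝ} (hf : Summable f) (a b : ℤ) :
    ∑' x : V, f (x.1 + a, x.2 + b) = ∑' x, f x :=
  (B06_shift hf.hasSum (a, b)).tsum_eq

private lemma B07_mul {u w : V → ℝ} (hu : Summable u) {C : ℝ} (hC : ∀ x, |w x| ≤ C) :
    Summable (fun x => u x * w x) := by
  refine Summable.of_norm_bounded (g := fun x => |u x| * C) (hu.abs.mul_right C) fun x => ?_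
  rw [norm_mul, Real.norm_eq_abs, Real.norm_eq_abs]
  exact mul_le_mul_of_nonneg_left (hC x) (abs_nonneg _)

private lemma B07_one {u w : V → ℝ} (hu : Summable u) {C : ℝ} (hC : ∀ x, |w x| ≤ C) (a b : ℤ) :
    Summable (fun x : V => u (x.1 + a, x.2 + b) * w x) ∧
      Summable (fun x : V => u x * w (x.1 + -a, x.2 + -b)) ∧
      ∑' x : V, u (x.1 + a, x.2 + b) * w x = ∑' x : V, u x * w (x.1 + -a, x.2 + -b) := by
  have h1 : Summable (fun x : V => u (x.1 + a, x.2 + b) * w x) := B07_mul (B07_sh hu a b) hC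
  have h2 : Summable (fun x : V => u x * w (x.1 + -a, x.2 + -b)) :=
    B07_mul hu (w := fun x : V => w (x.1 + -a, x.2 + -b)) (fun x => hC _)
  refine ⟨h1, h2, ?_⟩
  rw [← B07_ts h2 a b]
  refine tsum_congr fun x => ?_
  simp only
  have e1 : x.1 + a + -a = x.1 := by ring
  have e2 : x.2 + b + -b = x.2 := by ring
  rw [e1, e2]

/-- summation by parts -/
lemma pav_symm {u w : V → ℝ} (hu : Summable u) (hw : ∃ C, ∀ x, |w x| ≤ C) :
    ∑' x, Pav u x * w x = ∑' x, u x * Pav w x := by
  obtain ⟨C, hC⟩ := hw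
  obtain ⟨a1, b1, c1⟩ := B07_one hu hC 1 0
  obtain ⟨a2, b2, c2⟩ := B07_one hu hC (-1) 0
  obtain ⟨a3, b3, c3⟩ := B07_one hu hC 0 1
  obtain ⟨a4, b4, c4⟩ := B07_one hu hC 0 (-1)
  have hl : ∀ x : V, Pav u x * w x = (1 / 4) * (u (x.1 + 1, x.2 + 0) * w x +
      u (x.1 + -1, x.2 + 0) * w x + u (x.1 + 0, x.2 + 1) * w x + u (x.1 + 0, x.2 + -1) * w x) := by
    intro x
    simp only [Pav, add_zero, ← sub_eq_add_neg]
    ring
  have hr : ∀ x : V, u x * Pav w x = (1 / 4) * (u x * w (x.1 + -1, x.2 + -0) +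
      u x * w (x.1 + - -1, x.2 + -0) + u x * w (x.1 + -0, x.2 + -1) +
      u x * w (x.1 + -0, x.2 + - -1)) := by
    intro x
    simp only [Pav, add_zero, neg_zero, neg_neg, ← sub_eq_add_neg]
    ring
  rw [tsum_congr hl, tsum_congr hr, tsum_mul_left, tsum_mul_left,
    ((a1.add a2).add a3).tsum_add a4, (a1.add a2).tsum_add a3, a1.tsum_add a2,
    ((b1.add b2).add b3).tsum_add b4, (b1.add b2).tsum_add b3, b1.tsum_add b2, c1, c2, c3, c4]

/-
`|∑ w P w| ≤ ∑ w²` since `w x w y ≤ (w x² + w y²)/2`.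
-/
lemma pav_le {w : V → ℝ} (hw : Summable w) {l : ℝ} (h0 : 0 ≤ l) (h1 : l < 1) :
    0 ≤ ∑' x, w x * (w x - l * Pav w x) := by
  obtain ⟨C, hC⟩ : ∃ C : ℝ, ∀ x, |w x| ≤ C := ⟨∑' x, |w x|, fun x =>
    hw.abs.le_tsum x (fun j _ => abs_nonneg _)⟩
  have hq : Summable (fun x => w x ^ 2) := by
    refine (B07_mul hw hC).congr fun x => ?_
    ring
  have hPC : ∀ x, |Pav w x| ≤ C := by
    intro x
    unfold Pav
    have e1 := abs_le.1 (hC (x.1 + 1, x.2))
    have e2 := abs_le.1 (hC (x.1 - 1, x.2))
    have e3 := abs_le.1 (hC (x.1, x.2 + 1))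
    have e4 := abs_le.1 (hC (x.1, x.2 - 1))
    rw [abs_le]
    constructor <;> linarith [e1.1, e1.2, e2.1, e2.2, e3.1, e3.2, e4.1, e4.2]
  have hPq : Summable (fun x => Pav (fun y => w y ^ 2) x) := by
    have a1 := B07_sh hq 1 0
    have a2 := B07_sh hq (-1) 0
    have a3 := B07_sh hq 0 1
    have a4 := B07_sh hq 0 (-1)
    refine ((((a1.add a2).add a3).add a4).div_const 4).congr fun x => ?_
    simp only [Pav, add_zero, ← sub_eq_add_neg]
  have hPs : ∑' x, Pav (fun y => w y ^ 2) x = ∑' x, w x ^ 2 := by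
    have h := pav_symm (u := fun y => w y ^ 2) (w := fun _ => 1) hq ⟨1, fun x => by simp⟩
    simp only [mul_one] at h
    rw [h]
    refine tsum_congr fun x => ?_
    simp only [Pav]
    ring
  have hs1 : Summable (fun x => (1 - l / 2) * w x ^ 2 - l / 2 * Pav (fun y => w y ^ 2) x) :=
    (hq.mul_left _).sub (hPq.mul_left _)
  have hs2 : Summable (fun x => w x * (w x - l * Pav w x)) := by
    have h2 : Summable (fun x => w x * Pav w x) := B07_mul hw hPC
    refine (hq.sub (h2.mul_left l)).congr fun x => ?_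
    ring
  have hle : ∑' x, ((1 - l / 2) * w x ^ 2 - l / 2 * Pav (fun y => w y ^ 2) x) ≤
      ∑' x, w x * (w x - l * Pav w x) := by
    refine hs1.tsum_le_tsum (fun x => ?_) hs2
    simp only [Pav]
    have e1 := sq_nonneg (w x - w (x.1 + 1, x.2))
    have e2 := sq_nonneg (w x - w (x.1 - 1, x.2))
    have e3 := sq_nonneg (w x - w (x.1, x.2 + 1))
    have e4 := sq_nonneg (w x - w (x.1, x.2 - 1))
    nlinarith [mul_nonneg h0 e1, mul_nonneg h0 e2, mul_nonneg h0 e3, mul_nonneg h0 e4]
  refine le_trans ?_ hle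
  rw [(hq.mul_left _).tsum_sub (hPq.mul_left _), tsum_mul_left, tsum_mul_left, hPs]
  have hp : 0 ≤ ∑' x, w x ^ 2 := tsum_nonneg fun x => sq_nonneg _
  nlinarith

/-
`u x = ∑_{y ∈ s} f y g (x - y)`; `u - l P u = f` on `s`, `0` off `s` (`gr_eq`); `u` is summable and bounded.
`∑_{x,y} f x f y g (x - th y) = ∑_x f x u (th x)` (`g (x - th y) = g (th (x - th y)) = g (th x - y)`: `hg`).
`w x := if H x then u (th x) else u x`: `w = u` on `{H (th x)}`, `w (th x) = w x`, summable, bounded.
`∑_x f x u (th x) = ∑_{x ∈ s} f x w x = ∑' (u - l P u) x w x = ∑' u x (w - l P w) x` (`pav_symm`).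
`(w - l P w) x = 0` unless `H x` and `H (th x)`: if `¬ H x` then by `nb` `w = u` at `x` and its neighbours and
`(u - l P u) x = 0` as `x ∉ s`; if `¬ H (th x)` use `(w - l P w) (th x) = (w - l P w) x` (`pav`, `w ∘ th = w`).
Where it is not `0`, `th x = x` and `u x = w x`.  So the sum is `∑' w x (w - l P w) x ≥ 0` (`pav_le`).
-/
theorem refl_rp {th : V → V} {H : V → Prop} (hr : ReflG th H) {l : ℝ} (h0 : 0 ≤ l) (h1 : l < 1)
    (hg : ∀ x, gr l (th x) = gr l x) (s : Finset V) (f : V → ℝ) (hs : ∀ x ∈ s, H x) :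
    0 ≤ ∑ x ∈ s, ∑ y ∈ s, f x * f y * gr l (x - th y) := by
  classical
  set u : V → ℝ := fun x => ∑ y ∈ s, f y * gr l (x - y) with hu_def
  have hgs : Summable (gr l) := by
    have h := gr_fast h0 h1 0
    simp only [pow_zero, mul_one] at h
    exact h.of_abs
  have hus : Summable u := by
    apply summable_sum
    intro y _
    exact (hgs.comp_injective (i := fun x : V => x - y) (sub_left_injective)).mul_left (f y)
  have hueq : ∀ x, u x - l * Pav u x = if x ∈ s then f x else 0 := by
    intro x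
    have e1 : Pav u x = ∑ y ∈ s, f y * Pav (gr l) (x - y) := by
      simp only [Pav, hu_def, ← Finset.sum_add_distrib, Finset.sum_div]
      apply Finset.sum_congr rfl
      intro y _
      have k1 : ((x.1 + 1, x.2) : V) - y = ((x - y).1 + 1, (x - y).2) := by
        ext <;> simp <;> ring
      have k2 : ((x.1 - 1, x.2) : V) - y = ((x - y).1 - 1, (x - y).2) := by
        ext <;> simp <;> ring
      have k3 : ((x.1, x.2 + 1) : V) - y = ((x - y).1, (x - y).2 + 1) := by
        ext <;> simp <;> ring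
      have k4 : ((x.1, x.2 - 1) : V) - y = ((x - y).1, (x - y).2 - 1) := by
        ext <;> simp <;> ring
      rw [k1, k2, k3, k4]
      ring
    rw [e1, Finset.mul_sum]
    simp only [hu_def]
    rw [← Finset.sum_sub_distrib]
    have e2 : ∀ y ∈ s, f y * gr l (x - y) - l * (f y * Pav (gr l) (x - y)) =
        if x = y then f y else 0 := by
      intro y _
      rw [gr_eq h0 h1 (x - y)]
      by_cases hxy : x = y
      · rw [if_pos (sub_eq_zero.2 hxy), if_pos hxy]
        ring
      · rw [if_neg (sub_ne_zero.2 hxy), if_neg hxy]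
        ring
    rw [Finset.sum_congr rfl e2, Finset.sum_ite_eq]
  have hthinj : Function.Injective th := fun x y h => by
    rw [← hr.inv x, h, hr.inv]
  have husth : Summable (fun x => u (th x)) := hus.comp_injective hthinj
  obtain ⟨C, hC⟩ : ∃ C, ∀ x, |u x| ≤ C :=
    ⟨∑' x, |u x|, fun x => hus.abs.le_tsum x (fun _ _ => abs_nonneg _)⟩
  have hC0 : 0 ≤ C := (abs_nonneg _).trans (hC 0)
  set w : V → ℝ := fun x => if H x then u (th x) else u x with hw_def
  have hwa : ∀ x, H (th x) → w x = u x := by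
    intro x hx
    by_cases hx' : H x
    · simp only [hw_def, if_pos hx', hr.line x hx' hx]
    · simp only [hw_def, if_neg hx']
  have hwn : ∀ x, ¬ H x → w x = u x := fun x hx => by
    simp only [hw_def, if_neg hx]
  have hwth : ∀ x, w (th x) = w x := by
    intro x
    by_cases hx : H x
    · by_cases hx' : H (th x)
      · rw [hr.line x hx hx']
      · rw [hwn _ hx']
        simp only [hw_def, if_pos hx]
    · have hx' := (hr.cover x).resolve_left hx
      rw [hwn x hx]
      simp only [hw_def, if_pos hx', hr.inv]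
  have hwle : ∀ x, |w x| ≤ |u x| + |u (th x)| := by
    intro x
    by_cases hx : H x
    · simp only [hw_def, if_pos hx]
      linarith [abs_nonneg (u x)]
    · simp only [hw_def, if_neg hx]
      linarith [abs_nonneg (u (th x))]
  have hws : Summable w :=
    Summable.of_norm_bounded (hus.abs.add husth.abs) (fun x => by
      rw [Real.norm_eq_abs]; exact hwle x)
  have hwC : ∀ x, |w x| ≤ C + C := fun x => (hwle x).trans (add_le_add (hC _) (hC _))
  have hshift : ∀ (v : V → ℝ), Summable v → Summable (Pav v) := by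
    intro v hv
    have k1 : Summable (fun x : V => v (x.1 + 1, x.2)) :=
      hv.comp_injective (i := fun x : V => (x.1 + 1, x.2)) (fun a b h => by
        simp only [Prod.mk.injEq] at h
        exact Prod.ext (by linarith [h.1]) h.2)
    have k2 : Summable (fun x : V => v (x.1 - 1, x.2)) :=
      hv.comp_injective (i := fun x : V => (x.1 - 1, x.2)) (fun a b h => by
        simp only [Prod.mk.injEq] at h
        exact Prod.ext (by linarith [h.1]) h.2)
    have k3 : Summable (fun x : V => v (x.1, x.2 + 1)) :=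
      hv.comp_injective (i := fun x : V => (x.1, x.2 + 1)) (fun a b h => by
        simp only [Prod.mk.injEq] at h
        exact Prod.ext h.1 (by linarith [h.2]))
    have k4 : Summable (fun x : V => v (x.1, x.2 - 1)) :=
      hv.comp_injective (i := fun x : V => (x.1, x.2 - 1)) (fun a b h => by
        simp only [Prod.mk.injEq] at h
        exact Prod.ext h.1 (by linarith [h.2]))
    exact (((k1.add k2).add k3).add k4).div_const 4
  have hmul : ∀ (v z : V → ℝ) (D : ℝ), Summable v → (∀ x, |z x| ≤ D) →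
      Summable (fun x => v x * z x) := by
    intro v z D hv hz
    refine Summable.of_norm_bounded (hv.abs.mul_right D) (fun x => ?_)
    rw [Real.norm_eq_abs, abs_mul]
    exact mul_le_mul_of_nonneg_left (hz x) (abs_nonneg _)
  have hPw : ∀ x, |Pav w x| ≤ C + C := by
    intro x
    have k1 := abs_le.1 (hwC (x.1 + 1, x.2))
    have k2 := abs_le.1 (hwC (x.1 - 1, x.2))
    have k3 := abs_le.1 (hwC (x.1, x.2 + 1))
    have k4 := abs_le.1 (hwC (x.1, x.2 - 1))
    rw [abs_le]
    unfold Pav
    constructor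
    · linarith [k1.1, k2.1, k3.1, k4.1]
    · linarith [k1.2, k2.2, k3.2, k4.2]
  -- the double sum
  have e1 : ∑ x ∈ s, ∑ y ∈ s, f x * f y * gr l (x - th y) = ∑ x ∈ s, f x * w x := by
    apply Finset.sum_congr rfl
    intro x hx
    have hw1 : w x = u (th x) := by
      simp only [hw_def, if_pos (hs x hx)]
    rw [hw1]
    simp only [hu_def]
    rw [Finset.mul_sum]
    apply Finset.sum_congr rfl
    intro y _
    have k : gr l (x - th y) = gr l (th x - y) := by
      rw [← hg (x - th y), hr.sub, hr.inv]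
    rw [k]
    ring
  have e2 : ∑ x ∈ s, f x * w x = ∑' x, (u x - l * Pav u x) * w x := by
    rw [tsum_eq_sum (s := s)]
    · apply Finset.sum_congr rfl
      intro x hx
      rw [hueq, if_pos hx]
    · intro x hx
      rw [hueq, if_neg hx, zero_mul]
  have e3 : ∑' x, (u x - l * Pav u x) * w x = ∑' x, u x * (w x - l * Pav w x) := by
    have k1 : ∑' x, (u x - l * Pav u x) * w x = ∑' x, u x * w x - l * ∑' x, Pav u x * w x := by
      rw [← tsum_mul_left, ← Summable.tsum_sub (hmul u w _ hus hwC)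
        ((hmul (Pav u) w _ (hshift u hus) hwC).mul_left l)]
      apply tsum_congr
      intro x
      ring
    have k2 : ∑' x, u x * (w x - l * Pav w x) = ∑' x, u x * w x - l * ∑' x, u x * Pav w x := by
      rw [← tsum_mul_left, ← Summable.tsum_sub (hmul u w _ hus hwC)
        ((hmul u (Pav w) _ hus hPw).mul_left l)]
      apply tsum_congr
      intro x
      ring
    rw [k1, k2, pav_symm hus ⟨_, hwC⟩]
  have hoff : ∀ z, ¬ H z → w z - l * Pav w z = 0 := by
    intro z hz
    obtain ⟨n1, n2, n3, n4⟩ := hr.nb z hz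
    have k1 : Pav w z = Pav u z := by
      unfold Pav
      rw [hwa _ n1, hwa _ n2, hwa _ n3, hwa _ n4]
    rw [k1, hwn z hz, hueq, if_neg (fun h => hz (hs z h))]
  have hPth : ∀ x, Pav w x = Pav w (th x) := by
    intro x
    rw [← hr.pav w x]
    simp only [hwth]
  have e4 : ∀ x, u x * (w x - l * Pav w x) = w x * (w x - l * Pav w x) := by
    intro x
    by_cases hx : H x
    · by_cases hx' : H (th x)
      · rw [hwa x hx']
      · have k := hoff _ hx'
        rw [hwth, ← hPth] at k
        rw [k, mul_zero, mul_zero]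
    · rw [hwn x hx]
  rw [e1, e2, e3, tsum_congr e4]
  exact pav_le hws h0 h1

theorem gr_rp {l : ℝ} (h0 : 0 ≤ l) (h1 : l < 1) : RP (gr l) := by
  refine ⟨gr_sym l, ?_, ?_⟩
  · intro s f hs
    have h := refl_rp reflG_axis h0 h1 (fun x => (gr_sym l).neg1 x.1 x.2) s f hs
    refine h.trans_eq ?_
    apply Finset.sum_congr rfl
    intro x _
    apply Finset.sum_congr rfl
    intro y _
    congr 2
    ext
    · simp
    · simp
  · intro s f hs
    have h := refl_rp reflG_diag h0 h1 (fun x => by
      rw [(gr_sym l).neg1, (gr_sym l).neg2, (gr_sym l).swap]) s f hs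
    refine h.trans_eq ?_
    apply Finset.sum_congr rfl
    intro x _
    apply Finset.sum_congr rfl
    intro y _
    congr 2
    ext
    · simp
    · simp

end RP4
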