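import Pool.Agent.Helper97.RP4.B05
import Pool.Agent.Helper97.RP4.B07

/-!
B08.  The damping functions.
-/

open Finset Filter MeasureTheory
open scoped Topology

namespace RP4

private lemma gr_sm {l : ℝ} (h0 : 0 ≤ l) (h1 : l < 1) : Summable (gr l) := by
  have h := gr_fast h0 h1 0
  simp only [pow_zero, mul_one] at h
  exact h.of_abs

private lemma cc_le (u v : ℝ) : |Real.cos u * Real.cos v| ≤ 1 := by
  rw [abs_mul]
  exact mul_le_one₀ (Real.abs_cos_le_one u) (abs_nonneg _) (Real.abs_cos_le_one v)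

private lemma pav_cc (a b : ℝ) (x : V) :
    Pav (fun x : V => Real.cos (a * x.1) * Real.cos (b * x.2)) x =
      (Real.cos a + Real.cos b) / 2 * (Real.cos (a * x.1) * Real.cos (b * x.2)) := by
  unfold Pav
  simp only [Int.cast_add, Int.cast_sub, Int.cast_one, mul_add, mul_sub, mul_one,
    Real.cos_add, Real.cos_sub]
  ring

/-
Multiply `gr_eq` by `cos (a x₁) cos (b x₂)` and sum: `∑ Pav g x cos (a x₁) cos (b x₂) = (cos a + cos b)/2 * ft g a b`
(shift the summation; the terms with `sin (a x₁)` or `sin (b x₂)` vanish by symmetry, or use `pav_symm`-like shifts and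
`Pav (cos (a ·) cos (b ·)) = (cos a + cos b)/2 cos cos`).
-/
lemma ft_gr {l : ℝ} (h0 : 0 ≤ l) (h1 : l < 1) (a b : ℝ) :
    ft (gr l) a b * (1 - l * (Real.cos a + Real.cos b) / 2) = 1 := by
  have hs := gr_sm h0 h1
  set C : V → ℝ := fun x => Real.cos (a * x.1) * Real.cos (b * x.2) with hC
  have hb : ∃ K, ∀ x, |C x| ≤ K := ⟨1, fun x => cc_le _ _⟩
  have hsC : Summable (fun x => gr l x * C x) := by
    refine Summable.of_norm_bounded (g := fun x => |gr l x|) hs.abs (fun x => ?_)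
    rw [Real.norm_eq_abs, abs_mul]
    exact mul_le_of_le_one_right (abs_nonneg _) (cc_le _ _)
  have hsum := pav_symm hs hb
  have h2 : ∑' x, gr l x * Pav C x = (Real.cos a + Real.cos b) / 2 * ft (gr l) a b := by
    unfold ft
    rw [← tsum_mul_left]
    refine tsum_congr fun x => ?_
    rw [hC, pav_cc]
    ring
  have hd : Summable (fun x : V => (if x = 0 then (1 : ℝ) else 0) * C x) := by
    refine summable_of_ne_finset_zero (s := {0}) (fun x hx => ?_)
    rw [if_neg (by simpa using hx), zero_mul]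
  have hP : Summable (fun x => l * Pav (gr l) x * C x) := by
    have : (fun x => l * Pav (gr l) x * C x) =
        fun x => gr l x * C x - (if x = 0 then (1 : ℝ) else 0) * C x := by
      funext x
      rw [show l * Pav (gr l) x = gr l x - (if x = 0 then 1 else 0) by
        linarith [gr_eq h0 h1 x]]
      ring
    rw [this]
    exact hsC.sub hd
  have h3 : ft (gr l) a b = 1 + l * ((Real.cos a + Real.cos b) / 2 * ft (gr l) a b) := by
    have e1 : ft (gr l) a b = ∑' x, ((if x = 0 then (1 : ℝ) else 0) * C x +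
        l * Pav (gr l) x * C x) := by
      unfold ft
      refine tsum_congr fun x => ?_
      rw [← add_mul, ← gr_eq h0 h1 x]
    rw [← h2, ← hsum, e1, hd.tsum_add hP]
    congr 1
    · rw [tsum_eq_single 0]
      · simp [hC]
      · intro x hx
        rw [if_neg hx, zero_mul]
    · rw [← tsum_mul_left]
      refine tsum_congr fun x => by ring
  linarith

private lemma ft_gr_eq {l : ℝ} (h0 : 0 ≤ l) (h1 : l < 1) (a b : ℝ) :
    ft (gr l) a b = 1 / (1 - l + l * en a b / 2) := by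
  have h := ft_gr h0 h1 a b
  have hen : en a b = 2 - Real.cos a - Real.cos b := rfl
  have e : 1 - l + l * en a b / 2 = 1 - l * (Real.cos a + Real.cos b) / 2 := by
    rw [hen]; ring
  rw [e]
  have hne : 1 - l * (Real.cos a + Real.cos b) / 2 ≠ 0 := by
    intro h'
    rw [h', mul_zero] at h
    exact zero_ne_one h
  rw [eq_div_iff hne, h]

private lemma en_nn (a b : ℝ) : 0 ≤ en a b := by
  unfold en
  linarith [Real.cos_le_one a, Real.cos_le_one b]

private lemma one_sub_cos_eq (t : ℝ) : 1 - Real.cos t = 2 * Real.sin (t / 2) ^ 2 := by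
  have h := Real.cos_two_mul (t / 2)
  rw [show 2 * (t / 2) = t by ring] at h
  have h2 := Real.sin_sq_add_cos_sq (t / 2)
  linarith

private lemma abs_sin_nat (n : ℕ) (t : ℝ) : |Real.sin (n * t)| ≤ n * |Real.sin t| := by
  induction n with
  | zero => simp
  | succ n ih =>
    push_cast
    rw [add_mul, one_mul, Real.sin_add]
    calc |Real.sin (n * t) * Real.cos t + Real.cos (n * t) * Real.sin t|
        ≤ |Real.sin (n * t) * Real.cos t| + |Real.cos (n * t) * Real.sin t| := abs_add_le _ _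
      _ ≤ |Real.sin (n * t)| + |Real.sin t| := by
          rw [abs_mul, abs_mul]
          exact add_le_add (mul_le_of_le_one_right (abs_nonneg _) (Real.abs_cos_le_one _))
            (mul_le_of_le_one_left (abs_nonneg _) (Real.abs_cos_le_one _))
      _ ≤ (n + 1) * |Real.sin t| := by linarith

private lemma abs_sin_int (n : ℤ) (t : ℝ) : |Real.sin (n * t)| ≤ |(n : ℝ)| * |Real.sin t| := by
  rcases Int.eq_nat_or_neg n with ⟨m, rfl | rfl⟩
  · simpa using abs_sin_nat m t
  · push_cast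
    rw [neg_mul, Real.sin_neg, abs_neg, abs_neg]
    simpa using abs_sin_nat m t

private lemma cos_int (n : ℤ) (t : ℝ) : 1 - Real.cos (t * n) ≤ (n : ℝ) ^ 2 * (1 - Real.cos t) := by
  rw [one_sub_cos_eq, one_sub_cos_eq, show t * n / 2 = n * (t / 2) by ring]
  have h := abs_sin_int n (t / 2)
  have h2 := pow_le_pow_left₀ (abs_nonneg _) h 2
  rw [sq_abs, mul_pow, sq_abs, sq_abs] at h2
  linarith

private lemma cos_add_le (u v : ℝ) :
    1 - Real.cos (u + v) ≤ 2 * (1 - Real.cos u) + 2 * (1 - Real.cos v) := by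
  have h1 := Real.cos_sq_add_sin_sq u
  have h2 := Real.cos_sq_add_sin_sq v
  rw [Real.cos_add]
  nlinarith [sq_nonneg (Real.sin u - Real.sin v), sq_nonneg (1 - Real.cos u + (1 - Real.cos v)),
    Real.cos_le_one u, Real.cos_le_one v, Real.neg_one_le_cos u, Real.neg_one_le_cos v,
    sq_nonneg (Real.cos u - Real.cos v), mul_nonneg (sub_nonneg.2 (Real.cos_le_one u))
      (sub_nonneg.2 (Real.cos_le_one v))]

private lemma box_vol : (volume : Measure (ℝ × ℝ)).real box = (2 * Real.pi) ^ 2 := by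
  unfold box
  rw [Measure.real, Measure.volume_eq_prod, Measure.prod_prod, ENNReal.toReal_mul,
    Real.volume_Icc, ENNReal.toReal_ofReal (by linarith [Real.pi_pos])]
  ring

private lemma box_lt : (volume : Measure (ℝ × ℝ)) box < ⊤ := by
  unfold box
  rw [Measure.volume_eq_prod, Measure.prod_prod, Real.volume_Icc]
  exact ENNReal.mul_lt_top ENNReal.ofReal_lt_top ENNReal.ofReal_lt_top

private lemma box_cpt : IsCompact box := by
  unfold box
  exact isCompact_Icc.prod isCompact_Icc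

/-
`int_ft` (`z = 0` and `z = x`): `g 0 - g x = (2π)⁻² ∫ (1 - cos (k x)) ft g`, and
`1 - cos (a x₁ + b x₂) ≤ 2 (1 - cos (a x₁)) + 2 (1 - cos (b x₂)) ≤ 2 x₁² (1 - cos a) + 2 x₂² (1 - cos b) ≤ 2 nrm² en`,
`en * ft g = en / (1 - l + l en / 2) ≤ 2 / l ≤ 4`.
-/
lemma gr_diff {l : ℝ} (h0 : 1 / 2 ≤ l) (h1 : l < 1) (x : V) :
    |gr l 0 - gr l x| ≤ 8 * nrm x ^ 2 := by
  have h00 : 0 ≤ l := by linarith
  have hs := gr_sm h00 h1
  have hc : Continuous (fun k : ℝ × ℝ => ft (gr l) k.1 k.2) := ft_continuous hs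
  have i0 := int_ft hs (gr_sym l) 0
  have i1 := int_ft hs (gr_sym l) x
  have hint : ∀ z : V, IntegrableOn (fun k : ℝ × ℝ => Real.cos (k.1 * z.1 + k.2 * z.2) *
      ft (gr l) k.1 k.2) box := by
    intro z
    refine ContinuousOn.integrableOn_compact box_cpt (Continuous.continuousOn ?_)
    exact (Real.continuous_cos.comp ((continuous_fst.mul continuous_const).add
      (continuous_snd.mul continuous_const))).mul hc
  have key : (2 * Real.pi) ^ 2 * (gr l 0 - gr l x) =
      ∫ k in box, (1 - Real.cos (k.1 * x.1 + k.2 * x.2)) * ft (gr l) k.1 k.2 := by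
    rw [mul_sub, ← i0, ← i1, ← integral_sub (hint 0) (hint x)]
    refine integral_congr_ae (Eventually.of_forall fun k => ?_)
    simp
    ring
  have hbd : ‖∫ k in box, (1 - Real.cos (k.1 * x.1 + k.2 * x.2)) * ft (gr l) k.1 k.2‖ ≤
      8 * nrm x ^ 2 * (volume : Measure (ℝ × ℝ)).real box := by
    refine norm_setIntegral_le_of_norm_le_const box_lt (fun k _ => ?_)
    have hen := en_nn k.1 k.2
    have hpos : 0 < 1 - l + l * en k.1 k.2 / 2 := by
      have : 0 ≤ l * en k.1 k.2 / 2 := by positivity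
      linarith
    have hA : 1 - Real.cos (k.1 * x.1 + k.2 * x.2) ≤ 2 * nrm x ^ 2 * en k.1 k.2 := by
      have e1 := cos_add_le (k.1 * x.1) (k.2 * x.2)
      have e2 := cos_int x.1 k.1
      have e3 := cos_int x.2 k.2
      have n1 : (x.1 : ℝ) ^ 2 ≤ nrm x ^ 2 := by
        unfold nrm
        rw [← sq_abs (x.1 : ℝ)]
        exact pow_le_pow_left₀ (abs_nonneg _) (by linarith [abs_nonneg (x.2 : ℝ)]) 2
      have n2 : (x.2 : ℝ) ^ 2 ≤ nrm x ^ 2 := by
        unfold nrm
        rw [← sq_abs (x.2 : ℝ)]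
        exact pow_le_pow_left₀ (abs_nonneg _) (by linarith [abs_nonneg (x.1 : ℝ)]) 2
      have c1 : 0 ≤ 1 - Real.cos k.1 := by linarith [Real.cos_le_one k.1]
      have c2 : 0 ≤ 1 - Real.cos k.2 := by linarith [Real.cos_le_one k.2]
      have f1 := mul_le_mul_of_nonneg_right n1 c1
      have f2 := mul_le_mul_of_nonneg_right n2 c2
      unfold en
      linarith
    have hB : 0 ≤ 1 - Real.cos (k.1 * x.1 + k.2 * x.2) := by
      linarith [Real.cos_le_one (k.1 * x.1 + k.2 * x.2)]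
    have hf : ft (gr l) k.1 k.2 = 1 / (1 - l + l * en k.1 k.2 / 2) := ft_gr_eq h00 h1 _ _
    rw [Real.norm_eq_abs, abs_mul, abs_of_nonneg hB, hf, abs_of_pos (by positivity),
      mul_one_div, div_le_iff₀ hpos]
    have hN : 0 ≤ nrm x ^ 2 := sq_nonneg _
    have e5 : 2 * en k.1 k.2 ≤ 8 * (1 - l + l * en k.1 k.2 / 2) := by
      nlinarith [mul_nonneg (sub_nonneg.2 h0) hen]
    calc 1 - Real.cos (k.1 * x.1 + k.2 * x.2) ≤ nrm x ^ 2 * (2 * en k.1 k.2) := by linarith
      _ ≤ nrm x ^ 2 * (8 * (1 - l + l * en k.1 k.2 / 2)) := mul_le_mul_of_nonneg_left e5 hN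
      _ = 8 * nrm x ^ 2 * (1 - l + l * en k.1 k.2 / 2) := by ring
  rw [← key, box_vol, Real.norm_eq_abs, abs_mul, abs_of_pos (by positivity)] at hbd
  have hpi : 0 < (2 * Real.pi) ^ 2 := by positivity
  rw [mul_comm] at hbd
  exact le_of_mul_le_mul_right hbd hpi

private noncomputable def B08b_q : ℕ → ℤ → ℝ
  | 0 => fun k => if k = 0 then 1 else 0
  | n + 1 => fun k => (B08b_q n (k + 1) + B08b_q n (k - 1)) / 2

private lemma B08b_pn (n : ℕ) (x : V) :
    pn n x = B08b_q n (x.1 + x.2) * B08b_q n (x.1 - x.2) := by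
  induction n generalizing x with
  | zero =>
    simp only [pn, B08b_q]
    by_cases h : x = 0
    · subst h
      simp
    · rw [if_neg h]
      by_cases h1 : x.1 + x.2 = 0
      · by_cases h2 : x.1 - x.2 = 0
        · exfalso
          apply h
          ext
          · simp only [Prod.fst_zero]
            omega
          · simp only [Prod.snd_zero]
            omega
        · rw [if_neg h2, mul_zero]
      · rw [if_neg h1, zero_mul]
  | succ n ih =>
    simp only [pn, Pav, B08b_q]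
    rw [ih, ih, ih, ih]
    have e1 : x.1 + 1 + x.2 = x.1 + x.2 + 1 := by ring
    have e2 : x.1 + 1 - x.2 = x.1 - x.2 + 1 := by ring
    have e3 : x.1 - 1 + x.2 = x.1 + x.2 - 1 := by ring
    have e4 : x.1 - 1 - x.2 = x.1 - x.2 - 1 := by ring
    have e5 : x.1 + (x.2 + 1) = x.1 + x.2 + 1 := by ring
    have e6 : x.1 - (x.2 + 1) = x.1 - x.2 - 1 := by ring
    have e7 : x.1 + (x.2 - 1) = x.1 + x.2 - 1 := by ring
    have e8 : x.1 - (x.2 - 1) = x.1 - x.2 + 1 := by ring
    simp only [e1, e2, e3, e4, e5, e6, e7, e8]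
    ring

private lemma B08b_q_lt (n : ℕ) (k : ℤ) (h : (n : ℤ) < k) : B08b_q n k = 0 := by
  induction n generalizing k with
  | zero =>
    simp only [B08b_q]
    rw [if_neg]
    rintro rfl
    simp at h
  | succ n ih =>
    simp only [B08b_q]
    push_cast at h
    rw [ih (k + 1) (by omega), ih (k - 1) (by omega)]
    norm_num

private lemma B08b_q_binom (n j : ℕ) :
    B08b_q n ((n : ℤ) - 2 * j) = (n.choose j : ℝ) / 2 ^ n := by
  induction n generalizing j with
  | zero =>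
    simp only [B08b_q]
    rcases Nat.eq_zero_or_pos j with rfl | hj
    · simp
    · rw [if_neg (by push_cast; omega), Nat.choose_eq_zero_of_lt hj]
      simp
  | succ n ih =>
    simp only [B08b_q]
    rcases j with _ | j
    · rw [B08b_q_lt n _ (by push_cast; omega)]
      have e1 : ((n + 1 : ℕ) : ℤ) - 2 * ((0 : ℕ) : ℤ) - 1 = (n : ℤ) - 2 * ((0 : ℕ) : ℤ) := by
        push_cast; ring
      rw [e1, ih 0, Nat.choose_zero_right, Nat.choose_zero_right, pow_succ]
      field_simp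
      ring
    · have e1 : ((n + 1 : ℕ) : ℤ) - 2 * ((j + 1 : ℕ) : ℤ) + 1 = (n : ℤ) - 2 * (j : ℤ) := by
        push_cast; ring
      have e2 : ((n + 1 : ℕ) : ℤ) - 2 * ((j + 1 : ℕ) : ℤ) - 1 =
          (n : ℤ) - 2 * ((j + 1 : ℕ) : ℤ) := by
        push_cast; ring
      rw [e1, e2, ih j, ih (j + 1), Nat.choose_succ_succ, pow_succ]
      push_cast
      field_simp

private lemma B08b_even (n : ℕ) : pn (2 * n) 0 = ((n.centralBinom : ℝ) / 4 ^ n) ^ 2 := by
  have h1 := B08b_q_binom (2 * n) n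
  have e1 : ((2 * n : ℕ) : ℤ) - 2 * (n : ℤ) = 0 := by push_cast; ring
  rw [e1] at h1
  rw [B08b_pn]
  simp only [Prod.fst_zero, Prod.snd_zero, add_zero, sub_zero]
  rw [h1, ← Nat.centralBinom_eq_two_mul_choose, pow_mul]
  norm_num
  ring

private lemma B08b_low (n : ℕ) (hn : 1 ≤ n) :
    1 ≤ 4 * (n : ℝ) * ((n.centralBinom : ℝ) / 4 ^ n) ^ 2 := by
  induction n, hn using Nat.le_induction with
  | base =>
    have : Nat.centralBinom 1 = 2 := by
      rw [Nat.centralBinom_eq_two_mul_choose]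
      rfl
    rw [this]
    norm_num
  | succ n hn ih =>
    have h1 := Nat.succ_mul_centralBinom_succ n
    have h2 : ((n : ℝ) + 1) * ((n + 1).centralBinom : ℝ) =
        2 * (2 * n + 1) * (n.centralBinom : ℝ) := by exact_mod_cast h1
    have hn0 : (0 : ℝ) < (n : ℝ) + 1 := by positivity
    set c : ℝ := (n.centralBinom : ℝ) / 4 ^ n with hc
    have h3 : ((n + 1).centralBinom : ℝ) / 4 ^ (n + 1) = (2 * n + 1) / (2 * (n + 1)) * c := by
      have h4 : ((n + 1).centralBinom : ℝ) = 2 * (2 * n + 1) * (n.centralBinom : ℝ) / (n + 1) := by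
        rw [eq_div_iff hn0.ne', mul_comm]
        exact h2
      rw [h4, hc, pow_succ]
      field_simp
      ring
    rw [h3]
    push_cast
    have h5 : 4 * ((n : ℝ) + 1) * ((2 * n + 1) / (2 * (n + 1)) * c) ^ 2 =
        (2 * n + 1) ^ 2 / (n + 1) * c ^ 2 := by
      field_simp
      ring
    rw [h5]
    have h6 : 4 * (n : ℝ) ≤ (2 * n + 1) ^ 2 / (n + 1) := by
      rw [le_div_iff₀ hn0]
      nlinarith
    exact ih.trans (mul_le_mul_of_nonneg_right h6 (sq_nonneg _))

/-
`g 0 = (2π)⁻² ∫_box 1 / (1 - l + l en / 2)`, `en ≤ (a² + b²)/2`.  On the square annulus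
`2^{-j} < max(|a|,|b|) ≤ 2^{1-j}` (area `12 4^{-j}`, `j = 1..J`) the integrand is `≥ 1 / (3 4^{-j})` if `1 - l ≤ 4^{-J}`:
`g 0 ≥ 4 J / (4 π²)`.  (Or: `pn (2n) 0 = ∑ (pn n x)² ≥ c / n`.)
-/
lemma gr_large (B : ℝ) : ∃ l : ℝ, 1 / 2 ≤ l ∧ l < 1 ∧ B ≤ gr l 0 := by
  obtain ⟨N, hN1, hN⟩ : ∃ N : ℕ, 1 ≤ N ∧ 8 * B ≤ ∑ i ∈ range N, (1 / ((i : ℝ) + 1)) := by
    have h1 := Real.tendsto_sum_range_one_div_nat_succ_atTop.eventually_ge_atTop (8 * B)
    obtain ⟨N, hN⟩ := (h1.and (eventually_ge_atTop 1)).exists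
    exact ⟨N, hN.2, hN.1⟩
  have hN0 : (0 : ℝ) < N := by exact_mod_cast hN1
  have hN1' : (1 : ℝ) ≤ N := by exact_mod_cast hN1
  set l : ℝ := 1 - 1 / (4 * N) with hl
  have hd : (1 : ℝ) / (4 * N) ≤ 1 / 4 := by
    rw [div_le_div_iff₀ (by positivity) (by norm_num)]
    linarith
  have hd0 : (0 : ℝ) < 1 / (4 * N) := by positivity
  have hl0 : 1 / 2 ≤ l := by rw [hl]; linarith
  have hl1 : l < 1 := by rw [hl]; linarith
  have hl00 : 0 ≤ l := by linarith
  have hpow : 1 / 2 ≤ l ^ (2 * N) := by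
    have h1 := one_add_mul_le_pow (a := -(1 / (4 * (N : ℝ)))) (by linarith) (2 * N)
    have h2 : 1 + ((2 * N : ℕ) : ℝ) * -(1 / (4 * (N : ℝ))) = 1 / 2 := by
      push_cast
      field_simp
      norm_num
    rw [h2] at h1
    have h3 : 1 + -(1 / (4 * (N : ℝ))) = l := by rw [hl]; ring
    rwa [h3] at h1
  refine ⟨l, hl0, hl1, ?_⟩
  have hs := gr_summable hl00 hl1 0
  have h1 : ∑ n ∈ (range N).image (fun i => 2 * (i + 1)), l ^ n * pn n 0 ≤ gr l 0 :=
    hs.sum_le_tsum _ (fun n _ => mul_nonneg (pow_nonneg hl00 n) (pn_nonneg n 0))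
  rw [Finset.sum_image (fun a _ b _ h => by simpa using h)] at h1
  refine le_trans ?_ h1
  have h2 : B ≤ ∑ i ∈ range N, (1 / ((i : ℝ) + 1)) / 8 := by
    rw [← Finset.sum_div]
    linarith
  refine h2.trans (Finset.sum_le_sum fun i hi => ?_)
  have hi' := Finset.mem_range.1 hi
  have h3 : 1 / 2 ≤ l ^ (2 * (i + 1)) :=
    hpow.trans (pow_le_pow_of_le_one hl00 hl1.le (by omega))
  have h4 := B08b_low (i + 1) (by omega)
  rw [← B08b_even] at h4
  push_cast at h4
  have hi0 : (0 : ℝ) < (i : ℝ) + 1 := by positivity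
  have h5 : 1 / (4 * ((i : ℝ) + 1)) ≤ pn (2 * (i + 1)) 0 := by
    rw [div_le_iff₀ (by positivity)]
    linarith
  calc (1 / ((i : ℝ) + 1)) / 8 = 1 / 2 * (1 / (4 * ((i : ℝ) + 1))) := by
        field_simp
        norm_num
    _ ≤ l ^ (2 * (i + 1)) * pn (2 * (i + 1)) 0 :=
        mul_le_mul h3 h5 (by positivity) (pow_nonneg hl00 _)

theorem exists_damp (B : ℝ) : ∃ g : V → ℝ, RP g ∧ Fast g ∧ (∀ x, 0 ≤ g x) ∧ B ≤ g 0 ∧
    ∀ x, |g 0 - g x| ≤ 8 * nrm x ^ 2 := by
  obtain ⟨l, h0, h1, h2⟩ := gr_large B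
  exact ⟨gr l, gr_rp (by linarith) h1, gr_fast (by linarith) h1, gr_nonneg (by linarith), h2,
    gr_diff h0 h1⟩

end RP4
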