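import Pool.Agent.Helper97.RP4.B03
import Pool.Agent.Helper97.RP4.B05

/-!
B09.  The Fourier transform of a fast decaying reflection positive function is in the class `RPSym`.
-/

open Finset Filter MeasureTheory
open scoped Topology

namespace RP4

variable {R : V → ℝ}

lemma ft_even (R : V → ℝ) (a b : ℝ) : ft R (-a) b = ft R a b := by
  unfold ft
  refine tsum_congr fun x => ?_
  rw [neg_mul, Real.cos_neg]

lemma ft_swap (hs : Sym4 R) (a b : ℝ) : ft R b a = ft R a b := by
  unfold ft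
  rw [← (Equiv.prodComm ℤ ℤ).tsum_eq]
  refine tsum_congr fun x => ?_
  obtain ⟨x1, x2⟩ := x
  show R (x2, x1) * (Real.cos (b * x2) * Real.cos (a * x1)) =
    R (x1, x2) * (Real.cos (a * x1) * Real.cos (b * x2))
  rw [hs.swap]
  ring

lemma ft_per (R : V → ℝ) (a b : ℝ) : ft R (a + 2 * Real.pi) b = ft R a b := by
  unfold ft
  refine tsum_congr fun x => ?_
  have h1 : (a + 2 * Real.pi) * (x.1 : ℝ) = a * x.1 + x.1 * (2 * Real.pi) := by ring
  rw [h1, Real.cos_add_int_mul_two_pi]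

/-- `csum_conc` and `ft_eq_cax`, `cax_hp`, `cax_rap` -/
lemma ft_conc_axis (h : Fast R) (hR : RP R) (a a₁ a₂ b l : ℝ) (h0 : 0 ≤ l) (h1 : l ≤ 1)
    (hc : Real.cos a = l * Real.cos a₁ + (1 - l) * Real.cos a₂) :
    ft R a b * (l * ft R a₂ b + (1 - l) * ft R a₁ b) ≤ ft R a₁ b * ft R a₂ b := by
  rw [ft_eq_cax h hR.sym, ft_eq_cax h hR.sym, ft_eq_cax h hR.sym]
  exact csum_conc (cax_hp h hR b) (cax_rap h b) a a₁ a₂ l h0 h1 hc

lemma ft_conc_diag (h : Fast R) (hR : RP R) (p q q₁ q₂ l : ℝ) (h0 : 0 ≤ l) (h1 : l ≤ 1)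
    (hc : Real.cos q = l * Real.cos q₁ + (1 - l) * Real.cos q₂) :
    ft R (p + q) (p - q) * (l * ft R (p + q₂) (p - q₂) + (1 - l) * ft R (p + q₁) (p - q₁)) ≤
      ft R (p + q₁) (p - q₁) * ft R (p + q₂) (p - q₂) := by
  rw [ft_eq_cdg h hR.sym, ft_eq_cdg h hR.sym, ft_eq_cdg h hR.sym]
  exact csum_conc (cdg_hp h hR p) (cdg_rap h p) q q₁ q₂ l h0 h1 hc

lemma ft_nonneg (h : Fast R) (hR : RP R) (a b : ℝ) : 0 ≤ ft R a b := by
  rw [ft_eq_cax h hR.sym]
  exact csum_nonneg (cax_hp h hR b) (cax_rap h b) a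

/-
If `ft R a₀ b = 0` then by `ft_conc_axis` with `a₁ = a₀`, `0 < l < 1`: `ft R a b * l * ft R a₂ b ≤ 0`; let `l → 0`, `a → a₂`
(choose `a` with `cos a = l cos a₀ + (1-l) cos a₂` near `a₂`, e.g. `a = ± arccos(..) + 2πk`; continuity): `(ft R a₂ b)² ≤ 0`.
So `ft R · b = 0`; then with `ft_swap`: `ft R = 0` everywhere, so `(2π)² R 0 = ∫_box ft R = 0` by `int_ft` with `z = 0`.
-/
lemma ft_pos (h : Fast R) (hR : RP R) (h0 : 0 < R 0) (a b : ℝ) : 0 < ft R a b := by
  have hsum := h.summable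
  have hcos : ∀ a a' b : ℝ, Real.cos a = Real.cos a' → ft R a b = ft R a' b := by
    intro a a' b hc
    unfold ft
    refine tsum_congr fun x => ?_
    have h1 : Real.cos (a * x.1) = Real.cos (a' * x.1) := by
      rcases Real.cos_eq_cos_iff.1 hc with ⟨k, hk | hk⟩
      · have h2 : a' * x.1 = a * x.1 + ((k * x.1 : ℤ) : ℝ) * (2 * Real.pi) := by
          rw [hk]
          push_cast
          ring
        rw [h2, Real.cos_add_int_mul_two_pi]
      · have h2 : a' * x.1 = -(a * x.1) + ((k * x.1 : ℤ) : ℝ) * (2 * Real.pi) := by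
          rw [hk]
          push_cast
          ring
        rw [h2, Real.cos_add_int_mul_two_pi, Real.cos_neg]
    rw [h1]
  have hkey : ∀ a₀ b a₂ : ℝ, ft R a₀ b = 0 → ft R a₂ b = 0 := by
    intro a₀ b a₂ hz
    set u : ℝ → ℝ := fun l => Real.arccos (l * Real.cos a₀ + (1 - l) * Real.cos a₂) with hu
    have hcu : Continuous u := Real.continuous_arccos.comp (by fun_prop)
    have hp : Continuous fun l : ℝ => (u l, b) := hcu.prodMk continuous_const
    have hcf : Continuous ((fun k : ℝ × ℝ => ft R k.1 k.2) ∘ fun l : ℝ => (u l, b)) :=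
      (ft_continuous hsum).comp hp
    have hcosu : ∀ l, 0 ≤ l → l ≤ 1 →
        Real.cos (u l) = l * Real.cos a₀ + (1 - l) * Real.cos a₂ := by
      intro l hl0 hl1
      have c1 := Real.neg_one_le_cos a₀
      have c2 := Real.cos_le_one a₀
      have c3 := Real.neg_one_le_cos a₂
      have c4 := Real.cos_le_one a₂
      have e : u l = Real.arccos (l * Real.cos a₀ + (1 - l) * Real.cos a₂) := rfl
      rw [e, Real.cos_arccos]
      · nlinarith
      · nlinarith
    have h1 : ∀ l, 0 < l → l ≤ 1 → ft R (u l) b * ft R a₂ b ≤ 0 := by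
      intro l hl0 hl1
      have h2 := ft_conc_axis h hR (u l) a₀ a₂ b l hl0.le hl1 (hcosu l hl0.le hl1)
      rw [hz, mul_zero, add_zero, zero_mul] at h2
      have h3 : l * (ft R (u l) b * ft R a₂ b) ≤ l * 0 := by
        rw [mul_zero]
        calc l * (ft R (u l) b * ft R a₂ b) = ft R (u l) b * (l * ft R a₂ b) := by ring
          _ ≤ 0 := h2
      exact le_of_mul_le_mul_left h3 hl0
    have h2 : Tendsto (fun n : ℕ => ft R (u (1 / ((n : ℝ) + 1))) b * ft R a₂ b) atTop
        (𝓝 (ft R (u 0) b * ft R a₂ b)) := by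
      refine Tendsto.mul_const _ ?_
      exact (hcf.tendsto 0).comp tendsto_one_div_add_atTop_nhds_zero_nat
    have h3 : ft R (u 0) b * ft R a₂ b ≤ 0 := by
      refine le_of_tendsto' h2 fun n => h1 _ (by positivity) ?_
      rw [div_le_one (by positivity)]
      have : (0 : ℝ) ≤ n := Nat.cast_nonneg n
      linarith
    have h4 : ft R (u 0) b = ft R a₂ b := by
      apply hcos
      rw [hcosu 0 le_rfl zero_le_one]
      ring
    rw [h4] at h3
    exact mul_self_eq_zero.1 (le_antisymm h3 (mul_self_nonneg (ft R a₂ b)))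
  rcases (ft_nonneg h hR a b).lt_or_eq with hlt | heq
  · exact hlt
  · exfalso
    have h1 : ∀ a₂, ft R a₂ b = 0 := fun a₂ => hkey a b a₂ heq.symm
    have h2 : ∀ a₂ b₂, ft R a₂ b₂ = 0 := by
      intro a₂ b₂
      refine hkey b b₂ a₂ ?_
      rw [ft_swap hR.sym]
      exact h1 b₂
    have h3 := int_ft hsum hR.sym 0
    simp only [h2, mul_zero, integral_zero] at h3
    have h4 : 0 < (2 * Real.pi) ^ 2 * R 0 := by positivity
    linarith

private lemma ft_rpsym_inv {x y z l : ℝ} (hx : 0 < x) (hy : 0 < y) (hz : 0 < z)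
    (h : x * (l * z + (1 - l) * y) ≤ y * z) : l / y + (1 - l) / z ≤ 1 / x := by
  rw [div_add_div _ _ hy.ne' hz.ne', div_le_div_iff₀ (by positivity) hx]
  have e : (l * z + y * (1 - l)) * x = x * (l * z + (1 - l) * y) := by ring
  rw [e, one_mul]
  exact h

theorem ft_rpsym (h : Fast R) (hR : RP R) (h0 : 0 < R 0) : RPSym (ft R) := by
  have hneg : ∀ a b, ft R a (-b) = ft R a b := by
    intro a b
    rw [ft_swap hR.sym, ft_even, ft_swap hR.sym]
  refine ⟨ft_pos h hR h0, ft_continuous h.summable, ft_per R, ft_even R,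
    fun a b => ft_swap hR.sym a b, ?_, ?_⟩
  · intro b a a' a'' r hr0 hr1 hc
    have h1 := ft_conc_axis h hR a a' a'' b (1 - r) (by linarith) (by linarith) (by
      rw [hc]
      ring)
    have h2 := ft_rpsym_inv (ft_pos h hR h0 a b) (ft_pos h hR h0 a' b) (ft_pos h hR h0 a'' b) h1
    have h3 : 1 - (1 - r) = r := by ring
    rwa [h3] at h2
  · intro b a a' a'' r hr0 hr1 hc
    have h1 := ft_conc_diag h hR b a a' a'' (1 - r) (by linarith) (by linarith) (by
      rw [hc]
      ring)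
    have h2 := ft_rpsym_inv (ft_pos h hR h0 _ _) (ft_pos h hR h0 _ _) (ft_pos h hR h0 _ _) h1
    have h3 : 1 - (1 - r) = r := by ring
    have h4 : ∀ t : ℝ, ft R (b + t) (b - t) = ft R (t + b) (t - b) := by
      intro t
      rw [add_comm b t, ← hneg, neg_sub]
    rw [h3, h4, h4, h4] at h2
    exact h2

end RP4
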