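import Pool.Agent.Helper97.RP4.B04
import Pool.Agent.Helper97.RP4.B08
import Pool.Agent.Helper97.RP4.B09

/-!
B10.  The regularised spectral densities.
-/

open Finset Filter MeasureTheory Real
open scoped Topology

namespace RP4

lemma RP.smul {R : V → ℝ} (h : RP R) {c : ℝ} (hc : 0 ≤ c) : RP (fun x => c * R x) := by
  refine ⟨⟨fun a b => ?_, fun a b => ?_⟩, fun s f hs => ?_, fun s f hs => ?_⟩
  · show c * R (-a, b) = c * R (a, b)
    rw [h.sym.neg1]
  · show c * R (b, a) = c * R (a, b)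
    rw [h.sym.swap]
  · have h1 := mul_nonneg hc (h.rp1 s f hs)
    rw [Finset.mul_sum] at h1
    refine h1.trans_eq (Finset.sum_congr rfl fun x _ => ?_)
    rw [Finset.mul_sum]
    exact Finset.sum_congr rfl fun y _ => by ring
  · have h1 := mul_nonneg hc (h.rpd s f hs)
    rw [Finset.mul_sum] at h1
    refine h1.trans_eq (Finset.sum_congr rfl fun x _ => ?_)
    rw [Finset.mul_sum]
    exact Finset.sum_congr rfl fun y _ => by ring

lemma Fast.smul {R : V → ℝ} (h : Fast R) (c : ℝ) : Fast (fun x => c * R x) := by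
  intro m
  refine ((h m).mul_left |c|).congr fun x => ?_
  rw [abs_mul]
  ring

/-
`cos (x₁k₁) cos (x₂k₂)` form of `int_ft` (the `sin sin` part integrates to zero by oddness in `k₁`), for `z = x` and `z = 0`.
-/
lemma ft_inv {R : V → ℝ} (h : Summable R) (hs : Sym4 R) (x : V) :
    (1 / (2 * π) ^ 2) * ∫ k in box, 2 * (1 - cos (x.1 * k.1) * cos (x.2 * k.2)) * ft R k.1 k.2 =
      2 * (R 0 - R x) := by
  have hcont := ft_continuous h
  have hbox : IsCompact box := isCompact_Icc.prod isCompact_Icc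
  have i0 := int_ft h hs 0
  have i1 := int_ft h hs x
  have i2 := int_ft h hs (x.1, -x.2)
  have hx : R (x.1, -x.2) = R x := hs.neg2 x.1 x.2
  rw [hx] at i2
  obtain ⟨f, hf⟩ : ∃ f : V → ℝ × ℝ → ℝ,
      ∀ z k, f z k = Real.cos (k.1 * z.1 + k.2 * z.2) * ft R k.1 k.2 := ⟨_, fun _ _ => rfl⟩
  have i2' : ∫ k in box, f (x.1, -x.2) k = (2 * Real.pi) ^ 2 * R x := by
    rw [← i2]
    exact integral_congr_ae (Eventually.of_forall fun k => hf _ k)
  simp only [← hf] at i0 i1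
  have hI : ∀ z : V, Integrable (f z) (volume.restrict box) := by
    intro z
    have h1 : f z = fun k : ℝ × ℝ => Real.cos (k.1 * z.1 + k.2 * z.2) * ft R k.1 k.2 :=
      funext (hf z)
    rw [h1]
    refine ContinuousOn.integrableOn_compact hbox (Continuous.continuousOn ?_)
    exact (by fun_prop : Continuous fun k : ℝ × ℝ => Real.cos (k.1 * z.1 + k.2 * z.2)).mul hcont
  have he : ∀ k : ℝ × ℝ, 2 * (1 - cos (x.1 * k.1) * cos (x.2 * k.2)) * ft R k.1 k.2 =
      2 * f 0 k - (f x k + f (x.1, -x.2) k) := by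
    intro k
    have h1 : k.1 * (x.1 : ℝ) + k.2 * ((-x.2 : ℤ) : ℝ) = k.1 * x.1 - k.2 * x.2 := by
      push_cast
      ring
    rw [hf, hf, hf]
    simp only [Prod.fst_zero, Prod.snd_zero, Int.cast_zero, mul_zero, add_zero, Real.cos_zero,
      one_mul]
    rw [h1, Real.cos_add, Real.cos_sub, mul_comm (x.1 : ℝ), mul_comm (x.2 : ℝ)]
    ring
  have hA : Integrable (fun k => f x k + f (x.1, -x.2) k) (volume.restrict box) :=
    (hI x).add (hI (x.1, -x.2))
  have hB : Integrable (fun k => 2 * f 0 k) (volume.restrict box) := (hI 0).const_mul 2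
  have h3 : ∫ k in box, 2 * (1 - cos (x.1 * k.1) * cos (x.2 * k.2)) * ft R k.1 k.2 =
      2 * ((2 * Real.pi) ^ 2 * R 0) - ((2 * Real.pi) ^ 2 * R x + (2 * Real.pi) ^ 2 * R x) := by
    simp only [he]
    rw [integral_sub hB hA, integral_const_mul, integral_add (hI x) (hI (x.1, -x.2)), i0, i1, i2']
  rw [h3]
  have hpi : (2 * π) ^ 2 ≠ 0 := by positivity
  field_simp
  ring

/-
`α_n = 1/(n+1)`, `g_n` from `exists_damp (n+1)^4`, `R_n x = (1 / (α_n² g_n 0)) * (r α_n x * g_n x)`, `S n = ft R_n`.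
`RP.mul`, `RP.smul`, `Fast.mul_bdd`, `Fast.smul`, `ft_rpsym`, `ft_inv`:
`2 (R_n 0 - R_n x) = 2 (1 - r α_n x)/α_n² + 2 (r α_n x) (g_n 0 - g_n x)/(α_n² g_n 0)`, the last term is at most
`16 nrm x ^2 (n+1)²/(n+1)^4 → 0`.  `x = (1,0)`: bounded, since convergent.
-/
theorem seq_exists {r : ℝ → V → ℝ} {γ : V → ℝ} (h : Data r γ) :
    ∃ S : ℕ → ℝ → ℝ → ℝ, (∀ n, RPSym (S n)) ∧
      (∃ M : ℝ, ∀ n, ∫ k in box, (1 - cos k.1) * S n k.1 k.2 ≤ M) ∧
      ∀ x : V, Tendsto (fun n => (1 / (2 * π) ^ 2) *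
        ∫ k in box, 2 * (1 - cos (x.1 * k.1) * cos (x.2 * k.2)) * S n k.1 k.2) atTop (𝓝 (γ x)) := by
  choose g gRP gF gnn gB gd using fun n : ℕ => exists_damp (((n : ℝ) + 1) ^ 4)
  set al : ℕ → ℝ := fun n => 1 / ((n : ℝ) + 1) with hal
  have hnp : ∀ n : ℕ, (0 : ℝ) < (n : ℝ) + 1 := fun n => by positivity
  have alp : ∀ n, 0 < al n := fun n => by rw [hal]; exact one_div_pos.2 (hnp n)
  have g0 : ∀ n, 0 < g n 0 := fun n => lt_of_lt_of_le (by have := hnp n; positivity) (gB n)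
  set c : ℕ → ℝ := fun n => 1 / (al n ^ 2 * g n 0) with hc
  have cp : ∀ n, 0 < c n := fun n => by
    rw [hc]
    have h1 := alp n
    have h2 := g0 n
    positivity
  set R : ℕ → V → ℝ := fun n x => c n * (r (al n) x * g n x) with hR
  have rRP : ∀ n, RP (r (al n)) := fun n => ⟨h.sym _ (alp n), h.rp1 _ (alp n), h.rpd _ (alp n)⟩
  have RRP : ∀ n, RP (R n) := fun n => ((rRP n).mul (gRP n)).smul (cp n).le
  have RF : ∀ n, Fast (R n) := fun n => (Fast.mul_bdd (h.abs_le _ (alp n)) (gF n)).smul (c n)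
  have Rs : ∀ n, Summable (R n) := fun n => by
    have h1 := RF n 0
    simp only [pow_zero, mul_one] at h1
    exact h1.of_abs
  have R0 : ∀ n, R n 0 = c n * g n 0 := fun n => by
    show c n * (r (al n) 0 * g n 0) = _
    rw [h.one _ (alp n), one_mul]
  have R0p : ∀ n, 0 < R n 0 := fun n => by
    rw [R0]
    exact mul_pos (cp n) (g0 n)
  have cg : ∀ n, c n * g n 0 = 1 / al n ^ 2 := fun n => by
    have h1 := (alp n).ne'
    have h2 := (g0 n).ne'
    show 1 / (al n ^ 2 * g n 0) * g n 0 = _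
    field_simp
  have key : ∀ x : V, ∀ n, 2 * (R n 0 - R n x) =
      2 * (1 - r (al n) x) / al n ^ 2 + 2 * c n * (r (al n) x * (g n 0 - g n x)) := by
    intro x n
    have h1 : 2 * (1 - r (al n) x) / al n ^ 2 = 2 * (1 - r (al n) x) * (c n * g n 0) := by
      rw [cg]
      ring
    rw [h1, R0]
    show 2 * (c n * g n 0 - c n * (r (al n) x * g n x)) = _
    ring
  have alt : Tendsto al atTop (𝓝[>] 0) := by
    rw [tendsto_nhdsWithin_iff]
    exact ⟨tendsto_one_div_add_atTop_nhds_zero_nat, Eventually.of_forall fun n => alp n⟩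
  have small : ∀ x : V, Tendsto (fun n => 2 * c n * (r (al n) x * (g n 0 - g n x))) atTop
      (𝓝 0) := by
    intro x
    have h1 : Tendsto (fun n : ℕ => 16 * nrm x ^ 2 * al n) atTop (𝓝 0) := by
      have h2 := (tendsto_nhdsWithin_iff.1 alt).1.const_mul (16 * nrm x ^ 2)
      simpa using h2
    refine squeeze_zero_norm (fun n => ?_) h1
    have h3 := h.abs_le _ (alp n) x
    have h4 := gd n x
    have h5 : |r (al n) x * (g n 0 - g n x)| ≤ 8 * nrm x ^ 2 := by
      rw [abs_mul]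
      calc |r (al n) x| * |g n 0 - g n x| ≤ 1 * (8 * nrm x ^ 2) :=
            mul_le_mul h3 h4 (abs_nonneg _) zero_le_one
        _ = _ := one_mul _
    have h6 : c n ≤ al n := by
      have e1 : c n = ((n : ℝ) + 1) ^ 2 / g n 0 := by
        have h7 := (hnp n).ne'
        have h8 := (g0 n).ne'
        show 1 / ((1 / ((n : ℝ) + 1)) ^ 2 * g n 0) = _
        field_simp
      rw [e1, div_le_iff₀ (g0 n)]
      show ((n : ℝ) + 1) ^ 2 ≤ 1 / ((n : ℝ) + 1) * g n 0
      rw [one_div, ← div_eq_inv_mul, le_div_iff₀ (hnp n)]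
      have h9 : (1 : ℝ) ≤ (n : ℝ) + 1 := by linarith [Nat.cast_nonneg (α := ℝ) n]
      calc ((n : ℝ) + 1) ^ 2 * ((n : ℝ) + 1) = ((n : ℝ) + 1) ^ 3 := by ring
        _ ≤ ((n : ℝ) + 1) ^ 4 := pow_le_pow_right₀ h9 (by norm_num)
        _ ≤ g n 0 := gB n
    rw [Real.norm_eq_abs, abs_mul, abs_of_pos (mul_pos two_pos (cp n))]
    have h10 : 0 ≤ nrm x ^ 2 := sq_nonneg _
    calc 2 * c n * |r (al n) x * (g n 0 - g n x)| ≤ 2 * al n * (8 * nrm x ^ 2) :=
          mul_le_mul (by linarith) h5 (abs_nonneg _) (by linarith [alp n])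
      _ = _ := by ring
  have lim : ∀ x : V, Tendsto (fun n => (1 / (2 * π) ^ 2) *
        ∫ k in box, 2 * (1 - cos (x.1 * k.1) * cos (x.2 * k.2)) * ft (R n) k.1 k.2) atTop
        (𝓝 (γ x)) := by
    intro x
    have h1 : (fun n => (1 / (2 * π) ^ 2) *
        ∫ k in box, 2 * (1 - cos (x.1 * k.1) * cos (x.2 * k.2)) * ft (R n) k.1 k.2) =
        fun n => 2 * (1 - r (al n) x) / al n ^ 2 +
          2 * c n * (r (al n) x * (g n 0 - g n x)) := by
      funext n
      rw [ft_inv (Rs n) (RRP n).sym x, key]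
    rw [h1]
    have h2 := ((h.lim x).comp alt).add (small x)
    rw [add_zero] at h2
    exact h2
  refine ⟨fun n => ft (R n), fun n => ft_rpsym (RF n) (RRP n) (R0p n), ?_, lim⟩
  obtain ⟨M, hM⟩ := (lim (1, 0)).bddAbove_range
  refine ⟨(2 * π) ^ 2 / 2 * M, fun n => ?_⟩
  have h1 := hM ⟨n, rfl⟩
  have h2 : ∫ k in box, 2 * (1 - cos (((1, 0) : V).1 * k.1) * cos (((1, 0) : V).2 * k.2)) *
      ft (R n) k.1 k.2 = 2 * ∫ k in box, (1 - cos k.1) * ft (R n) k.1 k.2 := by
    rw [← integral_const_mul]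
    refine integral_congr_ae (Eventually.of_forall fun k => ?_)
    simp [mul_assoc]
  simp only [h2] at h1
  have hpi : 0 < (2 * π) ^ 2 := by positivity
  rw [one_div, ← div_eq_inv_mul, div_le_iff₀ hpi] at h1
  linarith

end RP4
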